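import Pool.Agent.Lib.MP_14e06f_lc.Spider.Turn

set_option autoImplicit false

/-!
# Motions preserve the cyclic orders

On a path in the configuration space the bars at a vertex never have the same direction (two bars
at a vertex meet only in it), so the two sides of `turn .. < turn ..` are continuous and never
equal.
-/

namespace LockTree

open Real LockPl

/-- the members of the list of the neighbours -/
private theorem mem_nbrs {c : LinkCode} {v x : ℕ} (h : x ∈ nbrs c v) :
    ∃ b ∈ c, s(b.1.1, b.1.2) = s(v, x) := by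
  unfold nbrs at h
  rw [List.mem_filterMap] at h
  obtain ⟨b, hb, h⟩ := h
  refine ⟨b, hb, ?_⟩
  split_ifs at h with h1 h2
  · rw [Option.some.injEq] at h
    rw [h1, h]
  · rw [Option.some.injEq] at h
    rw [h2, h, Sym2.eq_swap]

/-- the neighbours are listed once -/
private theorem nodup_nbrs {c : LinkCode} (hc : (c.map (fun b => s(b.1.1, b.1.2))).Nodup) (v : ℕ) :
    (nbrs c v).Nodup := by
  induction c with
  | nil => exact List.nodup_nil
  | cons b c ih =>
    rw [List.map_cons, List.nodup_cons] at hc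
    have ih' := ih hc.2
    have key : ∀ x, s(b.1.1, b.1.2) = s(v, x) → x ∉ nbrs c v := by
      intro x hx hmem
      obtain ⟨b', hb', h'⟩ := mem_nbrs hmem
      apply hc.1
      rw [hx, ← h']
      exact List.mem_map_of_mem (f := fun b : (ℕ × ℕ) × (ℕ × ℕ) => s(b.1.1, b.1.2)) hb'
    unfold nbrs
    rw [List.filterMap_cons]
    by_cases h1 : b.1.1 = v
    · rw [if_pos h1]
      refine List.nodup_cons.2 ⟨key _ ?_, ih'⟩
      rw [h1]
    · rw [if_neg h1]
      by_cases h2 : b.1.2 = v
      · rw [if_pos h2]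
        refine List.nodup_cons.2 ⟨key _ ?_, ih'⟩
        rw [h2, Sym2.eq_swap]
      · rw [if_neg h2]
        exact ih'

/-- a listed neighbour is adjacent -/
private theorem adj_of_mem {c : LinkCode} (hc : c.Valid) {v x : c.Vert} (h : x.1 ∈ nbrs c v.1) :
    c.graph.Adj v x := by
  obtain ⟨b, hb, h1⟩ := mem_nbrs h
  have hne : v ≠ x := by
    intro h2
    have h3 := (hc.1 b hb).1
    rw [h2] at h1
    rw [Sym2.eq_iff] at h1
    rcases h1 with h1 | h1
    · exact h3 (h1.1.trans h1.2.symm)
    · exact h3 (h1.1.trans h1.2.symm)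
  exact (SimpleGraph.fromRel_adj _ _ _).2 ⟨hne, Or.inl ⟨b, hb, h1⟩⟩

/-- a bar has a positive length -/
private theorem ne_of_adj {c : LinkCode} (hc : c.Valid) {p : c.Vert → ℂ}
    (hp : (c.linkage hc).IsConfig p) {v a : c.Vert} (ha : c.graph.Adj v a) : p a - p v ≠ 0 := by
  intro h
  have h1 := hp.1 v a ha
  have h2 := c.length_pos hc v a ha
  have h3 : p v = p a := (sub_eq_zero.1 h).symm
  rw [h3, dist_self] at h1
  have h4 : (0 : ℝ) < ((c.length v.1 a.1 : ℚ) : ℝ) := by exact_mod_cast h2
  have h5 : (0 : ℝ) = ((c.length v.1 a.1 : ℚ) : ℝ) := h1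
  exact absurd h5 h4.ne

/-- one half of `not_same` -/
private theorem not_same_le {c : LinkCode} (hc : c.Valid) {p : c.Vert → ℂ}
    (hp : (c.linkage hc).IsConfig p) {v a b : c.Vert} (ha : c.graph.Adj v a)
    (hb : c.graph.Adj v b) (hab : a ≠ b) {r : ℝ} (hr : 0 < r) (hr1 : r ≤ 1)
    (h : p b - p v = r * (p a - p v)) : False := by
  have hb0 := ne_of_adj hc hp hb
  have hne : s(v, a) ≠ s(v, b) := by
    intro h1
    rw [Sym2.eq_iff] at h1
    rcases h1 with h1 | h1
    · exact hab h1.2
    · exact ha.ne h1.2.symm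
  have h1 : p b ∈ segment ℝ (p v) (p a) := by
    refine ⟨1 - r, r, by linarith, hr.le, by ring, ?_⟩
    have h2 : p b = p v + r * (p a - p v) := by rw [← h]; ring
    rw [h2, Complex.real_smul, Complex.real_smul]
    push_cast
    ring
  obtain ⟨w, hw1, hw2, hw⟩ := hp.2 v a v b ha hb hne (p b) h1 (right_mem_segment ℝ _ _)
  have hwv : w = v := by
    rcases hw1 with h2 | h2
    · exact h2
    · rcases hw2 with h3 | h3
      · exact h3
      · exact absurd (h2.symm.trans h3) hab
  rw [hwv] at hw
  exact hb0 (sub_eq_zero.2 hw)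

/-- different bars at a vertex have different directions -/
private theorem not_same {c : LinkCode} (hc : c.Valid) {p : c.Vert → ℂ}
    (hp : (c.linkage hc).IsConfig p) {v a b : c.Vert} (ha : c.graph.Adj v a)
    (hb : c.graph.Adj v b) (hab : a ≠ b) {r : ℝ} (hr : 0 < r)
    (h : p b - p v = r * (p a - p v)) : False := by
  rcases le_total r 1 with h1 | h1
  · exact not_same_le hc hp ha hb hab hr h1 h
  · refine not_same_le hc hp hb ha hab.symm (inv_pos.2 hr) (inv_le_one_of_one_le₀ h1) ?_
    rw [h]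
    have hr' : (r : ℂ) ≠ 0 := by exact_mod_cast hr.ne'
    push_cast
    rw [← mul_assoc, inv_mul_cancel₀ hr', one_mul]

/-- the three turns are never equal -/
private theorem turn_ne {c : LinkCode} (hc : c.Valid) {p : c.Vert → ℂ}
    (hp : (c.linkage hc).IsConfig p) {v a b d : c.Vert} (ha : c.graph.Adj v a)
    (hb : c.graph.Adj v b) (hd : c.graph.Adj v d) (hbd : b ≠ d) :
    turn (p a - p v) (p b - p v) ≠ turn (p a - p v) (p d - p v) := by
  intro h
  have ha0 := ne_of_adj hc hp ha
  have hb0 := ne_of_adj hc hp hb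
  have hd0 := ne_of_adj hc hp hd
  have h1 := turn_spec ha0 hb0
  have h2 := turn_spec ha0 hd0
  rw [h] at h1
  have hbn : 0 < ‖p b - p v‖ := norm_pos_iff.2 hb0
  have hdn : 0 < ‖p d - p v‖ := norm_pos_iff.2 hd0
  refine not_same hc hp hb hd hbd (div_pos hdn hbn) ?_
  have hbn' : (‖p b - p v‖ : ℂ) ≠ 0 := by exact_mod_cast hbn.ne'
  set E := Complex.exp (turn (p a - p v) (p d - p v) * Complex.I) * ((p a - p v) / ‖p a - p v‖)
    with hE
  have h3 : (((‖p d - p v‖ / ‖p b - p v‖ : ℝ) : ℂ)) * (p b - p v) = ‖p d - p v‖ * E := by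
    have h4 : (((‖p d - p v‖ / ‖p b - p v‖ : ℝ) : ℂ)) * (‖p b - p v‖ * E) = ‖p d - p v‖ * E := by
      push_cast
      field_simp
    rw [← h1] at h4
    exact h4
  rw [h3]
  exact h2

/-- the turns are continuous along a path -/
private theorem turn_cont {c : LinkCode} (hc : c.Valid) {p q : c.Vert → ℂ} (γ : Path p q)
    (hγ : ∀ t, (c.linkage hc).IsConfig (γ t)) {v a b : c.Vert} (ha : c.graph.Adj v a)
    (hb : c.graph.Adj v b) (hab : a ≠ b) :
    Continuous (fun t => turn (γ t a - γ t v) (γ t b - γ t v)) := by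
  have h1 : ∀ x : c.Vert, Continuous (fun t => γ t x) := fun x =>
    (continuous_apply x).comp γ.continuous
  have h2 : Continuous (fun t => (γ t a - γ t v, γ t b - γ t v)) :=
    ((h1 a).sub (h1 v)).prodMk ((h1 b).sub (h1 v))
  refine continuousOn_turn.comp_continuous h2 ?_
  intro t
  have ha0 := ne_of_adj hc (hγ t) ha
  have hb0 := ne_of_adj hc (hγ t) hb
  refine ⟨ha0, hb0, ?_⟩
  intro h3
  obtain ⟨r, hr, h4⟩ := (turn_eq_iff ha0 hb0).1 h3
  exact not_same hc (hγ t) ha hb hab hr h4

/-- the cyclic orders along a path -/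
private theorem rot_path {c : LinkCode} (hc : c.Valid) {p q : c.Vert → ℂ} (γ : Path p q)
    (hγ : ∀ t, (c.linkage hc).IsConfig (γ t)) (hp : CycOrder c p) (t : unitInterval) :
    CycOrder c (γ t) := by
  intro v a b d hs
  have hnd := (nodup_nbrs hc.2 v.1).sublist hs
  have hma : a.1 ∈ nbrs c v.1 := hs.subset (by simp)
  have hmb : b.1 ∈ nbrs c v.1 := hs.subset (by simp)
  have hmd : d.1 ∈ nbrs c v.1 := hs.subset (by simp)
  have ha := adj_of_mem hc hma
  have hb := adj_of_mem hc hmb
  have hd := adj_of_mem hc hmd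
  have hab : a ≠ b := by
    intro h
    rw [h] at hnd
    simp at hnd
  have had : a ≠ d := by
    intro h
    rw [h] at hnd
    simp at hnd
  have hbd : b ≠ d := by
    intro h
    rw [h] at hnd
    simp at hnd
  have c1 := turn_cont hc γ hγ ha hb hab
  have c2 := turn_cont hc γ hγ ha hd had
  have hop : IsOpen {t : unitInterval | turn (γ t a - γ t v) (γ t b - γ t v) <
      turn (γ t a - γ t v) (γ t d - γ t v)} := isOpen_lt c1 c2
  have hcl : IsClosed {t : unitInterval | turn (γ t a - γ t v) (γ t b - γ t v) <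
      turn (γ t a - γ t v) (γ t d - γ t v)} := by
    have h1 : {t : unitInterval | turn (γ t a - γ t v) (γ t b - γ t v) <
        turn (γ t a - γ t v) (γ t d - γ t v)} =
        {t : unitInterval | turn (γ t a - γ t v) (γ t b - γ t v) ≤
        turn (γ t a - γ t v) (γ t d - γ t v)} := by
      ext t
      constructor
      · intro h
        have h' : turn (γ t a - γ t v) (γ t b - γ t v) < turn (γ t a - γ t v) (γ t d - γ t v) := h
        exact h'.le
      · intro h
        have h' : turn (γ t a - γ t v) (γ t b - γ t v) ≤ turn (γ t a - γ t v) (γ t d - γ t v) := h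
        exact lt_of_le_of_ne h' (turn_ne hc (hγ t) ha hb hd hbd)
    rw [h1]
    exact isClosed_le c1 c2
  have hne : ({t : unitInterval | turn (γ t a - γ t v) (γ t b - γ t v) <
      turn (γ t a - γ t v) (γ t d - γ t v)}).Nonempty := by
    refine ⟨0, ?_⟩
    show turn (γ 0 a - γ 0 v) (γ 0 b - γ 0 v) < turn (γ 0 a - γ 0 v) (γ 0 d - γ 0 v)
    rw [γ.source]
    exact hp v a b d hs
  have huniv := IsClopen.eq_univ ⟨hcl, hop⟩ hne
  have : t ∈ {t : unitInterval | turn (γ t a - γ t v) (γ t b - γ t v) <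
      turn (γ t a - γ t v) (γ t d - γ t v)} := by rw [huniv]; exact Set.mem_univ _
  exact this

theorem rot {c : LinkCode} (hc : c.Valid) {p q : c.Vert → ℂ}
    (h : JoinedIn (c.linkage hc).configSpace p q) (hp : CycOrder c p) : CycOrder c q := by
  obtain ⟨γ, hγ⟩ := h
  have h1 : CycOrder c (γ 1) := rot_path hc γ hγ hp 1
  have h2 : γ 1 = q := γ.target
  exact h2 ▸ h1

/-- hence motions stay in the set of configurations with the given cyclic orders -/
theorem rot_joined {c : LinkCode} (hc : c.Valid) {p q : c.Vert → ℂ}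
    (h : JoinedIn (c.linkage hc).configSpace p q) (hp : CycOrder c p) :
    JoinedIn {r | (c.linkage hc).IsConfig r ∧ CycOrder c r} p q := by
  obtain ⟨γ, hγ⟩ := h
  exact ⟨γ, fun t => ⟨hγ t, rot_path hc γ hγ hp t⟩⟩

end LockTree
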