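import Pool.Agent.Lib.MP_14e06f_lc.Spider.Geo
import Pool.Agent.Lib.MP_14e06f_lc.Spider.Rot

set_option autoImplicit false

/-!
# From lists of bars to spiders
-/

namespace LockTree

open Real LockPl

/-- the number of a vertex -/
private def vN {N : ℕ} : SV N → ℕ
  | none => 0
  | some e => num e

private theorem num_inj {N : ℕ} {e f : Fin N × Fin 4} (h : num e = num f) : e = f := by
  obtain ⟨i, k⟩ := e
  obtain ⟨j, l⟩ := f
  simp only [num] at h
  have hk := k.isLt
  have hl := l.isLt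
  have h1 : i.1 = j.1 := by omega
  have h2 : k.1 = l.1 := by omega
  exact Prod.ext (Fin.ext h1) (Fin.ext h2)

private theorem num_pos {N : ℕ} (e : Fin N × Fin 4) : 0 < num e := by
  simp only [num]
  omega

private theorem vN_inj {N : ℕ} : Function.Injective (vN : SV N → ℕ) := by
  intro v w h
  rcases v with _ | e <;> rcases w with _ | f
  · rfl
  · exact absurd h (num_pos f).ne
  · exact absurd h.symm (num_pos e).ne
  · exact congrArg some (num_inj h)

private theorem vN_st_lt {N : ℕ} (e : Fin N × Fin 4) : vN (st e) < num e := by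
  obtain ⟨i, k⟩ := e
  fin_cases k
  · exact num_pos _
  · exact num_pos _
  · show 4 * i.1 + 1 + 1 < 4 * i.1 + 2 + 1
    omega
  · show 4 * i.1 + 2 + 1 < 4 * i.1 + 3 + 1
    omega

/-- the length of a bar -/
private def bN (A : ℕ) (Ls : List LegN) : Fin Ls.length × Fin 4 → ℕ
  | (_, 0) => A
  | (i, 1) => (Ls.get i).1
  | (i, 2) => (Ls.get i).2.1
  | (i, 3) => (Ls.get i).2.2

/-- the bar number `e` -/
private def bar (A : ℕ) (Ls : List LegN) (e : Fin Ls.length × Fin 4) : (ℕ × ℕ) × (ℕ × ℕ) :=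
  ((vN (st e), num e), (bN A Ls e, 1))

private theorem mem_code {A : ℕ} {Ls : List LegN} {b : (ℕ × ℕ) × (ℕ × ℕ)} :
    b ∈ spCode A Ls ↔ ∃ e, b = bar A Ls e := by
  constructor
  · intro h
    obtain ⟨i, hi, h⟩ := List.mem_flatMap.1 h
    have hi := List.mem_range.1 hi
    rw [List.getD_eq_getElem _ _ hi] at h
    simp only [legBars, List.mem_cons, List.not_mem_nil, or_false] at h
    rcases h with h | h | h | h
    · exact ⟨(⟨i, hi⟩, 0), h⟩
    · exact ⟨(⟨i, hi⟩, 1), h⟩
    · exact ⟨(⟨i, hi⟩, 2), h⟩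
    · exact ⟨(⟨i, hi⟩, 3), h⟩
  · rintro ⟨⟨i, k⟩, rfl⟩
    refine List.mem_flatMap.2 ⟨i.1, List.mem_range.2 i.2, ?_⟩
    rw [List.getD_eq_getElem _ _ i.2]
    simp only [legBars, List.mem_cons, List.not_mem_nil, or_false]
    fin_cases k
    · exact Or.inl rfl
    · exact Or.inr (Or.inl rfl)
    · exact Or.inr (Or.inr (Or.inl rfl))
    · exact Or.inr (Or.inr (Or.inr rfl))

private theorem pw_code (A : ℕ) (Ls : List LegN) :
    (spCode A Ls).Pairwise (fun b b' => b.1.2 < b'.1.2) := by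
  unfold spCode
  rw [List.pairwise_flatMap]
  constructor
  · intro i _
    simp only [legBars, List.pairwise_cons, List.mem_cons, List.not_mem_nil, or_false,
      forall_eq_or_imp, forall_eq, List.Pairwise.nil, and_true, IsEmpty.forall_iff, implies_true]
    omega
  · refine List.pairwise_lt_range.imp ?_
    intro i j hij b hb b' hb'
    simp only [legBars, List.mem_cons, List.not_mem_nil, or_false] at hb hb'
    rcases hb with rfl | rfl | rfl | rfl <;> rcases hb' with rfl | rfl | rfl | rfl <;>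
      simp only <;> omega

private theorem bar_lt {A : ℕ} {Ls : List LegN} {b : (ℕ × ℕ) × (ℕ × ℕ)} (h : b ∈ spCode A Ls) :
    b.1.1 < b.1.2 := by
  obtain ⟨e, rfl⟩ := mem_code.1 h
  exact vN_st_lt e

private theorem bN_pos {A : ℕ} {Ls : List LegN} (h : SpData A Ls) (e : Fin Ls.length × Fin 4) :
    0 < bN A Ls e := by
  obtain ⟨i, k⟩ := e
  obtain ⟨h1, h2⟩ := h.2 _ (Ls.get_mem i)
  obtain ⟨h3, h4, h5, -, -⟩ := h1
  fin_cases k
  · show 0 < A
    omega
  · exact h3
  · exact h4
  · exact h4.trans h5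

theorem spCode_valid {A : ℕ} {Ls : List LegN} (h : SpData A Ls) : (spCode A Ls).Valid := by
  constructor
  · intro b hb
    refine ⟨(bar_lt hb).ne, ?_⟩
    obtain ⟨e, rfl⟩ := mem_code.1 hb
    exact ⟨bN_pos h e, Nat.one_pos⟩
  · rw [List.Nodup, List.pairwise_map]
    refine (pw_code A Ls).imp_of_mem ?_
    intro b b' hb hb' hlt heq
    have h1 := bar_lt hb
    have h2 := bar_lt hb'
    rcases Sym2.eq_iff.1 heq with ⟨h3, h4⟩ | ⟨h3, h4⟩ <;> omega

/-- the vertex of the linkage -/
private def vx {A : ℕ} {Ls : List LegN} (h : SpData A Ls) (v : SV Ls.length) :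
    (spCode A Ls).Vert :=
  ⟨vN v, by
    rcases v with _ | e
    · have hN : 0 < Ls.length := List.length_pos_iff.2 h.1
      exact ⟨bar A Ls (⟨0, hN⟩, 0), mem_code.2 ⟨_, rfl⟩, Or.inl rfl⟩
    · exact ⟨bar A Ls e, mem_code.2 ⟨e, rfl⟩, Or.inr rfl⟩⟩

private theorem vx_inj {A : ℕ} {Ls : List LegN} (h : SpData A Ls) :
    Function.Injective (vx h) := fun _ _ hh => vN_inj (congrArg Subtype.val hh)

private theorem vx_surj {A : ℕ} {Ls : List LegN} (h : SpData A Ls) :
    Function.Surjective (vx h) := by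
  rintro ⟨n, b, hb, hn⟩
  obtain ⟨e, rfl⟩ := mem_code.1 hb
  rcases hn with rfl | rfl
  · exact ⟨st e, rfl⟩
  · exact ⟨some e, rfl⟩

private theorem rel_iff {A : ℕ} {Ls : List LegN} (h : SpData A Ls) {v w : SV Ls.length} :
    (∃ b ∈ spCode A Ls, s(b.1.1, b.1.2) = s((vx h v).1, (vx h w).1)) ↔
      ∃ e, (v = st e ∧ w = some e) ∨ (v = some e ∧ w = st e) := by
  constructor
  · rintro ⟨b, hb, hs⟩
    obtain ⟨e, rfl⟩ := mem_code.1 hb
    refine ⟨e, ?_⟩
    rcases Sym2.eq_iff.1 hs with ⟨h1, h2⟩ | ⟨h1, h2⟩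
    · exact Or.inl ⟨vN_inj h1.symm, vN_inj h2.symm⟩
    · exact Or.inr ⟨vN_inj h2.symm, vN_inj h1.symm⟩
  · rintro ⟨e, ⟨rfl, rfl⟩ | ⟨rfl, rfl⟩⟩
    · exact ⟨bar A Ls e, mem_code.2 ⟨e, rfl⟩, rfl⟩
    · exact ⟨bar A Ls e, mem_code.2 ⟨e, rfl⟩, Sym2.eq_swap⟩

private theorem st_ne {N : ℕ} (e : Fin N × Fin 4) : st e ≠ some e := by
  intro h
  have h1 := vN_st_lt e
  rw [h] at h1
  exact lt_irrefl _ h1

private theorem adj_iff {A : ℕ} {Ls : List LegN} (h : SpData A Ls) {v w : SV Ls.length} :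
    (spCode A Ls).graph.Adj (vx h v) (vx h w) ↔
      ∃ e, (v = st e ∧ w = some e) ∨ (v = some e ∧ w = st e) := by
  unfold LinkCode.graph
  rw [SimpleGraph.fromRel_adj, rel_iff h, rel_iff h]
  constructor
  · rintro ⟨-, h1 | ⟨e, h1⟩⟩
    · exact h1
    · exact ⟨e, by tauto⟩
  · rintro ⟨e, he⟩
    refine ⟨?_, Or.inl ⟨e, he⟩⟩
    intro h1
    have h2 := vx_inj h h1
    rcases he with ⟨rfl, rfl⟩ | ⟨rfl, rfl⟩
    · exact st_ne e h2
    · exact st_ne e h2.symm

private theorem adj_st {A : ℕ} {Ls : List LegN} (h : SpData A Ls) (e : Fin Ls.length × Fin 4) :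
    (spCode A Ls).graph.Adj (vx h (st e)) (vx h (some e)) :=
  (adj_iff h).2 ⟨e, Or.inl ⟨rfl, rfl⟩⟩

private theorem length_bar {A : ℕ} {Ls : List LegN} (e : Fin Ls.length × Fin 4) :
    (spCode A Ls).length (vN (st e)) (num e) = bN A Ls e := by
  unfold LinkCode.length
  cases hf : (spCode A Ls).find?
      (fun b => decide (s(b.1.1, b.1.2) = s(vN (st e), num e))) with
  | none =>
    rw [List.find?_eq_none] at hf
    exact absurd (decide_eq_true rfl) (hf (bar A Ls e) (mem_code.2 ⟨e, rfl⟩))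
  | some b' =>
    have hb' := List.mem_of_find?_eq_some hf
    have hd := List.find?_some hf
    simp only [decide_eq_true_eq] at hd
    obtain ⟨f, rfl⟩ := mem_code.1 hb'
    have h1 := vN_st_lt e
    have h2 := vN_st_lt f
    have hef : f = e := by
      rcases Sym2.eq_iff.1 hd with ⟨h3, h4⟩ | ⟨h3, h4⟩
      · exact num_inj h4
      · have h5 : vN (st f) = num e := h3
        have h6 : num f = vN (st e) := h4
        omega
    subst hef
    show ((bN A Ls f : ℕ) : ℚ) / ((1 : ℕ) : ℚ) = bN A Ls f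
    rw [Nat.cast_one, div_one]

theorem spCode_tree {A : ℕ} {Ls : List LegN} (h : SpData A Ls) :
    (spCode A Ls).graph.IsTree := by
  have : Finite (spCode A Ls).Vert := LinkCode.finite_vert _
  rw [SimpleGraph.isTree_iff_connected_and_card]
  constructor
  · rw [SimpleGraph.connected_iff_exists_forall_reachable]
    refine ⟨vx h none, ?_⟩
    have key : ∀ e : Fin Ls.length × Fin 4,
        (spCode A Ls).graph.Reachable (vx h none) (vx h (st e)) →
          (spCode A Ls).graph.Reachable (vx h none) (vx h (some e)) := by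
      intro e he
      exact he.trans (adj_st h e).reachable
    have k1 : ∀ i, (spCode A Ls).graph.Reachable (vx h none) (vx h (some (i, 1))) :=
      fun i => key (i, 1) (SimpleGraph.Reachable.refl _)
    have k2 : ∀ i, (spCode A Ls).graph.Reachable (vx h none) (vx h (some (i, 2))) :=
      fun i => key (i, 2) (k1 i)
    intro w
    obtain ⟨v, rfl⟩ := vx_surj h w
    rcases v with _ | ⟨i, k⟩
    · exact SimpleGraph.Reachable.refl _
    · fin_cases k
      · exact key (i, 0) (SimpleGraph.Reachable.refl _)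
      · exact k1 i
      · exact k2 i
      · exact key (i, 3) (k2 i)
  · have hE : Nat.card (spCode A Ls).graph.edgeSet = Nat.card (Fin Ls.length × Fin 4) := by
      refine (Nat.card_congr (Equiv.ofBijective (fun e : Fin Ls.length × Fin 4 =>
        (⟨s(vx h (st e), vx h (some e)), (adj_st h e)⟩ : (spCode A Ls).graph.edgeSet)) ?_)).symm
      constructor
      · intro e f hef
        have h1 := congrArg Subtype.val hef
        rcases Sym2.eq_iff.1 h1 with ⟨-, h2⟩ | ⟨h2, h3⟩
        · exact Option.some_injective _ (vx_inj h h2)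
        · have h4 := congrArg vN (vx_inj h h2)
          have h5 := congrArg vN (vx_inj h h3)
          have h6 := vN_st_lt e
          have h7 := vN_st_lt f
          have h4' : vN (st e) = num f := h4
          have h5' : num e = vN (st f) := h5
          omega
      · rintro ⟨x, hx⟩
        induction x using Sym2.ind with
        | _ a b =>
          obtain ⟨v, rfl⟩ := vx_surj h a
          obtain ⟨w, rfl⟩ := vx_surj h b
          obtain ⟨e, ⟨rfl, rfl⟩ | ⟨rfl, rfl⟩⟩ := (adj_iff h).1 hx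
          · exact ⟨e, rfl⟩
          · exact ⟨e, Subtype.ext Sym2.eq_swap⟩
    have hV : Nat.card (SV Ls.length) = Nat.card (spCode A Ls).Vert :=
      Nat.card_congr (Equiv.ofBijective (vx h) ⟨vx_inj h, vx_surj h⟩)
    rw [hE, ← hV, Finite.card_option]


/-! ### the cyclic orders -/

private theorem mem_nbrs {A : ℕ} {Ls : List LegN} {v n : ℕ} :
    n ∈ nbrs (spCode A Ls) v ↔ ∃ e : Fin Ls.length × Fin 4,
      (vN (st e) = v ∧ n = num e) ∨ (num e = v ∧ n = vN (st e)) := by
  unfold nbrs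
  rw [List.mem_filterMap]
  constructor
  · rintro ⟨b, hb, hn⟩
    obtain ⟨e, rfl⟩ := mem_code.1 hb
    refine ⟨e, ?_⟩
    split_ifs at hn with h1 h2
    · exact Or.inl ⟨h1, (Option.some_injective _ hn).symm⟩
    · exact Or.inr ⟨h2, (Option.some_injective _ hn).symm⟩
  · rintro ⟨e, ⟨h1, rfl⟩ | ⟨h1, rfl⟩⟩
    · refine ⟨bar A Ls e, mem_code.2 ⟨e, rfl⟩, ?_⟩
      rw [if_pos (show (bar A Ls e).1.1 = v from h1)]
      rfl
    · refine ⟨bar A Ls e, mem_code.2 ⟨e, rfl⟩, ?_⟩
      have h2 := vN_st_lt e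
      have h3 : ¬ (bar A Ls e).1.1 = v := fun h4 => by
        have h5 : vN (st e) = v := h4
        omega
      rw [if_neg h3, if_pos (show (bar A Ls e).1.2 = v from h1)]
      rfl

private theorem pw_nbrs (A : ℕ) (Ls : List LegN) (v : ℕ) :
    (nbrs (spCode A Ls) v).Pairwise (· < ·) := by
  unfold nbrs
  rw [List.pairwise_filterMap]
  refine (pw_code A Ls).imp_of_mem ?_
  intro b b' hb hb' hlt n hn n' hn'
  have h1 := bar_lt hb
  have h2 := bar_lt hb'
  split_ifs at hn with h3 h4 <;> split_ifs at hn' with h5 h6 <;>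
    simp only [Option.some.injEq] at hn hn' <;> omega

private theorem sub_nbrs {A : ℕ} {Ls : List LegN} {v a b d : ℕ} :
    [a, b, d].Sublist (nbrs (spCode A Ls) v) ↔
      (a ∈ nbrs (spCode A Ls) v ∧ b ∈ nbrs (spCode A Ls) v ∧ d ∈ nbrs (spCode A Ls) v) ∧
        a < b ∧ b < d := by
  constructor
  · intro h
    have h1 := (pw_nbrs A Ls v).sublist h
    refine ⟨⟨h.subset (by simp), h.subset (by simp), h.subset (by simp)⟩, ?_⟩
    simp only [List.pairwise_cons, List.mem_cons, List.not_mem_nil, or_false,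
      forall_eq_or_imp, forall_eq, List.Pairwise.nil, and_true, IsEmpty.forall_iff,
      implies_true] at h1
    exact ⟨h1.1.1, h1.2⟩
  · rintro ⟨⟨h1, h2, h3⟩, h4, h5⟩
    have hp : [a, b, d].Pairwise (· < ·) := by
      simp only [List.pairwise_cons, List.mem_cons, List.not_mem_nil, or_false,
        forall_eq_or_imp, forall_eq, List.Pairwise.nil, and_true, IsEmpty.forall_iff,
        implies_true]
      exact ⟨⟨h4, h4.trans h5⟩, h5⟩
    refine List.sublist_of_subperm_of_pairwise (List.subperm_of_subset hp.nodup ?_) hp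
      (pw_nbrs A Ls v)
    intro x hx
    simp only [List.mem_cons, List.not_mem_nil, or_false] at hx
    rcases hx with rfl | rfl | rfl
    · exact h1
    · exact h2
    · exact h3

private theorem mem_nbrs_zero {A : ℕ} {Ls : List LegN} {n : ℕ} :
    n ∈ nbrs (spCode A Ls) 0 ↔ ∃ e : Fin Ls.length × Fin 4, e.2 ≤ 1 ∧ n = num e := by
  rw [mem_nbrs]
  constructor
  · rintro ⟨⟨i, k⟩, ⟨h1, rfl⟩ | ⟨h1, rfl⟩⟩
    · refine ⟨(i, k), ?_, rfl⟩
      fin_cases k
      · exact Nat.zero_le _
      · exact le_rfl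
      · exact absurd h1 (num_pos _).ne'
      · exact absurd h1 (num_pos _).ne'
    · exact absurd h1 (num_pos _).ne'
  · rintro ⟨⟨i, k⟩, h1, rfl⟩
    refine ⟨(i, k), Or.inl ⟨?_, rfl⟩⟩
    fin_cases k
    · rfl
    · rfl
    · exact absurd h1 (show ¬ ((2 : Fin 4) ≤ 1) by decide)
    · exact absurd h1 (show ¬ ((3 : Fin 4) ≤ 1) by decide)

private theorem mem_nbrs_num {A : ℕ} {Ls : List LegN} {n : ℕ} {e : Fin Ls.length × Fin 4}
    (h : n ∈ nbrs (spCode A Ls) (num e)) : n = vN (st e) ∨ n = num e + 1 := by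
  obtain ⟨⟨i, k⟩, ⟨h1, rfl⟩ | ⟨h1, rfl⟩⟩ := mem_nbrs.1 h
  · right
    fin_cases k
    · exact absurd h1.symm (num_pos e).ne'
    · exact absurd h1.symm (num_pos e).ne'
    · rw [← h1]
      rfl
    · rw [← h1]
      rfl
  · left
    rw [num_inj h1]

private theorem cyc_iff {A : ℕ} {Ls : List LegN} (h : SpData A Ls)
    (q : (spCode A Ls).Vert → ℂ) : CycOrder (spCode A Ls) q ↔
      ∀ e f g : Fin Ls.length × Fin 4, e.2 ≤ 1 → f.2 ≤ 1 → g.2 ≤ 1 → num e < num f →
        num f < num g → turn (q (vx h (some e)) - q (vx h none)) (q (vx h (some f)) - q (vx h none)) <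
          turn (q (vx h (some e)) - q (vx h none)) (q (vx h (some g)) - q (vx h none)) := by
  constructor
  · intro hc e f g he hf hg h1 h2
    refine hc (vx h none) (vx h (some e)) (vx h (some f)) (vx h (some g)) ?_
    refine sub_nbrs.2 ⟨⟨?_, ?_, ?_⟩, h1, h2⟩
    · exact mem_nbrs_zero.2 ⟨e, he, rfl⟩
    · exact mem_nbrs_zero.2 ⟨f, hf, rfl⟩
    · exact mem_nbrs_zero.2 ⟨g, hg, rfl⟩
  · intro hc v a b d hs
    obtain ⟨v, rfl⟩ := vx_surj h v
    obtain ⟨⟨h1, h2, h3⟩, h4, h5⟩ := sub_nbrs.1 hs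
    rcases v with _ | e
    · obtain ⟨ea, ha, ha'⟩ := mem_nbrs_zero.1 h1
      obtain ⟨eb, hb, hb'⟩ := mem_nbrs_zero.1 h2
      obtain ⟨ed, hd, hd'⟩ := mem_nbrs_zero.1 h3
      have ka : a = vx h (some ea) := Subtype.ext ha'
      have kb : b = vx h (some eb) := Subtype.ext hb'
      have kd : d = vx h (some ed) := Subtype.ext hd'
      subst ka kb kd
      exact hc ea eb ed ha hb hd h4 h5
    · exfalso
      have k1 := mem_nbrs_num h1
      have k2 := mem_nbrs_num h2
      have k3 := mem_nbrs_num h3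
      omega

/-! ### configurations -/

private theorem bl_eq {A : ℕ} {Ls : List LegN} (h : SpData A Ls) (e : Fin Ls.length × Fin 4) :
    bl (fun i : Fin Ls.length => legOf (Ls.get i) (h.2 _ (Ls.get_mem i)).1) (A : ℝ) e =
      bN A Ls e := by
  obtain ⟨i, k⟩ := e
  fin_cases k <;> rfl

private theorem conf_iff {A : ℕ} {Ls : List LegN} (h : SpData A Ls)
    (q : (spCode A Ls).Vert → ℂ) :
    (((spCode A Ls).linkage (spCode_valid h)).IsConfig q ∧ CycOrder (spCode A Ls) q) ↔
      (fun v => q (vx h v)) ∈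
        Sp (fun i : Fin Ls.length => legOf (Ls.get i) (h.2 _ (Ls.get_mem i)).1) (A : ℝ) := by
  have hsym : ∀ (v w : SV Ls.length) (z : ℂ), z ∈ segment ℝ (q (vx h v)) (q (vx h w)) →
      z ∈ segment ℝ (q (vx h w)) (q (vx h v)) := fun v w z hz => by
    rw [segment_symm]
    exact hz
  unfold Sp
  rw [cyc_iff h, Linkage.IsConfig, and_assoc]
  refine and_congr ?_ (and_congr ?_ Iff.rfl)
  · constructor
    · intro h1 e
      rw [bl_eq h]
      have h2 := h1 _ _ (adj_st h e)
      have h3 : ((spCode A Ls).length (vN (st e)) (num e) : ℚ) = bN A Ls e := length_bar e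
      refine h2.trans ?_
      show (((spCode A Ls).length (vN (st e)) (num e) : ℚ) : ℝ) = bN A Ls e
      rw [h3, Rat.cast_natCast]
    · intro h1 v w hvw
      obtain ⟨v, rfl⟩ := vx_surj h v
      obtain ⟨w, rfl⟩ := vx_surj h w
      have key : ∀ e, dist (q (vx h (st e))) (q (vx h (some e))) =
          (((spCode A Ls).length (vN (st e)) (num e) : ℚ) : ℝ) := by
        intro e
        rw [length_bar e, Rat.cast_natCast, ← bl_eq h]
        exact h1 e
      obtain ⟨e, ⟨rfl, rfl⟩ | ⟨rfl, rfl⟩⟩ := (adj_iff h).1 hvw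
      · exact key e
      · rw [dist_comm]
        refine (key e).trans ?_
        show (((spCode A Ls).length (vN (st e)) (num e) : ℚ) : ℝ) =
          (((spCode A Ls).length (num e) (vN (st e)) : ℚ) : ℝ)
        rw [LinkCode.length_symm]
  · constructor
    · intro h1 e f hef z hz hz'
      have hne : s(vx h (st e), vx h (some e)) ≠ s(vx h (st f), vx h (some f)) := by
        intro h2
        rcases Sym2.eq_iff.1 h2 with ⟨-, h3⟩ | ⟨h2, h3⟩
        · exact hef (Option.some_injective _ (vx_inj h h3))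
        · have h4 : vN (st e) = num f := congrArg vN (vx_inj h h2)
          have h5 : num e = vN (st f) := congrArg vN (vx_inj h h3)
          have h6 := vN_st_lt e
          have h7 := vN_st_lt f
          omega
      obtain ⟨w, hw1, hw2, hw3⟩ := h1 _ _ _ _ (adj_st h e) (adj_st h f) hne z hz hz'
      obtain ⟨w, rfl⟩ := vx_surj h w
      refine ⟨w, ?_, ?_, hw3⟩
      · exact hw1.imp (fun k => vx_inj h k) (fun k => vx_inj h k)
      · exact hw2.imp (fun k => vx_inj h k) (fun k => vx_inj h k)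
    · intro h1 a b x y hab hxy hne z hz hz'
      obtain ⟨a, rfl⟩ := vx_surj h a
      obtain ⟨b, rfl⟩ := vx_surj h b
      obtain ⟨x, rfl⟩ := vx_surj h x
      obtain ⟨y, rfl⟩ := vx_surj h y
      obtain ⟨e, he⟩ := (adj_iff h).1 hab
      obtain ⟨f, hf⟩ := (adj_iff h).1 hxy
      have hef : e ≠ f := by
        rintro rfl
        apply hne
        rcases he with ⟨rfl, rfl⟩ | ⟨rfl, rfl⟩ <;> rcases hf with ⟨rfl, rfl⟩ | ⟨rfl, rfl⟩
        · rfl
        · exact Sym2.eq_swap
        · exact Sym2.eq_swap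
        · rfl
      have hz1 : z ∈ segment ℝ (q (vx h (st e))) (q (vx h (some e))) := by
        rcases he with ⟨rfl, rfl⟩ | ⟨rfl, rfl⟩
        · exact hz
        · exact hsym _ _ _ hz
      have hz2 : z ∈ segment ℝ (q (vx h (st f))) (q (vx h (some f))) := by
        rcases hf with ⟨rfl, rfl⟩ | ⟨rfl, rfl⟩
        · exact hz'
        · exact hsym _ _ _ hz'
      obtain ⟨w, hw1, hw2, hw3⟩ := h1 e f hef z hz1 hz2
      refine ⟨vx h w, ?_, ?_, hw3⟩
      · rcases he with ⟨rfl, rfl⟩ | ⟨rfl, rfl⟩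
        · exact hw1.imp (congrArg _) (congrArg _)
        · exact (hw1.imp (congrArg _) (congrArg _)).symm
      · rcases hf with ⟨rfl, rfl⟩ | ⟨rfl, rfl⟩
        · exact hw2.imp (congrArg _) (congrArg _)
        · exact (hw2.imp (congrArg _) (congrArg _)).symm

/-- `SV N ≃ (spCode A Ls).Vert` by `none ↦ 0`, `some e ↦ num e`; a configuration of the linkage with
`CycOrder` is an element of `Sp`, and conversely -/
theorem spCode_locked {A : ℕ} {Ls : List LegN} (h : SpData A Ls) :
    LockedTree (spCode A Ls) (spCode_valid h) ↔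
      ∃ p ∈ Sp (fun i : Fin Ls.length => legOf (Ls.get i) (h.2 _ (Ls.get_mem i)).1) (A : ℝ),
      ∃ q ∈ Sp (fun i : Fin Ls.length => legOf (Ls.get i) (h.2 _ (Ls.get_mem i)).1) (A : ℝ),
        ¬ JoinedIn (Sp (fun i : Fin Ls.length => legOf (Ls.get i) (h.2 _ (Ls.get_mem i)).1) (A : ℝ))
          p q := by
  -- the inverse of the numbering
  obtain ⟨g, hg1, hg2⟩ := Function.bijective_iff_has_inverse.1 ⟨vx_inj h, vx_surj h⟩
  have hback : ∀ p : SV Ls.length → ℂ,
      (fun v => (fun w => p (g w)) (vx h v)) = p := by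
    intro p
    funext v
    show p (g (vx h v)) = p v
    rw [hg1 v]
  have hforth : ∀ q : (spCode A Ls).Vert → ℂ,
      (fun w => (fun v => q (vx h v)) (g w)) = q := by
    intro q
    funext w
    show q (vx h (g w)) = q w
    rw [hg2 w]
  have c1 : Continuous (fun (q : (spCode A Ls).Vert → ℂ) (v : SV Ls.length) => q (vx h v)) :=
    continuous_pi (fun v => continuous_apply _)
  have c2 : Continuous (fun (p : SV Ls.length → ℂ) (w : (spCode A Ls).Vert) => p (g w)) :=
    continuous_pi (fun v => continuous_apply _)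
  constructor
  · rintro ⟨p, q, hp1, hp2, hq1, hq2, hpq⟩
    refine ⟨fun v => p (vx h v), (conf_iff h p).1 ⟨hp1, hp2⟩, fun v => q (vx h v),
      (conf_iff h q).1 ⟨hq1, hq2⟩, ?_⟩
    intro hj
    apply hpq
    have h1 := hj.map c2
    have h2 := h1.mono (V := ((spCode A Ls).linkage (spCode_valid h)).configSpace) (by
      rintro _ ⟨r, hr, rfl⟩
      refine ((conf_iff h _).2 ?_).1
      rw [hback r]
      exact hr)
    rw [hforth p, hforth q] at h2
    exact h2
  · rintro ⟨p, hp, q, hq, hpq⟩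
    have kp := (conf_iff h (fun w => p (g w))).2 (by rw [hback p]; exact hp)
    have kq := (conf_iff h (fun w => q (g w))).2 (by rw [hback q]; exact hq)
    refine ⟨fun w => p (g w), fun w => q (g w), kp.1, kp.2, kq.1, kq.2, ?_⟩
    intro hj
    apply hpq
    have h0 := rot_joined (spCode_valid h) hj kp.2
    have h1 := h0.map c1
    have h2 := h1.mono (V := Sp (fun i : Fin Ls.length =>
        legOf (Ls.get i) (h.2 _ (Ls.get_mem i)).1) (A : ℝ)) (by
      rintro _ ⟨r, hr, rfl⟩
      exact (conf_iff h r).1 hr)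
    rw [hback p, hback q] at h2
    exact h2

end LockTree
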