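import Mathlib.Topology.Connected.PathConnected
import Mathlib.Topology.Algebra.Constructions
import Mathlib.Algebra.BigOperators.Fin
import Mathlib.Algebra.Order.BigOperators.Group.Finset
import Mathlib.Topology.Instances.Real.Lemmas
import Mathlib.Tactic

set_option autoImplicit false

/-!
# The budget argument

Finitely many legs share a total width less than `B`. The legs are moved one after the other; a
hooked leg needs the width `ψ` to open and at least `φ` as long as it is hooked.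
-/

namespace LockTree

/-- the configurations of the legs within the budget -/
private def Bd {N : ℕ} {X : Type} (ok : Fin N → X → Prop) (w : Fin N → X → ℝ) (B : ℝ) :
    Set (Fin N → X) := {r | (∀ i, ok i (r i)) ∧ ∑ i, w i (r i) < B}

/-- sums after a change of one leg -/
private theorem sum_upd {N : ℕ} {X : Type} (w : Fin N → X → ℝ) (s : Fin N → X) (i : Fin N) (t : X) :
    ∑ j, w j (Function.update s i t j) = ∑ j ∈ Finset.univ.erase i, w j (s j) + w i t := by
  rw [← Finset.sum_erase_add Finset.univ _ (Finset.mem_univ i), Function.update_self]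
  congr 1
  refine Finset.sum_congr rfl fun j hj => ?_
  rw [Function.update_of_ne (Finset.ne_of_mem_erase hj)]

/-- one leg moves -/
private theorem move1 {N : ℕ} {X : Type} [TopologicalSpace X] {ok : Fin N → X → Prop}
    {w : Fin N → X → ℝ} {B : ℝ} {s : Fin N → X} (hs : ∀ i, ok i (s i)) (i : Fin N) {t : X} {c : ℝ}
    (h : JoinedIn {r | ok i r ∧ w i r ≤ c} (s i) t)
    (hc : ∑ j ∈ Finset.univ.erase i, w j (s j) + c < B) :
    JoinedIn (Bd ok w B) s (Function.update s i t) := by
  obtain ⟨γ, hγ⟩ := h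
  have hcont : Continuous (fun x : X => Function.update s i x) :=
    continuous_const.update i continuous_id
  refine ⟨(γ.map hcont).cast (by simp) rfl, fun r => ?_⟩
  have hr := hγ r
  simp only [Path.cast_coe, Path.map_coe, Function.comp_apply]
  refine ⟨fun j => ?_, ?_⟩
  · by_cases hj : j = i
    · subst hj
      rw [Function.update_self]
      exact hr.1
    · rw [Function.update_of_ne hj]
      exact hs j
  · rw [sum_upd]
    have := hr.2
    linarith

/-- all legs of a set shrink -/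
private theorem shrink {N : ℕ} {X : Type} [TopologicalSpace X] (ok hk : Fin N → X → Prop)
    (w : Fin N → X → ℝ) (φ : Fin N → ℝ) (B : ℝ)
    (h1 : ∀ i s, ok i s → ¬ hk i s → ∀ ε > 0, ∃ t, ok i t ∧ ¬ hk i t ∧ w i t < ε ∧
      JoinedIn {r | ok i r ∧ w i r ≤ w i s} s t)
    (h2 : ∀ i s, ok i s → hk i s → ∀ ε > 0, ∃ t, ok i t ∧ hk i t ∧ w i t < φ i + ε ∧
      JoinedIn {r | ok i r ∧ w i r ≤ w i s} s t)
    {s : Fin N → X} (hs : ∀ i, ok i (s i)) (hB : ∑ i, w i (s i) < B) {ε : ℝ} (hε : 0 < ε)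
    (A : Finset (Fin N)) :
    ∃ t : Fin N → X, (∀ i, ok i (t i)) ∧ ∑ i, w i (t i) < B ∧ (∀ i, hk i (t i) ↔ hk i (s i)) ∧
      (∀ i ∈ A, hk i (t i) → w i (t i) < φ i + ε) ∧ (∀ i ∈ A, ¬ hk i (t i) → w i (t i) < ε) ∧
      JoinedIn (Bd ok w B) s t := by
  classical
  induction A using Finset.induction_on with
  | empty =>
    exact ⟨s, hs, hB, fun _ => Iff.rfl, fun i hi => absurd hi (Finset.notMem_empty i),
      fun i hi => absurd hi (Finset.notMem_empty i), JoinedIn.refl ⟨hs, hB⟩⟩
  | insert i A hi ih =>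
    obtain ⟨t, ht, htB, hh, ha, hb, hj⟩ := ih
    have key : ∃ x, ok i x ∧ (hk i x ↔ hk i (t i)) ∧ (hk i x → w i x < φ i + ε) ∧
        (¬ hk i x → w i x < ε) ∧ JoinedIn {r | ok i r ∧ w i r ≤ w i (t i)} (t i) x := by
      by_cases hki : hk i (t i)
      · obtain ⟨x, hx1, hx2, hx3, hx4⟩ := h2 i (t i) (ht i) hki ε hε
        exact ⟨x, hx1, ⟨fun _ => hki, fun _ => hx2⟩, fun _ => hx3, fun h => absurd hx2 h, hx4⟩
      · obtain ⟨x, hx1, hx2, hx3, hx4⟩ := h1 i (t i) (ht i) hki ε hε
        exact ⟨x, hx1, ⟨fun h => absurd h hx2, fun h => absurd h hki⟩, fun h => absurd h hx2,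
          fun _ => hx3, hx4⟩
    obtain ⟨x, hx1, hx2, hx3, hx4, hx5⟩ := key
    have hsum : ∑ j ∈ Finset.univ.erase i, w j (t j) + w i (t i) = ∑ j, w j (t j) :=
      Finset.sum_erase_add Finset.univ _ (Finset.mem_univ i)
    have hm := move1 ht i hx5 (B := B) (by rw [hsum]; exact htB)
    have hend := hm.target_mem
    refine ⟨Function.update t i x, hend.1, hend.2, fun j => ?_, fun j hj' hk' => ?_,
      fun j hj' hk' => ?_, hj.trans hm⟩
    · by_cases hji : j = i
      · subst hji
        rw [Function.update_self, hx2]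
        exact hh j
      · rw [Function.update_of_ne hji]
        exact hh j
    · by_cases hji : j = i
      · subst hji
        rw [Function.update_self] at hk' ⊢
        exact hx3 hk'
      · rw [Function.update_of_ne hji] at hk' ⊢
        exact ha j ((Finset.mem_insert.mp hj').resolve_left hji) hk'
    · by_cases hji : j = i
      · subst hji
        rw [Function.update_self] at hk' ⊢
        exact hx4 hk'
      · rw [Function.update_of_ne hji] at hk' ⊢
        exact hb j ((Finset.mem_insert.mp hj').resolve_left hji) hk'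

/-- small unhooked legs move to `e` one after the other -/
private theorem finish {N : ℕ} {X : Type} [TopologicalSpace X] (ok : Fin N → X → Prop)
    (w : Fin N → X → ℝ) (e : X) (B C : ℝ)
    (wC : ∀ i s, ok i s → w i s ≤ C) (h0 : ∀ i, ok i e ∧ w i e = 0)
    (h4 : ∀ i s, ok i s → JoinedIn {r | ok i r} s e) {ε : ℝ} (hε : 0 < ε) (hCB : C + N * ε < B)
    {s : Fin N → X} (hs : ∀ i, ok i (s i)) (hB : ∑ i, w i (s i) < B)
    (hw : ∀ i, w i (s i) ≤ ε) (A : Finset (Fin N)) :
    ∃ t : Fin N → X, (∀ i, ok i (t i)) ∧ (∀ i ∈ A, t i = e) ∧ (∀ i, w i (t i) ≤ ε) ∧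
      JoinedIn (Bd ok w B) s t := by
  classical
  induction A using Finset.induction_on with
  | empty =>
    exact ⟨s, hs, fun i hi => absurd hi (Finset.notMem_empty i), hw, JoinedIn.refl ⟨hs, hB⟩⟩
  | insert i A hi ih =>
    obtain ⟨t, ht, he, hw', hj⟩ := ih
    have hJ : JoinedIn {r | ok i r ∧ w i r ≤ C} (t i) e := by
      obtain ⟨γ, hγ⟩ := h4 i (t i) (ht i)
      exact ⟨γ, fun r => ⟨hγ r, wC i _ (hγ r)⟩⟩
    have hsum : ∑ j ∈ Finset.univ.erase i, w j (t j) ≤ N * ε := by
      calc ∑ j ∈ Finset.univ.erase i, w j (t j) ≤ ∑ _j ∈ Finset.univ.erase i, ε :=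
            Finset.sum_le_sum fun j _ => hw' j
        _ = ((Finset.univ.erase i).card : ℝ) * ε := by rw [Finset.sum_const, nsmul_eq_mul]
        _ ≤ N * ε := by
            refine mul_le_mul_of_nonneg_right ?_ hε.le
            have : (Finset.univ.erase i).card ≤ N := by
              refine (Finset.card_le_card (Finset.erase_subset i Finset.univ)).trans ?_
              simp
            exact_mod_cast this
    have hm := move1 ht i hJ (B := B) (by linarith)
    have hend := hm.target_mem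
    refine ⟨Function.update t i e, hend.1, fun j hj' => ?_, fun j => ?_, hj.trans hm⟩
    · by_cases hji : j = i
      · subst hji
        rw [Function.update_self]
      · rw [Function.update_of_ne hji]
        exact he j ((Finset.mem_insert.mp hj').resolve_left hji)
    · by_cases hji : j = i
      · subst hji
        rw [Function.update_self, (h0 j).2]
        exact hε.le
      · rw [Function.update_of_ne hji]
        exact hw' j

/-- the number of hooked legs decreases to `0` -/
private theorem unhook {N : ℕ} {X : Type} [TopologicalSpace X] (ok hk : Fin N → X → Prop)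
    (w : Fin N → X → ℝ) (φ ψ : Fin N → ℝ) (B : ℝ)
    (w0 : ∀ i s, 0 ≤ w i s)
    (hφ : ∀ i s, ok i s → hk i s → φ i ≤ w i s)
    (h1 : ∀ i s, ok i s → ¬ hk i s → ∀ ε > 0, ∃ t, ok i t ∧ ¬ hk i t ∧ w i t < ε ∧
      JoinedIn {r | ok i r ∧ w i r ≤ w i s} s t)
    (h2 : ∀ i s, ok i s → hk i s → ∀ ε > 0, ∃ t, ok i t ∧ hk i t ∧ w i t < φ i + ε ∧
      JoinedIn {r | ok i r ∧ w i r ≤ w i s} s t)
    (h3 : ∀ i s, ok i s → hk i s → ∃ t, ok i t ∧ ¬ hk i t ∧
      JoinedIn {r | ok i r ∧ w i r ≤ max (w i s) (ψ i)} s t)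
    (hno : ∀ S : Finset (Fin N), S.Nonempty → ∑ i ∈ S, φ i < B →
      ∃ i ∈ S, ∑ j ∈ S, φ j + (ψ i - φ i) < B) (n : ℕ) :
    ∀ (s : Fin N → X), (∀ i, ok i (s i)) → ∑ i, w i (s i) < B →
      ∀ S : Finset (Fin N), (∀ i, i ∈ S ↔ hk i (s i)) → S.card = n →
      ∃ t : Fin N → X, (∀ i, ok i (t i)) ∧ ∑ i, w i (t i) < B ∧ (∀ i, ¬ hk i (t i)) ∧
        JoinedIn (Bd ok w B) s t := by
  classical
  induction n with
  | zero =>
    intro s hs hB S hS hn
    have hSe := Finset.card_eq_zero.mp hn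
    refine ⟨s, hs, hB, fun i hi => ?_, JoinedIn.refl ⟨hs, hB⟩⟩
    have := (hS i).mpr hi
    rw [hSe] at this
    exact absurd this (Finset.notMem_empty i)
  | succ n ih =>
    intro s hs hB S hS hn
    have hne : S.Nonempty := by
      rw [← Finset.card_pos]
      omega
    have hsumS : ∑ i ∈ S, φ i < B := by
      calc ∑ i ∈ S, φ i ≤ ∑ i ∈ S, w i (s i) :=
            Finset.sum_le_sum fun i hi => hφ i _ (hs i) ((hS i).mp hi)
        _ ≤ ∑ i, w i (s i) :=
            Finset.sum_le_sum_of_subset_of_nonneg (Finset.subset_univ S) fun i _ _ => w0 i _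
        _ < B := hB
    obtain ⟨i, hiS, hi⟩ := hno S hne hsumS
    obtain ⟨ε, hε, hεB⟩ : ∃ ε : ℝ, 0 < ε ∧ ∑ j ∈ S, φ j + (ψ i - φ i) + N * ε < B := by
      refine ⟨(B - (∑ j ∈ S, φ j + (ψ i - φ i))) / (N + 1), by
        have : (0 : ℝ) ≤ N := Nat.cast_nonneg N
        apply div_pos <;> linarith, ?_⟩
      have hN : (0 : ℝ) < N + 1 := by positivity
      have h := mul_div_cancel₀ (B - (∑ j ∈ S, φ j + (ψ i - φ i))) hN.ne'
      have hp : 0 < (B - (∑ j ∈ S, φ j + (ψ i - φ i))) / (N + 1) := by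
        apply div_pos <;> linarith
      nlinarith
    obtain ⟨t, ht, htB, hh, ha, hb, hj⟩ := shrink ok hk w φ B h1 h2 hs hB hε Finset.univ
    have hki : hk i (t i) := (hh i).mpr ((hS i).mp hiS)
    obtain ⟨x, hx1, hx2, hx3⟩ := h3 i (t i) (ht i) hki
    have hsum : ∑ j ∈ Finset.univ.erase i, w j (t j) + w i (t i) = ∑ j, w j (t j) :=
      Finset.sum_erase_add Finset.univ _ (Finset.mem_univ i)
    have hbig : ∑ j ∈ Finset.univ.erase i, w j (t j) ≤ ∑ j ∈ S.erase i, φ j + N * ε := by
      have e1 : ∑ j ∈ Finset.univ.erase i, w j (t j) ≤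
          ∑ j ∈ Finset.univ.erase i, ((if j ∈ S then φ j else 0) + ε) := by
        refine Finset.sum_le_sum fun j _ => ?_
        by_cases hjS : j ∈ S
        · rw [if_pos hjS]
          exact (ha j (Finset.mem_univ j) ((hh j).mpr ((hS j).mp hjS))).le
        · rw [if_neg hjS, zero_add]
          exact (hb j (Finset.mem_univ j) (fun h => hjS ((hS j).mpr ((hh j).mp h)))).le
      have e2 : ∑ j ∈ Finset.univ.erase i, ((if j ∈ S then φ j else 0) + ε) =
          ∑ j ∈ S.erase i, φ j + ((Finset.univ.erase i).card : ℝ) * ε := by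
        rw [Finset.sum_add_distrib, Finset.sum_const, nsmul_eq_mul, ← Finset.sum_filter]
        congr 2
        ext j
        simp only [Finset.mem_filter, Finset.mem_erase, Finset.mem_univ, and_true]
      have e3 : ((Finset.univ.erase i).card : ℝ) * ε ≤ N * ε := by
        refine mul_le_mul_of_nonneg_right ?_ hε.le
        have : (Finset.univ.erase i).card ≤ N := by
          refine (Finset.card_le_card (Finset.erase_subset i Finset.univ)).trans ?_
          simp
        exact_mod_cast this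
      linarith
    have hφS : ∑ j ∈ S.erase i, φ j + φ i = ∑ j ∈ S, φ j := Finset.sum_erase_add S _ hiS
    have hm := move1 ht i hx3 (B := B) (by
      rcases max_cases (w i (t i)) (ψ i) with ⟨h, _⟩ | ⟨h, _⟩
      · rw [h, hsum]; exact htB
      · rw [h]; linarith)
    have hend := hm.target_mem
    obtain ⟨r, hr, hrB, hrk, hrj⟩ := ih (Function.update t i x) hend.1 hend.2 (S.erase i)
      (fun j => by
        by_cases hji : j = i
        · subst hji
          rw [Function.update_self]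
          exact ⟨fun h => absurd h (Finset.notMem_erase j S), fun h => absurd h hx2⟩
        · rw [Function.update_of_ne hji, Finset.mem_erase, hS j, hh j]
          exact ⟨fun h => h.2, fun h => ⟨hji, h⟩⟩)
      (by rw [Finset.card_erase_of_mem hiS, hn]; rfl)
    exact ⟨r, hr, hrB, hrk, (hj.trans hm).trans hrj⟩

/-- The budget argument. -/
theorem budget {N : ℕ} {X : Type} [TopologicalSpace X] (ok hk : Fin N → X → Prop)
    (w : Fin N → X → ℝ) (e : X) (φ ψ : Fin N → ℝ) (B C : ℝ) (hC : C < B)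
    (w0 : ∀ i s, 0 ≤ w i s) (wC : ∀ i s, ok i s → w i s ≤ C) (h0 : ∀ i, ok i e ∧ w i e = 0)
    (hφ : ∀ i s, ok i s → hk i s → φ i ≤ w i s) (hφψ : ∀ i, φ i ≤ ψ i)
    (h1 : ∀ i s, ok i s → ¬ hk i s → ∀ ε > 0, ∃ t, ok i t ∧ ¬ hk i t ∧ w i t < ε ∧
      JoinedIn {r | ok i r ∧ w i r ≤ w i s} s t)
    (h2 : ∀ i s, ok i s → hk i s → ∀ ε > 0, ∃ t, ok i t ∧ hk i t ∧ w i t < φ i + ε ∧
      JoinedIn {r | ok i r ∧ w i r ≤ w i s} s t)
    (h3 : ∀ i s, ok i s → hk i s → ∃ t, ok i t ∧ ¬ hk i t ∧
      JoinedIn {r | ok i r ∧ w i r ≤ max (w i s) (ψ i)} s t)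
    (h4 : ∀ i s, ok i s → JoinedIn {r | ok i r} s e)
    (hno : ∀ S : Finset (Fin N), S.Nonempty → ∑ i ∈ S, φ i < B →
      ∃ i ∈ S, ∑ j ∈ S, φ j + (ψ i - φ i) < B)
    {s : Fin N → X} (hs : ∀ i, ok i (s i)) (hB : ∑ i, w i (s i) < B) :
    JoinedIn {r : Fin N → X | (∀ i, ok i (r i)) ∧ ∑ i, w i (r i) < B} s (fun _ => e) := by
  classical
  obtain ⟨t, ht, htB, htk, htj⟩ := unhook ok hk w φ ψ B w0 hφ h1 h2 h3 hno _ s hs hB
    (Finset.univ.filter fun i => hk i (s i)) (fun i => by simp) rfl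
  obtain ⟨ε, hε, hεB⟩ : ∃ ε : ℝ, 0 < ε ∧ C + N * ε < B := by
    refine ⟨(B - C) / (N + 1), by
      have : (0 : ℝ) ≤ N := Nat.cast_nonneg N
      apply div_pos <;> linarith, ?_⟩
    have hN : (0 : ℝ) < N + 1 := by positivity
    have h := mul_div_cancel₀ (B - C) hN.ne'
    have hp : 0 < (B - C) / (N + 1) := by
      apply div_pos <;> linarith
    nlinarith
  obtain ⟨r, hr, hrB, hh, _, hb, hrj⟩ := shrink ok hk w φ B h1 h2 ht htB hε Finset.univ
  obtain ⟨v, _, hve, _, hvj⟩ := finish ok w e B C wC h0 h4 hε hεB hr hrB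
    (fun i => (hb i (Finset.mem_univ i) (fun h => htk i ((hh i).mp h))).le) Finset.univ
  have : v = fun _ => e := funext fun i => hve i (Finset.mem_univ i)
  rw [this] at hvj
  exact (htj.trans hrj).trans hvj

end LockTree
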