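import Pool.Agent.Lib.MP_14e06f_lc.Spider.Leg

set_option autoImplicit false

/-!
# Spiders, row LC: basics and continuity of a leg
-/

namespace LockTree

open Real

variable (L : Leg)

theorem Leg.Q_re (a : ℝ) : (L.Q a).re = L.x + L.y * cos a := by
  simp [Leg.Q, Complex.exp_ofReal_mul_I_re]

theorem Leg.Q_im (a : ℝ) : (L.Q a).im = L.y * sin a := by
  simp [Leg.Q, Complex.exp_ofReal_mul_I_im]

theorem Leg.Q_re_pos (a : ℝ) : 0 < (L.Q a).re := by
  rw [L.Q_re]
  have h1 := L.y_lt_x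
  have h2 := neg_one_le_cos a
  have h3 := L.y_pos
  nlinarith

theorem Leg.Q_ne (a : ℝ) : L.Q a ≠ 0 := by
  intro h
  have := L.Q_re_pos a
  rw [h] at this
  simp at this

theorem Leg.norm_Q_pos (a : ℝ) : 0 < ‖L.Q a‖ := norm_pos_iff.2 (L.Q_ne a)

theorem Leg.norm_Q_sq (a : ℝ) : ‖L.Q a‖ ^ 2 = L.x ^ 2 + L.y ^ 2 + 2 * L.x * L.y * cos a := by
  rw [← Complex.normSq_eq_norm_sq, Complex.normSq_apply, L.Q_re, L.Q_im]
  nlinarith [sin_sq_add_cos_sq a]

theorem Leg.cos_th (a : ℝ) : ‖L.Q a‖ * cos (L.th a) = L.x + L.y * cos a := by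
  rw [← L.Q_re, Leg.th]
  exact Complex.norm_mul_cos_arg _

theorem Leg.sin_th (a : ℝ) : ‖L.Q a‖ * sin (L.th a) = L.y * sin a := by
  rw [← L.Q_im, Leg.th]
  exact Complex.norm_mul_sin_arg _

theorem Leg.abs_th_lt (a : ℝ) : |L.th a| < π / 2 := by
  rw [Leg.th, Complex.abs_arg_lt_pi_div_two_iff]
  exact Or.inl (L.Q_re_pos a)

theorem Leg.th_zero : L.th 0 = 0 := by
  rw [Leg.th, Complex.arg_eq_zero_iff]
  exact ⟨(L.Q_re_pos 0).le, by rw [L.Q_im]; simp⟩

theorem Leg.th_nonneg {a : ℝ} (h0 : 0 ≤ a) (h1 : a ≤ π) : 0 ≤ L.th a := by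
  rw [Leg.th, Complex.arg_nonneg_iff, L.Q_im]
  exact mul_nonneg L.y_pos.le (sin_nonneg_of_nonneg_of_le_pi h0 h1)

/-- `arg (x + y e^(ia)) < a`: the imaginary part of `(x + y e^(ia)) e^(-ia)` is `- x sin a < 0`. -/
theorem Leg.th_lt {a : ℝ} (h0 : 0 < a) (h1 : a < π) : 0 < L.th a ∧ L.th a < a := by
  have hs : 0 < sin a := sin_pos_of_pos_of_lt_pi h0 h1
  have hq := L.norm_Q_pos a
  have hc := L.cos_th a
  have hsn := L.sin_th a
  have hth0 := L.th_nonneg h0.le h1.le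
  have hab := abs_lt.1 (L.abs_th_lt a)
  have hpos : 0 < L.th a := by
    rcases hth0.lt_or_eq with h | h
    · exact h
    · rw [← h, sin_zero, mul_zero] at hsn
      exact absurd hsn (mul_pos L.y_pos hs).ne
  refine ⟨hpos, ?_⟩
  by_contra hcon
  have hcon : a ≤ L.th a := not_lt.1 hcon
  have h2 : 0 ≤ sin (L.th a - a) := sin_nonneg_of_nonneg_of_le_pi (by linarith) (by linarith [pi_pos])
  have h3 : ‖L.Q a‖ * sin (L.th a - a) = -(L.x * sin a) := by
    rw [sin_sub]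
    have : ‖L.Q a‖ * (sin (L.th a) * cos a - cos (L.th a) * sin a) =
        (‖L.Q a‖ * sin (L.th a)) * cos a - (‖L.Q a‖ * cos (L.th a)) * sin a := by ring
    rw [this, hc, hsn]
    ring
  have h4 : 0 ≤ ‖L.Q a‖ * sin (L.th a - a) := mul_nonneg hq.le h2
  rw [h3] at h4
  nlinarith [mul_pos L.x_pos hs]

theorem Leg.Q_eq (a : ℝ) : L.Q a = ‖L.Q a‖ * Complex.exp (L.th a * Complex.I) :=
  (Complex.norm_mul_exp_arg_mul_I (L.Q a)).symm

theorem Leg.U_eq (s : ℝ × ℝ) : L.U s =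
    Complex.exp (L.th s.1 * Complex.I) * (‖L.Q s.1‖ + L.u * Complex.exp (L.dl s * Complex.I)) := by
  have h1 : Complex.exp (((s.1 + s.2 : ℝ) : ℂ) * Complex.I) =
      Complex.exp (L.th s.1 * Complex.I) * Complex.exp (L.dl s * Complex.I) := by
    rw [← Complex.exp_add]
    congr 1
    rw [Leg.dl]
    push_cast
    ring
  rw [Leg.U, h1]
  nth_rewrite 1 [L.Q_eq s.1]
  ring

theorem Leg.U_div (s : ℝ × ℝ) : L.U s / L.Q s.1 =
    1 + (L.u / ‖L.Q s.1‖ : ℝ) * Complex.exp (L.dl s * Complex.I) := by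
  have hq : (‖L.Q s.1‖ : ℂ) ≠ 0 := by exact_mod_cast (L.norm_Q_pos s.1).ne'
  have he : Complex.exp (L.th s.1 * Complex.I) ≠ 0 := Complex.exp_ne_zero _
  rw [div_eq_iff (L.Q_ne s.1)]
  nth_rewrite 2 [L.Q_eq s.1]
  rw [L.U_eq s]
  push_cast
  field_simp

theorem Leg.ta_eq (s : ℝ × ℝ) : L.ta s =
    Complex.arg (‖L.Q s.1‖ + L.u * Complex.exp (L.dl s * Complex.I)) := by
  have hq := L.norm_Q_pos s.1
  have hq' : (‖L.Q s.1‖ : ℂ) ≠ 0 := by exact_mod_cast hq.ne'
  rw [Leg.ta, L.U_div]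
  have h1 : (‖L.Q s.1‖ : ℂ) + L.u * Complex.exp (L.dl s * Complex.I) =
      (‖L.Q s.1‖ : ℝ) * (1 + (L.u / ‖L.Q s.1‖ : ℝ) * Complex.exp (L.dl s * Complex.I)) := by
    push_cast
    field_simp
  rw [h1, Complex.arg_real_mul _ hq]

theorem Leg.lo_le (s : ℝ × ℝ) : L.lo s ≤ 0 ∧ L.lo s ≤ L.th s.1 ∧ L.lo s ≤ L.th s.1 + L.ta s :=
  ⟨min_le_left _ _, (min_le_right _ _).trans (min_le_left _ _),
    (min_le_right _ _).trans (min_le_right _ _)⟩

theorem Leg.le_hi (s : ℝ × ℝ) : 0 ≤ L.hi s ∧ L.th s.1 ≤ L.hi s ∧ L.th s.1 + L.ta s ≤ L.hi s :=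
  ⟨le_max_left _ _, (le_max_left _ _).trans (le_max_right _ _),
    (le_max_right _ _).trans (le_max_right _ _)⟩

theorem Leg.abs_th_le (s : ℝ × ℝ) : |L.th s.1| ≤ L.wd s := by
  have h1 := L.lo_le s
  have h2 := L.le_hi s
  rw [Leg.wd]
  exact abs_le.2 ⟨by linarith [h1.2.1, h2.1], by linarith [h1.1, h2.2.1]⟩

theorem Leg.abs_ta_le (s : ℝ × ℝ) : |L.ta s| ≤ L.wd s := by
  have h1 := L.lo_le s
  have h2 := L.le_hi s
  rw [Leg.wd]
  exact abs_le.2 ⟨by linarith [h1.2.2, h2.2.1], by linarith [h1.2.1, h2.2.2]⟩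

theorem Leg.wd_nonneg (s : ℝ × ℝ) : 0 ≤ L.wd s := (abs_nonneg _).trans (L.abs_th_le s)

/-- `wd ≤ |th| + |ta|` -/
theorem Leg.wd_le (s : ℝ × ℝ) : L.wd s ≤ 3 * π / 2 := by
  have h1 := abs_lt.1 (L.abs_th_lt s.1)
  have h2 : |L.ta s| ≤ π := Complex.abs_arg_le_pi _
  have h3 := abs_le.1 h2
  have h4 : |L.ta s| ≤ π := h2
  have hp := pi_pos
  rw [Leg.wd, Leg.hi, Leg.lo]
  rcases le_total 0 (L.th s.1) with ht | ht <;> rcases le_total 0 (L.ta s) with hta | hta
  · rw [max_eq_right (a := 0) (by exact le_max_of_le_left ht), max_eq_right (by linarith),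
      min_eq_left (by exact le_min ht (by linarith))]
    linarith
  · rw [max_eq_right (a := 0) (by exact le_max_of_le_left ht), max_eq_left (by linarith),
      min_eq_right (b := L.th s.1 + L.ta s) (by linarith)]
    rcases le_total 0 (L.th s.1 + L.ta s) with h5 | h5
    · rw [min_eq_left h5]; linarith
    · rw [min_eq_right h5]; linarith
  · rw [min_eq_left (b := L.th s.1 + L.ta s) (by linarith), min_eq_right (a := 0) ht,
      max_eq_right (a := L.th s.1) (by linarith)]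
    rcases le_total 0 (L.th s.1 + L.ta s) with h5 | h5
    · rw [max_eq_right h5]; linarith
    · rw [max_eq_left h5]; linarith
  · rw [min_eq_right (a := L.th s.1) (by linarith), min_eq_right (a := 0) (by linarith),
      max_eq_left (a := L.th s.1) (by linarith), max_eq_left (a := 0) ht]
    linarith

/-- `‖Q‖² < x Re Q` iff `y + x cos a < 0`; `‖U‖² < Re (U conj Q)` iff `u + q cos dl < 0` -/
theorem Leg.Hk_iff (s : ℝ × ℝ) : L.Hk s ↔
    L.y + L.x * cos s.1 < 0 ∧ L.u + ‖L.Q s.1‖ * cos (L.dl s) < 0 := by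
  have hy := L.y_pos
  have hu := L.u_pos
  have hq := L.norm_Q_pos s.1
  have h1 : ‖L.Q s.1‖ ^ 2 < L.x * (L.Q s.1).re ↔ L.y + L.x * cos s.1 < 0 := by
    rw [L.norm_Q_sq, L.Q_re]
    constructor
    · intro h
      have : L.y * (L.y + L.x * cos s.1) < 0 := by nlinarith
      by_contra hc
      have := mul_nonneg hy.le (not_lt.1 hc)
      linarith
    · intro h
      nlinarith [mul_pos hy (neg_pos.2 h)]
  set q := ‖L.Q s.1‖ with hqd
  set d := L.dl s with hd
  have hU : ‖L.U s‖ ^ 2 = q ^ 2 + L.u ^ 2 + 2 * q * L.u * cos d := by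
    rw [L.U_eq s, norm_mul, Complex.norm_exp_ofReal_mul_I, one_mul, ← Complex.normSq_eq_norm_sq,
      Complex.normSq_apply]
    simp only [Complex.add_re, Complex.add_im, Complex.mul_re, Complex.mul_im, Complex.ofReal_re,
      Complex.ofReal_im, Complex.exp_ofReal_mul_I_re, Complex.exp_ofReal_mul_I_im, zero_mul, sub_zero,
      zero_add, add_zero]
    rw [← hqd, ← hd]
    nlinarith [sin_sq_add_cos_sq d]
  have hR : (L.U s * (starRingEnd ℂ) (L.Q s.1)).re = q ^ 2 + q * L.u * cos d := by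
    have e1 : L.U s * (starRingEnd ℂ) (L.Q s.1) =
        (q : ℂ) * (q + L.u * Complex.exp (d * Complex.I)) := by
      have hQ := L.Q_eq s.1
      have hUe := L.U_eq s
      rw [← hqd] at hQ
      rw [← hqd, ← hd] at hUe
      have hQc : (starRingEnd ℂ) (L.Q s.1) = (q : ℂ) * Complex.exp (L.th s.1 * -Complex.I) := by
        rw [hQ, map_mul, Complex.conj_ofReal, ← Complex.exp_conj, map_mul, Complex.conj_ofReal,
          Complex.conj_I]
      rw [hUe, hQc]
      have e2 : Complex.exp (L.th s.1 * Complex.I) * Complex.exp (L.th s.1 * -Complex.I) = 1 := by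
        rw [← Complex.exp_add]
        simp
      calc _ = (Complex.exp (L.th s.1 * Complex.I) * Complex.exp (L.th s.1 * -Complex.I)) *
          ((q : ℂ) * (q + L.u * Complex.exp (d * Complex.I))) := by ring
        _ = _ := by rw [e2, one_mul]
    rw [e1]
    simp only [Complex.add_re, Complex.add_im, Complex.mul_re, Complex.mul_im, Complex.ofReal_re,
      Complex.ofReal_im, Complex.exp_ofReal_mul_I_re, Complex.exp_ofReal_mul_I_im, zero_mul, sub_zero,
      zero_add, add_zero]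
    ring
  have h2 : ‖L.U s‖ ^ 2 < (L.U s * (starRingEnd ℂ) (L.Q s.1)).re ↔ L.u + q * cos d < 0 := by
    rw [hU, hR]
    constructor
    · intro h
      have : L.u * (L.u + q * cos d) < 0 := by nlinarith
      by_contra hc
      have := mul_nonneg hu.le (not_lt.1 hc)
      linarith
    · intro h
      nlinarith [mul_pos hu (neg_pos.2 h)]
  rw [Leg.Hk, h1, h2]

/-! continuity -/

/-- `0 ∉ [Q, U]`, so `U / Q` is not a negative real number and not `0` -/
theorem Leg.Ok.slit {s : ℝ × ℝ} {L : Leg} (h : L.Ok s) : L.U s / L.Q s.1 ∈ Complex.slitPlane := by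
  by_contra hc
  rw [Complex.mem_slitPlane_iff] at hc
  push Not at hc
  have h0 : (0 : ℂ) ∉ segment ℝ (L.Q s.1) (L.U s) := h.2.2 0 (left_mem_segment ℝ _ _)
  apply h0
  set r : ℝ := -(L.U s / L.Q s.1).re with hr
  have hr0 : 0 ≤ r := by linarith [hc.1]
  have hU : L.U s = -(r : ℂ) * L.Q s.1 := by
    rw [← div_eq_iff (L.Q_ne s.1)]
    apply Complex.ext
    · simp [hr]
    · simp [hc.2]
  refine ⟨r / (1 + r), 1 / (1 + r), by positivity, by positivity, by field_simp; ring, ?_⟩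
  rw [hU]
  simp only [Complex.real_smul]
  push_cast
  ring

theorem Leg.continuous_Q : Continuous L.Q := by
  unfold Leg.Q
  fun_prop

theorem Leg.continuous_U : Continuous L.U := by
  unfold Leg.U
  exact (L.continuous_Q.comp continuous_fst).add (by fun_prop)

theorem Leg.continuous_th : Continuous L.th := by
  rw [continuous_iff_continuousAt]
  intro a
  exact ContinuousAt.comp (f := L.Q) (g := Complex.arg)
    (Complex.continuousAt_arg (Or.inl (L.Q_re_pos a))) L.continuous_Q.continuousAt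

theorem Leg.continuousOn_ta : ContinuousOn L.ta {s | L.Ok s} := by
  intro s hs
  apply ContinuousAt.continuousWithinAt
  have h1 : ContinuousAt (fun s : ℝ × ℝ => L.U s / L.Q s.1) s :=
    L.continuous_U.continuousAt.div (L.continuous_Q.comp continuous_fst).continuousAt (L.Q_ne _)
  exact ContinuousAt.comp (f := fun s : ℝ × ℝ => L.U s / L.Q s.1) (g := Complex.arg)
    (Complex.continuousAt_arg (Leg.Ok.slit hs)) h1

theorem Leg.continuousOn_lo : ContinuousOn L.lo {s | L.Ok s} := by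
  have h1 : ContinuousOn (fun s : ℝ × ℝ => L.th s.1) {s | L.Ok s} :=
    (L.continuous_th.comp continuous_fst).continuousOn
  exact (continuousOn_const (c := (0 : ℝ))).inf (h1.inf (h1.add L.continuousOn_ta))

theorem Leg.continuousOn_hi : ContinuousOn L.hi {s | L.Ok s} := by
  have h1 : ContinuousOn (fun s : ℝ × ℝ => L.th s.1) {s | L.Ok s} :=
    (L.continuous_th.comp continuous_fst).continuousOn
  exact (continuousOn_const (c := (0 : ℝ))).sup (h1.sup (h1.add L.continuousOn_ta))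

theorem Leg.continuousOn_wd : ContinuousOn L.wd {s | L.Ok s} :=
  L.continuousOn_hi.sub L.continuousOn_lo

/-! mirror images -/

theorem Leg.Q_neg (a : ℝ) : L.Q (-a) = (starRingEnd ℂ) (L.Q a) := by
  apply Complex.ext
  · rw [Complex.conj_re, L.Q_re, L.Q_re, cos_neg]
  · rw [Complex.conj_im, L.Q_im, L.Q_im, sin_neg]
    ring

theorem Leg.U_neg (s : ℝ × ℝ) : L.U (-s) = (starRingEnd ℂ) (L.U s) := by
  rw [Leg.U, Leg.U, map_add, map_mul, Complex.conj_ofReal, ← Complex.exp_conj, map_mul,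
    Complex.conj_ofReal, Complex.conj_I, Prod.fst_neg, Prod.snd_neg, L.Q_neg]
  congr 3
  push_cast
  ring

theorem Leg.th_neg (a : ℝ) : L.th (-a) = -L.th a := by
  have h := abs_lt.1 (L.abs_th_lt a)
  have h1 : (L.Q a).arg ≠ π := by
    intro hh
    have h2 : L.th a = π := hh
    linarith [pi_pos]
  rw [Leg.th, L.Q_neg, Complex.arg_conj, if_neg h1]
  rfl

theorem Leg.dl_neg (s : ℝ × ℝ) : L.dl (-s) = -L.dl s := by
  rw [Leg.dl, Leg.dl, Prod.fst_neg, Prod.snd_neg, L.th_neg]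
  ring

private theorem lc_seg {A B z : ℂ} (h : z ∈ segment ℝ A B) :
    (starRingEnd ℂ) z ∈ segment ℝ ((starRingEnd ℂ) A) ((starRingEnd ℂ) B) := by
  obtain ⟨a, b, ha, hb, hab, rfl⟩ := h
  refine ⟨a, b, ha, hb, hab, ?_⟩
  simp only [Complex.real_smul, map_add, map_mul, Complex.conj_ofReal]

private theorem lc_ok_neg {s : ℝ × ℝ} (h : L.Ok s) : L.Ok (-s) := by
  refine ⟨by rw [Prod.fst_neg, abs_neg]; exact h.1, by rw [Prod.snd_neg, abs_neg]; exact h.2.1, ?_⟩
  intro z hz hz2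
  have h1 := lc_seg hz
  have h2 := lc_seg hz2
  rw [map_zero, Complex.conj_ofReal] at h1
  rw [Prod.fst_neg, L.Q_neg, L.U_neg, Complex.conj_conj, Complex.conj_conj] at h2
  exact h.2.2 _ h1 h2

theorem Leg.Ok_neg (s : ℝ × ℝ) : L.Ok (-s) ↔ L.Ok s := by
  constructor
  · intro h
    have h1 := lc_ok_neg L h
    rwa [neg_neg] at h1
  · exact lc_ok_neg L

theorem Leg.Hk_neg (s : ℝ × ℝ) : L.Hk (-s) ↔ L.Hk s := by
  rw [L.Hk_iff, L.Hk_iff, L.dl_neg, Prod.fst_neg, cos_neg, cos_neg, L.Q_neg, Complex.norm_conj]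

theorem Leg.wd_neg {s : ℝ × ℝ} {L : Leg} (h : L.Ok s) : L.wd (-s) = L.wd s := by
  have h1 : L.ta (-s) = -L.ta s := by
    have h2 : (L.U s / L.Q s.1).arg ≠ π := by
      exact (Complex.mem_slitPlane_iff_arg.1 h.slit).1
    rw [Leg.ta, L.U_neg, Prod.fst_neg, L.Q_neg, ← map_div₀, Complex.arg_conj, if_neg h2]
    rfl
  have h3 : L.hi (-s) = -L.lo s := by
    rw [Leg.hi, Leg.lo, Prod.fst_neg, L.th_neg, h1, ← neg_add, max_neg_neg, ← neg_zero, max_neg_neg,
      neg_zero]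
  have h4 : L.lo (-s) = -L.hi s := by
    rw [Leg.hi, Leg.lo, Prod.fst_neg, L.th_neg, h1, ← neg_add, min_neg_neg, ← neg_zero, min_neg_neg,
      neg_zero]
  rw [Leg.wd, Leg.wd, h3, h4]
  ring

theorem Leg.joined_neg {L : Leg} {w : ℝ} {s t : ℝ × ℝ} (h : JoinedIn (L.Lv w) s t) :
    JoinedIn (L.Lv w) (-s) (-t) := by
  have h1 := h.map (f := fun r : ℝ × ℝ => -r) continuous_neg
  refine h1.mono ?_
  rintro r ⟨r', hr', rfl⟩
  refine ⟨(L.Ok_neg r').2 hr'.1, ?_⟩
  rw [Leg.wd_neg hr'.1]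
  exact hr'.2

end LockTree
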