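import Mathlib

/-!
# SEG: a segment seen from the origin
-/

set_option autoImplicit false

namespace LockTree

open Real

/-- the point with parameter `s` of the segment from `1` to `w` -/
private noncomputable def zt (w : ℂ) (s : ℝ) : ℂ := (1 - s : ℝ) + (s : ℝ) * w

private theorem zt_re (w : ℂ) (s : ℝ) : (zt w s).re = 1 - s + s * w.re := by
  unfold zt
  simp

private theorem zt_im (w : ℂ) (s : ℝ) : (zt w s).im = s * w.im := by
  unfold zt
  simp

private theorem zt_slit {w : ℂ} (h : w ∈ Complex.slitPlane) {s : ℝ} (h0 : 0 ≤ s) (h1 : s ≤ 1) :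
    zt w s ∈ Complex.slitPlane := by
  rw [Complex.mem_slitPlane_iff] at h ⊢
  rw [zt_re, zt_im]
  rcases h0.eq_or_lt with h2 | h2
  · left
    rw [← h2]
    norm_num
  · rcases h with h | h
    · left
      nlinarith [mul_pos h2 h]
    · right
      exact mul_ne_zero h2.ne' h

private theorem zt_sin {w : ℂ} (hw : w ≠ 0) {s : ℝ} (hz : zt w s ≠ 0) :
    sin (w.arg - (zt w s).arg) = (1 - s) * w.im / (‖w‖ * ‖zt w s‖) := by
  have h1 : ‖w‖ ≠ 0 := norm_ne_zero_iff.mpr hw
  have h2 : ‖zt w s‖ ≠ 0 := norm_ne_zero_iff.mpr hz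
  rw [sin_sub, Complex.sin_arg, Complex.sin_arg, Complex.cos_arg hw, Complex.cos_arg hz, zt_re, zt_im]
  field_simp
  ring

private theorem arg_pos' {w : ℂ} (h : 0 < w.im) : 0 < w.arg := by
  rcases (Complex.arg_nonneg_iff.mpr h.le).eq_or_lt with h1 | h1
  · have h2 := Complex.arg_eq_zero_iff.mp h1.symm
    rw [h2.2] at h
    exact absurd h (lt_irrefl _)
  · exact h1

private theorem zt_arg {w : ℂ} (h : w ∈ Complex.slitPlane) {s : ℝ} (h0 : 0 ≤ s) (h1 : s ≤ 1) :
    min 0 w.arg ≤ (zt w s).arg ∧ (zt w s).arg ≤ max 0 w.arg := by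
  have hz := zt_slit h h0 h1
  have hw0 : w ≠ 0 := Complex.slitPlane_ne_zero h
  have hz0 : zt w s ≠ 0 := Complex.slitPlane_ne_zero hz
  have hd : 0 < ‖w‖ * ‖zt w s‖ := mul_pos (norm_pos_iff.mpr hw0) (norm_pos_iff.mpr hz0)
  have hs := zt_sin hw0 hz0
  have hwp : w.arg < π := lt_of_le_of_ne (Complex.arg_le_pi w) (Complex.mem_slitPlane_iff_arg.mp h).1
  have hzp : (zt w s).arg < π := lt_of_le_of_ne (Complex.arg_le_pi _) (Complex.mem_slitPlane_iff_arg.mp hz).1
  have hwn := Complex.neg_pi_lt_arg w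
  have hzn := Complex.neg_pi_lt_arg (zt w s)
  rcases lt_trichotomy w.im 0 with hi | hi | hi
  · -- negative imaginary part
    have ha : w.arg < 0 := Complex.arg_neg_iff.mpr hi
    have hza : (zt w s).arg ≤ 0 := by
      rcases h0.eq_or_lt with h2 | h2
      · have : zt w s = 1 := by
          unfold zt
          rw [← h2]
          simp
        rw [this, Complex.arg_one]
      · exact (Complex.arg_neg_iff.mpr (by rw [zt_im]; exact mul_neg_of_pos_of_neg h2 hi)).le
    refine ⟨(min_le_right _ _).trans ?_, hza.trans (le_max_left _ _)⟩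
    by_contra hc
    push Not at hc
    have hp : 0 < sin (w.arg - (zt w s).arg) := sin_pos_of_pos_of_lt_pi (by linarith) (by linarith)
    rw [hs] at hp
    have hn : (1 - s) * w.im / (‖w‖ * ‖zt w s‖) ≤ 0 :=
      div_nonpos_of_nonpos_of_nonneg (mul_nonpos_of_nonneg_of_nonpos (by linarith) hi.le) hd.le
    linarith
  · -- positive real number
    have hre : 0 < w.re := by
      rcases (Complex.mem_slitPlane_iff.mp h) with h2 | h2
      · exact h2
      · exact absurd hi h2
    have hz1 : (zt w s).arg = 0 := by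
      rw [Complex.arg_eq_zero_iff, zt_re, zt_im, hi]
      exact ⟨by nlinarith [mul_nonneg h0 hre.le], by simp⟩
    rw [hz1]
    exact ⟨min_le_left _ _, le_max_left _ _⟩
  · have ha : 0 < w.arg := arg_pos' hi
    have hza : 0 ≤ (zt w s).arg := Complex.arg_nonneg_iff.mpr (by rw [zt_im]; exact mul_nonneg h0 hi.le)
    refine ⟨(min_le_left _ _).trans hza, le_trans ?_ (le_max_right _ _)⟩
    by_contra hc
    push Not at hc
    have hp : sin (w.arg - (zt w s).arg) < 0 := sin_neg_of_neg_of_neg_pi_lt (by linarith) (by linarith)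
    rw [hs] at hp
    have hn : 0 ≤ (1 - s) * w.im / (‖w‖ * ‖zt w s‖) :=
      div_nonneg (mul_nonneg (by linarith) hi.le) hd.le
    linarith

private theorem zt_mul {A B : ℂ} (hA : A ≠ 0) (s : ℝ) : A * zt (B / A) s = (1 - s : ℝ) • A + (s : ℝ) • B := by
  unfold zt
  rw [Complex.real_smul, Complex.real_smul]
  field_simp

private theorem zt_dir {A : ℂ} (hA : A ≠ 0) (ζ : ℂ) :
    A * ζ = ‖A * ζ‖ * (Complex.exp (ζ.arg * Complex.I) * (A / ‖A‖)) := by
  have h1 : (‖A‖ : ℂ) ≠ 0 := by exact_mod_cast norm_ne_zero_iff.mpr hA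
  have h2 := Complex.norm_mul_exp_arg_mul_I ζ
  rw [norm_mul]
  push_cast
  calc A * ζ = A * (‖ζ‖ * Complex.exp (ζ.arg * Complex.I)) := by rw [h2]
    _ = _ := by field_simp

/-- the points of `[A, B]` have directions between those of `A` and `B` -/
theorem seg_dir {A B : ℂ} (hA : A ≠ 0) (h : B / A ∈ Complex.slitPlane) {z : ℂ}
    (hz : z ∈ segment ℝ A B) : z ≠ 0 ∧ ∃ t : ℝ, min 0 (B / A).arg ≤ t ∧ t ≤ max 0 (B / A).arg ∧
      z = ‖z‖ * (Complex.exp (t * Complex.I) * (A / ‖A‖)) := by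
  rw [segment_eq_image] at hz
  obtain ⟨s, ⟨h0, h1⟩, rfl⟩ := hz
  simp only
  rw [← zt_mul hA s]
  have h2 := zt_slit h h0 h1
  have h3 := zt_arg h h0 h1
  exact ⟨mul_ne_zero hA (Complex.slitPlane_ne_zero h2), (zt (B / A) s).arg, h3.1, h3.2, zt_dir hA _⟩

/-- all directions in between occur -/
theorem seg_hit {A B : ℂ} (hA : A ≠ 0) (h : B / A ∈ Complex.slitPlane) {t : ℝ}
    (h1 : min 0 (B / A).arg ≤ t) (h2 : t ≤ max 0 (B / A).arg) :
    ∃ z ∈ segment ℝ A B, z ≠ 0 ∧ z = ‖z‖ * (Complex.exp (t * Complex.I) * (A / ‖A‖)) := by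
  have hc : ContinuousOn (fun s : ℝ => (zt (B / A) s).arg) (Set.uIcc 0 1) := by
    intro s hs
    rw [Set.uIcc_of_le zero_le_one] at hs
    have h3 := zt_slit h hs.1 hs.2
    have h4 : Continuous (fun s : ℝ => zt (B / A) s) := by
      unfold zt
      fun_prop
    exact ((Complex.continuousAt_arg h3).comp h4.continuousAt).continuousWithinAt
  have h3 := intermediate_value_uIcc hc
  have e0 : (zt (B / A) 0).arg = 0 := by
    unfold zt
    simp
  have e1 : (zt (B / A) 1).arg = (B / A).arg := by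
    unfold zt
    simp
  have h4 : t ∈ Set.uIcc (zt (B / A) 0).arg (zt (B / A) 1).arg := by
    rw [e0, e1]
    exact ⟨h1, h2⟩
  obtain ⟨s, hs, h5⟩ := h3 h4
  rw [Set.uIcc_of_le zero_le_one] at hs
  simp only at h5
  refine ⟨A * zt (B / A) s, ?_, mul_ne_zero hA (Complex.slitPlane_ne_zero (zt_slit h hs.1 hs.2)), ?_⟩
  · rw [segment_eq_image]
    exact ⟨s, hs, (zt_mul hA s).symm⟩
  · rw [← h5]
    exact zt_dir hA _

/-- directions determine rays up to multiples of `2π` -/
theorem dir_eq {r r' t t' : ℝ} (hr : 0 < r) (hr' : 0 < r')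
    (h : (r : ℂ) * Complex.exp (t * Complex.I) = r' * Complex.exp (t' * Complex.I)) :
    r = r' ∧ ∃ k : ℤ, t' = t + k * (2 * π) := by
  have h1 : r = r' := by
    have h2 := congrArg norm h
    rw [norm_mul, norm_mul, Complex.norm_exp_ofReal_mul_I, Complex.norm_exp_ofReal_mul_I, Complex.norm_real, Complex.norm_real,
      Real.norm_of_nonneg hr.le, Real.norm_of_nonneg hr'.le, mul_one, mul_one] at h2
    exact h2
  subst h1
  refine ⟨rfl, ?_⟩
  have h2 : (r : ℂ) ≠ 0 := by exact_mod_cast hr.ne'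
  have h3 := mul_left_cancel₀ h2 h
  rw [Complex.exp_eq_exp_iff_exists_int] at h3
  obtain ⟨n, hn⟩ := h3
  refine ⟨-n, ?_⟩
  have h4 := congrArg Complex.im hn
  simp at h4
  push_cast
  linarith

end LockTree
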