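import Pool.Agent.Lib.MP_14e06f_lc.Spider.Defs

set_option autoImplicit false

/-!
# The function `turn`
-/

namespace LockTree

open Real LockPl

theorem turn_pos (z w : ℂ) : 0 < turn z w := by
  unfold turn
  linarith [Complex.neg_pi_lt_arg (-(w / z))]

theorem turn_le (z w : ℂ) : turn z w ≤ 2 * π := by
  unfold turn
  linarith [Complex.arg_le_pi (-(w / z))]

theorem turn_exp {r r' t t' : ℝ} (hr : 0 < r) (hr' : 0 < r') (h : t < t') (h' : t' ≤ t + 2 * π) :
    turn (r * Complex.exp (t * Complex.I)) (r' * Complex.exp (t' * Complex.I)) = t' - t := by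
  have hrc : (r : ℂ) ≠ 0 := by exact_mod_cast hr.ne'
  have e1 : -(((r' : ℂ) * Complex.exp (t' * Complex.I)) / ((r : ℂ) * Complex.exp (t * Complex.I))) =
      ((r' / r : ℝ) : ℂ) * Complex.exp (((t' - t - π : ℝ) : ℂ) * Complex.I) := by
    have e2 : Complex.exp (((t' - t - π : ℝ) : ℂ) * Complex.I) =
        -(Complex.exp (t' * Complex.I) / Complex.exp (t * Complex.I)) := by
      have e3 : (((t' - t - π : ℝ) : ℂ) * Complex.I) =
          (t' * Complex.I - t * Complex.I) - π * Complex.I := by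
        push_cast; ring
      rw [e3, Complex.exp_sub_pi_mul_I, Complex.exp_sub]
    rw [e2]
    push_cast
    field_simp
  unfold turn
  rw [e1, Complex.arg_real_mul _ (div_pos hr' hr), Complex.arg_exp_mul_I,
    toIocMod_eq_self Real.two_pi_pos |>.2 ⟨by linarith, by linarith⟩]
  ring

theorem turn_spec {z w : ℂ} (hz : z ≠ 0) (hw : w ≠ 0) :
    w = ‖w‖ * (Complex.exp (turn z w * Complex.I) * (z / ‖z‖)) := by
  have hzn : (‖z‖ : ℂ) ≠ 0 := by exact_mod_cast (norm_ne_zero_iff.2 hz)
  have e1 := Complex.norm_mul_exp_arg_mul_I (-(w / z))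
  have e2 : Complex.exp (turn z w * Complex.I) =
      -Complex.exp (Complex.arg (-(w / z)) * Complex.I) := by
    unfold turn
    push_cast
    rw [add_mul, Complex.exp_add_pi_mul_I]
  rw [norm_neg, norm_div] at e1
  rw [e2]
  push_cast at e1
  have e3 : Complex.exp (Complex.arg (-(w / z)) * Complex.I) * ‖w‖ * z = - (w * ‖z‖) := by
    have : (‖w‖ : ℂ) / ‖z‖ * Complex.exp (Complex.arg (-(w / z)) * Complex.I) * (z * ‖z‖) =
        -(w / z) * (z * ‖z‖) := by rw [e1]
    field_simp at this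
    linear_combination this
  field_simp
  linear_combination e3

/-- `turn z w = 2π` iff `z` and `w` have the same direction -/
theorem turn_eq_iff {z w : ℂ} (hz : z ≠ 0) (hw : w ≠ 0) :
    turn z w = 2 * π ↔ ∃ r : ℝ, 0 < r ∧ w = r * z := by
  have h1 : turn z w = 2 * π ↔ Complex.arg (-(w / z)) = π := by
    unfold turn
    constructor <;> intro h <;> linarith
  rw [h1, Complex.arg_eq_pi_iff]
  constructor
  · rintro ⟨h2, h3⟩
    refine ⟨(w / z).re, by simpa using h2, ?_⟩
    have h4 : (w / z).im = 0 := by simpa using h3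
    have h5 : (((w / z).re : ℝ) : ℂ) = w / z := by
      apply Complex.ext <;> simp [h4]
    rw [h5]
    field_simp
  · rintro ⟨r, hr, rfl⟩
    rw [mul_div_cancel_right₀ _ hz]
    simpa using hr

theorem continuousOn_turn : ContinuousOn (fun v : ℂ × ℂ => turn v.1 v.2)
    {v | v.1 ≠ 0 ∧ v.2 ≠ 0 ∧ turn v.1 v.2 ≠ 2 * π} := by
  intro v hv
  obtain ⟨h1, h2, h3⟩ := hv
  have h4 : -(v.2 / v.1) ∈ Complex.slitPlane := by
    rw [Complex.mem_slitPlane_iff_arg]
    refine ⟨fun h => h3 ?_, by simp [h1, h2]⟩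
    show Complex.arg (-(v.2 / v.1)) + Real.pi = 2 * π
    rw [h]; ring
  have h5 : ContinuousAt (fun v : ℂ × ℂ => -(v.2 / v.1)) v :=
    (continuousAt_snd.div continuousAt_fst h1).neg
  have h6 : ContinuousAt (fun v : ℂ × ℂ => Complex.arg (-(v.2 / v.1))) v :=
    (Complex.continuousAt_arg h4).comp (f := fun v : ℂ × ℂ => -(v.2 / v.1)) h5
  exact (h6.add continuousAt_const).continuousWithinAt

end LockTree
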