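import Pool.Agent.Lib.MP_14e06f_lc.Spider.Geo
import Pool.Agent.Lib.MP_14e06f_lc.Spider.LC
import Pool.Agent.Lib.MP_14e06f_lc.Spider.Seg
import Pool.Agent.Lib.MP_14e06f_lc.Spider.Turn

set_option autoImplicit false

/-!
# Good parameters give configurations

Every point `z ≠ O` of the leg `i` has a direction in the open sector `(ρ_i, ρ_(i+1))` (`seg_dir`);
sectors of different legs and the directions `ρ_j` are different modulo `2π`. Inside a leg:
`|a|, |b| < π` and `Ok`.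
-/

namespace LockTree

open Real LockPl

/-- points of a segment in moved coordinates -/
private theorem seg_move {O e ζ1 ζ2 z : ℂ} (hz : z ∈ segment ℝ (O + e * ζ1) (O + e * ζ2)) :
    ∃ ζ ∈ segment ℝ ζ1 ζ2, z = O + e * ζ := by
  obtain ⟨a, b, ha, hb, hab, rfl⟩ := hz
  refine ⟨a • ζ1 + b • ζ2, ⟨a, b, ha, hb, hab, rfl⟩, ?_⟩
  have h : (a : ℂ) + b = 1 := by exact_mod_cast hab
  simp only [Complex.real_smul]
  linear_combination (O : ℂ) * h

/-- the first bar -/
private theorem dir1 {x : ℝ} (hx : 0 ≤ x) {ζ : ℂ} (h : ζ ∈ segment ℝ (0 : ℂ) (x : ℂ)) : ζ = ‖ζ‖ := by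
  obtain ⟨a, b, ha, hb, hab, rfl⟩ := h
  have h1 : a • (0 : ℂ) + b • (x : ℂ) = ((b * x : ℝ) : ℂ) := by
    simp only [Complex.real_smul]
    push_cast
    ring
  rw [h1, Complex.norm_real, Real.norm_of_nonneg (mul_nonneg hb hx)]

/-- the second bar -/
private theorem dir2 (L : Leg) (s : ℝ × ℝ) {ζ : ℂ} (h : ζ ∈ segment ℝ (L.x : ℂ) (L.Q s.1)) :
    ζ ≠ 0 ∧ ∃ t : ℝ, L.lo s ≤ t ∧ t ≤ L.hi s ∧ ζ = ‖ζ‖ * Complex.exp (t * Complex.I) := by
  have hx : (L.x : ℂ) ≠ 0 := by exact_mod_cast L.x_pos.ne'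
  have harg : (L.Q s.1 / (L.x : ℂ)).arg = L.th s.1 := by
    rw [div_eq_inv_mul, ← Complex.ofReal_inv, Complex.arg_real_mul _ (inv_pos.2 L.x_pos)]
    rfl
  have hsl : L.Q s.1 / (L.x : ℂ) ∈ Complex.slitPlane := by
    refine Complex.mem_slitPlane_iff.2 (Or.inl ?_)
    rw [Complex.div_ofReal_re]
    exact div_pos (L.Q_re_pos s.1) L.x_pos
  obtain ⟨h0, t, h1, h2, h3⟩ := seg_dir hx hsl h
  rw [harg] at h1 h2
  refine ⟨h0, t, ?_, ?_, ?_⟩
  · exact (le_min (L.lo_le s).1 (L.lo_le s).2.1).trans h1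
  · exact h2.trans (max_le (L.le_hi s).1 (L.le_hi s).2.1)
  · rw [Complex.norm_real, Real.norm_of_nonneg L.x_pos.le, div_self hx, mul_one] at h3
    exact h3

/-- the third bar -/
private theorem dir3 (L : Leg) {s : ℝ × ℝ} (hs : L.Ok s) {ζ : ℂ} (h : ζ ∈ segment ℝ (L.Q s.1) (L.U s)) :
    ζ ≠ 0 ∧ ∃ t : ℝ, L.lo s ≤ t ∧ t ≤ L.hi s ∧ ζ = ‖ζ‖ * Complex.exp (t * Complex.I) := by
  obtain ⟨h0, t, h1, h2, h3⟩ := seg_dir (L.Q_ne s.1) hs.slit h
  have hta : (L.U s / L.Q s.1).arg = L.ta s := rfl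
  rw [hta] at h1 h2
  refine ⟨h0, L.th s.1 + t, ?_, ?_, ?_⟩
  · rcases min_le_iff.1 h1 with h4 | h4
    · linarith [(L.lo_le s).2.1]
    · linarith [(L.lo_le s).2.2]
  · rcases le_max_iff.1 h2 with h4 | h4
    · linarith [(L.le_hi s).2.1]
    · linarith [(L.le_hi s).2.2]
  · have h4 : (L.Q s.1 : ℂ) / ‖L.Q s.1‖ = Complex.exp (L.th s.1 * Complex.I) := by
      have h5 : (‖L.Q s.1‖ : ℂ) ≠ 0 := by exact_mod_cast (L.norm_Q_pos s.1).ne'
      rw [div_eq_iff h5, mul_comm]
      exact L.Q_eq s.1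
    have h6 : (((L.th s.1 + t : ℝ)) : ℂ) * Complex.I = t * Complex.I + L.th s.1 * Complex.I := by
      push_cast
      ring
    rw [h4, ← Complex.exp_add, ← h6] at h3
    exact h3

private theorem rot_dir {O z ζ : ℂ} {β t : ℝ} (hz : z = O + Complex.exp (β * Complex.I) * ζ)
    (h : ζ = ‖ζ‖ * Complex.exp (t * Complex.I)) :
    z - O = ‖z - O‖ * Complex.exp (((β + t : ℝ) : ℂ) * Complex.I) := by
  have h1 : z - O = Complex.exp (β * Complex.I) * ζ := by rw [hz]; ring
  have h2 : ‖z - O‖ = ‖ζ‖ := by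
    rw [h1, norm_mul, Complex.norm_exp_ofReal_mul_I, one_mul]
  have h3 : (((β + t : ℝ)) : ℂ) * Complex.I = β * Complex.I + t * Complex.I := by
    push_cast
    ring
  rw [h2, h3, Complex.exp_add, h1]
  conv_lhs => rw [h]
  ring

/-- the directions of a bar -/
private noncomputable def tlo {N : ℕ} (L : Fin N → Leg) (g : Prm N) (e : Fin N × Fin 4) : ℝ :=
  if e.2 = 0 then g.2.1 e.1.castSucc else g.2.2.1 e.1 + (L e.1).lo (g.2.2.2 e.1)

private noncomputable def thi {N : ℕ} (L : Fin N → Leg) (g : Prm N) (e : Fin N × Fin 4) : ℝ :=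
  if e.2 = 0 then g.2.1 e.1.castSucc else g.2.2.1 e.1 + (L e.1).hi (g.2.2.2 e.1)

private theorem bar_dir {N : ℕ} (L : Fin N → Leg) {A : ℝ} (hA : 0 < A) {g : Prm N} (hg : g ∈ Good L)
    (e : Fin N × Fin 4) {z : ℂ} (hz : z ∈ segment ℝ (pos L A g (st e)) (pos L A g (some e))) :
    (1 < e.2 → z ≠ g.1) ∧ ∃ t : ℝ, tlo L g e ≤ t ∧ t ≤ thi L g e ∧
      z - g.1 = ‖z - g.1‖ * Complex.exp (t * Complex.I) := by
  obtain ⟨i, k⟩ := e
  have hlo := (L i).lo_le (g.2.2.2 i)
  have hhi := (L i).le_hi (g.2.2.2 i)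
  fin_cases k
  · refine ⟨fun h => absurd h (by decide : ¬ (1 : Fin 4) < 0), g.2.1 i.castSucc, le_of_eq rfl, le_of_eq rfl, ?_⟩
    have h1 : z ∈ segment ℝ (g.1 + Complex.exp (g.2.1 i.castSucc * Complex.I) * 0)
        (g.1 + Complex.exp (g.2.1 i.castSucc * Complex.I) * (A : ℂ)) := by
      rw [mul_zero, add_zero, mul_comm]
      exact hz
    obtain ⟨ζ, h2, h3⟩ := seg_move h1
    have h4 := rot_dir (t := 0) h3 (by
      rw [Complex.ofReal_zero, zero_mul, Complex.exp_zero, mul_one]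
      exact dir1 hA.le h2)
    rwa [add_zero] at h4
  · refine ⟨fun h => absurd h (by decide : ¬ (1 : Fin 4) < 1), g.2.2.1 i, ?_, ?_, ?_⟩
    · change g.2.2.1 i + _ ≤ _
      linarith [hlo.1]
    · change _ ≤ g.2.2.1 i + _
      linarith [hhi.1]
    · have h1 : z ∈ segment ℝ (g.1 + Complex.exp (g.2.2.1 i * Complex.I) * 0)
          (g.1 + Complex.exp (g.2.2.1 i * Complex.I) * ((L i).x : ℂ)) := by
        rw [mul_zero, add_zero]
        exact hz
      obtain ⟨ζ, h2, h3⟩ := seg_move h1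
      have h4 := rot_dir (t := 0) h3 (by
        rw [Complex.ofReal_zero, zero_mul, Complex.exp_zero, mul_one]
        exact dir1 (L i).x_pos.le h2)
      rwa [add_zero] at h4
  · obtain ⟨ζ, h2, h3⟩ := seg_move (O := g.1) (e := Complex.exp (g.2.2.1 i * Complex.I)) hz
    obtain ⟨h0, t, h5, h6, h7⟩ := dir2 (L i) _ h2
    refine ⟨fun _ h => h0 ?_, g.2.2.1 i + t, ?_, ?_, rot_dir h3 h7⟩
    · rw [h3] at h
      have h8 : Complex.exp (g.2.2.1 i * Complex.I) * ζ = 0 := by linear_combination h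
      exact (mul_eq_zero.1 h8).resolve_left (Complex.exp_ne_zero _)
    · change g.2.2.1 i + _ ≤ _
      linarith
    · change _ ≤ g.2.2.1 i + _
      linarith
  · obtain ⟨ζ, h2, h3⟩ := seg_move (O := g.1) (e := Complex.exp (g.2.2.1 i * Complex.I)) hz
    obtain ⟨h0, t, h5, h6, h7⟩ := dir3 (L i) (hg.2 i).1 h2
    refine ⟨fun _ h => h0 ?_, g.2.2.1 i + t, ?_, ?_, rot_dir h3 h7⟩
    · rw [h3] at h
      have h8 : Complex.exp (g.2.2.1 i * Complex.I) * ζ = 0 := by linear_combination h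
      exact (mul_eq_zero.1 h8).resolve_left (Complex.exp_ne_zero _)
    · change g.2.2.1 i + _ ≤ _
      linarith
    · change _ ≤ g.2.2.1 i + _
      linarith

/-! the order of the directions -/

private theorem rho_mono {N : ℕ} (L : Fin N → Leg) {g : Prm N} (hg : g ∈ Good L) : StrictMono g.2.1 := by
  rw [Fin.strictMono_iff_lt_succ]
  intro i
  have h1 := (L i).lo_le (g.2.2.2 i)
  have h2 := (L i).le_hi (g.2.2.2 i)
  have h3 := (hg.2 i).2
  linarith [h1.1, h2.1, h3.1, h3.2]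

private theorem rho_le_tlo {N : ℕ} (L : Fin N → Leg) {g : Prm N} (hg : g ∈ Good L) (e : Fin N × Fin 4) :
    g.2.1 e.1.castSucc ≤ tlo L g e := by
  unfold tlo
  split_ifs
  · exact le_rfl
  · exact (hg.2 e.1).2.1.le

private theorem rho_lt_tlo {N : ℕ} (L : Fin N → Leg) {g : Prm N} (hg : g ∈ Good L) {e : Fin N × Fin 4}
    (he : e.2 ≠ 0) : g.2.1 e.1.castSucc < tlo L g e := by
  unfold tlo
  rw [if_neg he]
  exact (hg.2 e.1).2.1

private theorem thi_lt_rho {N : ℕ} (L : Fin N → Leg) {g : Prm N} (hg : g ∈ Good L) (e : Fin N × Fin 4) :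
    thi L g e < g.2.1 e.1.succ := by
  unfold thi
  split_ifs
  · exact rho_mono L hg (Fin.castSucc_lt_succ)
  · exact (hg.2 e.1).2.2

private theorem rho0_le {N : ℕ} (L : Fin N → Leg) {g : Prm N} (hg : g ∈ Good L) (e : Fin N × Fin 4) :
    g.2.1 0 ≤ tlo L g e :=
  ((rho_mono L hg).monotone (Fin.zero_le _)).trans (rho_le_tlo L hg e)

private theorem lt_rho0 {N : ℕ} (L : Fin N → Leg) {g : Prm N} (hg : g ∈ Good L) (e : Fin N × Fin 4) :
    thi L g e < g.2.1 0 + 2 * π := by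
  rw [← hg.1]
  exact (thi_lt_rho L hg e).trans_le ((rho_mono L hg).monotone (Fin.le_last _))

private theorem thi_lt_tlo {N : ℕ} (L : Fin N → Leg) {g : Prm N} (hg : g ∈ Good L) {e f : Fin N × Fin 4}
    (h : e.1 < f.1 ∨ e.1 = f.1 ∧ e.2 = 0 ∧ f.2 ≠ 0) : thi L g e < tlo L g f := by
  rcases h with h | ⟨h, h0, h1⟩
  · refine (thi_lt_rho L hg e).trans_le (le_trans ?_ (rho_le_tlo L hg f))
    refine (rho_mono L hg).monotone ?_
    rw [Fin.le_def, Fin.val_succ, Fin.val_castSucc]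
    exact h
  · have h2 : thi L g e = g.2.1 e.1.castSucc := by
      unfold thi
      rw [if_pos h0]
    rw [h2, h]
    exact rho_lt_tlo L hg h1

/-- two bars with different directions meet only in the centre -/
private theorem meet_far {N : ℕ} (L : Fin N → Leg) {A : ℝ} (hA : 0 < A) {g : Prm N} (hg : g ∈ Good L)
    {e f : Fin N × Fin 4} (h : thi L g e < tlo L g f) {z : ℂ}
    (hz : z ∈ segment ℝ (pos L A g (st e)) (pos L A g (some e)))
    (hz' : z ∈ segment ℝ (pos L A g (st f)) (pos L A g (some f))) : z = g.1 := by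
  obtain ⟨_, t, h1, h2, h3⟩ := bar_dir L hA hg e hz
  obtain ⟨_, t', h1', h2', h3'⟩ := bar_dir L hA hg f hz'
  by_contra hne
  have hr : 0 < ‖z - g.1‖ := norm_pos_iff.2 (sub_ne_zero.2 hne)
  obtain ⟨_, k, hk⟩ := dir_eq hr hr (h3.symm.trans h3')
  have h4 := rho0_le L hg e
  have h5 := lt_rho0 L hg f
  have h6 : 0 < (k : ℝ) * (2 * π) := by linarith
  have h7 : (k : ℝ) * (2 * π) < 1 * (2 * π) := by linarith
  have h8 : (0 : ℝ) < k := by
    by_contra h9
    have := mul_nonpos_of_nonpos_of_nonneg (not_lt.1 h9) (by positivity : (0 : ℝ) ≤ 2 * π)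
    linarith
  have h9 : (k : ℝ) < 1 := lt_of_mul_lt_mul_right h7 (by positivity)
  have h10 : (0 : ℤ) < k := by exact_mod_cast h8
  have h11 : k < (1 : ℤ) := by exact_mod_cast h9
  omega

/-! inside a leg -/

private theorem exp_im_ne {b : ℝ} (hb : |b| < π) (hb0 : b ≠ 0) : sin b ≠ 0 := by
  intro h
  obtain ⟨h1, h2⟩ := abs_lt.1 hb
  exact hb0 ((sin_eq_zero_iff_of_lt_of_lt h1 h2).1 h)

/-- `-τ y = σ u e^(ib)` only for `τ = σ = 0` -/
private theorem opp {b τ σ y u : ℝ} (hb : |b| < π) (hy : 0 < y) (hu : 0 < u) (hτ : 0 ≤ τ) (hσ : 0 ≤ σ)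
    (h : -((τ * y : ℝ) : ℂ) = ((σ * u : ℝ) : ℂ) * Complex.exp (b * Complex.I)) : τ = 0 ∧ σ = 0 := by
  have hre := congrArg Complex.re h
  have him := congrArg Complex.im h
  rw [Complex.re_ofReal_mul, Complex.exp_ofReal_mul_I_re, Complex.neg_re, Complex.ofReal_re] at hre
  rw [Complex.im_ofReal_mul, Complex.exp_ofReal_mul_I_im, Complex.neg_im, Complex.ofReal_im] at him
  have hσ0 : σ = 0 := by
    by_cases hb0 : b = 0
    · rw [hb0, cos_zero] at hre
      have h1 : 0 ≤ τ * y := mul_nonneg hτ hy.le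
      have h2 : 0 ≤ σ * u := mul_nonneg hσ hu.le
      have h3 : σ * u = 0 := by linarith
      exact (mul_eq_zero.1 h3).resolve_right hu.ne'
    · have h3 : σ * u * sin b = 0 := by linarith
      have h4 := (mul_eq_zero.1 h3).resolve_right (exp_im_ne hb hb0)
      exact (mul_eq_zero.1 h4).resolve_right hu.ne'
  refine ⟨?_, hσ0⟩
  rw [hσ0, zero_mul, zero_mul] at hre
  have h3 : τ * y = 0 := by linarith
  exact (mul_eq_zero.1 h3).resolve_right hy.ne'

private theorem inner12 (L : Leg) {s : ℝ × ℝ} (hs : L.Ok s) {ζ : ℂ} (h1 : ζ ∈ segment ℝ (0 : ℂ) (L.x : ℂ))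
    (h2 : ζ ∈ segment ℝ (L.x : ℂ) (L.Q s.1)) : ζ = L.x := by
  obtain ⟨a, b, ha, hb, hab, rfl⟩ := h1
  obtain ⟨a', b', ha', hb', hab', h⟩ := h2
  have e1 : (a : ℂ) = 1 - b := by
    have : a = 1 - b := by linarith
    rw [this]; push_cast; ring
  have e2 : (a' : ℂ) = 1 - b' := by
    have : a' = 1 - b' := by linarith
    rw [this]; push_cast; ring
  unfold Leg.Q at h
  simp only [Complex.real_smul, mul_zero, zero_add] at h ⊢
  rw [e2] at h
  obtain ⟨h3, h4⟩ := opp (b := s.1) (τ := a) (σ := b') hs.1 L.x_pos L.y_pos ha hb' (by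
    push_cast
    rw [e1]
    linear_combination -h)
  have h5 : b = 1 := by linarith
  rw [h5]
  push_cast
  ring

private theorem inner23 (L : Leg) {s : ℝ × ℝ} (hs : L.Ok s) {ζ : ℂ} (h1 : ζ ∈ segment ℝ (L.x : ℂ) (L.Q s.1))
    (h2 : ζ ∈ segment ℝ (L.Q s.1) (L.U s)) : ζ = L.Q s.1 := by
  obtain ⟨a, b, ha, hb, hab, rfl⟩ := h1
  obtain ⟨a', b', ha', hb', hab', h⟩ := h2
  have e1 : (b : ℂ) = 1 - a := by
    have : b = 1 - a := by linarith
    rw [this]; push_cast; ring
  have e2 : (a' : ℂ) = 1 - b' := by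
    have : a' = 1 - b' := by linarith
    rw [this]; push_cast; ring
  have hexp : Complex.exp (((s.1 + s.2 : ℝ) : ℂ) * Complex.I) =
      Complex.exp (s.1 * Complex.I) * Complex.exp (s.2 * Complex.I) := by
    rw [← Complex.exp_add]
    push_cast
    rw [add_mul]
  have hE : Complex.exp (s.1 * Complex.I) ≠ 0 := Complex.exp_ne_zero _
  unfold Leg.U at h
  unfold Leg.Q at h ⊢
  rw [hexp] at h
  simp only [Complex.real_smul] at h ⊢
  rw [e1, e2] at h
  obtain ⟨h3, h4⟩ := opp (b := s.2) (τ := a) (σ := b') hs.2.1 L.y_pos L.u_pos ha hb' (by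
    push_cast
    refine mul_left_cancel₀ hE ?_
    linear_combination -h)
  rw [h3]
  have h5 : b = 1 := by linarith
  rw [h5]
  push_cast
  ring

/-- two bars of one leg -/
private theorem meet_near {N : ℕ} (L : Fin N → Leg) {A : ℝ} {g : Prm N} (hg : g ∈ Good L)
    (i : Fin N) {k l : Fin 4} (hk : k ≠ 0) (hkl : k < l) {z : ℂ}
    (hz : z ∈ segment ℝ (pos L A g (st (i, k))) (pos L A g (some (i, k))))
    (hz' : z ∈ segment ℝ (pos L A g (st (i, l))) (pos L A g (some (i, l)))) :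
    st (i, l) = some (i, k) ∧ z = pos L A g (some (i, k)) := by
  have hok := (hg.2 i).1
  have hE : Complex.exp (g.2.2.1 i * Complex.I) ≠ 0 := Complex.exp_ne_zero _
  have hcan : ∀ ζ ζ' : ℂ, z = g.1 + Complex.exp (g.2.2.1 i * Complex.I) * ζ →
      z = g.1 + Complex.exp (g.2.2.1 i * Complex.I) * ζ' → ζ = ζ' := by
    intro ζ ζ' h h'
    refine mul_left_cancel₀ hE ?_
    linear_combination h' - h
  fin_cases k
  · exact absurd rfl hk
  · have h1 : z ∈ segment ℝ (g.1 + Complex.exp (g.2.2.1 i * Complex.I) * 0)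
        (g.1 + Complex.exp (g.2.2.1 i * Complex.I) * ((L i).x : ℂ)) := by
      rw [mul_zero, add_zero]
      exact hz
    obtain ⟨ζ, h2, h3⟩ := seg_move h1
    fin_cases l
    · exact absurd hkl (by decide)
    · exact absurd hkl (by decide)
    · obtain ⟨ζ', h2', h3'⟩ := seg_move (O := g.1) (e := Complex.exp (g.2.2.1 i * Complex.I)) hz'
      have h4 := hcan ζ ζ' h3 h3'
      subst h4
      refine ⟨rfl, ?_⟩
      rw [h3, inner12 (L i) hok h2 h2']
      rfl
    · obtain ⟨ζ', h2', h3'⟩ := seg_move (O := g.1) (e := Complex.exp (g.2.2.1 i * Complex.I)) hz'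
      have h4 := hcan ζ ζ' h3 h3'
      subst h4
      exact absurd h2' (hok.2.2 ζ h2)
  · obtain ⟨ζ, h2, h3⟩ := seg_move (O := g.1) (e := Complex.exp (g.2.2.1 i * Complex.I)) hz
    fin_cases l
    · exact absurd hkl (by decide)
    · exact absurd hkl (by decide)
    · exact absurd hkl (by decide)
    · obtain ⟨ζ', h2', h3'⟩ := seg_move (O := g.1) (e := Complex.exp (g.2.2.1 i * Complex.I)) hz'
      have h4 := hcan ζ ζ' h3 h3'
      subst h4
      refine ⟨rfl, ?_⟩
      rw [h3, inner23 (L i) hok h2 h2']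
      rfl
  · fin_cases l <;> exact absurd hkl (by decide)

private theorem st_none {N : ℕ} {e : Fin N × Fin 4} (h : ¬ 1 < e.2) : st e = none := by
  obtain ⟨i, k⟩ := e
  fin_cases k
  · rfl
  · rfl
  · exact absurd (by decide : (1 : Fin 4) < 2) h
  · exact absurd (by decide : (1 : Fin 4) < 3) h

/-- the direction of a bar at the centre -/
private noncomputable def tm {N : ℕ} (g : Prm N) (e : Fin N × Fin 4) : ℝ :=
  if e.2 = 0 then g.2.1 e.1.castSucc else g.2.2.1 e.1

private theorem tm_lo {N : ℕ} (L : Fin N → Leg) (g : Prm N) (e : Fin N × Fin 4) : tlo L g e ≤ tm g e := by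
  unfold tlo tm
  split_ifs
  · exact le_rfl
  · linarith [((L e.1).lo_le (g.2.2.2 e.1)).1]

private theorem tm_hi {N : ℕ} (L : Fin N → Leg) (g : Prm N) (e : Fin N × Fin 4) : tm g e ≤ thi L g e := by
  unfold thi tm
  split_ifs
  · exact le_rfl
  · linarith [((L e.1).le_hi (g.2.2.2 e.1)).1]

private theorem tm_spec {N : ℕ} (L : Fin N → Leg) {A : ℝ} (hA : 0 < A) (g : Prm N) {e : Fin N × Fin 4}
    (he : e.2 ≤ 1) : ∃ r : ℝ, 0 < r ∧ pos L A g (some e) - pos L A g none =
      r * Complex.exp (tm g e * Complex.I) := by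
  obtain ⟨i, k⟩ := e
  fin_cases k
  · exact ⟨A, hA, add_sub_cancel_left _ _⟩
  · exact ⟨(L i).x, (L i).x_pos, (add_sub_cancel_left _ _).trans (mul_comm _ _)⟩
  · exact absurd he (by decide : ¬ (2 : Fin 4) ≤ 1)
  · exact absurd he (by decide : ¬ (3 : Fin 4) ≤ 1)

theorem continuous_pos {N : ℕ} (L : Fin N → Leg) (A : ℝ) : Continuous (pos L A) := by
  refine continuous_pi fun v => ?_
  have hO : Continuous fun g : Prm N => g.1 := continuous_fst
  have hρ : ∀ j, Continuous fun g : Prm N => g.2.1 j := fun j =>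
    (continuous_apply j).comp (continuous_fst.comp continuous_snd)
  have hβ : ∀ i, Continuous fun g : Prm N => g.2.2.1 i := fun i =>
    (continuous_apply i).comp (continuous_fst.comp (continuous_snd.comp continuous_snd))
  have hs : ∀ i, Continuous fun g : Prm N => g.2.2.2 i := fun i =>
    (continuous_apply i).comp (continuous_snd.comp (continuous_snd.comp continuous_snd))
  have hexp : ∀ {f : Prm N → ℝ}, Continuous f → Continuous fun g => Complex.exp ((f g : ℂ) * Complex.I) :=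
    fun hf => Complex.continuous_exp.comp ((Complex.continuous_ofReal.comp hf).mul continuous_const)
  obtain _ | ⟨i, k⟩ := v
  · exact hO
  · fin_cases k
    · exact hO.add (continuous_const.mul (hexp (hρ i.castSucc)))
    · exact hO.add ((hexp (hβ i)).mul continuous_const)
    · exact hO.add ((hexp (hβ i)).mul ((L i).continuous_Q.comp (continuous_fst.comp (hs i))))
    · exact hO.add ((hexp (hβ i)).mul ((L i).continuous_U.comp (hs i)))

theorem pos_mem {N : ℕ} (L : Fin N → Leg) {A : ℝ} (hA : 0 < A) {g : Prm N} (hg : g ∈ Good L) :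
    pos L A g ∈ Sp L A := by
  refine ⟨?_, ?_, ?_⟩
  · rintro ⟨i, k⟩
    have hexp : ∀ t : ℝ, ‖Complex.exp (t * Complex.I)‖ = 1 := Complex.norm_exp_ofReal_mul_I
    fin_cases k
    · change dist g.1 (g.1 + A * Complex.exp (g.2.1 i.castSucc * Complex.I)) = A
      rw [dist_self_add_right, norm_mul, hexp, mul_one, Complex.norm_real, Real.norm_of_nonneg hA.le]
    · change dist g.1 (g.1 + Complex.exp (g.2.2.1 i * Complex.I) * (L i).x) = (L i).x
      rw [dist_self_add_right, norm_mul, hexp, one_mul, Complex.norm_real,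
        Real.norm_of_nonneg (L i).x_pos.le]
    · change dist (g.1 + Complex.exp (g.2.2.1 i * Complex.I) * (L i).x)
        (g.1 + Complex.exp (g.2.2.1 i * Complex.I) * (L i).Q (g.2.2.2 i).1) = (L i).y
      have h1 : g.1 + Complex.exp (g.2.2.1 i * Complex.I) * (L i).Q (g.2.2.2 i).1 =
          (g.1 + Complex.exp (g.2.2.1 i * Complex.I) * (L i).x) +
            Complex.exp (g.2.2.1 i * Complex.I) * ((L i).y * Complex.exp ((g.2.2.2 i).1 * Complex.I)) := by
        unfold Leg.Q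
        ring
      rw [h1, dist_self_add_right, norm_mul, norm_mul, hexp, hexp, one_mul, mul_one, Complex.norm_real,
        Real.norm_of_nonneg (L i).y_pos.le]
    · change dist (g.1 + Complex.exp (g.2.2.1 i * Complex.I) * (L i).Q (g.2.2.2 i).1)
        (g.1 + Complex.exp (g.2.2.1 i * Complex.I) * (L i).U (g.2.2.2 i)) = (L i).u
      have h1 : g.1 + Complex.exp (g.2.2.1 i * Complex.I) * (L i).U (g.2.2.2 i) =
          (g.1 + Complex.exp (g.2.2.1 i * Complex.I) * (L i).Q (g.2.2.2 i).1) +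
            Complex.exp (g.2.2.1 i * Complex.I) * ((L i).u *
              Complex.exp ((((g.2.2.2 i).1 + (g.2.2.2 i).2 : ℝ) : ℂ) * Complex.I)) := by
        unfold Leg.U
        ring
      rw [h1, dist_self_add_right, norm_mul, norm_mul, hexp, hexp, one_mul, mul_one, Complex.norm_real,
        Real.norm_of_nonneg (L i).u_pos.le]
  · intro e f hef z hz hz'
    -- the two possible orders
    have hfar : ∀ e f : Fin N × Fin 4, (e.1 < f.1 ∨ e.1 = f.1 ∧ e.2 = 0 ∧ f.2 ≠ 0) →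
        z ∈ segment ℝ (pos L A g (st e)) (pos L A g (some e)) →
        z ∈ segment ℝ (pos L A g (st f)) (pos L A g (some f)) →
        ∃ w, (w = st e ∨ w = some e) ∧ (w = st f ∨ w = some f) ∧ z = pos L A g w := by
      intro e f h hz hz'
      have h0 := meet_far L hA hg (thi_lt_tlo L hg h) hz hz'
      have he : ¬ 1 < e.2 := fun h1 => (bar_dir L hA hg e hz).1 h1 h0
      have hf : ¬ 1 < f.2 := fun h1 => (bar_dir L hA hg f hz').1 h1 h0
      exact ⟨none, Or.inl (st_none he).symm, Or.inl (st_none hf).symm, h0⟩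
    have hsw : ∀ e f : Fin N × Fin 4,
        (∃ w, (w = st e ∨ w = some e) ∧ (w = st f ∨ w = some f) ∧ z = pos L A g w) →
        ∃ w, (w = st f ∨ w = some f) ∧ (w = st e ∨ w = some e) ∧ z = pos L A g w := by
      rintro e f ⟨w, h1, h2, h3⟩
      exact ⟨w, h2, h1, h3⟩
    rcases lt_trichotomy e.1 f.1 with h | h | h
    · exact hfar e f (Or.inl h) hz hz'
    · by_cases h0 : e.2 = 0
      · have h1 : f.2 ≠ 0 := fun h1 => hef (Prod.ext h (h0.trans h1.symm))
        exact hfar e f (Or.inr ⟨h, h0, h1⟩) hz hz'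
      · by_cases h1 : f.2 = 0
        · exact hsw _ _ (hfar f e (Or.inr ⟨h.symm, h1, h0⟩) hz' hz)
        · obtain ⟨i, k⟩ := e
          obtain ⟨j, l⟩ := f
          simp only at h h0 h1
          subst h
          have hkl : k ≠ l := fun hkl => hef (by rw [hkl])
          rcases lt_or_gt_of_ne hkl with h2 | h2
          · obtain ⟨h3, h4⟩ := meet_near L hg i h0 h2 hz hz'
            exact ⟨some (i, k), Or.inr rfl, Or.inl h3.symm, h4⟩
          · obtain ⟨h3, h4⟩ := meet_near L hg i h1 h2 hz' hz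
            exact ⟨some (i, l), Or.inl h3.symm, Or.inr rfl, h4⟩
    · exact hsw _ _ (hfar f e (Or.inl h) hz' hz)
  · intro e f f' he hf hf' hef hff'
    have hlt : ∀ e f : Fin N × Fin 4, e.2 ≤ 1 → f.2 ≤ 1 → num e < num f → tm g e < tm g f := by
      intro e f he hf h
      refine (tm_hi L g e).trans_lt ((thi_lt_tlo L hg ?_).trans_le (tm_lo L g f))
      unfold num at h
      have h1 : e.2.1 ≤ 1 := he
      have h2 : f.2.1 ≤ 1 := hf
      rcases lt_trichotomy e.1 f.1 with h3 | h3 | h3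
      · exact Or.inl h3
      · have h4 : e.1.1 = f.1.1 := congrArg Fin.val h3
        refine Or.inr ⟨h3, Fin.ext ?_, fun h5 => ?_⟩
        · change e.2.1 = 0
          omega
        · have h6 : f.2.1 = 0 := congrArg Fin.val h5
          omega
      · have h4 : f.1.1 < e.1.1 := h3
        omega
    obtain ⟨r, hr, h1⟩ := tm_spec L hA g he
    obtain ⟨r', hr', h2⟩ := tm_spec L hA g hf
    obtain ⟨r'', hr'', h3⟩ := tm_spec L hA g hf'
    have h4 := hlt e f he hf hef
    have h5 := hlt f f' hf hf' hff'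
    have h6 := (rho0_le L hg e).trans (tm_lo L g e)
    have h7 := (tm_hi L g f').trans_lt (lt_rho0 L hg f')
    rw [h1, h2, h3, turn_exp hr hr' h4 (by linarith), turn_exp hr hr'' (h4.trans h5) (by linarith)]
    linarith

end LockTree
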