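import Pool.Agent.Lib.MP_14e06f_lc.Spider.LC

set_option autoImplicit false

/-!
# Spiders, row LA: the inequalities on the closure of the hooked set
-/

namespace LockTree

open Real

private theorem arcsin_le_aux {r t : ℝ} (hr0 : 0 ≤ r) (hr1 : r ≤ 1) (ht0 : 0 ≤ t) (ht1 : t ≤ π / 2)
    (h : r ^ 2 ≤ 1 - cos t ^ 2) : arcsin r ≤ t := by
  rw [arcsin_le_iff_le_sin ⟨by linarith, hr1⟩ ⟨by linarith [pi_pos], ht1⟩]
  have h1 : 0 ≤ sin t := sin_nonneg_of_nonneg_of_le_pi ht0 (by linarith [pi_pos])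
  have h2 : sin t ^ 2 = 1 - cos t ^ 2 := by
    have := sin_sq_add_cos_sq t
    linarith
  by_contra h3
  push Not at h3
  nlinarith

section LA
variable (L : Leg)

private theorem quo_lt_one : (L.x ^ 2 + L.u ^ 2 - L.y ^ 2) / (2 * L.x * L.u) < 1 := by
  have hx := L.x_pos
  have hu := L.u_pos
  rw [div_lt_one (by positivity)]
  have h1 := L.x_lt
  have h2 := L.u_lt_x
  nlinarith [L.y_pos]

theorem Leg.phi_pos : 0 < L.phi := by
  unfold Leg.phi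
  rw [arccos_pos]
  exact quo_lt_one L

private theorem ratio_nonneg : 0 ≤ L.y / L.x := div_nonneg L.y_pos.le L.x_pos.le

private theorem ratio_le : L.y / L.x ≤ 1 := by
  rw [div_le_one L.x_pos]
  exact L.y_lt_x.le

private theorem psi_nonneg : 0 ≤ L.psi := by
  unfold Leg.psi
  rw [arcsin_nonneg]
  exact ratio_nonneg L

theorem Leg.phi_lt_psi : L.phi < L.psi := by
  have hx := L.x_pos
  have hu := L.u_pos
  have hp : L.psi ≤ π := (arcsin_le_pi_div_two _).trans (by linarith [pi_pos])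
  rw [← arccos_cos (psi_nonneg L) hp]
  unfold Leg.phi
  refine arccos_lt_arccos (neg_one_le_cos _) ?_ (quo_lt_one L).le
  unfold Leg.psi
  rw [cos_arcsin, div_pow]
  have h1 : 1 - L.y ^ 2 / L.x ^ 2 = (L.x ^ 2 - L.y ^ 2) / L.x ^ 2 := by
    field_simp
  rw [h1, sqrt_div (by nlinarith [L.y_lt_x, L.y_pos]), sqrt_sq hx.le, div_lt_div_iff₀ hx (by positivity)]
  set m := √(L.x ^ 2 - L.y ^ 2) with hm
  have hm2 : m ^ 2 = L.x ^ 2 - L.y ^ 2 := sq_sqrt (by nlinarith [L.y_lt_x, L.y_pos])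
  have hm0 : 0 ≤ m := sqrt_nonneg _
  have hum : L.u < m := by
    by_contra h
    push Not at h
    nlinarith [L.sq_lt]
  have h2 : 0 < (m - L.u) ^ 2 := by
    have : 0 < m - L.u := by linarith
    positivity
  have h3 : 2 * m * L.u < L.x ^ 2 + L.u ^ 2 - L.y ^ 2 := by nlinarith
  have h4 := mul_lt_mul_of_pos_right h3 hx
  nlinarith

theorem Leg.psi_lt : L.psi < π / 4 := by
  unfold Leg.psi
  rw [arcsin_lt_iff_lt_sin' ⟨by linarith [pi_pos], by linarith [pi_pos]⟩, sin_pi_div_four,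
    div_lt_iff₀ L.x_pos]
  have h2 : √2 ^ 2 = 2 := sq_sqrt (by norm_num)
  have h3 : 0 < √2 := by positivity
  have h4 : 2 * L.y ^ 2 < L.x ^ 2 := by nlinarith [L.sq_lt, L.y_lt, L.y_pos]
  by_contra h
  push Not at h
  have h5 : 0 ≤ √2 / 2 * L.x := by
    have := L.x_pos
    positivity
  have h6 : (√2 / 2 * L.x) ^ 2 ≤ L.y ^ 2 := pow_le_pow_left₀ h5 h 2
  nlinarith

/-- `Re Q` by `‖Q‖` -/
private theorem two_x_re (s : ℝ × ℝ) : 2 * L.x * (L.Q s.1).re = L.x ^ 2 + ‖L.Q s.1‖ ^ 2 - L.y ^ 2 := by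
  rw [L.Q_re, L.norm_Q_sq]
  ring

private theorem norm_sq_le {s : ℝ × ℝ} (h1 : ‖L.Q s.1‖ ^ 2 ≤ L.x * (L.Q s.1).re) :
    ‖L.Q s.1‖ ^ 2 ≤ L.x ^ 2 - L.y ^ 2 := by
  have h := two_x_re L s
  nlinarith

private theorem u_sq (s : ℝ × ℝ) : L.u ^ 2 = ‖L.U s‖ ^ 2 + ‖L.Q s.1‖ ^ 2 -
    2 * (L.U s * (starRingEnd ℂ) (L.Q s.1)).re := by
  have h1 : ‖L.U s - L.Q s.1‖ = L.u := by
    unfold Leg.U
    rw [add_sub_cancel_left, norm_mul, Complex.norm_exp_ofReal_mul_I, mul_one, Complex.norm_real,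
      Real.norm_eq_abs, abs_of_pos L.u_pos]
  have h2 : ‖L.U s - L.Q s.1‖ ^ 2 = ‖L.U s‖ ^ 2 + ‖L.Q s.1‖ ^ 2 -
      2 * (L.U s * (starRingEnd ℂ) (L.Q s.1)).re := by
    rw [Complex.sq_norm, Complex.sq_norm, Complex.sq_norm, Complex.normSq_sub]
  rw [← h2, h1]

private theorem u_le {s : ℝ × ℝ} (h2 : ‖L.U s‖ ^ 2 ≤ (L.U s * (starRingEnd ℂ) (L.Q s.1)).re) :
    L.u ≤ ‖L.Q s.1‖ := by
  have h := u_sq L s
  have hu := L.u_pos
  have hq := norm_nonneg (L.Q s.1)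
  by_contra h3
  push Not at h3
  nlinarith [sq_nonneg ‖L.U s‖]

private theorem cos_th_eq (s : ℝ × ℝ) : cos (L.th s.1) =
    (L.x ^ 2 + ‖L.Q s.1‖ ^ 2 - L.y ^ 2) / (2 * L.x * ‖L.Q s.1‖) := by
  have h := L.cos_th s.1
  have h1 := two_x_re L s
  rw [L.Q_re] at h1
  have hq := L.norm_Q_pos s.1
  have hx := L.x_pos
  rw [eq_div_iff (by positivity), ← h1, ← h]
  ring

theorem Leg.phi_le {s : ℝ × ℝ} (h1 : ‖L.Q s.1‖ ^ 2 ≤ L.x * (L.Q s.1).re)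
    (h2 : ‖L.U s‖ ^ 2 ≤ (L.U s * (starRingEnd ℂ) (L.Q s.1)).re) : L.phi ≤ L.wd s := by
  refine le_trans ?_ (L.abs_th_le s)
  have hth := L.abs_th_lt s.1
  rw [← arccos_cos (abs_nonneg (L.th s.1)) (by linarith [pi_pos]), cos_abs]
  unfold Leg.phi
  apply arccos_le_arccos
  rw [cos_th_eq]
  have hq := L.norm_Q_pos s.1
  have hx := L.x_pos
  have hu := L.u_pos
  have hq2 := norm_sq_le L h1
  have huq := u_le L h2
  rw [div_le_div_iff₀ (by positivity) (by positivity)]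
  set q := ‖L.Q s.1‖ with hqd
  have h3 : 0 ≤ (q - L.u) * ((L.x ^ 2 - L.y ^ 2) - L.u * q) := by
    refine mul_nonneg (by linarith) ?_
    nlinarith
  have h4 := mul_nonneg (by positivity : (0 : ℝ) ≤ 2 * L.x) h3
  nlinarith

theorem Leg.psi_le {s : ℝ × ℝ} (h : L.Ok s) (h1 : ‖L.Q s.1‖ ^ 2 ≤ L.x * (L.Q s.1).re)
    (h2 : ‖L.U s‖ ^ 2 ≤ (L.U s * (starRingEnd ℂ) (L.Q s.1)).re) (h3 : ¬ L.Hk s) :
    L.psi ≤ L.wd s := by
  have hq := L.norm_Q_pos s.1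
  have hx := L.x_pos
  have hu := L.u_pos
  have hy := L.y_pos
  have hq2 := norm_sq_le L h1
  have hcase : ‖L.Q s.1‖ ^ 2 = L.x * (L.Q s.1).re ∨
      ‖L.U s‖ ^ 2 = (L.U s * (starRingEnd ℂ) (L.Q s.1)).re := by
    by_contra hc
    push Not at hc
    exact h3 ⟨lt_of_le_of_ne h1 hc.1, lt_of_le_of_ne h2 hc.2⟩
  rcases hcase with hA | hB
  · refine le_trans ?_ (L.abs_th_le s)
    have hth := L.abs_th_lt s.1
    unfold Leg.psi
    refine arcsin_le_aux (ratio_nonneg L) (ratio_le L) (abs_nonneg _) hth.le ?_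
    rw [cos_abs, cos_th_eq]
    have h4 := two_x_re L s
    have h5 : ‖L.Q s.1‖ ^ 2 = L.x ^ 2 - L.y ^ 2 := by nlinarith
    have h6 : (L.x ^ 2 + ‖L.Q s.1‖ ^ 2 - L.y ^ 2) / (2 * L.x * ‖L.Q s.1‖) = ‖L.Q s.1‖ / L.x := by
      rw [div_eq_div_iff (by positivity) (by positivity)]
      nlinarith
    rw [h6, div_pow, div_pow, h5]
    have h7 : 1 - (L.x ^ 2 - L.y ^ 2) / L.x ^ 2 = L.y ^ 2 / L.x ^ 2 := by
      field_simp
      ring
    rw [h7]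
  · refine le_trans ?_ (L.abs_ta_le s)
    have hz := h.slit
    have hz0 : L.U s / L.Q s.1 ≠ 0 := Complex.slitPlane_ne_zero hz
    have hU0 : L.U s ≠ 0 := fun hc => hz0 (by rw [hc, zero_div])
    have hUpos : 0 < ‖L.U s‖ := norm_pos_iff.2 hU0
    have hre : (L.U s / L.Q s.1).re = ‖L.U s‖ ^ 2 / ‖L.Q s.1‖ ^ 2 := by
      have e1 : L.U s / L.Q s.1 = L.U s * (starRingEnd ℂ) (L.Q s.1) / ((‖L.Q s.1‖ ^ 2 : ℝ) : ℂ) := by
        rw [Complex.sq_norm, div_eq_mul_inv, Complex.inv_def, ← mul_assoc, Complex.ofReal_inv, div_eq_mul_inv]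
      rw [e1, Complex.div_ofReal_re, hB]
    have hnorm : ‖L.U s / L.Q s.1‖ = ‖L.U s‖ / ‖L.Q s.1‖ := norm_div _ _
    have hlt : |L.ta s| < π / 2 := by
      unfold Leg.ta
      rw [Complex.abs_arg_lt_pi_div_two_iff]
      left
      rw [hre]
      positivity
    unfold Leg.psi
    refine arcsin_le_aux (ratio_nonneg L) (ratio_le L) (abs_nonneg _) hlt.le ?_
    rw [cos_abs]
    unfold Leg.ta
    rw [Complex.cos_arg hz0, hre, hnorm]
    have h4 : ‖L.U s‖ ^ 2 / ‖L.Q s.1‖ ^ 2 / (‖L.U s‖ / ‖L.Q s.1‖) = ‖L.U s‖ / ‖L.Q s.1‖ := by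
      field_simp
    have h5 := u_sq L s
    have h6 : ‖L.U s‖ ^ 2 = ‖L.Q s.1‖ ^ 2 - L.u ^ 2 := by linarith
    rw [h4, div_pow, div_pow, h6]
    have h7 : 1 - (‖L.Q s.1‖ ^ 2 - L.u ^ 2) / ‖L.Q s.1‖ ^ 2 = L.u ^ 2 / ‖L.Q s.1‖ ^ 2 := by
      field_simp
      ring
    rw [h7, div_le_div_iff₀ (by positivity) (by positivity)]
    have h8 : L.y ^ 2 ≤ L.u ^ 2 := pow_le_pow_left₀ hy.le L.y_lt.le 2
    have h9 : ‖L.Q s.1‖ ^ 2 ≤ L.x ^ 2 := by nlinarith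
    exact mul_le_mul h8 h9 (by positivity) (by positivity)

end LA

end LockTree
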