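import Pool.Agent.Lib.MP_14e06f_lc.Spider.Geo
import Pool.Agent.Lib.MP_14e06f_lc.Spider.LC

set_option autoImplicit false

/-!
# The fibres of the parameters over the shapes are convex, and there is a section
-/

namespace LockTree

open Real

namespace SecAux

theorem sum_tele {N : ℕ} (f : Fin (N + 1) → ℝ) :
    ∑ i : Fin N, (f i.succ - f i.castSucc) = f (Fin.last N) - f 0 := by
  have h1 := Fin.sum_univ_succ f
  have h2 := Fin.sum_univ_castSucc f
  rw [Finset.sum_sub_distrib]
  linarith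

/-- half of the free angle per leg -/
noncomputable def sg {N : ℕ} (L : Fin N → Leg) (s : Fin N → ℝ × ℝ) : ℝ :=
  (2 * π - ∑ i, (L i).wd (s i)) / (2 * N)

/-- the directions of the long bars -/
noncomputable def rh {N : ℕ} (L : Fin N → Leg) (s : Fin N → ℝ × ℝ) (j : Fin (N + 1)) : ℝ :=
  ∑ i : Fin N, if i.1 < j.1 then (L i).wd (s i) + 2 * sg L s else 0

/-- the directions of the legs -/
noncomputable def be {N : ℕ} (L : Fin N → Leg) (s : Fin N → ℝ × ℝ) (i : Fin N) : ℝ :=
  rh L s i.castSucc + sg L s - (L i).lo (s i)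

/-- the section -/
noncomputable def sec {N : ℕ} (L : Fin N → Leg) (o : ℂ) (s : Fin N → ℝ × ℝ) : Prm N :=
  (o, rh L s, be L s, s)

theorem rh_zero {N : ℕ} (L : Fin N → Leg) (s : Fin N → ℝ × ℝ) : rh L s 0 = 0 := by
  unfold rh
  simp

theorem rh_last {N : ℕ} (L : Fin N → Leg) (hN : 0 < N) (s : Fin N → ℝ × ℝ) :
    rh L s (Fin.last N) = 2 * π := by
  unfold rh
  have h1 : ∀ i : Fin N, (if i.1 < (Fin.last N).1 then (L i).wd (s i) + 2 * sg L s else 0)
      = (L i).wd (s i) + 2 * sg L s := by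
    intro i
    rw [if_pos]
    simp [Fin.val_last]
  rw [Finset.sum_congr rfl (fun i _ => h1 i), Finset.sum_add_distrib, Finset.sum_const,
    Finset.card_univ, Fintype.card_fin, nsmul_eq_mul]
  unfold sg
  have : (N : ℝ) ≠ 0 := by exact_mod_cast hN.ne'
  field_simp
  ring

theorem rh_succ {N : ℕ} (L : Fin N → Leg) (s : Fin N → ℝ × ℝ) (i : Fin N) :
    rh L s i.succ = rh L s i.castSucc + ((L i).wd (s i) + 2 * sg L s) := by
  unfold rh
  have h1 : ((L i).wd (s i) + 2 * sg L s)
      = ∑ k : Fin N, if k = i then (L k).wd (s k) + 2 * sg L s else 0 := by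
    rw [Finset.sum_ite_eq' Finset.univ i]
    simp
  rw [h1, ← Finset.sum_add_distrib]
  refine Finset.sum_congr rfl (fun k _ => ?_)
  simp only [Fin.val_succ, Fin.val_castSucc]
  by_cases h2 : k = i
  · subst h2
    simp
  · have h3 : k.1 ≠ i.1 := fun h => h2 (Fin.ext h)
    by_cases h4 : k.1 < i.1
    · rw [if_pos (by omega), if_pos h4, if_neg h2, add_zero]
    · rw [if_neg (by omega), if_neg h4, if_neg h2, add_zero]

theorem sg_pos {N : ℕ} (L : Fin N → Leg) (hN : 0 < N) {s : Fin N → ℝ × ℝ} (hs : s ∈ Shp L) :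
    0 < sg L s := by
  unfold sg
  have : (0 : ℝ) < N := by exact_mod_cast hN
  apply div_pos
  · linarith [hs.2]
  · positivity

theorem sec_mem {N : ℕ} (L : Fin N → Leg) (hN : 0 < N) (o : ℂ) {s : Fin N → ℝ × ℝ}
    (hs : s ∈ Shp L) : sec L o s ∈ Good L := by
  have h0 := sg_pos L hN hs
  refine ⟨?_, fun i => ⟨hs.1 i, ?_, ?_⟩⟩
  · show rh L s (Fin.last N) = rh L s 0 + 2 * π
    rw [rh_last L hN, rh_zero, zero_add]
  · show rh L s i.castSucc < be L s i + (L i).lo (s i)
    unfold be
    linarith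
  · show be L s i + (L i).hi (s i) < rh L s i.succ
    rw [rh_succ]
    unfold be Leg.wd
    linarith

theorem joined_fib {N : ℕ} (L : Fin N → Leg) {g g' : Prm N} (hg : g ∈ Good L)
    (hg' : g' ∈ Good L) (h : g.2.2.2 = g'.2.2.2) : JoinedIn (Good L) g g' := by
  apply JoinedIn.of_segment_subset
  rintro z ⟨a, b, ha, hb, hab, rfl⟩
  obtain ⟨o, r, t, s⟩ := g
  obtain ⟨o', r', t', s'⟩ := g'
  simp only at h
  subst h
  have hs : a • s + b • s = s := by rw [← add_smul, hab, one_smul]
  obtain ⟨h1, h2⟩ := hg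
  obtain ⟨h1', h2'⟩ := hg'
  simp only at h1 h2 h1' h2'
  refine ⟨?_, fun i => ?_⟩
  · show (a • r + b • r') (Fin.last N) = (a • r + b • r') 0 + 2 * π
    simp only [Pi.add_apply, Pi.smul_apply, smul_eq_mul]
    rw [h1, h1']
    linear_combination (2 * π) * hab
  · show (L i).Ok ((a • s + b • s) i) ∧
      (a • r + b • r') i.castSucc < (a • t + b • t') i + (L i).lo ((a • s + b • s) i) ∧
      (a • t + b • t') i + (L i).hi ((a • s + b • s) i) < (a • r + b • r') i.succ
    rw [hs]
    simp only [Pi.add_apply, Pi.smul_apply, smul_eq_mul]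
    obtain ⟨h3, h4, h5⟩ := h2 i
    obtain ⟨h3', h4', h5'⟩ := h2' i
    refine ⟨h3, ?_, ?_⟩
    · have e : (L i).lo (s i) = a * (L i).lo (s i) + b * (L i).lo (s i) := by
        linear_combination (-(L i).lo (s i)) * hab
      rw [e]
      rcases eq_or_lt_of_le ha with h0 | h0
      · have hb1 : b = 1 := by linarith
        subst hb1
        rw [← h0]
        linarith
      · nlinarith [mul_lt_mul_of_pos_left h4 h0, mul_le_mul_of_nonneg_left h4'.le hb]
    · have e : (L i).hi (s i) = a * (L i).hi (s i) + b * (L i).hi (s i) := by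
        linear_combination (-(L i).hi (s i)) * hab
      rw [e]
      rcases eq_or_lt_of_le ha with h0 | h0
      · have hb1 : b = 1 := by linarith
        subst hb1
        rw [← h0]
        linarith
      · nlinarith [mul_lt_mul_of_pos_left h5 h0, mul_le_mul_of_nonneg_left h5'.le hb]

theorem joined_sec {N : ℕ} (L : Fin N → Leg) (hN : 0 < N) (o : ℂ) {s s' : Fin N → ℝ × ℝ}
    (h : JoinedIn (Shp L) s s') : JoinedIn (Good L) (sec L o s) (sec L o s') := by
  obtain ⟨γ, hγ⟩ := h
  have hw : ∀ i, Continuous (fun t => (L i).wd (γ t i)) := by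
    intro i
    exact ((L i).continuousOn_wd).comp_continuous ((continuous_apply i).comp γ.continuous)
      (fun t => (hγ t).1 i)
  have hl : ∀ i, Continuous (fun t => (L i).lo (γ t i)) := by
    intro i
    exact ((L i).continuousOn_lo).comp_continuous ((continuous_apply i).comp γ.continuous)
      (fun t => (hγ t).1 i)
  have hsg : Continuous (fun t => sg L (γ t)) := by
    unfold sg
    exact (continuous_const.sub (continuous_finsetSum _ (fun i _ => hw i))).div_const _
  have hrh : ∀ j, Continuous (fun t => rh L (γ t) j) := by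
    intro j
    unfold rh
    refine continuous_finsetSum _ (fun i _ => ?_)
    by_cases h1 : i.1 < j.1
    · simp only [if_pos h1]
      exact (hw i).add (continuous_const.mul hsg)
    · simp only [if_neg h1]
      exact continuous_const
  have hbe : ∀ i, Continuous (fun t => be L (γ t) i) := by
    intro i
    unfold be
    exact ((hrh _).add hsg).sub (hl i)
  refine ⟨⟨⟨fun t => sec L o (γ t), ?_⟩, ?_, ?_⟩, fun t => sec_mem L hN o (hγ t)⟩
  · unfold sec
    exact continuous_const.prodMk ((continuous_pi hrh).prodMk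
      ((continuous_pi hbe).prodMk γ.continuous))
  · simp
  · simp

end SecAux

open SecAux

theorem sum_wd_lt {N : ℕ} (L : Fin N → Leg) {g : Prm N} (hg : g ∈ Good L) (hN : 0 < N) :
    g.2.2.2 ∈ Shp L := by
  refine ⟨fun i => (hg.2 i).1, ?_⟩
  have h1 : ∑ i, (L i).wd (g.2.2.2 i) < ∑ i : Fin N, (g.2.1 i.succ - g.2.1 i.castSucc) := by
    apply Finset.sum_lt_sum_of_nonempty
    · exact ⟨⟨0, hN⟩, Finset.mem_univ _⟩
    · intro i _
      obtain ⟨-, h2, h3⟩ := hg.2 i
      unfold Leg.wd
      linarith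
  rw [sum_tele, hg.1] at h1
  linarith

theorem exists_good {N : ℕ} (L : Fin N → Leg) (hN : 0 < N) {s : Fin N → ℝ × ℝ} (hs : s ∈ Shp L) :
    ∃ g ∈ Good L, g.2.2.2 = s :=
  ⟨sec L 0 s, sec_mem L hN 0 hs, rfl⟩

theorem good_joined {N : ℕ} (L : Fin N → Leg) (hN : 0 < N) {g g' : Prm N} (hg : g ∈ Good L)
    (hg' : g' ∈ Good L) (h : JoinedIn (Shp L) g.2.2.2 g'.2.2.2) : JoinedIn (Good L) g g' := by
  have h1 := sum_wd_lt L hg hN
  have h2 := sum_wd_lt L hg' hN
  refine (joined_fib L hg (sec_mem L hN g.1 h1) rfl).trans ?_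
  refine (joined_sec L hN g.1 h).trans ?_
  exact joined_fib L (sec_mem L hN g.1 h2) hg' rfl

end LockTree
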