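import Pool.Agent.Lib.MP_14e06f_lc.Spider.Geo
import Pool.Agent.Lib.MP_14e06f_lc.Spider.LC
import Pool.Agent.Lib.MP_14e06f_lc.Spider.Seg
import Pool.Agent.Lib.MP_14e06f_lc.Spider.Turn

set_option autoImplicit false

/-!
# Every configuration of a spider comes from good parameters
-/

namespace LockTree

open Real LockPl

section Up

variable {N : ℕ} {L : Fin N → Leg} {A : ℝ} {p : SV N → ℂ}

private theorem seg_sub {a b c z : ℂ} (h : z ∈ segment ℝ (a - c) (b - c)) :
    z + c ∈ segment ℝ a b := by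
  obtain ⟨s, t, hs, ht, hst, rfl⟩ := h
  refine ⟨s, t, hs, ht, hst, ?_⟩
  have : ((s : ℂ) + t) = 1 := by exact_mod_cast hst
  simp only [Complex.real_smul]
  linear_combination (c : ℂ) * this

/-- translations -/
private theorem sp_sub (hp : p ∈ Sp L A) (c : ℂ) : (fun v => p v - c) ∈ Sp L A := by
  obtain ⟨h1, h2, h3⟩ := hp
  refine ⟨fun e => ?_, fun e f hef z hz hz' => ?_, fun e f g he hf hg h h' => ?_⟩
  · simpa using h1 e
  · obtain ⟨w, hw, hw', hzw⟩ := h2 e f hef (z + c) (seg_sub hz) (seg_sub hz')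
    exact ⟨w, hw, hw', by simp [← hzw]⟩
  · simpa using h3 e f g he hf hg h h'

private theorem len (hp : p ∈ Sp L A) (e : Fin N × Fin 4) :
    ‖p (some e) - p (st e)‖ = bl L A e := by
  have := hp.1 e
  rw [dist_comm, dist_eq_norm] at this
  exact this

private theorem cross (hp : p ∈ Sp L A) {e f : Fin N × Fin 4} (hef : e ≠ f) {z : ℂ}
    (h1 : z ∈ segment ℝ (p (st e)) (p (some e))) (h2 : z ∈ segment ℝ (p (st f)) (p (some f))) :
    ∃ w, (w = st e ∨ w = some e) ∧ (w = st f ∨ w = some f) ∧ z = p w := hp.2.1 e f hef z h1 h2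

/-- bars without a common end are disjoint -/
private theorem apart (hp : p ∈ Sp L A) {e f : Fin N × Fin 4} (hef : e ≠ f)
    (h : st e ≠ st f) (h' : st e ≠ some f) (h'' : st f ≠ some e) {z : ℂ}
    (h1 : z ∈ segment ℝ (p (st e)) (p (some e))) (h2 : z ∈ segment ℝ (p (st f)) (p (some f))) :
    False := by
  obtain ⟨w, hw | hw, hw' | hw', -⟩ := cross hp hef h1 h2
  · exact h (hw.symm.trans hw')
  · exact h' (hw.symm.trans hw')
  · exact h'' (hw'.symm.trans hw)
  · exact hef (Option.some_injective _ (hw.symm.trans hw'))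

/-- bars with one common end meet only there -/
private theorem meet (hp : p ∈ Sp L A) {e f : Fin N × Fin 4} (hef : e ≠ f)
    (h : st e ≠ st f) (h' : st e ≠ some f) {z : ℂ}
    (h1 : z ∈ segment ℝ (p (st e)) (p (some e))) (h2 : z ∈ segment ℝ (p (st f)) (p (some f))) :
    z = p (some e) := by
  obtain ⟨w, hw | hw, hw' | hw', hz⟩ := cross hp hef h1 h2
  · exact absurd (hw.symm.trans hw') h
  · exact absurd (hw.symm.trans hw') h'
  · rw [hz, hw]
  · rw [hz, hw]

/-- bars at the centre meet only there -/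
private theorem meet0 (hp : p ∈ Sp L A) {e f : Fin N × Fin 4} (hef : e ≠ f)
    (h : st e = none) (h' : st f = none) {z : ℂ}
    (h1 : z ∈ segment ℝ (p none) (p (some e))) (h2 : z ∈ segment ℝ (p none) (p (some f))) :
    z = p none := by
  obtain ⟨w, hw | hw, hw' | hw', hz⟩ := cross hp hef (h ▸ h1) (h' ▸ h2)
  · rw [hz, hw, h]
  · rw [hz, hw, h]
  · rw [hz, hw', h']
  · exact absurd (Option.some_injective _ (hw.symm.trans hw')) hef

private theorem st_zero (i : Fin N) : st (i, (0 : Fin 4)) = none := rfl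
private theorem st_one (i : Fin N) : st (i, (1 : Fin 4)) = none := rfl
private theorem st_two (i : Fin N) : st (i, (2 : Fin 4)) = some (i, 1) := rfl
private theorem st_three (i : Fin N) : st (i, (3 : Fin 4)) = some (i, 2) := rfl

/-- points on a ray -/
private theorem ray_seg {r A t : ℝ} (h0 : 0 ≤ r) (h : r ≤ A) :
    (r : ℂ) * Complex.exp (t * Complex.I) ∈ segment ℝ (0 : ℂ) (A * Complex.exp (t * Complex.I)) := by
  rcases eq_or_lt_of_le (h0.trans h) with hA | hA
  · have hr : r = 0 := le_antisymm (hA ▸ h) h0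
    rw [hr, ← hA]
    simp
  · refine ⟨1 - r / A, r / A, sub_nonneg.2 ((div_le_one hA).2 h), by positivity, by ring, ?_⟩
    have hA' : (A : ℂ) ≠ 0 := by exact_mod_cast hA.ne'
    simp only [Complex.real_smul, mul_zero, zero_add]
    push_cast
    field_simp

/-- norms in a segment -/
private theorem norm_seg {a b z : ℂ} {R : ℝ} (ha : ‖a‖ ≤ R) (hb : ‖b‖ ≤ R)
    (hz : z ∈ segment ℝ a b) : ‖z‖ ≤ R := by
  have h1 : a ∈ Metric.closedBall (0 : ℂ) R := by simpa using ha
  have h2 : b ∈ Metric.closedBall (0 : ℂ) R := by simpa using hb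
  have := (convex_closedBall (0 : ℂ) R).segment_subset h1 h2 hz
  simpa using this

section

variable (hp : p ∈ Sp L A) (h0 : p none = 0)
include hp h0

private theorem norm_F (i : Fin N) : ‖p (some (i, 0))‖ = A := by
  have := len hp (i, 0)
  rw [st_zero, h0, sub_zero] at this
  exact this

private theorem norm_P (i : Fin N) : ‖p (some (i, 1))‖ = (L i).x := by
  have := len hp (i, 1)
  rw [st_one, h0, sub_zero] at this
  exact this

private theorem norm_Q (i : Fin N) : ‖p (some (i, 2))‖ ≤ (L i).x + (L i).y := by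
  have h1 := len hp (i, 2)
  rw [st_two] at h1
  have h2 := norm_P hp h0 i
  have h3 : bl L A (i, 2) = (L i).y := rfl
  calc ‖p (some (i, 2))‖ = ‖p (some (i, 1)) + (p (some (i, 2)) - p (some (i, 1)))‖ := by
        congr 1; ring
    _ ≤ _ := norm_add_le _ _
    _ = _ := by rw [h1, h2, h3]

private theorem norm_U (i : Fin N) : ‖p (some (i, 3))‖ ≤ (L i).x + (L i).y + (L i).u := by
  have h1 := len hp (i, 3)
  rw [st_three] at h1
  have h2 := norm_Q hp h0 i
  have h3 : bl L A (i, 3) = (L i).u := rfl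
  calc ‖p (some (i, 3))‖ = ‖p (some (i, 2)) + (p (some (i, 3)) - p (some (i, 2)))‖ := by
        congr 1; ring
    _ ≤ _ := norm_add_le _ _
    _ ≤ _ := by rw [h1, h3]; linarith

/-- the outer bars do not meet the long bars -/
private theorem no_hit (hA : ∀ i, (L i).x + (L i).y + (L i).u < A) {i j : Fin N} {k : Fin 4}
    (hk : k = 2 ∨ k = 3) {z : ℂ} (hz : z ∈ segment ℝ (p (st (i, k))) (p (some (i, k))))
    {t : ℝ} (hj : p (some (j, 0)) = A * Complex.exp (t * Complex.I))
    (hzt : z = ‖z‖ * Complex.exp (t * Complex.I)) : False := by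
  have hn : ‖z‖ ≤ (L i).x + (L i).y + (L i).u := by
    have hu := (L i).u_pos
    have hy := (L i).y_pos
    rcases hk with rfl | rfl
    · rw [st_two] at hz
      exact norm_seg (by rw [norm_P hp h0 i]; linarith)
        ((norm_Q hp h0 i).trans (by linarith)) hz
    · rw [st_three] at hz
      exact norm_seg ((norm_Q hp h0 i).trans (by linarith)) (norm_U hp h0 i) hz
  have h2 : z ∈ segment ℝ (p (st (j, 0))) (p (some (j, 0))) := by
    rw [st_zero, h0, hj, hzt]
    exact ray_seg (norm_nonneg z) (hn.trans (hA i).le)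
  rcases hk with rfl | rfl
  · exact apart hp (by simp) (by simp [st_two, st_zero]) (by simp [st_two])
      (by simp [st_zero]) hz h2
  · exact apart hp (by simp) (by simp [st_three, st_zero]) (by simp [st_three])
      (by simp [st_zero]) hz h2


/-- bars at the centre have different directions -/
private theorem dir_ne {e f : Fin N × Fin 4} (hef : e ≠ f) (he : st e = none) (hf : st f = none)
    (hpe : p (some e) ≠ 0) (hpf : p (some f) ≠ 0) {r : ℝ} (hr : 0 < r) :
    p (some f) ≠ r * p (some e) := by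
  intro h
  have key : ∀ {e f : Fin N × Fin 4}, e ≠ f → st e = none → st f = none →
      p (some e) ≠ 0 → ∀ {r : ℝ}, 0 < r → r ≤ 1 → p (some e) ≠ r * p (some f) := by
    intro e f hef he hf hpe r hr hr1 h
    have h1 : p (some e) ∈ segment ℝ (p none) (p (some e)) := right_mem_segment ℝ _ _
    have h2 : p (some e) ∈ segment ℝ (p none) (p (some f)) := by
      refine ⟨1 - r, r, by linarith, hr.le, by ring, ?_⟩
      rw [h0, h]
      simp
    exact hpe ((meet0 hp hef he hf h1 h2).trans h0)
  rcases le_total r 1 with h1 | h1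
  · exact key hef.symm hf he hpf hr h1 h
  · refine key hef he hf hpe (inv_pos.2 hr) (inv_le_one_of_one_le₀ h1) ?_
    have : (r : ℂ) ≠ 0 := by exact_mod_cast hr.ne'
    rw [h]
    push_cast
    field_simp

/-- the directions of the bars at the centre -/
private theorem dirs (hN : 0 < N) (hA : 0 < A) : ∃ (ρ : Fin (N + 1) → ℝ) (β : Fin N → ℝ),
    ρ (Fin.last N) = ρ 0 + 2 * π ∧ ∀ i : Fin N, ρ i.castSucc < β i ∧ β i < ρ i.succ ∧
      p (some (i, 0)) = A * Complex.exp (ρ i.castSucc * Complex.I) ∧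
      p (some (i, 1)) = (L i).x * Complex.exp (β i * Complex.I) ∧
      ∃ j, p (some (j, 0)) = A * Complex.exp (ρ i.succ * Complex.I) := by
  set F : ℂ := p (some (⟨0, hN⟩, 0)) with hF
  have hFn : ‖F‖ = A := norm_F hp h0 _
  have hF0 : F ≠ 0 := by
    intro h
    rw [h, norm_zero] at hFn
    exact hA.ne hFn
  have hFd : F / ‖F‖ = Complex.exp (F.arg * Complex.I) := by
    have h1 := Complex.norm_mul_exp_arg_mul_I F
    have h2 : (‖F‖ : ℂ) ≠ 0 := by exact_mod_cast (norm_ne_zero_iff.2 hF0)
    rw [div_eq_iff h2, mul_comm]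
    exact h1.symm
  have hdir : ∀ w : ℂ, w ≠ 0 →
      w = ‖w‖ * Complex.exp (((F.arg + turn F w : ℝ) : ℂ) * Complex.I) := by
    intro w hw
    have h1 := turn_spec hF0 hw
    rw [hFd, ← Complex.exp_add] at h1
    rw [show ((F.arg + turn F w : ℝ) : ℂ) * Complex.I =
      turn F w * Complex.I + F.arg * Complex.I by push_cast; ring]
    exact h1
  have hFF : F = A * Complex.exp (F.arg * Complex.I) := by
    have h1 := Complex.norm_mul_exp_arg_mul_I F
    rw [hFn] at h1
    exact h1.symm
  have nF : ∀ i, p (some (i, 0)) ≠ 0 := fun i h => by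
    have := norm_F hp h0 i
    rw [h, norm_zero] at this
    exact hA.ne this
  have nP : ∀ i, p (some (i, 1)) ≠ 0 := fun i h => by
    have := norm_P hp h0 i
    rw [h, norm_zero] at this
    exact (L i).x_pos.ne this
  have tlt : ∀ i, turn F (p (some (i, 1))) < 2 * π := fun i => by
    refine lt_of_le_of_ne (turn_le _ _) fun h => ?_
    obtain ⟨r, hr, h1⟩ := (turn_eq_iff hF0 (nP i)).1 h
    exact dir_ne hp h0 (e := (⟨0, hN⟩, 0)) (f := (i, 1)) (by simp) (st_zero _) (st_one _)
      (nF _) (nP _) hr h1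
  have cyc : ∀ f g : Fin N × Fin 4, f.2 ≤ 1 → g.2 ≤ 1 → 1 < num f → num f < num g →
      turn F (p (some f)) < turn F (p (some g)) := by
    intro f g hf hg h1 h2
    have := hp.2.2 (⟨0, hN⟩, 0) f g (by simp) hf hg (by simpa [num] using h1) h2
    rw [h0, sub_zero, sub_zero, sub_zero] at this
    exact this
  refine ⟨fun k => if h : k.1 < N then
      (if k.1 = 0 then F.arg else F.arg + turn F (p (some (⟨k.1, h⟩, 0)))) else F.arg + 2 * π,
    fun i => F.arg + turn F (p (some (i, 1))), ?_, fun i => ⟨?_, ?_, ?_, ?_, ?_⟩⟩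
  · simp [hN]
  · rcases Nat.eq_zero_or_pos i.1 with hi | hi
    · simp only [Fin.val_castSucc, hi, hN, dite_true, if_true]
      have := turn_pos F (p (some (i, 1)))
      linarith
    · simp only [Fin.val_castSucc, i.2, dite_true, hi.ne', if_false]
      have := cyc (i, 0) (i, 1) (by simp) (by simp) (by simp [num]; omega) (by simp [num])
      linarith
  · by_cases hi : i.1 + 1 < N
    · simp only [Fin.val_succ, hi, dite_true, Nat.succ_ne_zero, if_false]
      have := cyc (i, 1) (⟨i.1 + 1, hi⟩, 0) (by simp) (by simp) (by simp [num])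
        (by simp [num]; omega)
      linarith
    · simp only [Fin.val_succ, hi, dite_false]
      have := tlt i
      linarith
  · rcases Nat.eq_zero_or_pos i.1 with hi | hi
    · have : i = ⟨0, hN⟩ := Fin.ext hi
      simp only [Fin.val_castSucc, hi, hN, dite_true, if_true]
      rw [this]
      exact hFF
    · simp only [Fin.val_castSucc, i.2, dite_true, hi.ne', if_false]
      have := hdir _ (nF i)
      rw [norm_F hp h0 i] at this
      exact this
  · have := hdir _ (nP i)
    rw [norm_P hp h0 i] at this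
    exact this
  · by_cases hi : i.1 + 1 < N
    · refine ⟨⟨i.1 + 1, hi⟩, ?_⟩
      simp only [Fin.val_succ, hi, dite_true, Nat.succ_ne_zero, if_false]
      have := hdir _ (nF ⟨i.1 + 1, hi⟩)
      rw [norm_F hp h0] at this
      exact this
    · refine ⟨⟨0, hN⟩, ?_⟩
      simp only [Fin.val_succ, hi, dite_false]
      rw [← hF, show ((F.arg + 2 * π : ℝ) : ℂ) * Complex.I = F.arg * Complex.I + 2 * π * Complex.I by
        push_cast; ring, Complex.exp_add, Complex.exp_two_pi_mul_I, mul_one]
      exact hFF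

/-- the shape of a leg -/
private theorem shape {i : Fin N} {β : ℝ}
    (hβ : p (some (i, 1)) = (L i).x * Complex.exp (β * Complex.I)) :
    ∃ s : ℝ × ℝ, (L i).Ok s ∧ p (some (i, 2)) = Complex.exp (β * Complex.I) * (L i).Q s.1 ∧
      p (some (i, 3)) = Complex.exp (β * Complex.I) * (L i).U s := by
  set E : ℂ := Complex.exp (β * Complex.I) with hE
  have hE0 : E ≠ 0 := Complex.exp_ne_zero _
  have hEn : ‖E‖ = 1 := Complex.norm_exp_ofReal_mul_I β
  have hx := (L i).x_pos
  have hy := (L i).y_pos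
  have hyu := (L i).y_lt
  have hu := (L i).u_pos
  have hyx := (L i).y_lt_x
  set v : ℂ := p (some (i, 2)) - p (some (i, 1)) with hv
  set w : ℂ := p (some (i, 3)) - p (some (i, 2)) with hw
  have hvn : ‖v‖ = (L i).y := len hp (i, 2)
  have hwn : ‖w‖ = (L i).u := len hp (i, 3)
  set a : ℝ := (v / E).arg with ha
  have hva : v = (L i).y * (E * Complex.exp (a * Complex.I)) := by
    have h1 := Complex.norm_mul_exp_arg_mul_I (v / E)
    rw [norm_div, hEn, div_one, hvn, ← ha] at h1
    have h2 : v = v / E * E := by field_simp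
    rw [h2, ← h1]
    ring
  set G : ℂ := E * Complex.exp (a * Complex.I) with hG
  have hG0 : G ≠ 0 := mul_ne_zero hE0 (Complex.exp_ne_zero _)
  have hGn : ‖G‖ = 1 := by rw [hG, norm_mul, hEn, Complex.norm_exp_ofReal_mul_I, one_mul]
  set b : ℝ := (w / G).arg with hb
  have hwb : w = (L i).u * (G * Complex.exp (b * Complex.I)) := by
    have h1 := Complex.norm_mul_exp_arg_mul_I (w / G)
    rw [norm_div, hGn, div_one, hwn, ← hb] at h1
    have h2 : w = w / G * G := by field_simp
    rw [h2, ← h1]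
    ring
  have hQ : p (some (i, 2)) = E * (L i).Q a := by
    have h1 : p (some (i, 2)) = p (some (i, 1)) + v := by rw [hv]; ring
    rw [h1, hva, hβ, hG, Leg.Q]
    ring
  have hU : p (some (i, 3)) = E * (L i).U (a, b) := by
    have h1 : p (some (i, 3)) = p (some (i, 2)) + w := by rw [hw]; ring
    have h2 : Complex.exp (((a + b : ℝ) : ℂ) * Complex.I) =
        Complex.exp (a * Complex.I) * Complex.exp (b * Complex.I) := by
      rw [← Complex.exp_add]
      congr 1
      push_cast
      ring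
    rw [h1, hwb, hQ, Leg.U, h2, hG]
    ring
  have ha' : a ≠ π := by
    intro h
    rw [hG, h, Complex.exp_pi_mul_I] at hva
    have h1 : p (some (i, 2)) ∈ segment ℝ (p (st (i, 1))) (p (some (i, 1))) := by
      rw [st_one, h0]
      refine ⟨(L i).y / (L i).x, 1 - (L i).y / (L i).x, by positivity,
        sub_nonneg.2 ((div_le_one hx).2 hyx.le), by ring, ?_⟩
      have h3 : p (some (i, 2)) = p (some (i, 1)) + v := by rw [hv]; ring
      have hx' : ((L i).x : ℂ) ≠ 0 := by exact_mod_cast hx.ne'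
      rw [h3, hva, hβ]
      simp only [Complex.real_smul]
      push_cast
      field_simp
      ring
    have h2 : p (some (i, 2)) ∈ segment ℝ (p (st (i, 2))) (p (some (i, 2))) :=
      right_mem_segment ℝ _ _
    have h3 := meet hp (e := (i, 1)) (f := (i, 2)) (by simp) (by simp [st_one, st_two])
      (by simp [st_one]) h1 h2
    rw [← sub_eq_zero, ← hv] at h3
    rw [h3, norm_zero] at hvn
    exact hy.ne hvn
  have hb' : b ≠ π := by
    intro h
    rw [h, Complex.exp_pi_mul_I] at hwb
    have h1 : p (some (i, 1)) ∈ segment ℝ (p (st (i, 3))) (p (some (i, 3))) := by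
      rw [st_three]
      refine ⟨1 - (L i).y / (L i).u, (L i).y / (L i).u,
        sub_nonneg.2 ((div_le_one hu).2 hyu.le), by positivity, by ring, ?_⟩
      have h3 : p (some (i, 2)) = p (some (i, 1)) + v := by rw [hv]; ring
      have h4 : p (some (i, 3)) = p (some (i, 2)) + w := by rw [hw]; ring
      have hu' : ((L i).u : ℂ) ≠ 0 := by exact_mod_cast hu.ne'
      rw [h4, h3, hva, hwb]
      simp only [Complex.real_smul]
      push_cast
      field_simp
      ring
    have h2 : p (some (i, 1)) ∈ segment ℝ (p (st (i, 2))) (p (some (i, 2))) :=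
      left_mem_segment ℝ _ _
    have h3 := meet hp (e := (i, 2)) (f := (i, 3)) (by simp) (by simp [st_three, st_two])
      (by simp [st_two]) h2 h1
    have h4 : v = 0 := by rw [hv, ← h3, sub_self]
    rw [h4, norm_zero] at hvn
    exact hy.ne hvn
  have key : ∀ z c d : ℂ, z ∈ segment ℝ c d → E * z ∈ segment ℝ (E * c) (E * d) := by
    rintro z c d ⟨s, t, hs, ht, hst, rfl⟩
    refine ⟨s, t, hs, ht, hst, ?_⟩
    simp only [Complex.real_smul]
    ring
  refine ⟨(a, b), ⟨?_, ?_, fun z hz hz' => ?_⟩, hQ, hU⟩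
  · exact abs_lt.2 ⟨Complex.neg_pi_lt_arg _, lt_of_le_of_ne (Complex.arg_le_pi _) ha'⟩
  · exact abs_lt.2 ⟨Complex.neg_pi_lt_arg _, lt_of_le_of_ne (Complex.arg_le_pi _) hb'⟩
  · have h1 := key _ _ _ hz
    have h2 := key _ _ _ hz'
    refine apart hp (e := (i, 1)) (f := (i, 3)) (z := E * z) (by simp)
      (by simp [st_one, st_three]) (by simp [st_one]) (by simp [st_three]) ?_ ?_
    · rw [st_one, h0, hβ, mul_comm ((L i).x : ℂ)]
      simpa using h1
    · rw [st_three, hQ, hU]
      exact h2

/-- the leg stays in its sector -/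
private theorem confine (hA : ∀ i, (L i).x + (L i).y + (L i).u < A) {i : Fin N} {β ρ ρ' : ℝ}
    (h1 : ρ < β) (h2 : β < ρ')
    (hF : ∃ j, p (some (j, 0)) = A * Complex.exp (ρ * Complex.I))
    (hF' : ∃ j, p (some (j, 0)) = A * Complex.exp (ρ' * Complex.I))
    (hβ : p (some (i, 1)) = (L i).x * Complex.exp (β * Complex.I)) {s : ℝ × ℝ}
    (hs : (L i).Ok s) (hQ : p (some (i, 2)) = Complex.exp (β * Complex.I) * (L i).Q s.1)
    (hU : p (some (i, 3)) = Complex.exp (β * Complex.I) * (L i).U s) :
    ρ < β + (L i).lo s ∧ β + (L i).hi s < ρ' := by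
  have hx := (L i).x_pos
  have hx' : ((L i).x : ℂ) ≠ 0 := by exact_mod_cast hx.ne'
  have hE0 : Complex.exp (β * Complex.I) ≠ 0 := Complex.exp_ne_zero _
  have hEn : ‖Complex.exp (β * Complex.I)‖ = 1 := Complex.norm_exp_ofReal_mul_I β
  have hP0 : p (some (i, 1)) ≠ 0 := by rw [hβ]; exact mul_ne_zero hx' hE0
  have hQ0 : p (some (i, 2)) ≠ 0 := by rw [hQ]; exact mul_ne_zero hE0 ((L i).Q_ne s.1)
  have hdiv : p (some (i, 2)) / p (some (i, 1)) = ((L i).x⁻¹ : ℝ) * (L i).Q s.1 := by
    rw [hQ, hβ]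
    push_cast
    field_simp
  have harg : (p (some (i, 2)) / p (some (i, 1))).arg = (L i).th s.1 := by
    rw [hdiv, Complex.arg_real_mul _ (inv_pos.2 hx), Leg.th]
  have hslit : p (some (i, 2)) / p (some (i, 1)) ∈ Complex.slitPlane := by
    left
    rw [hdiv, Complex.re_ofReal_mul]
    exact mul_pos (inv_pos.2 hx) ((L i).Q_re_pos s.1)
  have hdiv' : p (some (i, 3)) / p (some (i, 2)) = (L i).U s / (L i).Q s.1 := by
    rw [hQ, hU, mul_div_mul_left _ _ hE0]
  have hPd : p (some (i, 1)) / ‖p (some (i, 1))‖ = Complex.exp (β * Complex.I) := by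
    rw [norm_P hp h0 i, hβ]
    field_simp
  have hQd : p (some (i, 2)) / ‖p (some (i, 2))‖ =
      Complex.exp (((β + (L i).th s.1 : ℝ) : ℂ) * Complex.I) := by
    have h3 : (‖(L i).Q s.1‖ : ℂ) ≠ 0 := by
      exact_mod_cast norm_ne_zero_iff.2 ((L i).Q_ne s.1)
    rw [hQ, norm_mul, hEn, one_mul, div_eq_iff h3]
    nth_rewrite 1 [(L i).Q_eq s.1]
    rw [show ((β + (L i).th s.1 : ℝ) : ℂ) * Complex.I =
      β * Complex.I + (L i).th s.1 * Complex.I by push_cast; ring, Complex.exp_add]
    ring
  have c1 : ∀ t : ℝ, min 0 ((L i).th s.1) ≤ t → t ≤ max 0 ((L i).th s.1) →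
      (∃ j, p (some (j, 0)) = A * Complex.exp (((β + t : ℝ) : ℂ) * Complex.I)) → False := by
    rintro t ht ht' ⟨j, hj⟩
    obtain ⟨z, hz, -, hzt⟩ := seg_hit hP0 hslit (t := t) (by rw [harg]; exact ht)
      (by rw [harg]; exact ht')
    rw [hPd, ← Complex.exp_add] at hzt
    refine no_hit hp h0 hA (i := i) (j := j) (k := 2) (Or.inl rfl) (z := z) (t := β + t) ?_ hj ?_
    · rw [st_two]
      exact hz
    · rw [show ((β + t : ℝ) : ℂ) * Complex.I = t * Complex.I + β * Complex.I by push_cast; ring]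
      exact hzt
  have c2 : ∀ t : ℝ, min 0 ((L i).ta s) ≤ t → t ≤ max 0 ((L i).ta s) →
      (∃ j, p (some (j, 0)) =
        A * Complex.exp (((β + (L i).th s.1 + t : ℝ) : ℂ) * Complex.I)) → False := by
    rintro t ht ht' ⟨j, hj⟩
    obtain ⟨z, hz, -, hzt⟩ := seg_hit hQ0 (B := p (some (i, 3))) (by rw [hdiv']; exact hs.slit)
      (t := t) (by rw [hdiv']; exact ht) (by rw [hdiv']; exact ht')
    rw [hQd, ← Complex.exp_add] at hzt
    refine no_hit hp h0 hA (i := i) (j := j) (k := 3) (Or.inr rfl) (z := z)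
      (t := β + (L i).th s.1 + t) ?_ hj ?_
    · rw [st_three]
      exact hz
    · rw [show ((β + (L i).th s.1 + t : ℝ) : ℂ) * Complex.I =
        t * Complex.I + ((β + (L i).th s.1 : ℝ) : ℂ) * Complex.I by push_cast; ring]
      exact hzt
  have a1 : ρ < β + (L i).th s.1 := by
    by_contra h
    push Not at h
    refine c1 (ρ - β) (min_le_of_right_le (by linarith)) (le_max_of_le_left (by linarith)) ?_
    rw [show β + (ρ - β) = ρ by ring]
    exact hF
  have a2 : β + (L i).th s.1 < ρ' := by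
    by_contra h
    push Not at h
    refine c1 (ρ' - β) (min_le_of_left_le (by linarith)) (le_max_of_le_right (by linarith)) ?_
    rw [show β + (ρ' - β) = ρ' by ring]
    exact hF'
  have a3 : ρ < β + (L i).th s.1 + (L i).ta s := by
    by_contra h
    push Not at h
    refine c2 (ρ - β - (L i).th s.1) (min_le_of_right_le (by linarith))
      (le_max_of_le_left (by linarith)) ?_
    rw [show β + (L i).th s.1 + (ρ - β - (L i).th s.1) = ρ by ring]
    exact hF
  have a4 : β + (L i).th s.1 + (L i).ta s < ρ' := by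
    by_contra h
    push Not at h
    refine c2 (ρ' - β - (L i).th s.1) (min_le_of_left_le (by linarith))
      (le_max_of_le_right (by linarith)) ?_
    rw [show β + (L i).th s.1 + (ρ' - β - (L i).th s.1) = ρ' by ring]
    exact hF'
  constructor
  · have : ρ - β < (L i).lo s :=
      lt_min (by linarith) (lt_min (by linarith) (by linarith))
    linarith
  · have : (L i).hi s < ρ' - β :=
      max_lt (by linarith) (max_lt (by linarith) (by linarith))
    linarith

end

theorem exists_pos {N : ℕ} (hN : 0 < N) (L : Fin N → Leg) {A : ℝ}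
    (hA : ∀ i, (L i).x + (L i).y + (L i).u < A) {p : SV N → ℂ} (hp : p ∈ Sp L A) :
    ∃ g ∈ Good L, pos L A g = p := by
  have hA0 : 0 < A := by
    have h1 := hA ⟨0, hN⟩
    have h2 := (L ⟨0, hN⟩).x_pos
    have h3 := (L ⟨0, hN⟩).y_pos
    have h4 := (L ⟨0, hN⟩).u_pos
    linarith
  have hp' : (fun v => p v - p none) ∈ Sp L A := sp_sub hp (p none)
  have h0 : (fun v => p v - p none) none = 0 := sub_self _
  obtain ⟨ρ, β, hρ, h⟩ := dirs hp' h0 hN hA0
  have hs : ∀ i, ∃ s : ℝ × ℝ, (L i).Ok s ∧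
      p (some (i, 2)) - p none = Complex.exp (β i * Complex.I) * (L i).Q s.1 ∧
      p (some (i, 3)) - p none = Complex.exp (β i * Complex.I) * (L i).U s ∧
      ρ i.castSucc < β i + (L i).lo s ∧ β i + (L i).hi s < ρ i.succ := by
    intro i
    obtain ⟨h1, h2, h3, h4, h5⟩ := h i
    obtain ⟨s, hs, hQ, hU⟩ := shape hp' h0 h4
    exact ⟨s, hs, hQ, hU, confine hp' h0 hA h1 h2 ⟨i, h3⟩ h5 h4 hs hQ hU⟩
  choose s hs hQ hU hlo hhi using hs
  refine ⟨(p none, ρ, β, s), ⟨hρ, fun i => ⟨hs i, hlo i, hhi i⟩⟩, ?_⟩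
  funext v
  match v with
  | none => rfl
  | some (i, 0) =>
    have := (h i).2.2.1
    simp only [pos]
    linear_combination -this
  | some (i, 1) =>
    have := (h i).2.2.2.1
    simp only [pos]
    linear_combination -this
  | some (i, 2) =>
    have := hQ i
    simp only [pos]
    linear_combination -this
  | some (i, 3) =>
    have := hU i
    simp only [pos]
    linear_combination -this

end Up

end LockTree
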