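import Pool.Agent.Lib.MP_14e06f_lc.Spider.Geo
import Pool.Agent.Lib.MP_14e06f_lc.Spider.LC
import Pool.Agent.Lib.MP_14e06f_lc.Spider.LA
import Pool.Agent.Lib.MP_14e06f_lc.Spider.Up
import Pool.Agent.Lib.MP_14e06f_lc.Spider.Sec

set_option autoImplicit false

/-!
# The locked side

On a path in the configuration space the set of times at which all legs of a tight set are hooked is
open and closed.
-/

namespace LockTree

open Real LockPl

/-- the leg `i` of the configuration `p` is hooked -/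
def HkAt {N : ℕ} (p : SV N → ℂ) (i : Fin N) : Prop :=
  ‖p (some (i, 2)) - p none‖ ^ 2 <
      ((p (some (i, 2)) - p none) * (starRingEnd ℂ) (p (some (i, 1)) - p none)).re ∧
    ‖p (some (i, 3)) - p none‖ ^ 2 <
      ((p (some (i, 3)) - p none) * (starRingEnd ℂ) (p (some (i, 2)) - p none)).re

/-- the closed condition -/
private def HkLe {N : ℕ} (p : SV N → ℂ) (i : Fin N) : Prop :=
  ‖p (some (i, 2)) - p none‖ ^ 2 ≤
      ((p (some (i, 2)) - p none) * (starRingEnd ℂ) (p (some (i, 1)) - p none)).re ∧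
    ‖p (some (i, 3)) - p none‖ ^ 2 ≤
      ((p (some (i, 3)) - p none) * (starRingEnd ℂ) (p (some (i, 2)) - p none)).re

private theorem norm_rot (t : ℝ) (z : ℂ) : ‖Complex.exp (t * Complex.I) * z‖ ^ 2 = ‖z‖ ^ 2 := by
  rw [norm_mul, Complex.norm_exp_ofReal_mul_I, one_mul]

private theorem re_rot (t : ℝ) (z w : ℂ) :
    ((Complex.exp (t * Complex.I) * z) *
      (starRingEnd ℂ) (Complex.exp (t * Complex.I) * w)).re = (z * (starRingEnd ℂ) w).re := by
  have h : Complex.exp (t * Complex.I) * (starRingEnd ℂ) (Complex.exp (t * Complex.I)) = 1 := by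
    rw [Complex.mul_conj, Complex.normSq_eq_norm_sq, Complex.norm_exp_ofReal_mul_I]
    norm_num
  have e : (Complex.exp (t * Complex.I) * z) *
      (starRingEnd ℂ) (Complex.exp (t * Complex.I) * w) =
      (Complex.exp (t * Complex.I) * (starRingEnd ℂ) (Complex.exp (t * Complex.I))) *
        (z * (starRingEnd ℂ) w) := by
    rw [map_mul]; ring
  rw [e, h, one_mul]

private theorem re_x (L : Leg) (z : ℂ) : (z * (starRingEnd ℂ) (L.x : ℂ)).re = L.x * z.re := by
  rw [Complex.conj_ofReal, Complex.re_mul_ofReal, mul_comm]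

theorem hkAt_pos {N : ℕ} (L : Fin N → Leg) (A : ℝ) (g : Prm N) (i : Fin N) :
    HkAt (pos L A g) i ↔ (L i).Hk (g.2.2.2 i) := by
  unfold HkAt Leg.Hk
  simp only [pos, add_sub_cancel_left, norm_rot, re_rot, re_x]

private theorem hkLe_pos {N : ℕ} (L : Fin N → Leg) (A : ℝ) (g : Prm N) (i : Fin N) :
    HkLe (pos L A g) i ↔ ‖(L i).Q (g.2.2.2 i).1‖ ^ 2 ≤ (L i).x * ((L i).Q (g.2.2.2 i).1).re ∧
      ‖(L i).U (g.2.2.2 i)‖ ^ 2 ≤
        ((L i).U (g.2.2.2 i) * (starRingEnd ℂ) ((L i).Q (g.2.2.2 i).1)).re := by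
  unfold HkLe
  simp only [pos, add_sub_cancel_left, norm_rot, re_rot, re_x]

private theorem isOpen_hk {N : ℕ} (i : Fin N) : IsOpen {p : SV N → ℂ | HkAt p i} := by
  refine IsOpen.inter ?_ ?_
  · exact isOpen_lt (by fun_prop) (Complex.continuous_re.comp
      (Continuous.mul (by fun_prop) (Complex.continuous_conj.comp (by fun_prop))))
  · exact isOpen_lt (by fun_prop) (Complex.continuous_re.comp
      (Continuous.mul (by fun_prop) (Complex.continuous_conj.comp (by fun_prop))))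

private theorem isClosed_hk {N : ℕ} (i : Fin N) : IsClosed {p : SV N → ℂ | HkLe p i} := by
  refine IsClosed.inter ?_ ?_
  · exact isClosed_le (by fun_prop) (Complex.continuous_re.comp
      (Continuous.mul (by fun_prop) (Complex.continuous_conj.comp (by fun_prop))))
  · exact isClosed_le (by fun_prop) (Complex.continuous_re.comp
      (Continuous.mul (by fun_prop) (Complex.continuous_conj.comp (by fun_prop))))

/-- in a configuration of a tight set the closed condition implies the open one -/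
private theorem hk_of_le {N : ℕ} (hN : 0 < N) (L : Fin N → Leg) {A : ℝ}
    (hA : ∀ i, (L i).x + (L i).y + (L i).u < A) {S : Finset (Fin N)}
    (hS : ∀ i ∈ S, 2 * π ≤ ∑ j ∈ S, (L j).phi + ((L i).psi - (L i).phi)) {p : SV N → ℂ}
    (hp : p ∈ Sp L A) (h : ∀ i ∈ S, HkLe p i) : ∀ i ∈ S, HkAt p i := by
  classical
  obtain ⟨g, hg, rfl⟩ := exists_pos hN L hA hp
  obtain ⟨hok, hsum⟩ := sum_wd_lt L hg hN
  intro i hi
  rw [hkAt_pos]
  by_contra hcon
  have hphi : ∀ j ∈ S, (L j).phi ≤ (L j).wd (g.2.2.2 j) := fun j hj =>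
    let h' := (hkLe_pos L A g j).mp (h j hj)
    (L j).phi_le h'.1 h'.2
  have hi' := (hkLe_pos L A g i).mp (h i hi)
  have hpsi : (L i).psi ≤ (L i).wd (g.2.2.2 i) := (L i).psi_le (hok i) hi'.1 hi'.2 hcon
  have e1 : ∑ j ∈ S.erase i, (L j).phi ≤ ∑ j ∈ S.erase i, (L j).wd (g.2.2.2 j) :=
    Finset.sum_le_sum fun j hj => hphi j (Finset.mem_of_mem_erase hj)
  have e2 : ∑ j ∈ S.erase i, (L j).phi + (L i).phi = ∑ j ∈ S, (L j).phi :=
    Finset.sum_erase_add S _ hi
  have e3 : ∑ j ∈ S.erase i, (L j).wd (g.2.2.2 j) + (L i).wd (g.2.2.2 i) =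
      ∑ j ∈ S, (L j).wd (g.2.2.2 j) := Finset.sum_erase_add S _ hi
  have e4 : ∑ j ∈ S, (L j).wd (g.2.2.2 j) ≤ ∑ j, (L j).wd (g.2.2.2 j) :=
    Finset.sum_le_sum_of_subset_of_nonneg (Finset.subset_univ S) fun j _ _ => (L j).wd_nonneg _
  have e5 := hS i hi
  linarith

theorem hook_invariant {N : ℕ} (hN : 0 < N) (L : Fin N → Leg) {A : ℝ}
    (hA : ∀ i, (L i).x + (L i).y + (L i).u < A) {S : Finset (Fin N)}
    (hS : ∀ i ∈ S, 2 * π ≤ ∑ j ∈ S, (L j).phi + ((L i).psi - (L i).phi)) {p q : SV N → ℂ}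
    (h : JoinedIn (Sp L A) p q) (hp : ∀ i ∈ S, HkAt p i) : ∀ i ∈ S, HkAt q i := by
  classical
  obtain ⟨γ, hγ⟩ := h
  have hcl : IsClopen {t : unitInterval | ∀ i ∈ S, HkAt (γ t) i} := by
    constructor
    · have he : {t : unitInterval | ∀ i ∈ S, HkAt (γ t) i} =
          ⋂ i ∈ S, γ ⁻¹' {p : SV N → ℂ | HkLe p i} := by
        ext t
        simp only [Set.mem_ofPred_eq, Set.mem_iInter, Set.mem_preimage]
        exact ⟨fun h i hi => ⟨(h i hi).1.le, (h i hi).2.le⟩, fun h => hk_of_le hN L hA hS (hγ t) h⟩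
      rw [he]
      exact isClosed_biInter fun i _ => (isClosed_hk i).preimage γ.continuous
    · have he : {t : unitInterval | ∀ i ∈ S, HkAt (γ t) i} =
          ⋂ i ∈ S, γ ⁻¹' {p : SV N → ℂ | HkAt p i} := by
        ext t
        simp only [Set.mem_ofPred_eq, Set.mem_iInter, Set.mem_preimage]
      rw [he]
      exact isOpen_biInter_finset fun i _ => (isOpen_hk i).preimage γ.continuous
  have huniv := hcl.eq_univ ⟨0, by simpa using hp⟩
  have h1 : (1 : unitInterval) ∈ {t : unitInterval | ∀ i ∈ S, HkAt (γ t) i} := by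
    rw [huniv]; trivial
  simpa using h1

end LockTree
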