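import Mathlib

/-!
# Spider project, row MA: monotonicity of `arg (c + r e^(id))`
-/

set_option autoImplicit false

namespace LockTree

open Real

private theorem ma_re (c r d : ℝ) : ((c : ℂ) + r * Complex.exp (d * Complex.I)).re = c + r * cos d := by
  rw [Complex.add_re, Complex.ofReal_re, Complex.re_ofReal_mul, Complex.exp_ofReal_mul_I_re]

private theorem ma_im (c r d : ℝ) : ((c : ℂ) + r * Complex.exp (d * Complex.I)).im = r * sin d := by
  rw [Complex.add_im, Complex.ofReal_im, Complex.im_ofReal_mul, Complex.exp_ofReal_mul_I_im, zero_add]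

private theorem ma_cross (z w : ℂ) : z.re * w.im - z.im * w.re = ‖z‖ * ‖w‖ * sin (w.arg - z.arg) := by
  have e1 := Complex.norm_mul_cos_arg z
  have e2 := Complex.norm_mul_sin_arg z
  have e3 := Complex.norm_mul_cos_arg w
  have e4 := Complex.norm_mul_sin_arg w
  calc z.re * w.im - z.im * w.re =
      (‖z‖ * cos z.arg) * (‖w‖ * sin w.arg) - (‖z‖ * sin z.arg) * (‖w‖ * cos w.arg) := by rw [e1, e2, e3, e4]
    _ = ‖z‖ * ‖w‖ * sin (w.arg - z.arg) := by rw [sin_sub]; ring

/-- the sign of `Im (w conj z)` compares the arguments -/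
private theorem ma_le {z w : ℂ} (hz : z ≠ 0) (hw : w ≠ 0) (hz1 : z.arg < π) (hw0 : 0 ≤ w.arg)
    (h : 0 ≤ z.re * w.im - z.im * w.re) : z.arg ≤ w.arg := by
  by_contra hc
  push Not at hc
  rw [ma_cross] at h
  have h2 : sin (w.arg - z.arg) < 0 := sin_neg_of_neg_of_neg_pi_lt (by linarith) (by linarith)
  have h3 : 0 < ‖z‖ * ‖w‖ := mul_pos (norm_pos_iff.2 hz) (norm_pos_iff.2 hw)
  have h4 := mul_neg_of_pos_of_neg h3 h2
  linarith

private theorem ma_lt {z w : ℂ} (hz : z ≠ 0) (hw : w ≠ 0) (hz1 : z.arg < π) (hw0 : 0 ≤ w.arg)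
    (h : 0 < z.re * w.im - z.im * w.re) : z.arg < w.arg := by
  refine lt_of_le_of_ne (ma_le hz hw hz1 hw0 h.le) fun he => ?_
  rw [ma_cross, he, sub_self, sin_zero, mul_zero] at h
  exact lt_irrefl _ h

/-- `c + r e^(id)` is not zero, and its argument is in `[0, π)` -/
private theorem ma_basic {c r d : ℝ} (hc : 0 < c) (hr : 0 < r) (h0 : 0 ≤ d) (h1 : d < π ∨ (d ≤ π ∧ r < c)) :
    (c : ℂ) + r * Complex.exp (d * Complex.I) ≠ 0 ∧
      0 ≤ Complex.arg (c + r * Complex.exp (d * Complex.I)) ∧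
      Complex.arg (c + r * Complex.exp (d * Complex.I)) < π := by
  have hre := ma_re c r d
  have him := ma_im c r d
  generalize hz : (c : ℂ) + r * Complex.exp (d * Complex.I) = z at hre him
  have hd : d ≤ π := by rcases h1 with h | h; exacts [h.le, h.1]
  have hs : 0 ≤ sin d := sin_nonneg_of_nonneg_of_le_pi h0 hd
  have him0 : 0 ≤ z.im := by rw [him]; exact mul_nonneg hr.le hs
  have hpos : 0 < z.re ∨ 0 < z.im := by
    rcases h0.eq_or_lt with h | h
    · left
      rw [hre, ← h, cos_zero]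
      linarith
    · rcases hd.eq_or_lt with h' | h'
      · left
        rcases h1 with h2 | h2
        · exact absurd h' h2.ne
        · rw [hre, h', cos_pi]
          linarith [h2.2]
      · right
        rw [him]
        exact mul_pos hr (sin_pos_of_pos_of_lt_pi h h')
  have hz0 : z ≠ 0 := by
    rintro rfl
    rcases hpos with h | h <;> simp at h
  refine ⟨hz0, Complex.arg_nonneg_iff.2 him0, ?_⟩
  refine lt_of_le_of_ne (Complex.arg_le_pi z) fun he => ?_
  rw [Complex.arg_eq_pi_iff] at he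
  rcases hpos with h | h
  · linarith [he.1]
  · linarith [he.2]

private theorem ma_half (c r d e : ℝ) : (c + r * cos d) * (r * sin e) - (r * sin d) * (c + r * cos e) =
    2 * r * sin ((e - d) / 2) * (c * cos ((e + d) / 2) + r * cos ((e - d) / 2)) := by
  have h1 : sin e - sin d = 2 * sin ((e - d) / 2) * cos ((e + d) / 2) := by
    rw [sin_sub_sin]
  have h2 : sin (e - d) = 2 * sin ((e - d) / 2) * cos ((e - d) / 2) := by
    rw [← sin_two_mul]
    congr 1
    ring
  have h3 : (c + r * cos d) * (r * sin e) - (r * sin d) * (c + r * cos e) =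
      r * (c * (sin e - sin d) + r * sin (e - d)) := by
    rw [sin_sub]
    ring
  rw [h3, h1, h2]
  ring

theorem arg_nonneg {c r d : ℝ} (hc : 0 < c) (hr : 0 < r) (h0 : 0 ≤ d) (h1 : d < π) :
    0 ≤ Complex.arg (c + r * Complex.exp (d * Complex.I)) ∧
      Complex.arg (c + r * Complex.exp (d * Complex.I)) ≤ d := by
  obtain ⟨hz, ha, hb⟩ := ma_basic hc hr h0 (Or.inl h1)
  refine ⟨ha, ?_⟩
  have h2 : Complex.arg (Complex.exp (d * Complex.I)) = d := by
    rw [Complex.arg_exp_mul_I, toIocMod_eq_self]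
    constructor
    · linarith [pi_pos]
    · linarith
  have h3 := ma_le hz (Complex.exp_ne_zero (d * Complex.I)) hb (by rw [h2]; exact h0) (by
    rw [ma_re, ma_im, Complex.exp_ofReal_mul_I_re, Complex.exp_ofReal_mul_I_im]
    have h4 := sin_nonneg_of_nonneg_of_le_pi h0 h1.le
    nlinarith [mul_nonneg hc.le h4])
  rwa [h2] at h3

private theorem ma_pos {c r d e : ℝ} (hc : 0 < c) (h0 : 0 ≤ d) (hde : d ≤ e) (he : e < π)
    (h : 0 ≤ r + c * cos e) : 0 ≤ c * cos ((e + d) / 2) + r * cos ((e - d) / 2) := by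
  have hv : (e + d) / 2 = e - (e - d) / 2 := by ring
  have h1 : 0 ≤ sin e := sin_nonneg_of_nonneg_of_le_pi (h0.trans hde) he.le
  have h2 : 0 ≤ sin ((e - d) / 2) := sin_nonneg_of_nonneg_of_le_pi (by linarith) (by linarith)
  have h3 : 0 ≤ cos ((e - d) / 2) := cos_nonneg_of_neg_pi_div_two_le_of_le (by linarith [pi_pos]) (by linarith)
  rw [hv, cos_sub]
  have e1 : c * (cos e * cos ((e - d) / 2) + sin e * sin ((e - d) / 2)) + r * cos ((e - d) / 2) =
      (r + c * cos e) * cos ((e - d) / 2) + c * (sin e * sin ((e - d) / 2)) := by ring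
  rw [e1]
  exact add_nonneg (mul_nonneg h h3) (mul_nonneg hc.le (mul_nonneg h1 h2))

theorem arg_mono {c r d e : ℝ} (hc : 0 < c) (hr : 0 < r) (h0 : 0 ≤ d) (hde : d ≤ e) (he : e < π)
    (h : 0 ≤ r + c * cos e) : Complex.arg (c + r * Complex.exp (d * Complex.I)) ≤
      Complex.arg (c + r * Complex.exp (e * Complex.I)) := by
  obtain ⟨hz, -, hb⟩ := ma_basic hc hr h0 (Or.inl (lt_of_le_of_lt hde he))
  obtain ⟨hw, ha, -⟩ := ma_basic hc hr (h0.trans hde) (Or.inl he)
  refine ma_le hz hw hb ha ?_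
  rw [ma_re, ma_im, ma_re, ma_im, ma_half]
  have h2 : 0 ≤ sin ((e - d) / 2) := sin_nonneg_of_nonneg_of_le_pi (by linarith) (by linarith)
  exact mul_nonneg (mul_nonneg (by linarith) h2) (ma_pos hc h0 hde he h)

theorem arg_anti {c r d e : ℝ} (hc : 0 < c) (hr : 0 < r) (hrc : r < c) (h0 : 0 ≤ d) (hde : d ≤ e)
    (he : e ≤ π) (h : r + c * cos d ≤ 0) : Complex.arg (c + r * Complex.exp (e * Complex.I)) ≤
      Complex.arg (c + r * Complex.exp (d * Complex.I)) := by
  obtain ⟨hz, -, hb⟩ := ma_basic hc hr (h0.trans hde) (Or.inr ⟨he, hrc⟩)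
  obtain ⟨hw, ha, -⟩ := ma_basic hc hr h0 (Or.inr ⟨hde.trans he, hrc⟩)
  refine ma_le hz hw hb ha ?_
  rw [ma_re, ma_im, ma_re, ma_im]
  have e0 : (c + r * cos e) * (r * sin d) - (r * sin e) * (c + r * cos d) =
      -((c + r * cos d) * (r * sin e) - (r * sin d) * (c + r * cos e)) := by ring
  rw [e0, ma_half]
  have h2 : 0 ≤ sin ((e - d) / 2) := sin_nonneg_of_nonneg_of_le_pi (by linarith) (by linarith)
  have h1 : 0 ≤ sin d := sin_nonneg_of_nonneg_of_le_pi h0 (hde.trans he)
  have h3 : 0 ≤ cos ((e - d) / 2) := cos_nonneg_of_neg_pi_div_two_le_of_le (by linarith [pi_pos]) (by linarith)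
  have h4 : c * cos ((e + d) / 2) + r * cos ((e - d) / 2) ≤ 0 := by
    have hv : (e + d) / 2 = d + (e - d) / 2 := by ring
    rw [hv, cos_add]
    have e1 : c * (cos d * cos ((e - d) / 2) - sin d * sin ((e - d) / 2)) + r * cos ((e - d) / 2) =
        (r + c * cos d) * cos ((e - d) / 2) - c * (sin d * sin ((e - d) / 2)) := by ring
    rw [e1]
    have h5 := mul_nonneg hc.le (mul_nonneg h1 h2)
    have h6 := mul_nonpos_of_nonpos_of_nonneg h h3
    linarith
  have h7 : 2 * r * sin ((e - d) / 2) * (c * cos ((e + d) / 2) + r * cos ((e - d) / 2)) ≤ 0 :=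
    mul_nonpos_of_nonneg_of_nonpos (mul_nonneg (by linarith) h2) h4
  linarith

theorem arg_strictMono {c r d e : ℝ} (hc : 0 < c) (hr : 0 < r) (h0 : 0 ≤ d) (hde : d < e)
    (he : e < π) (h : 0 ≤ r + c * cos e) : Complex.arg (c + r * Complex.exp (d * Complex.I)) <
      Complex.arg (c + r * Complex.exp (e * Complex.I)) := by
  obtain ⟨hz, -, hb⟩ := ma_basic hc hr h0 (Or.inl (hde.trans he))
  obtain ⟨hw, ha, -⟩ := ma_basic hc hr (h0.trans hde.le) (Or.inl he)
  refine ma_lt hz hw hb ha ?_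
  rw [ma_re, ma_im, ma_re, ma_im, ma_half]
  have h2 : 0 < sin ((e - d) / 2) := sin_pos_of_pos_of_lt_pi (by linarith) (by linarith)
  have h1 : 0 < sin e := sin_pos_of_pos_of_lt_pi (lt_of_le_of_lt h0 hde) he
  have h3 : 0 ≤ cos ((e - d) / 2) := cos_nonneg_of_neg_pi_div_two_le_of_le (by linarith [pi_pos]) (by linarith)
  have h4 : 0 < c * cos ((e + d) / 2) + r * cos ((e - d) / 2) := by
    have hv : (e + d) / 2 = e - (e - d) / 2 := by ring
    rw [hv, cos_sub]
    have e1 : c * (cos e * cos ((e - d) / 2) + sin e * sin ((e - d) / 2)) + r * cos ((e - d) / 2) =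
        (r + c * cos e) * cos ((e - d) / 2) + c * (sin e * sin ((e - d) / 2)) := by ring
    rw [e1]
    exact add_pos_of_nonneg_of_pos (mul_nonneg h h3) (mul_pos hc (mul_pos h1 h2))
  exact mul_pos (mul_pos (by linarith) h2) h4

end LockTree
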