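import Pool.Agent.Lib.MP_14e06f_lc.Spider.LC

/-!
# Spiders (row OK): which shapes of a leg have no crossing, and formulas for the width
-/

set_option autoImplicit false

namespace LockTree

open Real

variable (L : Leg)

private theorem ok_iff (s : ℝ × ℝ) : L.Ok s ↔ |s.1| < π ∧ |s.2| < π ∧ ∀ t r : ℝ, 0 ≤ t → t ≤ 1 → 0 ≤ r → r ≤ L.x →
    L.x + L.y * cos s.1 + t * (L.u * cos (s.1 + s.2)) = r → L.y * sin s.1 + t * (L.u * sin (s.1 + s.2)) = 0 → False := by
  unfold Leg.Ok
  have hre : ∀ t : ℝ, ((L.Q s.1 + (t : ℝ) • (L.U s - L.Q s.1)).re) = L.x + L.y * cos s.1 + t * (L.u * cos (s.1 + s.2)) := by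
    intro t
    have h1 : L.U s - L.Q s.1 = L.u * Complex.exp (((s.1 + s.2 : ℝ) : ℂ) * Complex.I) := by
      unfold Leg.U
      ring
    rw [h1, Complex.add_re, L.Q_re, Complex.smul_re, Complex.re_ofReal_mul, Complex.exp_ofReal_mul_I_re, smul_eq_mul]
  have him : ∀ t : ℝ, ((L.Q s.1 + (t : ℝ) • (L.U s - L.Q s.1)).im) = L.y * sin s.1 + t * (L.u * sin (s.1 + s.2)) := by
    intro t
    have h1 : L.U s - L.Q s.1 = L.u * Complex.exp (((s.1 + s.2 : ℝ) : ℂ) * Complex.I) := by
      unfold Leg.U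
      ring
    rw [h1, Complex.add_im, L.Q_im, Complex.smul_im, Complex.im_ofReal_mul, Complex.exp_ofReal_mul_I_im, smul_eq_mul]
  constructor
  · rintro ⟨h1, h2, h3⟩
    refine ⟨h1, h2, fun t r ht ht1 hr hrx e1 e2 => ?_⟩
    refine h3 (r : ℂ) ?_ ?_
    · rw [segment_eq_image']
      refine ⟨r / L.x, ⟨div_nonneg hr L.x_pos.le, (div_le_one L.x_pos).2 hrx⟩, ?_⟩
      simp only [sub_zero, zero_add]
      rw [Complex.real_smul, ← Complex.ofReal_mul, div_mul_cancel₀ _ L.x_pos.ne']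
    · rw [segment_eq_image']
      refine ⟨t, ⟨ht, ht1⟩, ?_⟩
      apply Complex.ext
      · rw [hre, e1, Complex.ofReal_re]
      · rw [him, e2, Complex.ofReal_im]
  · rintro ⟨h1, h2, h3⟩
    refine ⟨h1, h2, fun z hz hz' => ?_⟩
    rw [segment_eq_image'] at hz hz'
    obtain ⟨r, ⟨hr0, hr1⟩, hr⟩ := hz
    obtain ⟨t, ⟨ht0, ht1⟩, ht⟩ := hz'
    simp only [sub_zero, zero_add] at hr
    have hzz := ht.trans hr.symm
    refine h3 t (r * L.x) ht0 ht1 (mul_nonneg hr0 L.x_pos.le) (mul_le_of_le_one_left L.x_pos.le hr1) ?_ ?_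
    · have := congrArg Complex.re hzz
      rw [hre, Complex.real_smul, ← Complex.ofReal_mul, Complex.ofReal_re] at this
      exact this
    · have := congrArg Complex.im hzz
      rw [him, Complex.real_smul, ← Complex.ofReal_mul, Complex.ofReal_im] at this
      exact this

/-- relative to `P`, turned by `-a` -/
private theorem rotP {a b t r : ℝ} (e1 : L.x + L.y * cos a + t * (L.u * cos (a + b)) = r)
    (e2 : L.y * sin a + t * (L.u * sin (a + b)) = 0) :
    t * (L.u * sin b) = (L.x - r) * sin a ∧ L.y + t * (L.u * cos b) = (r - L.x) * cos a := by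
  have hs : sin b = sin (a + b) * cos a - cos (a + b) * sin a := by rw [← sin_sub]; congr 1; ring
  have hc : cos b = cos (a + b) * cos a + sin (a + b) * sin a := by rw [← cos_sub]; congr 1; ring
  have h1 := sin_sq_add_cos_sq a
  constructor
  · rw [hs]
    linear_combination cos a * e2 - sin a * e1
  · rw [hc]
    linear_combination cos a * e1 + sin a * e2 - L.y * h1

/-- turned by `-th` -/
private theorem rotQ {a b t r : ℝ} (e1 : L.x + L.y * cos a + t * (L.u * cos (a + b)) = r)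
    (e2 : L.y * sin a + t * (L.u * sin (a + b)) = 0) :
    t * (L.u * sin (L.dl (a, b))) = -(r * sin (L.th a)) ∧
      ‖L.Q a‖ + t * (L.u * cos (L.dl (a, b))) = r * cos (L.th a) := by
  have hs : sin (L.dl (a, b)) = sin (a + b) * cos (L.th a) - cos (a + b) * sin (L.th a) := by
    rw [← sin_sub]; rfl
  have hc : cos (L.dl (a, b)) = cos (a + b) * cos (L.th a) + sin (a + b) * sin (L.th a) := by
    rw [← cos_sub]; rfl
  have h1 := sin_sq_add_cos_sq (L.th a)
  have h2 := L.cos_th a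
  have h3 := L.sin_th a
  constructor
  · rw [hs]
    linear_combination cos (L.th a) * e2 - sin (L.th a) * e1 - sin (L.th a) * h2 + cos (L.th a) * h3
  · rw [hc]
    linear_combination cos (L.th a) * e1 + sin (L.th a) * e2 - ‖L.Q a‖ * h1 + cos (L.th a) * h2 + sin (L.th a) * h3

private theorem norm_sin_sub (a : ℝ) : ‖L.Q a‖ * sin (a - L.th a) = L.x * sin a := by
  rw [sin_sub]
  linear_combination sin a * L.cos_th a - cos a * L.sin_th a

private theorem norm_cos_sub (a : ℝ) : ‖L.Q a‖ * cos (a - L.th a) = L.y + L.x * cos a := by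
  rw [cos_sub]
  linear_combination cos a * L.cos_th a + sin a * L.sin_th a + L.y * sin_sq_add_cos_sq a

private theorem th_le {a : ℝ} (ha : 0 ≤ a) (ha' : a < π) : L.th a ≤ a := by
  rcases ha.eq_or_lt with h | h
  · rw [← h, L.th_zero]
  · exact (L.th_lt h ha').2.le

private theorem th_pos' {a : ℝ} (ha : 0 < a) (ha' : a < π) : 0 < L.th a := (L.th_lt ha ha').1

private theorem dl_eq (s : ℝ × ℝ) : L.dl s = s.1 + s.2 - L.th s.1 := rfl

theorem Leg.ok_left {s : ℝ × ℝ} (ha : 0 ≤ s.1) (ha' : s.1 < π) (h0 : 0 ≤ L.dl s) (h : L.dl s < π) :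
    L.Ok s := by
  obtain ⟨a, b⟩ := s
  simp only at ha ha'
  have hth := th_le L ha ha'
  have hth0 := L.th_nonneg ha ha'.le
  have hd : L.dl (a, b) = a + b - L.th a := rfl
  rw [ok_iff]
  refine ⟨by rw [abs_of_nonneg ha]; exact ha', abs_lt.2 ⟨by linarith, by linarith⟩, ?_⟩
  intro t r ht ht1 hr hrx e1 e2
  obtain ⟨h1, h2⟩ := rotQ L e1 e2
  have hsd : 0 ≤ sin (L.dl (a, b)) := sin_nonneg_of_nonneg_of_le_pi h0 h.le
  have hst : 0 ≤ sin (L.th a) := sin_nonneg_of_nonneg_of_le_pi hth0 (by linarith)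
  have h3 : 0 ≤ t * (L.u * sin (L.dl (a, b))) := mul_nonneg ht (mul_nonneg L.u_pos.le hsd)
  have h4 : 0 ≤ r * sin (L.th a) := mul_nonneg hr hst
  have h5 : t * (L.u * sin (L.dl (a, b))) = 0 := by linarith
  have h6 : r * sin (L.th a) = 0 := by linarith
  have hq := L.norm_Q_pos a
  -- the real part is positive
  have h7 : ‖L.Q a‖ ≤ r * cos (L.th a) := by
    rcases mul_eq_zero.1 h5 with h5 | h5
    · rw [← h2, h5, zero_mul, add_zero]
    · rcases mul_eq_zero.1 h5 with h5 | h5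
      · exact absurd h5 L.u_pos.ne'
      · have h8 : L.dl (a, b) = 0 := by
          by_contra h9
          exact (sin_pos_of_pos_of_lt_pi (lt_of_le_of_ne h0 (Ne.symm h9)) h).ne' h5
        rw [← h2, h8, cos_zero, mul_one]
        have := mul_nonneg ht L.u_pos.le
        linarith
  have hr0 : r ≠ 0 := by
    rintro rfl
    rw [zero_mul] at h7
    linarith
  have h8 : sin (L.th a) = 0 := (mul_eq_zero.1 h6).resolve_left hr0
  have h9 : L.y * sin a = 0 := by rw [← L.sin_th, h8, mul_zero]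
  have h10 : a = 0 := by
    rcases ha.eq_or_lt with h | h
    · exact h.symm
    · exact absurd ((mul_eq_zero.1 h9).resolve_left L.y_pos.ne') (sin_pos_of_pos_of_lt_pi h ha').ne'
  subst h10
  rw [L.th_zero, cos_zero, mul_one] at h7
  have h11 := L.cos_th 0
  rw [L.th_zero, cos_zero, mul_one, mul_one] at h11
  linarith [L.y_pos]

theorem Leg.ok_right {s : ℝ × ℝ} (ha : 0 ≤ s.1) (ha' : s.1 < π) (hb : -π < s.2)
    (h : L.dl s ≤ 0) : L.Ok s := by
  obtain ⟨a, b⟩ := s
  simp only at ha ha' hb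
  have hth := th_le L ha ha'
  have hd : L.dl (a, b) = a + b - L.th a := rfl
  have hb0 : b ≤ 0 := by linarith
  rw [ok_iff]
  refine ⟨by rw [abs_of_nonneg ha]; exact ha', abs_lt.2 ⟨hb, by linarith [pi_pos]⟩, ?_⟩
  intro t r ht ht1 hr hrx e1 e2
  obtain ⟨h1, h2⟩ := rotP L e1 e2
  have hsb : sin b ≤ 0 := sin_nonpos_of_nonpos_of_neg_pi_le hb0 hb.le
  have hsa : 0 ≤ sin a := sin_nonneg_of_nonneg_of_le_pi ha ha'.le
  have h3 : t * (L.u * sin b) ≤ 0 := mul_nonpos_of_nonneg_of_nonpos ht (mul_nonpos_of_nonneg_of_nonpos L.u_pos.le hsb)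
  have h4 : 0 ≤ (L.x - r) * sin a := mul_nonneg (by linarith) hsa
  have h5 : t * (L.u * sin b) = 0 := by linarith
  have h6 : (L.x - r) * sin a = 0 := by linarith
  have h7 : 0 < (r - L.x) * cos a := by
    rw [← h2]
    rcases mul_eq_zero.1 h5 with h5 | h5
    · rw [h5, zero_mul, add_zero]; exact L.y_pos
    · rcases mul_eq_zero.1 h5 with h5 | h5
      · exact absurd h5 L.u_pos.ne'
      · have h8 : b = 0 := by
          by_contra h9
          exact (sin_neg_of_neg_of_neg_pi_lt (lt_of_le_of_ne hb0 h9) hb).ne h5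
        rw [h8, cos_zero, mul_one]
        have := mul_nonneg ht L.u_pos.le
        linarith [L.y_pos]
  rcases mul_eq_zero.1 h6 with h6 | h6
  · have : r - L.x = 0 := by linarith
    rw [this, zero_mul] at h7
    exact lt_irrefl _ h7
  · have h8 : a = 0 := by
      rcases ha.eq_or_lt with h | h
      · exact h.symm
      · exact absurd h6 (sin_pos_of_pos_of_lt_pi h ha').ne'
    rw [h8, cos_zero, mul_one] at h7
    linarith

theorem Leg.ok_I {a : ℝ} (ha : 0 < a) (ha' : a < π) (h : L.u < ‖L.Q a‖) : L.Ok (L.I a) := by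
  obtain ⟨h1, h2⟩ := L.th_lt ha ha'
  have hab : a + (π + L.th a - a) = L.th a + π := by ring
  unfold Leg.I
  rw [ok_iff]
  simp only
  refine ⟨by rw [abs_of_pos ha]; exact ha', abs_lt.2 ⟨by linarith [pi_pos], by linarith⟩, ?_⟩
  intro t r ht ht1 hr hrx e1 e2
  rw [hab, sin_add_pi, ← L.sin_th] at e2
  have hs : 0 < sin (L.th a) := sin_pos_of_pos_of_lt_pi h1 (by linarith)
  have h3 : (‖L.Q a‖ - t * L.u) * sin (L.th a) = 0 := by linarith
  have h4 : t * L.u ≤ L.u := mul_le_of_le_one_left L.u_pos.le ht1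
  rcases mul_eq_zero.1 h3 with h5 | h5
  · linarith
  · exact hs.ne' h5

/-- the key inequality for a third bar that points between `QO` and `QP`: `U` is above the axis -/
private theorem over_key {a b : ℝ} (ha : 0 ≤ a) (h : L.Ok (a, b)) (h1 : π ≤ L.dl (a, b)) :
    0 < a ∧ a < π ∧ 0 < L.th a ∧ L.th a < a ∧ L.dl (a, b) - π < a - L.th a ∧
      L.th a + (L.dl (a, b) - π) < π / 2 ∧
      L.u * sin (L.th a + (L.dl (a, b) - π)) < ‖L.Q a‖ * sin (L.th a) := by
  rw [ok_iff] at h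
  obtain ⟨g1, g2, g3⟩ := h
  simp only at g1 g2 g3
  rw [abs_of_nonneg ha] at g1
  have hb := abs_lt.1 g2
  have hd : L.dl (a, b) = a + b - L.th a := rfl
  have ha0 : 0 < a := by
    rcases ha.eq_or_lt with h | h
    · exfalso
      rw [← h, L.th_zero] at hd
      rw [← h] at h1
      linarith
    · exact h
  obtain ⟨t1, t2⟩ := L.th_lt ha0 g1
  set δ := L.dl (a, b) - π with hδ
  have hδ0 : 0 ≤ δ := by linarith
  have hδ1 : δ < a - L.th a := by linarith
  have hab : a + b = (L.th a + δ) + π := by rw [hδ, hd]; ring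
  have hsb : 0 < sin b := sin_pos_of_pos_of_lt_pi (by linarith) (by linarith)
  have hsa : 0 < sin a := sin_pos_of_pos_of_lt_pi ha0 g1
  have hst : 0 < sin (L.th a + δ) := sin_pos_of_pos_of_lt_pi (by linarith) (by linarith)
  have hsth : 0 < sin (L.th a) := sin_pos_of_pos_of_lt_pi t1 (by linarith)
  -- `U` is above the axis
  have key : L.u * sin (L.th a + δ) < ‖L.Q a‖ * sin (L.th a) := by
    by_contra hcon
    push Not at hcon
    have hpos : 0 < L.u * sin (L.th a + δ) := mul_pos L.u_pos hst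
    set t := ‖L.Q a‖ * sin (L.th a) / (L.u * sin (L.th a + δ)) with ht
    have ht0 : 0 ≤ t := div_nonneg (mul_nonneg (norm_nonneg _) hsth.le) hpos.le
    have ht1 : t ≤ 1 := (div_le_one hpos).2 hcon
    have htm : t * (L.u * sin (L.th a + δ)) = ‖L.Q a‖ * sin (L.th a) := div_mul_cancel₀ _ hpos.ne'
    have e2 : L.y * sin a + t * (L.u * sin (a + b)) = 0 := by
      rw [hab, sin_add_pi, ← L.sin_th]
      linarith
    obtain ⟨p1, p2⟩ := rotP L (a := a) (b := b) (t := t) rfl e2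
    obtain ⟨q1, q2⟩ := rotQ L (a := a) (b := b) (t := t) rfl e2
    set r := L.x + L.y * cos a + t * (L.u * cos (a + b)) with hr
    have hr1 : r ≤ L.x := by
      have : 0 ≤ (L.x - r) * sin a := by
        rw [← p1]
        exact mul_nonneg ht0 (mul_nonneg L.u_pos.le hsb.le)
      nlinarith [le_of_mul_le_mul_right (show 0 * sin a ≤ (L.x - r) * sin a by linarith) hsa]
    have hr0 : 0 ≤ r := by
      have hsd : sin (L.dl (a, b)) ≤ 0 := by
        have : L.dl (a, b) = δ + π := by rw [hδ]; ring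
        rw [this, sin_add_pi, neg_nonpos]
        exact sin_nonneg_of_nonneg_of_le_pi hδ0 (by linarith)
      have h5 : t * (L.u * sin (L.dl (a, b))) ≤ 0 :=
        mul_nonpos_of_nonneg_of_nonpos ht0 (mul_nonpos_of_nonneg_of_nonpos L.u_pos.le hsd)
      have h6 : 0 ≤ r * sin (L.th a) := by linarith
      have h7 := le_of_mul_le_mul_right (show 0 * sin (L.th a) ≤ r * sin (L.th a) by linarith) hsth
      exact h7
    exact g3 t r ht0 ht1 hr0 hr1 hr.symm e2
  refine ⟨ha0, g1, t1, t2, hδ1, ?_, key⟩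
  by_contra hcon
  push Not at hcon
  have h5 : sin a < sin (L.th a + δ) := by
    have e1 : sin a = cos (a - π / 2) := by rw [cos_sub_pi_div_two]
    have e2 : sin (L.th a + δ) = cos (L.th a + δ - π / 2) := by rw [cos_sub_pi_div_two]
    rw [e1, e2]
    exact cos_lt_cos_of_nonneg_of_le_pi (by linarith) (by linarith) (by linarith)
  rw [L.sin_th] at key
  have h6 : L.y * sin a < L.u * sin (L.th a + δ) := by
    have := L.y_lt
    have := L.y_pos
    nlinarith
  linarith

/-- consequences -/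
private theorem over_cons {a δ : ℝ} (t1 : 0 < L.th a) (hδ0 : 0 ≤ δ)
    (hδ : L.th a + δ < π / 2) (key : L.u * sin (L.th a + δ) < ‖L.Q a‖ * sin (L.th a)) :
    L.u < ‖L.Q a‖ ∧ L.u < ‖L.Q a‖ * cos δ := by
  have hu := L.u_pos
  have hq := L.norm_Q_pos a
  have hsth : 0 < sin (L.th a) := sin_pos_of_pos_of_lt_pi t1 (by linarith)
  have hcth : 0 < cos (L.th a + δ) := cos_pos_of_mem_Ioo ⟨by linarith [pi_pos], hδ⟩
  have hsd : 0 ≤ sin δ := sin_nonneg_of_nonneg_of_le_pi hδ0 (by linarith [pi_pos])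
  have hcd : 0 < cos δ := cos_pos_of_mem_Ioo ⟨by linarith [pi_pos], by linarith⟩
  have h1 : sin (L.th a) ≤ sin (L.th a + δ) * cos δ := by
    have e : sin (L.th a) = sin (L.th a + δ) * cos δ - cos (L.th a + δ) * sin δ := by
      rw [← sin_sub]; congr 1; ring
    have := mul_nonneg hcth.le hsd
    linarith
  have h2 : L.u * sin (L.th a) < ‖L.Q a‖ * cos δ * sin (L.th a) := by
    calc L.u * sin (L.th a) ≤ L.u * (sin (L.th a + δ) * cos δ) := mul_le_mul_of_nonneg_left h1 hu.le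
      _ = (L.u * sin (L.th a + δ)) * cos δ := by ring
      _ < (‖L.Q a‖ * sin (L.th a)) * cos δ := mul_lt_mul_of_pos_right key hcd
      _ = ‖L.Q a‖ * cos δ * sin (L.th a) := by ring
  have h3 : L.u < ‖L.Q a‖ * cos δ := lt_of_mul_lt_mul_right h2 hsth.le
  refine ⟨h3.trans_le ?_, h3⟩
  exact mul_le_of_le_one_right hq.le (cos_le_one δ)

private theorem wd_of {s : ℝ × ℝ} (h1 : 0 ≤ L.th s.1) (h2 : 0 ≤ L.th s.1 + L.ta s) (h3 : L.ta s ≤ 0) :
    L.wd s = L.th s.1 := by
  unfold Leg.wd Leg.hi Leg.lo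
  rw [max_eq_left (show L.th s.1 + L.ta s ≤ L.th s.1 by linarith), max_eq_right h1,
    min_eq_left (le_min h1 h2), sub_zero]

private theorem wd_over {a b : ℝ} (t1 : 0 < L.th a) (hδ0 : π ≤ L.dl (a, b))
    (hδ : L.th a + (L.dl (a, b) - π) < π / 2)
    (key : L.u * sin (L.th a + (L.dl (a, b) - π)) < ‖L.Q a‖ * sin (L.th a))
    (hu : L.u < ‖L.Q a‖ * cos (L.dl (a, b) - π)) : L.wd (a, b) = L.th a := by
  set δ := L.dl (a, b) - π with hδe
  have hδ0' : 0 ≤ δ := by linarith
  have hdl : L.dl (a, b) = δ + π := by rw [hδe]; ring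
  have hq := L.norm_Q_pos a
  set z : ℂ := (‖L.Q a‖ : ℂ) + L.u * Complex.exp (L.dl (a, b) * Complex.I) with hz
  have hta : L.ta (a, b) = Complex.arg z := L.ta_eq (a, b)
  have hre : z.re = ‖L.Q a‖ - L.u * cos δ := by
    rw [hz, Complex.add_re, Complex.ofReal_re, Complex.re_ofReal_mul, Complex.exp_ofReal_mul_I_re, hdl, cos_add_pi]
    ring
  have him : z.im = -(L.u * sin δ) := by
    rw [hz, Complex.add_im, Complex.ofReal_im, Complex.im_ofReal_mul, Complex.exp_ofReal_mul_I_im, hdl, sin_add_pi]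
    ring
  have hcd : cos δ ≤ 1 := cos_le_one δ
  have hqu : L.u < ‖L.Q a‖ := hu.trans_le (mul_le_of_le_one_right hq.le hcd)
  have hre0 : 0 < z.re := by
    rw [hre]
    have : L.u * cos δ ≤ L.u := mul_le_of_le_one_right L.u_pos.le hcd
    linarith
  have hsd : 0 ≤ sin δ := sin_nonneg_of_nonneg_of_le_pi hδ0' (by linarith [pi_pos])
  have him0 : z.im ≤ 0 := by
    rw [him]
    have := mul_nonneg L.u_pos.le hsd
    linarith
  have hz0 : z ≠ 0 := fun h => by rw [h, Complex.zero_re] at hre0; exact lt_irrefl _ hre0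
  have harg0 : Complex.arg z ≤ 0 := by
    by_contra hcon
    push Not at hcon
    have h1 : 0 ≤ z.im := Complex.arg_nonneg_iff.1 hcon.le
    have h2 : z.im = 0 := le_antisymm him0 h1
    have h3 : Complex.arg z = 0 := Complex.arg_eq_zero_iff.2 ⟨hre0.le, h2⟩
    linarith
  have hargb : |Complex.arg z| < π / 2 := Complex.abs_arg_lt_pi_div_two_iff.2 (Or.inl hre0)
  have hb := abs_lt.1 hargb
  have hsum : 0 ≤ L.th a + Complex.arg z := by
    by_contra hcon
    push Not at hcon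
    have h1 : sin (L.th a + Complex.arg z) < 0 := sin_neg_of_neg_of_neg_pi_lt hcon (by linarith [pi_pos])
    have hn : 0 < ‖z‖ := norm_pos_iff.2 hz0
    have h2 : ‖z‖ * sin (L.th a + Complex.arg z) < 0 := mul_neg_of_pos_of_neg hn h1
    rw [sin_add] at h2
    have h3 : ‖z‖ * cos (Complex.arg z) = z.re := by
      rw [Complex.cos_arg hz0]
      field_simp
    have h4 : ‖z‖ * sin (Complex.arg z) = z.im := by
      rw [Complex.sin_arg]
      field_simp
    have h5 : ‖z‖ * (sin (L.th a) * cos (Complex.arg z) + cos (L.th a) * sin (Complex.arg z)) =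
        sin (L.th a) * z.re + cos (L.th a) * z.im := by
      rw [← h3, ← h4]; ring
    rw [h5, hre, him] at h2
    rw [sin_add] at key
    nlinarith
  exact wd_of L t1.le (by simp only; rw [hta]; exact hsum) (by rw [hta]; exact harg0)

theorem Leg.ok_over {s : ℝ × ℝ} (ha : 0 ≤ s.1) (h : L.Ok s) (h1 : π ≤ L.dl s) :
    0 < s.1 ∧ L.u < ‖L.Q s.1‖ ∧ L.u + ‖L.Q s.1‖ * cos (L.dl s) < 0 ∧ L.wd s = L.th s.1 ∧
      ∀ b', π ≤ L.dl (s.1, b') → b' ≤ s.2 → L.Ok (s.1, b') ∧ L.wd (s.1, b') = L.th s.1 := by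
  obtain ⟨a, b⟩ := s
  simp only at ha ⊢
  obtain ⟨k1, k2, k3, k4, k5, k6, k7⟩ := over_key L ha h h1
  have hb := abs_lt.1 h.2.1
  simp only at hb
  obtain ⟨c1, c2⟩ := over_cons L k3 (by linarith) k6 k7
  have hcos : cos (L.dl (a, b)) = -cos (L.dl (a, b) - π) := by rw [cos_sub_pi, neg_neg]
  refine ⟨k1, c1, ?_, wd_over L k3 h1 k6 k7 c2, ?_⟩
  · rw [hcos]
    linarith
  · intro b' hb1 hb2
    have hd : L.dl (a, b) = a + b - L.th a := rfl
    have hd' : L.dl (a, b') = a + b' - L.th a := rfl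
    have hle : L.dl (a, b') ≤ L.dl (a, b) := by linarith
    have h6 : L.th a + (L.dl (a, b') - π) < π / 2 := by linarith
    have h7 : L.u * sin (L.th a + (L.dl (a, b') - π)) < ‖L.Q a‖ * sin (L.th a) := by
      refine lt_of_le_of_lt (mul_le_mul_of_nonneg_left ?_ L.u_pos.le) k7
      exact sin_le_sin_of_le_of_le_pi_div_two (by linarith [pi_pos]) k6.le (by linarith)
    obtain ⟨c1', c2'⟩ := over_cons L k3 (by linarith) h6 h7
    refine ⟨?_, wd_over L k3 hb1 h6 h7 c2'⟩
    rw [ok_iff]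
    simp only
    refine ⟨by rw [abs_of_nonneg ha]; exact k2, abs_lt.2 ⟨by linarith, by linarith⟩, ?_⟩
    intro t r ht ht1 hr hrx e1 e2
    have hab : a + b' = (L.th a + (L.dl (a, b') - π)) + π := by rw [hd']; ring
    rw [hab, sin_add_pi, ← L.sin_th] at e2
    have hsp : 0 ≤ L.u * sin (L.th a + (L.dl (a, b') - π)) :=
      mul_nonneg L.u_pos.le (sin_nonneg_of_nonneg_of_le_pi (by linarith) (by linarith [pi_pos]))
    have := mul_le_of_le_one_left hsp ht1
    linarith

theorem Leg.wd_left {s : ℝ × ℝ} (ha : 0 ≤ s.1) (ha' : s.1 < π) (h0 : 0 ≤ L.dl s)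
    (h : L.dl s < π) : L.wd s = L.th s.1 +
      Complex.arg (‖L.Q s.1‖ + L.u * Complex.exp (L.dl s * Complex.I)) := by
  have hth0 := L.th_nonneg ha ha'.le
  have hta := L.ta_eq s
  rw [← hta]
  have h1 : 0 ≤ L.ta s := by
    rw [hta, Complex.arg_nonneg_iff, Complex.add_im, Complex.ofReal_im, Complex.im_ofReal_mul,
      Complex.exp_ofReal_mul_I_im, zero_add]
    exact mul_nonneg L.u_pos.le (sin_nonneg_of_nonneg_of_le_pi h0 h.le)
  unfold Leg.wd Leg.hi Leg.lo
  rw [max_eq_right (show L.th s.1 ≤ L.th s.1 + L.ta s by linarith), max_eq_right (by linarith),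
    min_eq_left (le_min hth0 (by linarith)), sub_zero]

theorem Leg.wd_right {s : ℝ × ℝ} (ha : 0 ≤ s.1) (ha' : s.1 < π) (hb : -π < s.2)
    (h : L.dl s ≤ 0) : L.wd s = max (L.th s.1)
      (Complex.arg (‖L.Q s.1‖ + L.u * Complex.exp (((-L.dl s : ℝ) : ℂ) * Complex.I))) := by
  have hth := th_le L ha ha'
  have hth0 := L.th_nonneg ha ha'.le
  have hd : L.dl s = s.1 + s.2 - L.th s.1 := rfl
  have hdl : -π < L.dl s := by linarith
  set z : ℂ := (‖L.Q s.1‖ : ℂ) + L.u * Complex.exp (L.dl s * Complex.I) with hz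
  have hta : L.ta s = Complex.arg z := L.ta_eq s
  have hconj : (‖L.Q s.1‖ : ℂ) + L.u * Complex.exp (((-L.dl s : ℝ) : ℂ) * Complex.I) = (starRingEnd ℂ) z := by
    rw [hz, map_add, map_mul, Complex.conj_ofReal, Complex.conj_ofReal, ← Complex.exp_conj, map_mul, Complex.conj_ofReal,
      Complex.conj_I]
    congr 3
    push_cast
    ring
  have him : z.im = L.u * sin (L.dl s) := by
    rw [hz, Complex.add_im, Complex.ofReal_im, Complex.im_ofReal_mul, Complex.exp_ofReal_mul_I_im, zero_add]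
  have hre : z.re = ‖L.Q s.1‖ + L.u * cos (L.dl s) := by
    rw [hz, Complex.add_re, Complex.ofReal_re, Complex.re_ofReal_mul, Complex.exp_ofReal_mul_I_re]
  have hle : Complex.arg z ≤ 0 ∧ Complex.arg ((starRingEnd ℂ) z) = -Complex.arg z := by
    rcases h.eq_or_lt with h1 | h1
    · have hz1 : z = ((‖L.Q s.1‖ + L.u : ℝ) : ℂ) := by
        rw [hz, h1, Complex.ofReal_zero, zero_mul, Complex.exp_zero, mul_one]
        push_cast
        ring
      have hp : 0 ≤ ‖L.Q s.1‖ + L.u := by linarith [L.u_pos, L.norm_Q_pos s.1]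
      have h2 : Complex.arg z = 0 := by rw [hz1]; exact Complex.arg_ofReal_of_nonneg hp
      have h3 : (starRingEnd ℂ) z = z := by rw [hz1, Complex.conj_ofReal]
      exact ⟨h2.le, by rw [h3, h2, neg_zero]⟩
    · have h2 : z.im < 0 := by
        rw [him]
        exact mul_neg_of_pos_of_neg L.u_pos (sin_neg_of_neg_of_neg_pi_lt h1 hdl)
      have h3 : Complex.arg z < 0 := Complex.arg_neg_iff.2 h2
      refine ⟨h3.le, ?_⟩
      rw [Complex.arg_conj, if_neg]
      intro h4
      rw [h4] at h3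
      linarith [pi_pos]
  rw [hconj, hle.2]
  unfold Leg.wd Leg.hi Leg.lo
  rw [hta]
  have h1 := hle.1
  rw [max_eq_left (show L.th s.1 + Complex.arg z ≤ L.th s.1 by linarith), max_eq_right hth0,
    min_eq_right (show L.th s.1 + Complex.arg z ≤ L.th s.1 by linarith)]
  rcases le_total 0 (L.th s.1 + Complex.arg z) with h2 | h2
  · rw [min_eq_left h2, sub_zero, max_eq_left (by linarith)]
  · rw [min_eq_right h2, max_eq_right (by linarith)]
    ring

theorem Leg.wd_I {a : ℝ} (ha : 0 < a) (ha' : a < π) (h : L.u < ‖L.Q a‖) :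
    L.wd (L.I a) = L.th a := by
  have hdl : L.dl (L.I a) = π := by
    unfold Leg.dl Leg.I
    simp only
    ring
  have hta : L.ta (L.I a) = 0 := by
    rw [L.ta_eq, hdl, Complex.exp_pi_mul_I]
    have : ((‖L.Q (L.I a).1‖ : ℝ) : ℂ) + L.u * (-1) = ((‖L.Q a‖ - L.u : ℝ) : ℂ) := by
      unfold Leg.I
      push_cast
      ring
    rw [this]
    exact Complex.arg_ofReal_of_nonneg (by linarith)
  have ht := L.th_nonneg ha.le ha'.le
  exact wd_of L (s := L.I a) ht (by rw [hta, add_zero]; exact ht) hta.le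

theorem Leg.inner_right {s : ℝ × ℝ} (ha : 0 ≤ s.1) (h : L.Ok s) (h0 : L.dl s < 0)
    (h1 : L.u + ‖L.Q s.1‖ * cos (L.dl s) < 0) : L.u < L.y + L.x * cos s.1 := by
  have ha' : s.1 < π := lt_of_abs_lt h.1
  have hb := abs_lt.1 h.2.1
  have hth := th_le L ha ha'
  have hd : L.dl s = s.1 + s.2 - L.th s.1 := rfl
  have hq := L.norm_Q_pos s.1
  rw [← norm_cos_sub]
  have h2 : cos (π - (s.1 - L.th s.1)) < cos (-L.dl s) :=
    cos_lt_cos_of_nonneg_of_le_pi (by linarith) (by linarith) (by linarith)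
  rw [cos_pi_sub, cos_neg] at h2
  nlinarith

end LockTree
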