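import Pool.Agent.Lib.MP_14e06f_lc.Spider.LC
import Pool.Agent.Lib.MP_14e06f_lc.Spider.OK
import Pool.Agent.Lib.MP_14e06f_lc.Spider.MA

set_option autoImplicit false

/-!
# Paths changing the first turning angle, third bar radial
-/

namespace LockTree

open Real Filter Topology

private theorem joined_of_cont {X : Type*} [TopologicalSpace X] {F : Set X} {f : ℝ → X} {a b : ℝ} (hf : Continuous f)
    (h : ∀ t ∈ Set.uIcc a b, f t ∈ F) : JoinedIn F (f a) (f b) := by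
  have h1 : IsPathConnected (f '' Set.uIcc a b) :=
    ((convex_uIcc a b).isPathConnected ⟨a, Set.left_mem_uIcc⟩).image hf
  refine (h1.joinedIn (f a) (Set.mem_image_of_mem _ Set.left_mem_uIcc) (f b)
    (Set.mem_image_of_mem _ Set.right_mem_uIcc)).mono ?_
  rintro _ ⟨t, ht, rfl⟩
  exact h t ht

section P2
variable (L : Leg)

private theorem dl_E (a : ℝ) : L.dl (L.E a) = 0 := by
  simp only [Leg.dl, Leg.E]; ring

private theorem dl_I (a : ℝ) : L.dl (L.I a) = π := by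
  simp only [Leg.dl, Leg.I]; ring

private theorem E_neg (a : ℝ) : L.E (-a) = -L.E a := by
  simp only [Leg.E, Leg.th_neg, Prod.neg_mk, Prod.mk.injEq, true_and]
  ring

private theorem cont_E : Continuous L.E := by
  have := L.continuous_th
  unfold Leg.E
  fun_prop

private theorem cont_I : Continuous L.I := by
  have := L.continuous_th
  unfold Leg.I
  fun_prop

theorem Leg.ok_E {a : ℝ} (ha : |a| < π) : L.Ok (L.E a) := by
  rcases le_total 0 a with h | h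
  · exact L.ok_left (s := L.E a) h (abs_lt.1 ha).2 (by rw [dl_E]) (by rw [dl_E]; exact pi_pos)
  · rw [← L.Ok_neg, ← E_neg]
    have h' : 0 ≤ -a := by linarith
    refine L.ok_left (s := L.E (-a)) h' ?_ (by rw [dl_E]) (by rw [dl_E]; exact pi_pos)
    show -a < π
    linarith [(abs_lt.1 ha).1]

theorem Leg.wd_E {a : ℝ} (_ha : |a| < π) : L.wd (L.E a) = |L.th a| := by
  have h1 : L.ta (L.E a) = 0 := by
    rw [L.ta_eq, dl_E]
    have : ((‖L.Q (L.E a).1‖ : ℂ) + L.u * Complex.exp (((0 : ℝ) : ℂ) * Complex.I)) = ((‖L.Q (L.E a).1‖ + L.u : ℝ) : ℂ) := by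
      push_cast
      simp
    rw [this]
    exact Complex.arg_ofReal_of_nonneg (add_nonneg (norm_nonneg _) L.u_pos.le)
  have h2 : (L.E a).1 = a := rfl
  simp only [Leg.wd, Leg.hi, Leg.lo, h1, h2, add_zero, max_self, min_self]
  rcases le_total 0 (L.th a) with h | h
  · rw [max_eq_right h, min_eq_left h, abs_of_nonneg h, sub_zero]
  · rw [max_eq_left h, min_eq_right h, abs_of_nonpos h, zero_sub]

theorem Leg.not_Hk_E (a : ℝ) : ¬ L.Hk (L.E a) := by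
  rw [L.Hk_iff, dl_E, cos_zero]
  rintro ⟨_, h⟩
  have := norm_nonneg (L.Q (L.E a).1)
  linarith [L.u_pos]

theorem Leg.E_zero : L.E 0 = (0, 0) := by
  simp [Leg.E, L.th_zero]

theorem Leg.th_le_psi {a : ℝ} : L.th a ≤ L.psi := by
  have hq := L.norm_Q_pos a
  have hc := L.cos_th a
  have hs := L.sin_th a
  have h1 : L.x * sin (L.th a) = L.y * sin (a - L.th a) := by
    rw [sin_sub]
    have : ‖L.Q a‖ * (L.x * sin (L.th a)) = ‖L.Q a‖ * (L.y * (sin a * cos (L.th a) - cos a * sin (L.th a))) := by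
      calc ‖L.Q a‖ * (L.x * sin (L.th a)) = L.x * (‖L.Q a‖ * sin (L.th a)) := by ring
        _ = L.x * (L.y * sin a) := by rw [hs]
        _ = L.y * (sin a * (L.x + L.y * cos a) - cos a * (L.y * sin a)) := by ring
        _ = L.y * (sin a * (‖L.Q a‖ * cos (L.th a)) - cos a * (‖L.Q a‖ * sin (L.th a))) := by rw [hc, hs]
        _ = _ := by ring
    exact mul_left_cancel₀ hq.ne' this
  have h2 : sin (L.th a) ≤ L.y / L.x := by
    rw [le_div_iff₀ L.x_pos]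
    have := mul_le_mul_of_nonneg_left (sin_le_one (a - L.th a)) L.y_pos.le
    linarith
  have h3 := abs_lt.1 (L.abs_th_lt a)
  rw [← arcsin_sin h3.1.le h3.2.le]
  exact arcsin_le_arcsin h2

private theorem th_mono {a a' : ℝ} (h0 : 0 ≤ a') (h : a' ≤ a) (ha : a < π) (h1 : 0 ≤ L.y + L.x * cos a) :
    L.th a' ≤ L.th a := arg_mono L.x_pos L.y_pos h0 h ha h1

private theorem th_anti {a a' : ℝ} (h0 : 0 ≤ a) (h : a ≤ a') (ha : a' ≤ π) (h1 : L.y + L.x * cos a ≤ 0) :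
    L.th a' ≤ L.th a := arg_anti L.x_pos L.y_pos L.y_lt_x h0 h ha h1

private theorem Lv_E {t w : ℝ} (h0 : 0 ≤ t) (h1 : t < π) (hw : L.th t ≤ w) : L.E t ∈ L.Lv w := by
  have h2 : |t| < π := by rw [abs_of_nonneg h0]; exact h1
  refine ⟨L.ok_E h2, ?_⟩
  rw [L.wd_E h2, abs_of_nonneg (L.th_nonneg h0 h1.le)]
  exact hw

private theorem Lv_I {t w : ℝ} (h0 : 0 < t) (h1 : t < π) (hu : L.u < ‖L.Q t‖) (hw : L.th t ≤ w) :
    L.I t ∈ L.Lv w := by
  refine ⟨L.ok_I h0 h1 hu, ?_⟩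
  rw [L.wd_I h0 h1 hu]
  exact hw

theorem Leg.E_down {a a' : ℝ} (h0 : 0 ≤ a') (h : a' ≤ a) (ha : a < π)
    (h1 : 0 ≤ L.y + L.x * cos a) : JoinedIn (L.Lv (L.th a)) (L.E a) (L.E a') := by
  refine joined_of_cont (cont_E L) fun t ht => ?_
  rw [Set.uIcc_of_ge h] at ht
  exact Lv_E L (h0.trans ht.1) (ht.2.trans_lt ha) (th_mono L (h0.trans ht.1) ht.2 ha h1)

theorem Leg.E_up {a a' : ℝ} (h0 : 0 < a) (h : a ≤ a') (ha : a' < π)
    (h1 : L.y + L.x * cos a ≤ 0) : JoinedIn (L.Lv (L.th a)) (L.E a) (L.E a') := by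
  refine joined_of_cont (cont_E L) fun t ht => ?_
  rw [Set.uIcc_of_le h] at ht
  exact Lv_E L (h0.le.trans ht.1) (ht.2.trans_lt ha) (th_anti L h0.le ht.1 (ht.2.trans ha.le) h1)

theorem Leg.E_any {a : ℝ} (h0 : 0 ≤ a) (ha : a < π) : JoinedIn {t | L.Ok t} (L.E a) (0, 0) := by
  rw [← L.E_zero]
  refine joined_of_cont (cont_E L) fun t ht => ?_
  rw [Set.uIcc_of_ge h0] at ht
  exact L.ok_E (by rw [abs_of_nonneg ht.1]; exact ht.2.trans_lt ha)

private theorem th_pi : L.th π = 0 := by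
  have h1 := L.sin_th π
  rw [sin_pi, mul_zero] at h1
  have h2 : sin (L.th π) = 0 := (mul_eq_zero.1 h1).resolve_left (L.norm_Q_pos π).ne'
  have h3 := abs_lt.1 (L.abs_th_lt π)
  rw [← arcsin_sin h3.1.le h3.2.le, h2, arcsin_zero]

theorem Leg.E_small {a ε : ℝ} (hε : 0 < ε) (ha : a < π) :
    ∃ a', a ≤ a' ∧ 0 < a' ∧ a' < π ∧ L.th a' < ε := by
  have h1 : ∀ᶠ t in 𝓝[<] π, L.th t < ε := by
    refine (L.continuous_th.tendsto π).eventually_lt_const ?_ |>.filter_mono nhdsWithin_le_nhds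
    rw [th_pi]
    exact hε
  have h2 : ∀ᶠ t in 𝓝[<] π, a < t := (eventually_gt_nhds ha).filter_mono nhdsWithin_le_nhds
  have h3 : ∀ᶠ t in 𝓝[<] π, 0 < t := (eventually_gt_nhds pi_pos).filter_mono nhdsWithin_le_nhds
  have h4 : ∀ᶠ t in 𝓝[<] π, t < π := eventually_mem_nhdsWithin
  obtain ⟨t, h1, h2, h3, h4⟩ := (h1.and (h2.and (h3.and h4))).exists
  exact ⟨t, h2.le, h3, h4, h1⟩

private theorem u_lt_of {t : ℝ} (h : 0 ≤ L.y + L.x * cos t) : L.u < ‖L.Q t‖ := by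
  refine lt_of_pow_lt_pow_left₀ 2 (norm_nonneg _) ?_
  rw [L.norm_Q_sq]
  have := mul_nonneg L.y_pos.le h
  linarith [L.sq_lt]

private theorem norm_anti {t a : ℝ} (h0 : 0 ≤ t) (h : t ≤ a) (ha : a ≤ π) : ‖L.Q a‖ ≤ ‖L.Q t‖ := by
  refine le_of_pow_le_pow_left₀ two_ne_zero (norm_nonneg _) ?_
  rw [L.norm_Q_sq, L.norm_Q_sq]
  have h1 : cos a ≤ cos t := cos_le_cos_of_nonneg_of_le_pi h0 ha h
  have h2 := mul_le_mul_of_nonneg_left h1 (mul_nonneg (mul_nonneg two_pos.le L.x_pos.le) L.y_pos.le)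
  linarith

theorem Leg.I_down {a a' : ℝ} (h0 : 0 < a') (h : a' ≤ a) (ha : a < π)
    (h1 : 0 ≤ L.y + L.x * cos a) :
    L.u < ‖L.Q a'‖ ∧ JoinedIn (L.Lv (L.th a)) (L.I a) (L.I a') := by
  have hu : L.u < ‖L.Q a‖ := u_lt_of L h1
  refine ⟨hu.trans_le (norm_anti L h0.le h ha.le), joined_of_cont (cont_I L) fun t ht => ?_⟩
  rw [Set.uIcc_of_ge h] at ht
  have ht0 : 0 < t := h0.trans_le ht.1
  exact Lv_I L ht0 (ht.2.trans_lt ha) (hu.trans_le (norm_anti L ht0.le ht.2 ha.le)) (th_mono L ht0.le ht.2 ha h1)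

theorem Leg.I_up {a a' : ℝ} (h0 : 0 < a) (h : a ≤ a') (ha : a' < π)
    (h1 : L.y + L.x * cos a ≤ 0) (h2 : L.u < ‖L.Q a'‖) :
    JoinedIn (L.Lv (L.th a)) (L.I a) (L.I a') := by
  refine joined_of_cont (cont_I L) fun t ht => ?_
  rw [Set.uIcc_of_le h] at ht
  have ht0 : 0 < t := h0.trans_le ht.1
  exact Lv_I L ht0 (ht.2.trans_lt ha) (h2.trans_le (norm_anti L ht0.le ht.2 ha.le))
    (th_anti L h0.le ht.1 (ht.2.trans ha.le) h1)

theorem Leg.I_psi {a a' : ℝ} (h0 : 0 < a') (h : a' ≤ a) (ha : a < π) (h2 : L.u < ‖L.Q a‖) :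
    L.u < ‖L.Q a'‖ ∧ JoinedIn (L.Lv L.psi) (L.I a) (L.I a') := by
  refine ⟨h2.trans_le (norm_anti L h0.le h ha.le), joined_of_cont (cont_I L) fun t ht => ?_⟩
  rw [Set.uIcc_of_ge h] at ht
  have ht0 : 0 < t := h0.trans_le ht.1
  exact Lv_I L ht0 (ht.2.trans_lt ha) (h2.trans_le (norm_anti L ht0.le ht.2 ha.le)) L.th_le_psi

theorem Leg.I_small {a ε : ℝ} (hε : 0 < ε) (ha : 0 < a) :
    ∃ a', 0 < a' ∧ a' ≤ a ∧ a' < π / 2 ∧ L.th a' < ε := by
  have h1 : ∀ᶠ t in 𝓝[>] (0 : ℝ), L.th t < ε := by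
    refine (L.continuous_th.tendsto 0).eventually_lt_const ?_ |>.filter_mono nhdsWithin_le_nhds
    rw [L.th_zero]
    exact hε
  have h2 : ∀ᶠ t in 𝓝[>] (0 : ℝ), t < a := (eventually_lt_nhds ha).filter_mono nhdsWithin_le_nhds
  have h3 : ∀ᶠ t in 𝓝[>] (0 : ℝ), t < π / 2 := (eventually_lt_nhds (half_pos pi_pos)).filter_mono nhdsWithin_le_nhds
  have h4 : ∀ᶠ t in 𝓝[>] (0 : ℝ), 0 < t := eventually_mem_nhdsWithin
  obtain ⟨t, h1, h2, h3, h4⟩ := (h1.and (h2.and (h3.and h4))).exists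
  exact ⟨t, h4, h2.le, h3, h1⟩

theorem Leg.I_phi {a ε : ℝ} (hε : 0 < ε) (h0 : 0 < a) (ha : a < π) (h2 : L.u < ‖L.Q a‖) :
    ∃ a', a ≤ a' ∧ a' < π ∧ L.u < ‖L.Q a'‖ ∧ L.y + L.x * cos a' < 0 ∧ L.th a' < L.phi + ε := by
  have hcn : Continuous fun t => ‖L.Q t‖ := L.continuous_Q.norm
  have hpi : ‖L.Q π‖ < L.u := by
    refine lt_of_pow_lt_pow_left₀ 2 L.u_pos.le ?_
    rw [L.norm_Q_sq, cos_pi]
    have h3 : L.x ^ 2 + L.y ^ 2 + 2 * L.x * L.y * (-1) = (L.x - L.y) ^ 2 := by ring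
    rw [h3]
    exact pow_lt_pow_left₀ (by linarith [L.x_lt]) (by linarith [L.y_lt_x]) two_ne_zero
  obtain ⟨c, hc, hcu⟩ : ∃ c ∈ Set.Icc a π, ‖L.Q c‖ = L.u := by
    have := intermediate_value_Icc' ha.le hcn.continuousOn
    exact this ⟨hpi.le, h2.le⟩
  have hac : a < c := lt_of_le_of_ne hc.1 fun h => by rw [h, hcu] at h2; exact lt_irrefl _ h2
  have hcpi : c < π := lt_of_le_of_ne hc.2 fun h => by rw [h] at hcu; rw [hcu] at hpi; exact lt_irrefl _ hpi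
  have hc0 : 0 < c := h0.trans hac
  have hsq := L.norm_Q_sq c
  rw [hcu] at hsq
  have hcos : L.y + L.x * cos c < 0 := by
    have h3 : L.y * (L.y + L.x * cos c) < 0 := by linarith [L.sq_lt]
    by_contra hh
    push Not at hh
    exact absurd (mul_nonneg L.y_pos.le hh) (not_le.2 h3)
  have hth : L.th c = L.phi := by
    have h3 := L.cos_th c
    rw [hcu] at h3
    have h4 : cos (L.th c) = (L.x ^ 2 + L.u ^ 2 - L.y ^ 2) / (2 * L.x * L.u) := by
      rw [eq_div_iff (mul_ne_zero (mul_ne_zero two_ne_zero L.x_pos.ne') L.u_pos.ne')]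
      have h5 : cos (L.th c) * (2 * L.x * L.u) = 2 * L.x * (L.u * cos (L.th c)) := by ring
      rw [h5, h3]
      linarith
    rw [Leg.phi, ← h4, arccos_cos (L.th_nonneg hc0.le hcpi.le)]
    linarith [(abs_lt.1 (L.abs_th_lt c)).2, pi_pos]
  have e1 : ∀ᶠ t in 𝓝[<] c, L.th t < L.phi + ε := by
    refine (L.continuous_th.tendsto c).eventually_lt_const ?_ |>.filter_mono nhdsWithin_le_nhds
    rw [hth]
    linarith
  have e2 : ∀ᶠ t in 𝓝[<] c, a < t := (eventually_gt_nhds hac).filter_mono nhdsWithin_le_nhds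
  have e3 : ∀ᶠ t in 𝓝[<] c, t < c := eventually_mem_nhdsWithin
  have e4 : ∀ᶠ t in 𝓝[<] c, L.y + L.x * cos t < 0 := by
    have : Continuous fun t => L.y + L.x * cos t := by fun_prop
    exact ((this.tendsto c).eventually_lt_const hcos).filter_mono nhdsWithin_le_nhds
  obtain ⟨t, e1, e2, e3, e4⟩ := (e1.and (e2.and (e3.and e4))).exists
  refine ⟨t, e2.le, e3.trans hcpi, ?_, e4, e1⟩
  rw [← hcu]
  refine lt_of_pow_lt_pow_left₀ 2 (norm_nonneg _) ?_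
  rw [L.norm_Q_sq, L.norm_Q_sq]
  have h3 : cos c < cos t := cos_lt_cos_of_nonneg_of_le_pi (h0.trans e2).le hcpi.le e3
  have h4 := mul_lt_mul_of_pos_left h3 (mul_pos (mul_pos two_pos L.x_pos) L.y_pos)
  linarith

theorem Leg.Hk_I {a : ℝ} (_h0 : 0 < a) (_ha : a < π) (h2 : L.u < ‖L.Q a‖) :
    L.Hk (L.I a) ↔ L.y + L.x * cos a < 0 := by
  rw [L.Hk_iff, dl_I, cos_pi]
  have h1 : (L.I a).1 = a := rfl
  rw [h1]
  constructor
  · exact fun h => h.1
  · exact fun h => ⟨h, by linarith⟩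

end P2

end LockTree
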