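import Pool.Agent.Lib.MP_14e06f_lc.Spider.OK
import Pool.Agent.Lib.MP_14e06f_lc.Spider.MA

set_option autoImplicit false

/-!
# Spiders, row P5: the third bar passes outside of `P` to the other side
-/

namespace LockTree

open Real Filter Topology

/-- the argument of a number in polar form -/
private theorem p5_arg_polar {V : ℂ} (hV : V ≠ 0) {t : ℝ} (h : t + V.arg ∈ Set.Ioc (-π) π) :
    (Complex.exp (t * Complex.I) * V).arg = t + V.arg := by
  have h0 : 0 < ‖V‖ := norm_pos_iff.mpr hV
  have e : Complex.exp (t * Complex.I) * V =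
      (‖V‖ : ℂ) * (Complex.cos ((t + V.arg : ℝ) : ℂ) + Complex.sin ((t + V.arg : ℝ) : ℂ) * Complex.I) := by
    conv_lhs => rw [← Complex.norm_mul_exp_arg_mul_I V]
    rw [← Complex.exp_mul_I, mul_left_comm, ← Complex.exp_add]
    congr 2
    push_cast
    ring
  rw [e, Complex.arg_mul_cos_add_sin_mul_I h0 h]

/-- the data of the second step: `u e^(iη) - y = r e^(iζ)` -/
private theorem p5_conjU (L : Leg) {η r ζ : ℝ}
    (hz : (L.u : ℂ) * Complex.exp (η * Complex.I) - L.y = r * Complex.exp (ζ * Complex.I)) (a : ℝ) :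
    (starRingEnd ℂ) (L.U (a, -π + η)) = L.x + r * Complex.exp (((π - (a + ζ) : ℝ) : ℂ) * Complex.I) := by
  have h1 : (starRingEnd ℂ) ((L.u : ℂ) * Complex.exp (η * Complex.I) - L.y) =
      (starRingEnd ℂ) (r * Complex.exp (ζ * Complex.I)) := by rw [hz]
  have hc : ∀ t : ℝ, (starRingEnd ℂ) (Complex.exp (t * Complex.I)) = Complex.exp (-(t * Complex.I)) := by
    intro t
    rw [← Complex.exp_conj]
    simp
  simp only [map_sub, map_mul, Complex.conj_ofReal, hc] at h1
  unfold Leg.U Leg.Q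
  have e1 : Complex.exp (((a + (-π + η) : ℝ) : ℂ) * Complex.I) =
      -(Complex.exp (a * Complex.I) * Complex.exp (η * Complex.I)) := by
    have : (((a + (-π + η) : ℝ) : ℂ) * Complex.I) = a * Complex.I + η * Complex.I - π * Complex.I := by
      push_cast
      ring
    rw [this, Complex.exp_sub, Complex.exp_add, Complex.exp_pi_mul_I]
    ring
  have e2 : Complex.exp (((π - (a + ζ) : ℝ) : ℂ) * Complex.I) =
      -(Complex.exp (-(a * Complex.I)) * Complex.exp (-(ζ * Complex.I))) := by
    have : (((π - (a + ζ) : ℝ) : ℂ) * Complex.I) = π * Complex.I + (-(a * Complex.I) + -(ζ * Complex.I)) := by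
      push_cast
      ring
    rw [this, Complex.exp_add, Complex.exp_pi_mul_I, Complex.exp_add]
    ring
  simp only [map_add, map_mul, map_neg, Complex.conj_ofReal, hc, e1, e2]
  have h2 : (L.y : ℂ) * Complex.exp (-(a * Complex.I)) +
      L.u * -(Complex.exp (-(a * Complex.I)) * Complex.exp (-(η * Complex.I))) =
      r * -(Complex.exp (-(a * Complex.I)) * Complex.exp (-(ζ * Complex.I))) := by
    calc _ = -(Complex.exp (-(a * Complex.I))) * (L.u * Complex.exp (-(η * Complex.I)) - L.y) := by ring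
      _ = -(Complex.exp (-(a * Complex.I))) * (r * Complex.exp (-(ζ * Complex.I))) := by rw [h1]
      _ = _ := by ring
  rw [add_assoc, h2]

/-- the width in the second step -/
private theorem p5_wd (L : Leg) {η r ζ : ℝ} (hη : 0 < η) (hη2 : η < π / 2) (hr : 0 < r) (hrx : r < L.x)
    (hz : (L.u : ℂ) * Complex.exp (η * Complex.I) - L.y = r * Complex.exp (ζ * Complex.I))
    {a : ℝ} (ha : 0 ≤ a) (ha2 : a < π / 2) (hζ2 : a + ζ ≤ π) (hpos : 0 < a + ζ) :
    L.Ok (a, -π + η) ∧ L.wd (a, -π + η) =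
      L.th a + Complex.arg (L.x + r * Complex.exp (((π - (a + ζ) : ℝ) : ℂ) * Complex.I)) := by
  have hpi := Real.pi_pos
  have hth0 : 0 ≤ L.th a := L.th_nonneg ha (by linarith)
  have hth1 : |L.th a| < π / 2 := L.abs_th_lt a
  have hth2 : L.th a < π / 2 := (abs_lt.mp hth1).2
  have hdl : L.dl (a, -π + η) ≤ 0 := by
    unfold Leg.dl
    simp only
    linarith
  have hb : -π < ((a, -π + η) : ℝ × ℝ).2 := by
    show -π < -π + η
    linarith
  have ha' : ((a, -π + η) : ℝ × ℝ).1 < π := by
    show a < π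
    linarith
  refine ⟨L.ok_right (s := (a, -π + η)) ha ha' hb hdl, ?_⟩
  rw [L.wd_right (s := (a, -π + η)) ha ha' hb hdl]
  set V : ℂ := L.x + r * Complex.exp (((π - (a + ζ) : ℝ) : ℂ) * Complex.I) with hV
  have hVU : (starRingEnd ℂ) (L.U (a, -π + η)) = V := p5_conjU L hz a
  have hd0 : 0 ≤ π - (a + ζ) := by linarith
  have hd1 : π - (a + ζ) < π := by linarith
  obtain ⟨hA0, hA1⟩ := arg_nonneg L.x_pos hr hd0 hd1
  have hVre : 0 < V.re := by
    rw [hV]
    simp only [Complex.add_re, Complex.ofReal_re, Complex.re_ofReal_mul, Complex.exp_ofReal_mul_I_re]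
    have := Real.neg_one_le_cos (π - (a + ζ))
    nlinarith
  have hV0 : V ≠ 0 := fun h => by
    rw [h] at hVre
    exact absurd hVre (lt_irrefl _)
  have hAlt : V.arg < π / 2 := by
    have := (Complex.abs_arg_lt_pi_div_two_iff (z := V)).mpr (Or.inl hVre)
    exact (abs_lt.mp this).2
  have hU := L.U_eq (a, -π + η)
  have hW : (‖L.Q a‖ : ℂ) + L.u * Complex.exp (((-L.dl (a, -π + η) : ℝ) : ℂ) * Complex.I) =
      Complex.exp (L.th a * Complex.I) * V := by
    rw [← hVU, hU]
    have hc : ∀ t : ℝ, (starRingEnd ℂ) (Complex.exp (t * Complex.I)) = Complex.exp (-(t * Complex.I)) := by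
      intro t
      rw [← Complex.exp_conj]
      simp
    simp only [map_add, map_mul, Complex.conj_ofReal, hc]
    rw [← mul_assoc, ← Complex.exp_add, add_neg_cancel, Complex.exp_zero, one_mul]
    push_cast
    rw [neg_mul]
  have hmem : L.th a + V.arg ∈ Set.Ioc (-π) π := ⟨by linarith, by linarith⟩
  show max (L.th a) (Complex.arg ((‖L.Q a‖ : ℂ) + L.u * Complex.exp (((-L.dl (a, -π + η) : ℝ) : ℂ) * Complex.I))) = _
  rw [hW, p5_arg_polar hV0 hmem]
  exact max_eq_right (by linarith)

section P5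
variable (L : Leg)

theorem Leg.back {s : ℝ × ℝ} (h : L.Ok s) (ha : 0 ≤ s.1) (h0 : L.dl s < 0)
    (h1 : L.u + ‖L.Q s.1‖ * cos (L.dl s) < 0) {ε : ℝ} (hε : 0 < ε) :
    ∃ t, L.Ok t ∧ ¬ L.Hk t ∧ L.wd t < ε ∧ JoinedIn (L.Lv (L.wd s)) s t := by
  have hpi := Real.pi_pos
  obtain ⟨a, b⟩ := s
  simp only at ha h0 h1
  have hab := h
  obtain ⟨h2, h3, -⟩ := hab
  simp only at h2 h3
  have ha1 : a < π := (abs_lt.mp h2).2
  have hb1 : -π < b := (abs_lt.mp h3).1
  have hin : L.u < L.y + L.x * cos a := L.inner_right (s := (a, b)) ha h h0 h1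
  have hyu := L.y_lt
  have hcos : 0 < cos a := by
    by_contra hc
    have := L.x_pos
    nlinarith [not_lt.mp hc]
  have ha2 : a < π / 2 := by
    by_contra hc
    have := Real.cos_nonpos_of_pi_div_two_le_of_le (not_lt.mp hc) (by linarith)
    linarith
  -- the choice of η
  have hE : ∀ᶠ η : ℝ in 𝓝[>] 0, 0 < η ∧ η < b + π ∧ η < π / 2 ∧ L.y < L.u * cos η ∧
      L.u ^ 2 + L.y ^ 2 - 2 * L.u * L.y * cos η < L.x * (L.u * cos (a + η) - L.y * cos a) ∧
      |Complex.arg (L.x + L.y - L.u * Complex.exp (-(η * Complex.I)))| < ε := by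
    have e1 : ∀ᶠ η : ℝ in 𝓝[>] 0, 0 < η := eventually_mem_nhdsWithin
    have e2 : ∀ᶠ η : ℝ in 𝓝[>] 0, η < b + π := (Iio_mem_nhds (by linarith) |> fun h => mem_nhdsWithin_of_mem_nhds h)
    have e3 : ∀ᶠ η : ℝ in 𝓝[>] 0, η < π / 2 := (Iio_mem_nhds (by linarith) |> fun h => mem_nhdsWithin_of_mem_nhds h)
    have e4 : ∀ᶠ η : ℝ in 𝓝[>] 0, L.y < L.u * cos η := by
      have hc : ContinuousAt (fun η : ℝ => L.u * cos η) 0 := by fun_prop
      have := hc.eventually_const_lt (u := L.y) (by simpa using hyu)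
      exact mem_nhdsWithin_of_mem_nhds this
    have e5 : ∀ᶠ η : ℝ in 𝓝[>] 0,
        L.u ^ 2 + L.y ^ 2 - 2 * L.u * L.y * cos η < L.x * (L.u * cos (a + η) - L.y * cos a) := by
      have hc1 : ContinuousAt (fun η : ℝ => L.u ^ 2 + L.y ^ 2 - 2 * L.u * L.y * cos η) 0 := by fun_prop
      have hc2 : ContinuousAt (fun η : ℝ => L.x * (L.u * cos (a + η) - L.y * cos a)) 0 := by fun_prop
      have := hc1.eventually_lt hc2 (by
        simp only [Real.cos_zero, add_zero, mul_one]
        nlinarith)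
      exact mem_nhdsWithin_of_mem_nhds this
    have e6 : ∀ᶠ η : ℝ in 𝓝[>] 0, |Complex.arg (L.x + L.y - L.u * Complex.exp (-(η * Complex.I)))| < ε := by
      have hslit : ((L.x : ℂ) + L.y - L.u * Complex.exp (-(((0 : ℝ) : ℂ) * Complex.I))) ∈ Complex.slitPlane := by
        left
        simp only [Complex.ofReal_zero, zero_mul, neg_zero, Complex.exp_zero, mul_one, Complex.sub_re,
          Complex.add_re, Complex.ofReal_re]
        have := L.u_lt_x
        have := L.y_pos
        linarith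
      have hc0 : ContinuousAt (fun η : ℝ => ((L.x : ℂ) + L.y - L.u * Complex.exp (-((η : ℂ) * Complex.I)))) 0 := by
        fun_prop
      have hc : ContinuousAt (fun η : ℝ =>
          |Complex.arg ((L.x : ℂ) + L.y - L.u * Complex.exp (-((η : ℂ) * Complex.I)))|) 0 :=
        (ContinuousAt.comp' (x := (0 : ℝ)) (g := Complex.arg)
          (f := fun η : ℝ => ((L.x : ℂ) + L.y - L.u * Complex.exp (-((η : ℂ) * Complex.I))))
          (Complex.continuousAt_arg hslit) hc0).abs
      have hz : |Complex.arg ((L.x : ℂ) + L.y - L.u * Complex.exp (-(((0 : ℝ) : ℂ) * Complex.I)))| < ε := by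
        have : ((L.x : ℂ) + L.y - L.u * Complex.exp (-(((0 : ℝ) : ℂ) * Complex.I))) = ((L.x + L.y - L.u : ℝ) : ℂ) := by
          push_cast
          simp
        rw [this, Complex.arg_ofReal_of_nonneg (by
          have := L.u_lt_x
          have := L.y_pos
          linarith), abs_zero]
        exact hε
      have := hc.eventually_lt_const hz
      exact mem_nhdsWithin_of_mem_nhds this
    filter_upwards [e1, e2, e3, e4, e5, e6] with η q1 q2 q3 q4 q5 q6
    exact ⟨q1, q2, q3, q4, q5, q6⟩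
  obtain ⟨η, q1, q2, q3, q4, q5, q6⟩ := hE.exists
  set z0 : ℂ := (L.u : ℂ) * Complex.exp (η * Complex.I) - L.y with hz0
  have hre : z0.re = L.u * cos η - L.y := by
    rw [hz0]
    simp [Complex.exp_ofReal_mul_I_re]
  have him : z0.im = L.u * sin η := by
    rw [hz0]
    simp [Complex.exp_ofReal_mul_I_im]
  have hsin : 0 < sin η := Real.sin_pos_of_pos_of_lt_pi q1 (by linarith)
  have hupos := L.u_pos
  have him0 : 0 < z0.im := by
    rw [him]
    positivity
  have hre0 : 0 < z0.re := by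
    rw [hre]
    linarith
  have hz00 : z0 ≠ 0 := fun hc => by
    rw [hc] at hre0
    exact absurd hre0 (lt_irrefl _)
  set r : ℝ := ‖z0‖ with hr
  set ζ : ℝ := z0.arg with hζ
  have hrpos : 0 < r := norm_pos_iff.mpr hz00
  have hzr : z0 = r * Complex.exp (ζ * Complex.I) := (Complex.norm_mul_exp_arg_mul_I z0).symm
  have hζ0 : 0 ≤ ζ := Complex.arg_nonneg_iff.mpr him0.le
  have hζpos : 0 < ζ := by
    rcases hζ0.lt_or_eq with hlt | heq
    · exact hlt
    · exfalso
      have : z0.im = 0 := (Complex.arg_eq_zero_iff.mp heq.symm).2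
      linarith
  have hζ1 : ζ < π / 2 := by
    have := (Complex.abs_arg_lt_pi_div_two_iff (z := z0)).mpr (Or.inl hre0)
    exact (abs_lt.mp this).2
  have hrsq : r ^ 2 = L.u ^ 2 + L.y ^ 2 - 2 * L.u * L.y * cos η := by
    rw [hr, Complex.sq_norm, Complex.normSq_apply, hre, him]
    have := Real.sin_sq_add_cos_sq η
    nlinarith
  have hrcos : r * cos ζ = L.u * cos η - L.y := by
    rw [← hre, hzr, Complex.re_ofReal_mul, Complex.exp_ofReal_mul_I_re]
  have hrsin : r * sin ζ = L.u * sin η := by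
    rw [← him, hzr, Complex.im_ofReal_mul, Complex.exp_ofReal_mul_I_im]
  have hrc : r * cos (a + ζ) = L.u * cos (a + η) - L.y * cos a := by
    rw [Real.cos_add, Real.cos_add]
    linear_combination cos a * hrcos - sin a * hrsin
  have hrx' : r < L.x * cos (a + ζ) := by
    have h5 : r * r < r * (L.x * cos (a + ζ)) := by
      calc r * r = r ^ 2 := by ring
        _ = _ := hrsq
        _ < _ := q5
        _ = L.x * (r * cos (a + ζ)) := by rw [hrc]
        _ = _ := by ring
    exact lt_of_mul_lt_mul_left h5 hrpos.le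
  have hrx : r < L.x := by
    have := Real.cos_le_one (a + ζ)
    have := L.x_pos
    nlinarith
  -- second step
  have hw2 : ∀ a' : ℝ, 0 ≤ a' → a' ≤ a → L.Ok (a', -π + η) ∧ L.wd (a', -π + η) ≤ L.wd (a, -π + η) := by
    intro a' h5 h6
    obtain ⟨k1, k2⟩ := p5_wd L q1 q3 hrpos hrx (hz0 ▸ hzr) h5 (by linarith) (by linarith) (by linarith)
    obtain ⟨-, k4⟩ := p5_wd L q1 q3 hrpos hrx (hz0 ▸ hzr) ha ha2 (by linarith) (by linarith)
    refine ⟨k1, ?_⟩
    rw [k2, k4]
    have m1 : L.th a' ≤ L.th a := arg_mono L.x_pos L.y_pos h5 h6 ha1 (by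
      have := L.y_pos
      have := L.x_pos
      nlinarith)
    have m2 := arg_anti (c := L.x) (r := r) (d := π - (a + ζ)) (e := π - (a' + ζ)) L.x_pos hrpos hrx
      (by linarith) (by linarith) (by linarith) (by
        rw [Real.cos_pi_sub]
        linarith)
    exact add_le_add m1 m2
  -- first step
  have hth0 : 0 ≤ L.th a := L.th_nonneg ha ha1.le
  have hth1 : L.th a ≤ a := by
    rcases ha.lt_or_eq with hlt | heq
    · exact (L.th_lt hlt ha1).2.le
    · rw [← heq, L.th_zero]
  have huQ : L.u < ‖L.Q a‖ := by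
    have h5 := Real.neg_one_le_cos (L.dl (a, b))
    have h6 : 0 < ‖L.Q a‖ := L.norm_Q_pos a
    nlinarith
  have hw1 : ∀ b' : ℝ, -π + η ≤ b' → b' ≤ b → L.Ok (a, b') ∧ L.wd (a, b') ≤ L.wd (a, b) := by
    intro b' h5 h6
    have hdl : L.dl (a, b') ≤ L.dl (a, b) := by
      unfold Leg.dl
      simp only
      linarith
    have hb' : -π < ((a, b') : ℝ × ℝ).2 := by
      show -π < b'
      linarith
    refine ⟨L.ok_right (s := (a, b')) ha ha1 hb' (by linarith), ?_⟩
    rw [L.wd_right (s := (a, b')) ha ha1 hb' (by linarith), L.wd_right (s := (a, b)) ha ha1 hb1 h0.le]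
    refine max_le_max le_rfl ?_
    refine arg_anti (L.norm_Q_pos a) L.u_pos huQ (by linarith) (by linarith) ?_ ?_
    · unfold Leg.dl
      simp only
      linarith
    · rw [Real.cos_neg]
      exact h1.le
  refine ⟨(0, -π + η), (hw2 0 le_rfl ha).1, ?_, ?_, ?_⟩
  · rw [L.Hk_iff]
    rintro ⟨k1, -⟩
    simp only [Real.cos_zero, mul_one] at k1
    have := L.y_pos
    have := L.x_pos
    linarith
  · obtain ⟨-, k2⟩ := p5_wd L q1 q3 hrpos hrx (hz0 ▸ hzr) le_rfl (by linarith : (0 : ℝ) < π / 2) (by linarith)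
      (by linarith)
    rw [k2, L.th_zero, zero_add, zero_add]
    have e : (L.x : ℂ) + r * Complex.exp (((π - ζ : ℝ) : ℂ) * Complex.I) =
        L.x + L.y - L.u * Complex.exp (-(η * Complex.I)) := by
      rw [← zero_add ζ, ← p5_conjU L (hz0 ▸ hzr) 0]
      have hc : ∀ t : ℝ, (starRingEnd ℂ) (Complex.exp (t * Complex.I)) = Complex.exp (-(t * Complex.I)) := by
        intro t
        rw [← Complex.exp_conj]
        simp
      have e1 : Complex.exp (((0 + (-π + η) : ℝ) : ℂ) * Complex.I) = -Complex.exp (η * Complex.I) := by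
        have : (((0 + (-π + η) : ℝ) : ℂ) * Complex.I) = η * Complex.I - π * Complex.I := by
          push_cast
          ring
        rw [this, Complex.exp_sub, Complex.exp_pi_mul_I]
        ring
      unfold Leg.U Leg.Q
      simp only [e1, map_add, map_mul, map_neg, Complex.conj_ofReal, hc]
      simp
      ring
    rw [e]
    exact (le_abs_self _).trans_lt q6
  · refine JoinedIn.trans (y := (a, -π + η)) ?_ ?_
    · refine JoinedIn.of_segment_subset ?_
      rintro z ⟨p, q, hp, hq, hpq, rfl⟩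
      have e : p • ((a, b) : ℝ × ℝ) + q • (a, -π + η) = (a, p * b + q * (-π + η)) := by
        refine Prod.ext ?_ rfl
        show p * a + q * a = a
        rw [← add_mul, hpq, one_mul]
      rw [e]
      refine hw1 _ ?_ ?_
      · nlinarith
      · nlinarith
    · refine JoinedIn.of_segment_subset ?_
      rintro z ⟨p, q, hp, hq, hpq, rfl⟩
      have e : p • ((a, -π + η) : ℝ × ℝ) + q • (0, -π + η) = (p * a, -π + η) := by
        refine Prod.ext ?_ ?_
        · show p * a + q * 0 = p * a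
          ring
        · show p * (-π + η) + q * (-π + η) = -π + η
          rw [← add_mul, hpq, one_mul]
      rw [e]
      obtain ⟨k1, k2⟩ := hw2 (p * a) (mul_nonneg hp ha) (by nlinarith)
      exact ⟨k1, k2.trans (hw1 (-π + η) le_rfl (by linarith)).2⟩

end P5

end LockTree
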