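import Pool.Agent.Lib.MP_14e06f_lc.Spider.P1
import Pool.Agent.Lib.MP_14e06f_lc.Spider.P2
import Pool.Agent.Lib.MP_14e06f_lc.Spider.P5

set_option autoImplicit false

/-!
# The five facts about a leg
-/

namespace LockTree

open Real

variable (L : Leg)

private theorem legMono {L : Leg} {w w' : ℝ} {s t : ℝ × ℝ} (h : JoinedIn (L.Lv w) s t) (hw : w ≤ w') :
    JoinedIn (L.Lv w') s t :=
  h.mono fun _ hz => ⟨hz.1, hz.2.trans hw⟩

private theorem legTh {L : Leg} (s : ℝ × ℝ) : L.th s.1 ≤ L.wd s := (le_abs_self _).trans (L.abs_th_le s)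

private theorem legLt {L : Leg} {s : ℝ × ℝ} (h : L.Ok s) : s.1 < π := (abs_lt.1 h.1).2

private theorem legCos {L : Leg} {a : ℝ} (h0 : 0 < a) (h1 : a < π / 2) : ¬ L.y + L.x * cos a < 0 := by
  have h2 : 0 < cos a := cos_pos_of_mem_Ioo ⟨by linarith [pi_pos], h1⟩
  have h3 := mul_pos L.x_pos h2
  have h4 := L.y_pos
  linarith

private theorem legPosA {L : Leg} {a : ℝ} (h0 : 0 ≤ a) (h : L.y + L.x * cos a < 0) : 0 < a := by
  rcases h0.lt_or_eq with h1 | h1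
  · exact h1
  · rw [← h1, cos_zero] at h
    have := L.x_pos
    have := L.y_pos
    linarith

private theorem legPosD {L : Leg} {s : ℝ × ℝ} (h : L.u + ‖L.Q s.1‖ * cos (L.dl s) < 0) (h0 : 0 ≤ L.dl s) :
    0 < L.dl s := by
  rcases h0.lt_or_eq with h1 | h1
  · exact h1
  · rw [← h1, cos_zero] at h
    have := L.u_pos
    have := L.norm_Q_pos s.1
    linarith

theorem Leg.leg0 : L.Ok (0, 0) ∧ ¬ L.Hk (0, 0) ∧ L.wd (0, 0) = 0 := by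
  have h0 : |(0 : ℝ)| < π := by rw [abs_zero]; exact pi_pos
  rw [← L.E_zero]
  refine ⟨L.ok_E h0, L.not_Hk_E 0, ?_⟩
  rw [L.wd_E h0, L.th_zero, abs_zero]

/-- `back` for the mirror image -/
private theorem legBack {L : Leg} {s : ℝ × ℝ} (h : L.Ok s) (ha : s.1 = 0) (h0 : 0 < L.dl s)
    (h1 : L.u + ‖L.Q s.1‖ * cos (L.dl s) < 0) {ε : ℝ} (hε : 0 < ε) :
    ∃ t, L.Ok t ∧ ¬ L.Hk t ∧ L.wd t < ε ∧ JoinedIn (L.Lv (L.wd s)) s t := by
  have h1' : L.u + ‖L.Q (-s).1‖ * cos (L.dl (-s)) < 0 := by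
    rw [L.dl_neg, cos_neg, Prod.fst_neg, ha, neg_zero]
    rwa [ha] at h1
  obtain ⟨t, ht1, ht2, ht3, ht4⟩ := L.back ((L.Ok_neg s).2 h) (by rw [Prod.fst_neg, ha, neg_zero])
    (by rw [L.dl_neg]; linarith) h1' hε
  refine ⟨-t, (L.Ok_neg t).2 ht1, fun hc => ht2 ((L.Hk_neg t).1 hc), ?_, ?_⟩
  · rwa [Leg.wd_neg ht1]
  · have h3 := Leg.joined_neg ht4
    rwa [neg_neg, Leg.wd_neg h] at h3

private theorem leg1Pos {L : Leg} {s : ℝ × ℝ} (h : L.Ok s) (hk : ¬ L.Hk s) (ha : 0 ≤ s.1) {ε : ℝ} (hε : 0 < ε) :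
    ∃ t, L.Ok t ∧ ¬ L.Hk t ∧ L.wd t < ε ∧ JoinedIn (L.Lv (L.wd s)) s t := by
  have hpi := legLt h
  rcases le_or_gt 0 (L.u + ‖L.Q s.1‖ * cos (L.dl s)) with hA | hB
  · have h1 := L.rot_out h ha hA
    rcases le_or_gt 0 (L.y + L.x * cos s.1) with hc | hc
    · have h2 := legMono (L.E_down le_rfl ha hpi hc) (legTh s)
      rw [L.E_zero] at h2
      obtain ⟨h3, h4, h5⟩ := L.leg0
      exact ⟨(0, 0), h3, h4, by rw [h5]; exact hε, h1.trans h2⟩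
    · obtain ⟨a', h3, h4, h5, h6⟩ := L.E_small hε hpi
      have h7 : |a'| < π := by rw [abs_of_pos h4]; exact h5
      refine ⟨L.E a', L.ok_E h7, L.not_Hk_E a', ?_,
        h1.trans (legMono (L.E_up (legPosA ha hc) h3 h5 hc.le) (legTh s))⟩
      rw [L.wd_E h7, abs_of_nonneg (L.th_nonneg h4.le h5.le)]
      exact h6
  · rcases lt_or_ge (L.dl s) 0 with hd | hd
    · exact L.back h ha hd hB hε
    · have hd' := legPosD hB hd
      rcases ha.lt_or_eq with ha' | ha'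
      · have hc : 0 ≤ L.y + L.x * cos s.1 := by
          by_contra hc
          exact hk ((L.Hk_iff s).2 ⟨not_le.1 hc, hB⟩)
        obtain ⟨-, h2⟩ := L.rot_in h ha' hd' hB
        obtain ⟨a', h3, h4, h5, h6⟩ := L.I_small hε ha'
        obtain ⟨h7, h8⟩ := L.I_down h3 h4 hpi hc
        have h9 : a' < π := h4.trans_lt hpi
        refine ⟨L.I a', L.ok_I h3 h9 h7, fun hH => legCos h3 h5 ((L.Hk_I h3 h9 h7).1 hH), ?_,
          h2.trans (legMono h8 (legTh s))⟩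
        rw [L.wd_I h3 h9 h7]
        exact h6
      · exact legBack h ha'.symm hd' hB hε

theorem Leg.leg1 {s : ℝ × ℝ} (h : L.Ok s) (hk : ¬ L.Hk s) {ε : ℝ} (hε : 0 < ε) :
    ∃ t, L.Ok t ∧ ¬ L.Hk t ∧ L.wd t < ε ∧ JoinedIn (L.Lv (L.wd s)) s t := by
  rcases le_or_gt 0 s.1 with ha | ha
  · exact leg1Pos h hk ha hε
  · obtain ⟨t, ht1, ht2, ht3, ht4⟩ := leg1Pos (s := -s) ((L.Ok_neg s).2 h) (fun hc => hk ((L.Hk_neg s).1 hc))
      (by rw [Prod.fst_neg]; linarith) hε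
    refine ⟨-t, (L.Ok_neg t).2 ht1, fun hc => ht2 ((L.Hk_neg t).1 hc), ?_, ?_⟩
    · rwa [Leg.wd_neg ht1]
    · have h3 := Leg.joined_neg ht4
      rwa [neg_neg, Leg.wd_neg h] at h3

/-- a hooked leg on the left: turn the third bar inward -/
private theorem legHook {L : Leg} {s : ℝ × ℝ} (h : L.Ok s) (hk : L.Hk s) (ha : 0 ≤ s.1) :
    0 < s.1 ∧ L.y + L.x * cos s.1 < 0 ∧ L.u < ‖L.Q s.1‖ ∧ JoinedIn (L.Lv (L.wd s)) s (L.I s.1) := by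
  obtain ⟨h1, h2⟩ := (L.Hk_iff s).1 hk
  have h3 := legPosA ha h1
  have h4 : 0 ≤ L.dl s := by
    by_contra hc
    have h5 := L.inner_right ha h (not_le.1 hc) h2
    have h6 := L.u_pos
    linarith
  obtain ⟨h5, h6⟩ := L.rot_in h h3 (legPosD h2 h4) h2
  exact ⟨h3, h1, h5, h6⟩

private theorem leg2Pos {L : Leg} {s : ℝ × ℝ} (h : L.Ok s) (hk : L.Hk s) (ha : 0 ≤ s.1) {ε : ℝ} (hε : 0 < ε) :
    ∃ t, L.Ok t ∧ L.Hk t ∧ L.wd t < L.phi + ε ∧ JoinedIn (L.Lv (L.wd s)) s t := by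
  obtain ⟨h1, h2, h3, h4⟩ := legHook h hk ha
  obtain ⟨a', h5, h6, h7, h8, h9⟩ := L.I_phi hε h1 (legLt h) h3
  have h10 : 0 < a' := h1.trans_le h5
  refine ⟨L.I a', L.ok_I h10 h6 h7, (L.Hk_I h10 h6 h7).2 h8, ?_,
    h4.trans (legMono (L.I_up h1 h5 h6 h2.le h7) (legTh s))⟩
  rw [L.wd_I h10 h6 h7]
  exact h9

theorem Leg.leg2 {s : ℝ × ℝ} (h : L.Ok s) (hk : L.Hk s) {ε : ℝ} (hε : 0 < ε) :
    ∃ t, L.Ok t ∧ L.Hk t ∧ L.wd t < L.phi + ε ∧ JoinedIn (L.Lv (L.wd s)) s t := by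
  rcases le_or_gt 0 s.1 with ha | ha
  · exact leg2Pos h hk ha hε
  · obtain ⟨t, ht1, ht2, ht3, ht4⟩ := leg2Pos (s := -s) ((L.Ok_neg s).2 h) ((L.Hk_neg s).2 hk)
      (by rw [Prod.fst_neg]; linarith) hε
    refine ⟨-t, (L.Ok_neg t).2 ht1, (L.Hk_neg t).2 ht2, ?_, ?_⟩
    · rwa [Leg.wd_neg ht1]
    · have h3 := Leg.joined_neg ht4
      rwa [neg_neg, Leg.wd_neg h] at h3

private theorem leg3Pos {L : Leg} {s : ℝ × ℝ} (h : L.Ok s) (hk : L.Hk s) (ha : 0 ≤ s.1) :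
    ∃ t, L.Ok t ∧ ¬ L.Hk t ∧ JoinedIn (L.Lv (max (L.wd s) L.psi)) s t := by
  obtain ⟨h1, -, h3, h4⟩ := legHook h hk ha
  obtain ⟨a', h5, h6, h7, -⟩ := L.I_small one_pos h1
  obtain ⟨h8, h9⟩ := L.I_psi h5 h6 (legLt h) h3
  have h10 : a' < π := h6.trans_lt (legLt h)
  exact ⟨L.I a', L.ok_I h5 h10 h8, fun hH => legCos h5 h7 ((L.Hk_I h5 h10 h8).1 hH),
    (legMono h4 (le_max_left _ _)).trans (legMono h9 (le_max_right _ _))⟩

theorem Leg.leg3 {s : ℝ × ℝ} (h : L.Ok s) (hk : L.Hk s) :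
    ∃ t, L.Ok t ∧ ¬ L.Hk t ∧ JoinedIn (L.Lv (max (L.wd s) L.psi)) s t := by
  rcases le_or_gt 0 s.1 with ha | ha
  · exact leg3Pos h hk ha
  · obtain ⟨t, ht1, ht2, ht4⟩ := leg3Pos (s := -s) ((L.Ok_neg s).2 h) ((L.Hk_neg s).2 hk)
      (by rw [Prod.fst_neg]; linarith)
    refine ⟨-t, (L.Ok_neg t).2 ht1, fun hc => ht2 ((L.Hk_neg t).1 hc), ?_⟩
    have h3 := Leg.joined_neg ht4
    rwa [neg_neg, Leg.wd_neg h] at h3

theorem Leg.leg4 {s : ℝ × ℝ} (h : L.Ok s) : JoinedIn {t | L.Ok t} s (0, 0) := by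
  have hset : {t | L.Ok t} = L.Lv (3 * π / 2) := by
    ext t
    exact ⟨fun ht => ⟨ht, L.wd_le t⟩, fun ht => ht.1⟩
  have hpos : ∀ s : ℝ × ℝ, L.Ok s → 0 ≤ s.1 → JoinedIn {t | L.Ok t} s (0, 0) := fun s h ha =>
    (L.rot_any h ha).trans (L.E_any ha (legLt h))
  rcases le_or_gt 0 s.1 with ha | ha
  · exact hpos s h ha
  · have h1 := hpos (-s) ((L.Ok_neg s).2 h) (by rw [Prod.fst_neg]; linarith)
    rw [hset] at h1 ⊢
    have h2 := Leg.joined_neg h1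
    have h3 : (-(0, 0) : ℝ × ℝ) = (0, 0) := neg_zero
    rwa [neg_neg, h3] at h2

/-- there are hooked shapes of width close to `phi`: `I a` with `‖Q a‖` slightly above `u` -/
theorem Leg.leg5 {ε : ℝ} (hε : 0 < ε) : ∃ s, L.Ok s ∧ L.Hk s ∧ L.wd s < L.phi + ε := by
  have hpi := pi_pos
  have h0 : L.u < ‖L.Q (π / 2)‖ := by
    have h1 := L.norm_Q_sq (π / 2)
    rw [cos_pi_div_two, mul_zero, add_zero] at h1
    have h2 : L.u ^ 2 < ‖L.Q (π / 2)‖ ^ 2 := by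
      rw [h1]
      have := L.sq_lt
      nlinarith [L.y_pos]
    exact lt_of_pow_lt_pow_left₀ 2 (norm_nonneg _) h2
  obtain ⟨a', h5, h6, h7, h8, h9⟩ := L.I_phi hε (by linarith : (0 : ℝ) < π / 2) (by linarith) h0
  have h10 : 0 < a' := by linarith
  exact ⟨L.I a', L.ok_I h10 h6 h7, (L.Hk_I h10 h6 h7).2 h8, by rw [L.wd_I h10 h6 h7]; exact h9⟩

end LockTree
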