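import Pool.Agent.Lib.MP_14e06f_lc.Spider.LA
import Pool.Agent.Lib.MP_14e06f_lc.Spider.LegMain
import Pool.Agent.Lib.MP_14e06f_lc.Spider.Bud
import Pool.Agent.Lib.MP_14e06f_lc.Spider.Down
import Pool.Agent.Lib.MP_14e06f_lc.Spider.Hook

set_option autoImplicit false

/-!
# The criterion
-/

namespace LockTree

open Real LockPl

private theorem crit_mp {N : ℕ} (hN : 0 < N) (L : Fin N → Leg) {A : ℝ}
    (hA : ∀ i, (L i).x + (L i).y + (L i).u < A) (hA0 : 0 < A) (hst : ¬ Stuck L)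
    {p q : SV N → ℂ} (hp : p ∈ Sp L A) (hq : q ∈ Sp L A) : JoinedIn (Sp L A) p q := by
  have key : ∀ s ∈ Shp L, JoinedIn (Shp L) s (fun _ => ((0 : ℝ), (0 : ℝ))) := by
    intro s hs
    refine budget (fun i => (L i).Ok) (fun i => (L i).Hk) (fun i => (L i).wd) (0, 0)
      (fun i => (L i).phi) (fun i => (L i).psi) (2 * π) (3 * π / 2) (by linarith [Real.pi_pos])
      (fun i s => (L i).wd_nonneg s) (fun i s _ => (L i).wd_le s)
      (fun i => ⟨(L i).leg0.1, (L i).leg0.2.2⟩)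
      (fun i s _ hk => (L i).phi_le hk.1.le hk.2.le) (fun i => (L i).phi_lt_psi.le)
      (fun i s h hk ε hε => (L i).leg1 h hk hε) (fun i s h hk ε hε => (L i).leg2 h hk hε)
      (fun i s h hk => (L i).leg3 h hk) (fun i s h => (L i).leg4 h) ?_ hs.1 hs.2
    intro S hS hlt
    by_contra hcon
    push Not at hcon
    exact hst ⟨S, hS, hlt, hcon⟩
  obtain ⟨g, hg, rfl⟩ := exists_pos hN L hA hp
  obtain ⟨g', hg', rfl⟩ := exists_pos hN L hA hq
  have h1 : JoinedIn (Shp L) g.2.2.2 g'.2.2.2 :=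
    (key _ (sum_wd_lt L hg hN)).trans (key _ (sum_wd_lt L hg' hN)).symm
  obtain ⟨γ, hγ⟩ := good_joined L hN hg hg' h1
  exact ⟨γ.map (continuous_pos L A), fun t => pos_mem L hA0 (hγ t)⟩

private theorem crit_mpr {N : ℕ} (hN : 0 < N) (L : Fin N → Leg) {A : ℝ}
    (hA : ∀ i, (L i).x + (L i).y + (L i).u < A) (hA0 : 0 < A) (hst : Stuck L) :
    ∃ p ∈ Sp L A, ∃ q ∈ Sp L A, ¬ JoinedIn (Sp L A) p q := by
  classical
  obtain ⟨S, hS, hlt, hstk⟩ := hst
  set ε : ℝ := (2 * π - ∑ i ∈ S, (L i).phi) / S.card with hε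
  have hcard : (0 : ℝ) < S.card := by exact_mod_cast hS.card_pos
  have hε0 : 0 < ε := div_pos (by linarith) hcard
  choose r hrok hrhk hrw using fun i => (L i).leg5 hε0
  let s : Fin N → ℝ × ℝ := fun i => if i ∈ S then r i else (0, 0)
  have hs : s ∈ Shp L := by
    constructor
    · intro i
      by_cases hi : i ∈ S
      · simp only [s, hi, if_true]; exact hrok i
      · simp only [s, hi, if_false]; exact (L i).leg0.1
    · have h1 : ∑ i, (L i).wd (s i) = ∑ i ∈ S, (L i).wd (r i) := by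
        rw [← Finset.sum_subset (Finset.subset_univ S)]
        · exact Finset.sum_congr rfl (fun i hi => by simp only [s, hi, if_true])
        · intro i _ hi
          simp only [s, hi, if_false]; exact (L i).leg0.2.2
      rw [h1]
      calc ∑ i ∈ S, (L i).wd (r i) < ∑ i ∈ S, ((L i).phi + ε) :=
            Finset.sum_lt_sum_of_nonempty hS (fun i _ => hrw i)
        _ = 2 * π := by
            rw [Finset.sum_add_distrib, Finset.sum_const, nsmul_eq_mul, hε]
            field_simp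
            ring
  have hz : (fun _ => ((0 : ℝ), (0 : ℝ))) ∈ Shp L := by
    constructor
    · intro i; exact (L i).leg0.1
    · have : ∑ i, (L i).wd ((0 : ℝ), (0 : ℝ)) = 0 :=
        Finset.sum_eq_zero (fun i _ => (L i).leg0.2.2)
      rw [this]; linarith [Real.pi_pos]
  obtain ⟨g, hg, hgs⟩ := exists_good L hN hs
  obtain ⟨g', hg', hgs'⟩ := exists_good L hN hz
  refine ⟨pos L A g, pos_mem L hA0 hg, pos L A g', pos_mem L hA0 hg', fun hj => ?_⟩
  have h1 : ∀ i ∈ S, HkAt (pos L A g) i := by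
    intro i hi
    rw [hkAt_pos, hgs]
    simp only [s, hi, if_true]; exact hrhk i
  have h2 := hook_invariant hN L hA hstk hj h1
  obtain ⟨i, hi⟩ := hS
  have h3 := h2 i hi
  rw [hkAt_pos, hgs'] at h3
  exact (L i).leg0.2.1 h3

/-- The criterion: a spider is locked if and only if it is stuck. -/
theorem crit {N : ℕ} (hN : 0 < N) (L : Fin N → Leg) {A : ℝ}
    (hA : ∀ i, (L i).x + (L i).y + (L i).u < A) :
    (∃ p ∈ Sp L A, ∃ q ∈ Sp L A, ¬ JoinedIn (Sp L A) p q) ↔ Stuck L := by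
  have hA0 : 0 < A := by
    have h := hA ⟨0, hN⟩
    have h1 := (L ⟨0, hN⟩).x_pos
    have h2 := (L ⟨0, hN⟩).y_pos
    have h3 := (L ⟨0, hN⟩).u_pos
    linarith
  constructor
  · rintro ⟨p, hp, q, hq, hj⟩
    by_contra hst
    exact hj (crit_mp hN L hA hA0 hst hp hq)
  · exact crit_mpr hN L hA hA0

end LockTree
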