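import Pool.Agent.Lib.MP_14e06f_lc.Plane.Problem
import Mathlib.Combinatorics.SimpleGraph.Acyclic

set_option autoImplicit false

/-!
# Plane tree linkages

All definitions used in the statement of the result are in this file, in
`Pool.Agent.Lib.MP_14e06f_lc.Plane.Problem` (linkages given by lists of bars, configurations) and in
`Pool.Agent.Lib.MP_0f8b55_lc.Defs` (problems, reductions, codes). The Euclidean plane is `ℂ`.
-/

namespace LockTree

open Pool.Agent.Lib.MP_0f8b55_lc LockPl

/-- The angle in `(0, 2π]` by which the direction `z` has to be turned counterclockwise until it
becomes the direction `w` (for nonzero `z` and `w`). -/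
noncomputable def turn (z w : ℂ) : ℝ := Complex.arg (-(w / z)) + Real.pi

/-- The neighbours of the vertex `v`, in the order in which the bars at `v` are listed. -/
def nbrs (c : LinkCode) (v : ℕ) : List ℕ :=
  c.filterMap (fun b => if b.1.1 = v then some b.1.2 else if b.1.2 = v then some b.1.1 else none)

/-- `p` draws the bars at every vertex in the counterclockwise cyclic order in which they are
listed: if three bars at `v` are listed in the order `a`, `b`, `d`, then turning counterclockwise
from the first one, one meets the second one before the third one. -/
def CycOrder (c : LinkCode) (p : c.Vert → ℂ) : Prop :=
  ∀ v a b d : c.Vert, [a.1, b.1, d.1].Sublist (nbrs c v.1) →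
    turn (p a - p v) (p b - p v) < turn (p a - p v) (p d - p v)

/-- The plane tree linkage given by a list of bars is locked: it has two configurations, both with
the prescribed cyclic order of the bars around every vertex, that are not joined by a motion
(a continuous path of configurations). -/
def LockedTree (c : LinkCode) (hc : c.Valid) : Prop :=
  ∃ p q : c.Vert → ℂ, (c.linkage hc).IsConfig p ∧ CycOrder c p ∧
    (c.linkage hc).IsConfig q ∧ CycOrder c q ∧ ¬ JoinedIn (c.linkage hc).configSpace p q

/-- The problem: is a given plane tree linkage locked? A plane tree (a tree together with a cyclic
order of the edges at every vertex) is given by the list of its bars, where the cyclic order at a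
vertex is the order in which its bars are listed; every plane tree has such a list, for example in
depth first order. The lengths are quotients of two natural numbers in binary. -/
def TREELOCKED : Problem where
  Inst := {c : LinkCode // c.Valid ∧ c.graph.IsTree}
  Letter := Bool
  fin := inferInstance
  enc := fun c => codeList (codePair (codePair codeNat codeNat) (codePair codeBin codeBin)) c.1
  inj := fun _ _ h => Subtype.ext
    (((selfDelimiting_nat.pair selfDelimiting_nat).pair
      (selfDelimiting_bin.pair selfDelimiting_bin)).list.injective h)
  Yes := fun c => LockedTree c.1 c.2.1

/-- The problem `SUBSET SUM`: given a list of natural numbers and a target in binary, is the target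
the sum of a sublist? -/
def SUBSETSUM : Problem where
  Inst := List ℕ × ℕ
  Letter := Bool
  fin := inferInstance
  enc := codePair (codeList codeBin) codeBin
  inj := (selfDelimiting_bin.list.pair selfDelimiting_bin).injective
  Yes := fun I => ∃ l : List ℕ, l.Sublist I.1 ∧ l.sum = I.2

end LockTree
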