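import Pool.Agent.Lib.MP_14e06f_lc.Spider.Geo

set_option autoImplicit false

/-!
# Index sets and sublists
-/

namespace LockTree

open Real

theorem legOf_phi {l : LegN} (h : GoodLeg l) : (legOf l h).phi = phiN l := rfl

theorem legOf_psi {l : LegN} (h : GoodLeg l) : (legOf l h).psi = psiN l := rfl

theorem stuck_iff {Ls : List LegN} (h : ∀ l ∈ Ls, GoodLeg l) :
    Stuck (fun i : Fin Ls.length => legOf (Ls.get i) (h _ (Ls.get_mem i))) ↔
      ∃ S : List LegN, S.Sublist Ls ∧ S ≠ [] ∧ (S.map phiN).sum < 2 * π ∧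
        ∀ l ∈ S, 2 * π ≤ (S.map phiN).sum + (psiN l - phiN l) := by
  classical
  constructor
  · rintro ⟨S, hne, h1, h2⟩
    simp only [legOf_phi, legOf_psi] at h1 h2
    let T : List (Fin Ls.length) := (List.finRange Ls.length).filter (fun i => decide (i ∈ S))
    have hT : ∀ i, i ∈ T ↔ i ∈ S := fun i => by
      simp [T]
    have hnd : T.Nodup := (List.nodup_finRange _).filter _
    have hfin : T.toFinset = S := by
      ext i
      rw [List.mem_toFinset, hT]
    have hsum : ((T.map Ls.get).map phiN).sum = ∑ i ∈ S, phiN (Ls.get i) := by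
      rw [← hfin, List.sum_toFinset _ hnd, List.map_map]
      rfl
    refine ⟨T.map Ls.get, ?_, ?_, ?_, ?_⟩
    · have h3 : (T.map Ls.get).Sublist ((List.finRange Ls.length).map Ls.get) :=
        (List.filter_sublist).map _
      have h4 : (List.finRange Ls.length).map Ls.get = Ls := List.map_get_finRange Ls
      rwa [h4] at h3
    · obtain ⟨i, hi⟩ := hne
      intro h0
      rw [List.map_eq_nil_iff] at h0
      have := (hT i).2 hi
      rw [h0] at this
      exact List.not_mem_nil this
    · rw [hsum]
      exact h1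
    · intro l hl
      obtain ⟨i, hi, rfl⟩ := List.mem_map.1 hl
      rw [hsum]
      exact h2 i ((hT i).1 hi)
  · rintro ⟨S, hS, hne, h1, h2⟩
    obtain ⟨f, hf⟩ := List.sublist_iff_exists_fin_orderEmbedding_get_eq.1 hS
    have hsum : ∑ i ∈ Finset.univ.map f.toEmbedding, phiN (Ls.get i) = (S.map phiN).sum := by
      rw [Finset.sum_map]
      have : (S.map phiN).sum = ∑ i : Fin S.length, phiN (S.get i) := by
        rw [← List.sum_ofFn]
        congr 1
        exact (List.ofFn_getElem_eq_map S phiN).symm
      rw [this]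
      refine Finset.sum_congr rfl fun i _ => ?_
      rw [hf i]
      rfl
    refine ⟨Finset.univ.map f.toEmbedding, ?_, ?_, ?_⟩
    · have h0 : 0 < S.length := List.length_pos_iff.2 hne
      exact ⟨f ⟨0, h0⟩, Finset.mem_map.2 ⟨⟨0, h0⟩, Finset.mem_univ _, rfl⟩⟩
    · simp only [legOf_phi]
      rw [hsum]
      exact h1
    · intro i hi
      obtain ⟨j, -, rfl⟩ := Finset.mem_map.1 hi
      simp only [legOf_phi, legOf_psi]
      rw [hsum]
      have h3 := h2 (S.get j) (S.get_mem j)
      rw [hf j] at h3
      exact h3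

end LockTree
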