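import Pool.Agent.Lib.MP_14e06f_lc.Spider.Leg
import Pool.Agent.Lib.MP_14e06f_lc.Spider.Defs

set_option autoImplicit false

/-!
# Spiders: definitions

A spider with `N` legs: centre `O`, for every `i < N` a long bar `O F_i` and a leg
`O, P_i, Q_i, U_i`, in the cyclic order `F_0, P_0, F_1, P_1, …` around `O`.
-/

namespace LockTree

open Real LockPl

/-- the vertices: `none` is the centre `O`, `some (i, k)` is `F_i, P_i, Q_i, U_i` for
`k = 0, 1, 2, 3` -/
abbrev SV (N : ℕ) : Type := Option (Fin N × Fin 4)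

/-- The bars are numbered by `(i, k)`: `O F_i`, `O P_i`, `P_i Q_i`, `Q_i U_i`; the second endpoint of
the bar `e` is `some e`, this is the first one. -/
def st {N : ℕ} : Fin N × Fin 4 → SV N
  | (_, 0) => none
  | (_, 1) => none
  | (i, 2) => some (i, 1)
  | (i, 3) => some (i, 2)

/-- the length of a bar -/
def bl {N : ℕ} (L : Fin N → Leg) (A : ℝ) : Fin N × Fin 4 → ℝ
  | (_, 0) => A
  | (i, 1) => (L i).x
  | (i, 2) => (L i).y
  | (i, 3) => (L i).u

/-- the number of a vertex different from the centre -/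
def num {N : ℕ} (e : Fin N × Fin 4) : ℕ := 4 * e.1.1 + e.2.1 + 1

/-- the configuration space of the spider, `A` is the length of the long bars -/
def Sp {N : ℕ} (L : Fin N → Leg) (A : ℝ) : Set (SV N → ℂ) := {p |
  (∀ e, dist (p (st e)) (p (some e)) = bl L A e) ∧
  (∀ e f, e ≠ f → ∀ z, z ∈ segment ℝ (p (st e)) (p (some e)) →
    z ∈ segment ℝ (p (st f)) (p (some f)) →
      ∃ w, (w = st e ∨ w = some e) ∧ (w = st f ∨ w = some f) ∧ z = p w) ∧
  (∀ e f g : Fin N × Fin 4, e.2 ≤ 1 → f.2 ≤ 1 → g.2 ≤ 1 → num e < num f → num f < num g →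
    turn (p (some e) - p none) (p (some f) - p none) <
      turn (p (some e) - p none) (p (some g) - p none))}

/-- parameters: the position of `O`, the directions of the long bars (the last one repeats the first
one plus `2π`), the directions of the bars `O P_i`, the shapes of the legs -/
abbrev Prm (N : ℕ) : Type := ℂ × (Fin (N + 1) → ℝ) × (Fin N → ℝ) × (Fin N → ℝ × ℝ)

/-- the configuration with given parameters -/
noncomputable def pos {N : ℕ} (L : Fin N → Leg) (A : ℝ) (g : Prm N) : SV N → ℂ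
  | none => g.1
  | some (i, 0) => g.1 + A * Complex.exp (g.2.1 i.castSucc * Complex.I)
  | some (i, 1) => g.1 + Complex.exp (g.2.2.1 i * Complex.I) * (L i).x
  | some (i, 2) => g.1 + Complex.exp (g.2.2.1 i * Complex.I) * (L i).Q (g.2.2.2 i).1
  | some (i, 3) => g.1 + Complex.exp (g.2.2.1 i * Complex.I) * (L i).U (g.2.2.2 i)

/-- the parameters of the configurations: every leg is in its sector -/
def Good {N : ℕ} (L : Fin N → Leg) : Set (Prm N) := {g |
  g.2.1 (Fin.last N) = g.2.1 0 + 2 * π ∧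
  ∀ i, (L i).Ok (g.2.2.2 i) ∧ g.2.1 i.castSucc < g.2.2.1 i + (L i).lo (g.2.2.2 i) ∧
    g.2.2.1 i + (L i).hi (g.2.2.2 i) < g.2.1 i.succ}

/-- shapes of total width less than `2π` -/
def Shp {N : ℕ} (L : Fin N → Leg) : Set (Fin N → ℝ × ℝ) :=
  {s | (∀ i, (L i).Ok (s i)) ∧ ∑ i, (L i).wd (s i) < 2 * π}

/-- The criterion: some hooked legs fill the full angle so tightly that none of them can open. -/
def Stuck {N : ℕ} (L : Fin N → Leg) : Prop :=
  ∃ S : Finset (Fin N), S.Nonempty ∧ ∑ i ∈ S, (L i).phi < 2 * π ∧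
    ∀ i ∈ S, 2 * π ≤ ∑ j ∈ S, (L j).phi + ((L i).psi - (L i).phi)

/-! ### Codes -/

/-- three bar lengths -/
abbrev LegN : Type := ℕ × (ℕ × ℕ)

/-- the conditions on the lengths of a leg -/
def GoodLeg (l : LegN) : Prop :=
  0 < l.1 ∧ 0 < l.2.1 ∧ l.2.1 < l.2.2 ∧ l.2.2 ^ 2 + l.2.1 ^ 2 < l.1 ^ 2 ∧ l.1 < l.2.1 + l.2.2

/-- the leg with given integer lengths -/
def legOf (l : LegN) (h : GoodLeg l) : Leg where
  x := l.1
  y := l.2.1
  u := l.2.2
  x_pos := by exact_mod_cast h.1
  y_pos := by exact_mod_cast h.2.1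
  y_lt := by exact_mod_cast h.2.2.1
  sq_lt := by exact_mod_cast h.2.2.2.1
  x_lt := by exact_mod_cast h.2.2.2.2

/-- the long bar and the leg number `i`, the centre is the vertex `0` -/
def legBars (A i : ℕ) (l : LegN) : LinkCode :=
  [((0, 4 * i + 1), (A, 1)), ((0, 4 * i + 2), (l.1, 1)), ((4 * i + 2, 4 * i + 3), (l.2.1, 1)),
    ((4 * i + 3, 4 * i + 4), (l.2.2, 1))]

/-- The spider: around the vertex `0` there are alternately a single bar of length `A` and a leg of
three bars with the lengths given by the list. -/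
def spCode (A : ℕ) (Ls : List LegN) : LinkCode :=
  (List.range Ls.length).flatMap (fun i => legBars A i (Ls.getD i (0, (0, 0))))

/-- the conditions on the data of a spider -/
def SpData (A : ℕ) (Ls : List LegN) : Prop :=
  Ls ≠ [] ∧ ∀ l ∈ Ls, GoodLeg l ∧ l.1 + l.2.1 + l.2.2 < A

/-- `phi` for integer lengths -/
noncomputable def phiN (l : LegN) : ℝ :=
  arccos (((l.1 : ℝ) ^ 2 + (l.2.2 : ℝ) ^ 2 - (l.2.1 : ℝ) ^ 2) / (2 * l.1 * l.2.2))

/-- `psi` for integer lengths -/
noncomputable def psiN (l : LegN) : ℝ := arcsin ((l.2.1 : ℝ) / l.1)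

/-! ### The reduction -/

/-- The leg with hooked angle of sine `s / h` and cosine `c / h`. -/
def ratLeg (s c h M : ℕ) : LegN :=
  (h * (2 * M * (M + 1)), (s * (2 * M ^ 2 + 2 * M + 1), c * (2 * M * (M + 1)) - s * (2 * M + 1)))

/-- The leg of the number `a > 0`: its hooked angle is `2 arctan (a / (2 K))`. -/
def smallLeg (K a : ℕ) : LegN := ratLeg (4 * K * a) (4 * K ^ 2 - a ^ 2) (4 * K ^ 2 + a ^ 2) a

/-- The leg whose hooked angle is `arcsin (161 / 289) - 2 arctan (p / r)`. -/
def lastLeg (p r M : ℕ) : LegN :=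
  ratLeg (161 * (r ^ 2 - p ^ 2) - 480 * (p * r)) (240 * (r ^ 2 - p ^ 2) + 322 * (p * r))
    (289 * (r ^ 2 + p ^ 2)) M

/-- a number larger than everything in the instance -/
def rA (I : List ℕ × ℕ) : ℕ := I.1.sum + I.2 + 1

/-- parameter -/
def rM (I : List ℕ × ℕ) : ℕ := 10 * rA I

/-- parameter: the number `a` becomes the angle `a / K` -/
def rK (I : List ℕ × ℕ) : ℕ := rM I * (rM I + 1)

/-- The legs: one for every positive number of the instance, and twelve legs with total angle
`2π - 2 arctan (p / r)`, about `2π - T / K`. -/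
def redLegs (I : List ℕ × ℕ) : List LegN :=
  (I.1.filter (fun a => decide (0 < a))).map (smallLeg (rK I)) ++
    (List.replicate 8 (ratLeg 8 15 17 (rM I)) ++ (List.replicate 3 (ratLeg 161 240 289 (rM I)) ++
      [lastLeg (I.2 * rM I + 1) (2 * rK I * rM I) (rM I)]))

/-- the length of the long bars -/
def redLong (I : List ℕ × ℕ) : ℕ := 3 * ((redLegs I).map (fun l => l.1)).sum + 1

end LockTree
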