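import Mathlib
import Pool.Agent.Lib.MP_14e06f_lc.Spider.Geo

set_option autoImplicit false

/-!
# Spider / NA: the angles of a rational leg

With `x = h D`, `D = 2M(M+1)`, `y = s (2M²+2M+1)`, `u = c D - s (2M+1)`: `x² = u² + y² + 2 s (2M+1) u`.
-/

namespace LockTree

open Real

private theorem na_sub {s c M : ℕ} (hs : 0 < s) (hsc : s * (M + 1) < c * M) :
    s * (2 * M + 1) < c * (2 * M * (M + 1)) := by
  have h1 : s * (M + 1) * (2 * (M + 1)) ≤ c * M * (2 * (M + 1)) := Nat.mul_le_mul_right _ hsc.le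
  have h2 : s * (2 * M + 1) < s * (M + 1) * (2 * (M + 1)) := by
    rw [mul_assoc]
    refine Nat.mul_lt_mul_of_pos_left ?_ hs
    nlinarith
  calc s * (2 * M + 1) < s * (M + 1) * (2 * (M + 1)) := h2
    _ ≤ c * M * (2 * (M + 1)) := h1
    _ = c * (2 * M * (M + 1)) := by ring

private theorem na_u {s c h M : ℕ} (hs : 0 < s) (hsc : s * (M + 1) < c * M) :
    ((ratLeg s c h M).2.2 : ℝ) = c * (2 * M * (M + 1)) - s * (2 * M + 1) := by
  have h1 := na_sub hs hsc
  change ((c * (2 * M * (M + 1)) - s * (2 * M + 1) : ℕ) : ℝ) = _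
  rw [Nat.cast_sub h1.le]
  push_cast
  ring

private theorem na_y {s c h M : ℕ} : ((ratLeg s c h M).2.1 : ℝ) = s * (2 * M ^ 2 + 2 * M + 1) := by
  change ((s * (2 * M ^ 2 + 2 * M + 1) : ℕ) : ℝ) = _
  push_cast
  ring

private theorem na_x {s c h M : ℕ} : ((ratLeg s c h M).1 : ℝ) = h * (2 * M * (M + 1)) := by
  change ((h * (2 * M * (M + 1)) : ℕ) : ℝ) = _
  push_cast
  ring

private theorem na_u_pos {s c h M : ℕ} (hs : 0 < s) (hsc : s * (M + 1) < c * M) :
    (0 : ℝ) < (ratLeg s c h M).2.2 := by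
  have h1 := na_sub hs hsc
  have h2 : 0 < (ratLeg s c h M).2.2 := Nat.sub_pos_of_lt h1
  exact_mod_cast h2

private theorem na_h_pos {s c h : ℕ} (hs : 0 < s) (hh : s ^ 2 + c ^ 2 = h ^ 2) : 0 < h := by
  rcases Nat.eq_zero_or_pos h with h0 | h0
  · exfalso
    rw [h0] at hh
    have : 0 < s ^ 2 := by positivity
    omega
  · exact h0

private theorem na_sq {s c h M : ℕ} (hs : 0 < s) (hsc : s * (M + 1) < c * M) (hh : s ^ 2 + c ^ 2 = h ^ 2) :
    ((ratLeg s c h M).1 : ℝ) ^ 2 = ((ratLeg s c h M).2.2 : ℝ) ^ 2 + ((ratLeg s c h M).2.1 : ℝ) ^ 2 +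
      2 * (s * (2 * M + 1)) * ((ratLeg s c h M).2.2 : ℝ) := by
  have hh' : (h : ℝ) ^ 2 = (s : ℝ) ^ 2 + (c : ℝ) ^ 2 := by exact_mod_cast hh.symm
  rw [na_u hs hsc, na_y, na_x, mul_pow, hh']
  ring

theorem ratLeg_good {s c h M : ℕ} (hs : 0 < s) (hM : 0 < M) (hsc : s * (M + 1) < c * M)
    (hh : s ^ 2 + c ^ 2 = h ^ 2) : GoodLeg (ratLeg s c h M) := by
  have hh0 := na_h_pos hs hh
  have hs' : (0 : ℝ) < s := by exact_mod_cast hs
  have hM' : (0 : ℝ) < M := by exact_mod_cast hM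
  have hsc' : (s : ℝ) * (M + 1) < c * M := by exact_mod_cast hsc
  have hu := na_u (h := h) hs hsc
  have hy := na_y (s := s) (c := c) (h := h) (M := M)
  have hx := na_x (s := s) (c := c) (h := h) (M := M)
  have hup := na_u_pos (h := h) hs hsc
  have hsq := na_sq hs hsc hh
  have hh' : (h : ℝ) ^ 2 = (s : ℝ) ^ 2 + (c : ℝ) ^ 2 := by exact_mod_cast hh.symm
  refine ⟨?_, ?_, ?_, ?_, ?_⟩
  · change 0 < h * (2 * M * (M + 1))
    positivity
  · change 0 < s * (2 * M ^ 2 + 2 * M + 1)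
    positivity
  · have h1 : ((ratLeg s c h M).2.1 : ℝ) < ((ratLeg s c h M).2.2 : ℝ) := by
      rw [hu, hy]
      have h2 : (s : ℝ) * (M + 1) * (2 * (M + 1)) < c * M * (2 * (M + 1)) :=
        mul_lt_mul_of_pos_right hsc' (by positivity)
      nlinarith
    exact_mod_cast h1
  · have h1 : ((ratLeg s c h M).2.2 : ℝ) ^ 2 + ((ratLeg s c h M).2.1 : ℝ) ^ 2 < ((ratLeg s c h M).1 : ℝ) ^ 2 := by
      rw [hsq]
      have : (0 : ℝ) < 2 * (s * (2 * M + 1)) * ((ratLeg s c h M).2.2 : ℝ) := by positivity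
      linarith
    exact_mod_cast h1
  · have h1 : (h : ℝ) * (M + 1) < c * (M + 1) + s * M := by
      refine lt_of_pow_lt_pow_left₀ 2 (by positivity) ?_
      rw [mul_pow, hh']
      have h2 : (s : ℝ) * (M + 1) * (2 * (M + 1)) < c * M * (2 * (M + 1)) :=
        mul_lt_mul_of_pos_right hsc' (by positivity)
      have h3 : (s : ℝ) * (s * (M + 1) * (2 * (M + 1))) < s * (c * M * (2 * (M + 1))) :=
        mul_lt_mul_of_pos_left h2 hs'
      have h4 : (0 : ℝ) < s ^ 2 * M ^ 2 := by positivity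
      have h5 : (0 : ℝ) < s ^ 2 * M := by positivity
      have h6 : (0 : ℝ) < s ^ 2 := by positivity
      nlinarith
    have h2 : ((ratLeg s c h M).1 : ℝ) < ((ratLeg s c h M).2.1 : ℝ) + ((ratLeg s c h M).2.2 : ℝ) := by
      rw [hx, hy, hu]
      have h3 : (h : ℝ) * (M + 1) * (2 * M) < (c * (M + 1) + s * M) * (2 * M) :=
        mul_lt_mul_of_pos_right h1 (by positivity)
      nlinarith
    exact_mod_cast h2

theorem ratLeg_phi {s c h M : ℕ} (hs : 0 < s) (hM : 0 < M) (hsc : s * (M + 1) < c * M)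
    (hh : s ^ 2 + c ^ 2 = h ^ 2) : phiN (ratLeg s c h M) = arcsin (s / h) := by
  have hh0 : (0 : ℝ) < h := by exact_mod_cast na_h_pos hs hh
  have hM' : (0 : ℝ) < M := by exact_mod_cast hM
  have hup := na_u_pos (h := h) hs hsc
  have hsq := na_sq hs hsc hh
  have hu := na_u (h := h) hs hsc
  have hx := na_x (s := s) (c := c) (h := h) (M := M)
  have hh' : (h : ℝ) ^ 2 = (s : ℝ) ^ 2 + (c : ℝ) ^ 2 := by exact_mod_cast hh.symm
  have e1 : (((ratLeg s c h M).1 : ℝ) ^ 2 + ((ratLeg s c h M).2.2 : ℝ) ^ 2 - ((ratLeg s c h M).2.1 : ℝ) ^ 2) /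
      (2 * (ratLeg s c h M).1 * (ratLeg s c h M).2.2) = c / h := by
    have e2 : ((ratLeg s c h M).1 : ℝ) ^ 2 + ((ratLeg s c h M).2.2 : ℝ) ^ 2 - ((ratLeg s c h M).2.1 : ℝ) ^ 2 =
        2 * ((ratLeg s c h M).2.2 : ℝ) * (((ratLeg s c h M).2.2 : ℝ) + s * (2 * M + 1)) := by
      rw [hsq]
      ring
    rw [e2]
    have e3 : ((ratLeg s c h M).2.2 : ℝ) + s * (2 * M + 1) = c * (2 * M * (M + 1)) := by
      rw [hu]
      ring
    rw [e3, hx, div_eq_div_iff (by positivity) (by positivity)]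
    ring
  unfold phiN
  rw [e1, arccos_eq_arcsin (by positivity)]
  congr 1
  have e4 : 1 - ((c : ℝ) / h) ^ 2 = ((s : ℝ) / h) ^ 2 := by
    rw [div_pow, div_pow, eq_div_iff (by positivity), sub_mul, div_mul_cancel₀ _ (by positivity), hh']
    ring
  rw [e4, sqrt_sq (by positivity)]

theorem ratLeg_psi {s c h M : ℕ} (hs : 0 < s) (hM : 0 < M) (hsc : s * (M + 1) < c * M)
    (hh : s ^ 2 + c ^ 2 = h ^ 2) (h1 : (s : ℝ) / h * (1 + 1 / (2 * M * (M + 1))) ≤ 3 / 4) :
    (s : ℝ) / h / (2 * M * (M + 1)) ≤ psiN (ratLeg s c h M) - phiN (ratLeg s c h M) ∧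
      psiN (ratLeg s c h M) - phiN (ratLeg s c h M) ≤
        2 * ((s : ℝ) / h / (2 * M * (M + 1))) := by
  have hh0 : (0 : ℝ) < h := by exact_mod_cast na_h_pos hs hh
  have hs' : (0 : ℝ) < s := by exact_mod_cast hs
  have hM' : (0 : ℝ) < M := by exact_mod_cast hM
  have hpsi : psiN (ratLeg s c h M) = arcsin ((s : ℝ) / h * (1 + 1 / (2 * M * (M + 1)))) := by
    unfold psiN
    congr 1
    rw [na_y, na_x]
    field_simp
  rw [hpsi, ratLeg_phi hs hM hsc hh]
  obtain ⟨a, ha⟩ : ∃ a : ℝ, a = (s : ℝ) / h := ⟨_, rfl⟩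
  obtain ⟨e, he⟩ : ∃ e : ℝ, e = (s : ℝ) / h / (2 * M * (M + 1)) := ⟨_, rfl⟩
  have hb : (s : ℝ) / h * (1 + 1 / (2 * M * (M + 1))) = a + e := by
    rw [ha, he]
    field_simp
  rw [hb] at h1 ⊢
  rw [← he, ← ha]
  have ha0 : 0 < a := by
    rw [ha]
    positivity
  have he0 : 0 < e := by
    rw [he]
    positivity
  have hsa : sin (arcsin a) = a := sin_arcsin (by linarith) (by linarith)
  have hsb : sin (arcsin (a + e)) = a + e := sin_arcsin (by linarith) (by linarith)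
  have hle : arcsin a ≤ arcsin (a + e) := arcsin_le_arcsin (by linarith)
  have ha1 : 0 ≤ arcsin a := arcsin_nonneg.mpr ha0.le
  have hcos : (1 : ℝ) / 2 ≤ cos (arcsin (a + e)) := by
    rw [cos_arcsin]
    refine le_sqrt_of_sq_le ?_
    nlinarith
  have hpi : arcsin (a + e) ≤ π / 2 := arcsin_le_pi_div_two _
  constructor
  · -- `sin` grows at most with slope one
    have h2 := sin_sub_sin (arcsin (a + e)) (arcsin a)
    rw [hsa, hsb] at h2
    have h3 : sin ((arcsin (a + e) - arcsin a) / 2) ≤ (arcsin (a + e) - arcsin a) / 2 := Real.sin_le (by linarith)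
    have h4 : 0 ≤ sin ((arcsin (a + e) - arcsin a) / 2) :=
      sin_nonneg_of_nonneg_of_le_pi (by linarith) (by linarith [pi_pos])
    have h5 := cos_le_one ((arcsin (a + e) + arcsin a) / 2)
    have h6 : sin ((arcsin (a + e) - arcsin a) / 2) * cos ((arcsin (a + e) + arcsin a) / 2) ≤
        sin ((arcsin (a + e) - arcsin a) / 2) * 1 := mul_le_mul_of_nonneg_left h5 h4
    linarith
  · -- slope at least one half
    have hmono : MonotoneOn (fun x => sin x - x / 2) (Set.Icc 0 (arcsin (a + e))) := by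
      refine monotoneOn_of_deriv_nonneg (convex_Icc _ _) ?_ ?_ ?_
      · exact (continuous_sin.sub (continuous_id.div_const 2)).continuousOn
      · exact (differentiable_sin.sub (differentiable_id.div_const 2)).differentiableOn
      · intro x hx
        rw [interior_Icc] at hx
        have h2 : HasDerivAt (fun x : ℝ => sin x - x / 2) (cos x - 1 / 2) x :=
          (hasDerivAt_sin x).sub ((hasDerivAt_id x).div_const 2)
        rw [h2.deriv]
        have h3 : cos (arcsin (a + e)) ≤ cos x :=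
          cos_le_cos_of_nonneg_of_le_pi hx.1.le (by linarith [pi_pos]) hx.2.le
        linarith
    have h2 := hmono (Set.mem_Icc.mpr ⟨ha1, hle⟩) (Set.mem_Icc.mpr ⟨ha1.trans hle, le_rfl⟩) hle
    change sin (arcsin a) - arcsin a / 2 ≤ sin (arcsin (a + e)) - arcsin (a + e) / 2 at h2
    rw [hsa, hsb] at h2
    linarith

end LockTree
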