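import Mathlib
import Pool.Agent.Lib.MP_14e06f_lc.Spider.NA

set_option autoImplicit false

/-!
# Spiders: the small legs
-/

namespace LockTree

open Real LockPl

theorem sin_two_arctan (t : ℝ) : sin (2 * arctan t) = 2 * t / (1 + t ^ 2) := by
  have h : 0 < 1 + t ^ 2 := by positivity
  have h' : √(1 + t ^ 2) ≠ 0 := (Real.sqrt_pos.2 h).ne'
  rw [sin_two_mul, sin_arctan, cos_arctan]
  have e : √(1 + t ^ 2) * √(1 + t ^ 2) = 1 + t ^ 2 := Real.mul_self_sqrt h.le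
  have : 2 * (t / √(1 + t ^ 2)) * (1 / √(1 + t ^ 2)) = 2 * t / (√(1 + t ^ 2) * √(1 + t ^ 2)) := by
    field_simp
  rw [this, e]

theorem cos_two_arctan (t : ℝ) : cos (2 * arctan t) = (1 - t ^ 2) / (1 + t ^ 2) := by
  have h : 0 < 1 + t ^ 2 := by positivity
  rw [cos_two_mul, cos_sq_arctan]
  field_simp
  ring

theorem arctan_le_self {x : ℝ} (hx : 0 ≤ x) : arctan x ≤ x := by
  have h := le_tan (arctan_nonneg.2 hx) (arctan_lt_pi_div_two x)
  rwa [tan_arctan] at h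

theorem sub_cube_le_arctan {x : ℝ} (hx : 0 ≤ x) : x - x ^ 3 / 3 ≤ arctan x := by
  have hd : ∀ y : ℝ, HasDerivAt (fun z : ℝ => arctan z - (z - z ^ 3 / 3)) (1 / (1 + y ^ 2) - (1 - y ^ 2)) y := by
    intro y
    have h1 := hasDerivAt_arctan y
    have h2 : HasDerivAt (fun z : ℝ => z - z ^ 3 / 3) (1 - y ^ 2) y := by
      have h3 := (hasDerivAt_id y).sub ((hasDerivAt_pow 3 y).div_const 3)
      refine h3.congr_deriv ?_
      norm_num
    exact h1.sub h2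
  have hm : Monotone (fun z : ℝ => arctan z - (z - z ^ 3 / 3)) := by
    refine monotone_of_deriv_nonneg (fun y => (hd y).differentiableAt) fun y => ?_
    rw [(hd y).deriv]
    have h1 : 0 < 1 + y ^ 2 := by positivity
    have h2 : 1 / (1 + y ^ 2) - (1 - y ^ 2) = y ^ 4 / (1 + y ^ 2) := by
      field_simp
      ring
    rw [h2]
    positivity
  have h := hm hx
  simp only [arctan_zero] at h
  norm_num at h
  linarith

theorem arcsin_two_mul_div {t : ℝ} (h0 : 0 ≤ t) (h1 : t ≤ 1) :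
    arcsin (2 * t / (1 + t ^ 2)) = 2 * arctan t := by
  rw [← sin_two_arctan]
  have h2 : arctan t ≤ π / 4 := by
    rw [← arctan_one]
    exact arctan_strictMono.monotone h1
  have h3 : 0 ≤ arctan t := arctan_nonneg.2 h0
  exact arcsin_sin (by linarith [pi_pos]) (by linarith)

section small

variable {A K a : ℕ}

private theorem sm_facts (ha : 0 < a) (haA : a < A) (hK : 100 * A ^ 2 ≤ K) :
    a ^ 2 ≤ 4 * K ^ 2 ∧ 0 < K ∧ a < K ∧ 0 < 4 * K * a ∧ 4 * K * a * (a + 1) < (4 * K ^ 2 - a ^ 2) * a ∧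
      (4 * K * a) ^ 2 + (4 * K ^ 2 - a ^ 2) ^ 2 = (4 * K ^ 2 + a ^ 2) ^ 2 := by
  have hA : 2 ≤ A := by omega
  have hAK : 100 * A ≤ K := by nlinarith
  have hK0 : 0 < K := by omega
  have haK : a < K := by omega
  have h1 : a ^ 2 ≤ 4 * K ^ 2 := by nlinarith
  refine ⟨h1, hK0, haK, by positivity, ?_, ?_⟩
  · have h2 : 4 * K * (a + 1) < 4 * K ^ 2 - a ^ 2 := by
      have : 4 * K * (a + 1) + a ^ 2 < 4 * K ^ 2 := by nlinarith
      omega
    calc 4 * K * a * (a + 1) = 4 * K * (a + 1) * a := by ring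
      _ < (4 * K ^ 2 - a ^ 2) * a := Nat.mul_lt_mul_of_pos_right h2 ha
  · zify [h1]
    ring

theorem small_good {A K a : ℕ} (ha : 0 < a) (haA : a < A) (hK : 100 * A ^ 2 ≤ K) :
    GoodLeg (smallLeg K a) := by
  obtain ⟨_, _, _, h1, h2, h3⟩ := sm_facts ha haA hK
  exact ratLeg_good h1 ha h2 h3

private theorem sm_phi (ha : 0 < a) (haA : a < A) (hK : 100 * A ^ 2 ≤ K) :
    phiN (smallLeg K a) = 2 * arctan ((a : ℝ) / (2 * K)) := by
  obtain ⟨_, hK0, haK, h1, h2, h3⟩ := sm_facts ha haA hK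
  have e := ratLeg_phi h1 ha h2 h3
  have hK' : (0 : ℝ) < K := by exact_mod_cast hK0
  have haK' : (a : ℝ) < K := by exact_mod_cast haK
  have ha0 : (0 : ℝ) < a := by exact_mod_cast ha
  rw [show smallLeg K a = ratLeg (4 * K * a) (4 * K ^ 2 - a ^ 2) (4 * K ^ 2 + a ^ 2) a from rfl, e,
    ← arcsin_two_mul_div (by positivity) (by rw [div_le_one (by positivity)]; linarith)]
  congr 1
  push_cast
  field_simp
  ring

theorem small_phi {A K a : ℕ} (ha : 0 < a) (haA : a < A) (hK : 100 * A ^ 2 ≤ K) :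
    (a : ℝ) / K - (a : ℝ) ^ 3 / (12 * (K : ℝ) ^ 3) ≤ phiN (smallLeg K a) ∧
      phiN (smallLeg K a) ≤ (a : ℝ) / K := by
  obtain ⟨_, hK0, haK, h1, h2, h3⟩ := sm_facts ha haA hK
  have hK' : (0 : ℝ) < K := by exact_mod_cast hK0
  rw [sm_phi ha haA hK]
  have h4 : (0 : ℝ) ≤ (a : ℝ) / (2 * K) := by positivity
  have h5 := arctan_le_self h4
  have h6 := sub_cube_le_arctan h4
  constructor
  · have e : (a : ℝ) / K - (a : ℝ) ^ 3 / (12 * (K : ℝ) ^ 3) =
        2 * ((a : ℝ) / (2 * K) - ((a : ℝ) / (2 * K)) ^ 3 / 3) := by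
      field_simp
      ring
    rw [e]
    linarith
  · have e : (a : ℝ) / K = 2 * ((a : ℝ) / (2 * K)) := by field_simp
    rw [e]
    linarith

theorem small_gap {A K a : ℕ} (ha : 0 < a) (haA : a < A) (hK : 100 * A ^ 2 ≤ K) :
    1 / (5 * (K : ℝ) * A) ≤ psiN (smallLeg K a) - phiN (smallLeg K a) ∧
      psiN (smallLeg K a) - phiN (smallLeg K a) < 1 / K := by
  obtain ⟨_, hK0, haK, h1, h2, h3⟩ := sm_facts ha haA hK
  have hK' : (0 : ℝ) < K := by exact_mod_cast hK0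
  have haK' : (a : ℝ) < K := by exact_mod_cast haK
  have ha0 : (0 : ℝ) < a := by exact_mod_cast ha
  have haA' : (a : ℝ) + 1 ≤ A := by exact_mod_cast haA
  have hKA : 100 * (A : ℝ) ^ 2 ≤ K := by exact_mod_cast hK
  have e : ((4 * K * a : ℕ) : ℝ) / ((4 * K ^ 2 + a ^ 2 : ℕ) : ℝ) = 4 * K * a / (4 * K ^ 2 + a ^ 2) := by
    push_cast
    ring
  have hb : ((4 * K * a : ℕ) : ℝ) / ((4 * K ^ 2 + a ^ 2 : ℕ) : ℝ) * (1 + 1 / (2 * a * (a + 1))) ≤ 3 / 4 := by
    rw [e]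
    have h4 : 4 * (K : ℝ) * a / (4 * K ^ 2 + a ^ 2) ≤ a / K := by
      rw [div_le_div_iff₀ (by positivity) hK']
      nlinarith [mul_pos ha0 (mul_pos ha0 ha0)]
    have h5 : (a : ℝ) / K ≤ 1 / 4 := by
      rw [div_le_div_iff₀ hK' (by norm_num)]
      nlinarith
    have h6 : 1 / (2 * (a : ℝ) * (a + 1)) ≤ 1 := by
      have h7 : (1 : ℝ) ≤ a := by exact_mod_cast ha
      rw [div_le_one (by positivity)]
      nlinarith
    have h8 : (0 : ℝ) ≤ 4 * (K : ℝ) * a / (4 * K ^ 2 + a ^ 2) := by positivity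
    nlinarith
  have h := ratLeg_psi h1 ha h2 h3 hb
  rw [e] at h
  have e2 : 4 * (K : ℝ) * a / (4 * K ^ 2 + a ^ 2) / (2 * a * (a + 1)) =
      2 * K / ((4 * K ^ 2 + a ^ 2) * (a + 1)) := by
    field_simp
    ring
  rw [e2] at h
  have hA0 : (0 : ℝ) < A := by linarith
  refine ⟨le_trans ?_ h.1, lt_of_le_of_lt h.2 ?_⟩
  · rw [div_le_div_iff₀ (by positivity) (by positivity)]
    have h9 : (4 * (K : ℝ) ^ 2 + a ^ 2) * (a + 1) ≤ (5 * K ^ 2) * A := by
      have : (a : ℝ) ^ 2 ≤ K ^ 2 := by nlinarith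
      have h10 : 4 * (K : ℝ) ^ 2 + a ^ 2 ≤ 5 * K ^ 2 := by linarith
      exact mul_le_mul h10 haA' (by positivity) (by positivity)
    nlinarith
  · have h11 : 2 * (2 * (K : ℝ) / ((4 * K ^ 2 + a ^ 2) * (a + 1))) = 4 * K / ((4 * K ^ 2 + a ^ 2) * (a + 1)) := by ring
    rw [h11, div_lt_div_iff₀ (by positivity) hK']
    nlinarith [mul_pos ha0 ha0, mul_pos (mul_pos ha0 ha0) ha0, mul_pos hK' hK', mul_pos (mul_pos hK' hK') ha0]

end small

end LockTree
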