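import Mathlib
import Pool.Agent.Lib.MP_14e06f_lc.Spider.NB

set_option autoImplicit false

/-!
# Spiders: the fillers
-/

namespace LockTree

open Real LockPl

/-- the twelve fillers -/
def fillers (M T K : ℕ) : List LegN :=
  List.replicate 8 (ratLeg 8 15 17 M) ++ (List.replicate 3 (ratLeg 161 240 289 M) ++
      [lastLeg (T * M + 1) (2 * K * M) M])

/-! ### the two angles -/

private theorem cos_th1 : cos (arcsin (8 / 17)) = 15 / 17 := by
  rw [cos_arcsin, show (1 : ℝ) - (8 / 17) ^ 2 = (15 / 17) ^ 2 by norm_num]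
  exact Real.sqrt_sq (by norm_num)

private theorem th3 : arcsin (161 / 289) = π / 2 - 2 * arcsin (8 / 17) := by
  have h : sin (π / 2 - 2 * arcsin (8 / 17)) = 161 / 289 := by
    rw [sin_pi_div_two_sub, cos_two_mul, cos_th1]
    norm_num
  have h0 : 0 ≤ arcsin ((8 : ℝ) / 17) := arcsin_nonneg.2 (by norm_num)
  have h1 : arcsin ((8 : ℝ) / 17) ≤ π / 2 := arcsin_le_pi_div_two _
  rw [← h]
  exact arcsin_sin (by linarith) (by linarith)

/-! ### a rational leg with `K = M (M + 1)` -/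

private theorem gap_of {A M K s c h : ℕ} (hA : 0 < A) (hM : 0 < M) (hK : K = M * (M + 1)) (hs : 0 < s)
    (hsc : s * (M + 1) < c * M) (hh : s ^ 2 + c ^ 2 = h ^ 2) (h1 : (2 : ℝ) / 5 ≤ (s : ℝ) / h)
    (h2 : (s : ℝ) / h ≤ 3 / 5) (h3 : 2 ≤ M) :
    GoodLeg (ratLeg s c h M) ∧ 2 / 5 ≤ phiN (ratLeg s c h M) ∧
      1 / (5 * (K : ℝ) * A) ≤ psiN (ratLeg s c h M) - phiN (ratLeg s c h M) ∧
        psiN (ratLeg s c h M) - phiN (ratLeg s c h M) < 1 / K := by
  have hM' : (2 : ℝ) ≤ M := by exact_mod_cast h3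
  have hA' : (1 : ℝ) ≤ A := by exact_mod_cast hA
  have hK' : (K : ℝ) = M * (M + 1) := by exact_mod_cast hK
  have hK0 : (0 : ℝ) < K := by rw [hK']; positivity
  have hb : (s : ℝ) / h * (1 + 1 / (2 * M * (M + 1))) ≤ 3 / 4 := by
    have h4 : 1 / (2 * (M : ℝ) * (M + 1)) ≤ 1 / 12 := by
      apply one_div_le_one_div_of_le (by norm_num)
      nlinarith
    nlinarith
  refine ⟨ratLeg_good hs hM hsc hh, ?_, ?_⟩
  · rw [ratLeg_phi hs hM hsc hh]
    have h5 : (2 : ℝ) / 5 ≤ arcsin (2 / 5) := by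
      have h6 : sin (2 / 5 : ℝ) ≤ 2 / 5 := sin_le (by norm_num)
      rw [le_arcsin_iff_sin_le' ⟨by linarith [pi_pos], by linarith [pi_gt_three]⟩]
      exact h6
    exact h5.trans (arcsin_le_arcsin h1)
  · have hg := ratLeg_psi hs hM hsc hh hb
    have e : (s : ℝ) / h / (2 * M * (M + 1)) = (s : ℝ) / h / (2 * K) := by
      rw [hK']
      ring_nf
    rw [e] at hg
    refine ⟨le_trans ?_ hg.1, lt_of_le_of_lt hg.2 ?_⟩
    · rw [div_le_div_iff₀ (by positivity) (by positivity)]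
      have h8 : (2 : ℝ) / 5 * (5 * K * A) ≤ (s : ℝ) / h * (5 * K * A) :=
        mul_le_mul_of_nonneg_right h1 (by positivity)
      have h9 : (K : ℝ) * 1 ≤ K * A := mul_le_mul_of_nonneg_left hA' hK0.le
      linarith
    · have h7 : 2 * ((s : ℝ) / h / (2 * K)) = (s : ℝ) / h / K := by
        field_simp
      rw [h7]
      exact div_lt_div_of_pos_right (by linarith) hK0

/-! ### the last leg -/

section last

variable {A M T K : ℕ}

private theorem last_facts (hT : T < A) (hM : M = 10 * A) (hK : K = M * (M + 1)) :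
    220 * (T * M + 1) ≤ 2 * K * M := by
  have hA : 1 ≤ A := by omega
  subst hM
  subst hK
  have h1 : T * (10 * A) + 1 ≤ A * (10 * A) := by nlinarith
  obtain ⟨B, rfl⟩ : ∃ B, A = B + 1 := ⟨A - 1, by omega⟩
  calc 220 * (T * (10 * (B + 1)) + 1) ≤ 220 * ((B + 1) * (10 * (B + 1))) := Nat.mul_le_mul_left _ h1
    _ ≤ 2 * (10 * (B + 1) * (10 * (B + 1) + 1)) * (10 * (B + 1)) := by
        have : 2 * (10 * (B + 1) * (10 * (B + 1) + 1)) * (10 * (B + 1)) =
          220 * ((B + 1) * (10 * (B + 1))) + 2000 * B * (B + 1) * (B + 1) := by ring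
        omega

private theorem last_nat {p r : ℕ} (hp : 0 < p) (h : 220 * p ≤ r) :
    480 * (p * r) ≤ 161 * (r ^ 2 - p ^ 2) ∧ p ^ 2 ≤ r ^ 2 ∧ 0 < 161 * (r ^ 2 - p ^ 2) - 480 * (p * r) ∧
      (161 * (r ^ 2 - p ^ 2) - 480 * (p * r)) ^ 2 + (240 * (r ^ 2 - p ^ 2) + 322 * (p * r)) ^ 2 =
        (289 * (r ^ 2 + p ^ 2)) ^ 2 := by
  have h0 : p ^ 2 ≤ r ^ 2 := by nlinarith
  have h1 : 480 * (p * r) + 1 ≤ 161 * (r ^ 2 - p ^ 2) := by
    zify [h0]
    have h2 : (220 : ℤ) * p ≤ r := by exact_mod_cast h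
    have h3 : (1 : ℤ) ≤ p := by exact_mod_cast hp
    nlinarith
  have h2 : 480 * (p * r) ≤ 161 * (r ^ 2 - p ^ 2) := by omega
  refine ⟨h2, h0, by omega, ?_⟩
  zify [h0, h2]
  ring

private theorem last_ratio {p r : ℕ} (hp : 0 < p) (h : 220 * p ≤ r) :
    (((161 * (r ^ 2 - p ^ 2) - 480 * (p * r) : ℕ) : ℝ) / ((289 * (r ^ 2 + p ^ 2) : ℕ) : ℝ)) =
      161 / 289 * ((1 - ((p : ℝ) / r) ^ 2) / (1 + ((p : ℝ) / r) ^ 2)) -
        240 / 289 * (2 * ((p : ℝ) / r) / (1 + ((p : ℝ) / r) ^ 2)) := by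
  obtain ⟨h2, h0, _, _⟩ := last_nat hp h
  have hr : (0 : ℝ) < r := by
    have : 0 < r := by omega
    exact_mod_cast this
  rw [Nat.cast_sub h2]
  push_cast [Nat.cast_sub h0]
  have h3 : (0 : ℝ) < (r : ℝ) ^ 2 + p ^ 2 := by positivity
  field_simp
  ring

private theorem last_phi_aux {p r : ℕ} (hp : 0 < p) (h : 220 * p ≤ r) :
    arcsin (((161 * (r ^ 2 - p ^ 2) - 480 * (p * r) : ℕ) : ℝ) / ((289 * (r ^ 2 + p ^ 2) : ℕ) : ℝ)) =
      arcsin (161 / 289) - 2 * arctan ((p : ℝ) / r) := by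
  have hr : (0 : ℝ) < r := by
    have : 0 < r := by omega
    exact_mod_cast this
  have ht : (p : ℝ) / r ≤ 1 / 220 := by
    rw [div_le_div_iff₀ hr (by norm_num)]
    have : (220 : ℝ) * p ≤ r := by exact_mod_cast h
    linarith
  have ht0 : 0 ≤ (p : ℝ) / r := by positivity
  rw [last_ratio hp h, ← cos_two_arctan, ← sin_two_arctan]
  have h4 : cos (arcsin (161 / 289)) = 240 / 289 := by
    rw [cos_arcsin, show (1 : ℝ) - (161 / 289) ^ 2 = (240 / 289) ^ 2 by norm_num]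
    exact Real.sqrt_sq (by norm_num)
  have h5 : sin (arcsin ((161 : ℝ) / 289)) = 161 / 289 := sin_arcsin (by norm_num) (by norm_num)
  have h6 : 161 / 289 * cos (2 * arctan ((p : ℝ) / r)) - 240 / 289 * sin (2 * arctan ((p : ℝ) / r)) =
      sin (arcsin (161 / 289) - 2 * arctan ((p : ℝ) / r)) := by
    rw [sin_sub, h4, h5]
  rw [h6]
  have h7 : arctan ((p : ℝ) / r) ≤ (p : ℝ) / r := arctan_le_self ht0
  have h8 : 0 ≤ arctan ((p : ℝ) / r) := arctan_nonneg.2 ht0
  have h9 : 0 ≤ arcsin ((161 : ℝ) / 289) := arcsin_nonneg.2 (by norm_num)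
  have h10 : arcsin ((161 : ℝ) / 289) ≤ π / 2 := arcsin_le_pi_div_two _
  exact arcsin_sin (by linarith [pi_gt_three]) (by linarith)

private theorem last_lo {p r : ℕ} (hp : 0 < p) (h : 220 * p ≤ r) :
    (2 : ℝ) / 5 ≤ ((161 * (r ^ 2 - p ^ 2) - 480 * (p * r) : ℕ) : ℝ) / ((289 * (r ^ 2 + p ^ 2) : ℕ) : ℝ) ∧
      ((161 * (r ^ 2 - p ^ 2) - 480 * (p * r) : ℕ) : ℝ) / ((289 * (r ^ 2 + p ^ 2) : ℕ) : ℝ) ≤ 3 / 5 := by
  have hr0 : 0 < r := by omega
  have hr : (0 : ℝ) < r := by exact_mod_cast hr0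
  obtain ⟨h2, h0, _, _⟩ := last_nat hp h
  have hp' : (0 : ℝ) < p := by exact_mod_cast hp
  have h' : (220 : ℝ) * p ≤ r := by exact_mod_cast h
  rw [Nat.cast_sub h2]
  push_cast [Nat.cast_sub h0]
  constructor
  · rw [div_le_div_iff₀ (by norm_num) (by positivity)]
    nlinarith
  · rw [div_le_div_iff₀ (by positivity) (by norm_num)]
    nlinarith [mul_pos hp' hr]

private theorem last_sc {p r M : ℕ} (hp : 0 < p) (h : 220 * p ≤ r) (hM : 10 ≤ M) :
    (161 * (r ^ 2 - p ^ 2) - 480 * (p * r)) * (M + 1) < (240 * (r ^ 2 - p ^ 2) + 322 * (p * r)) * M := by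
  obtain ⟨h2, h0, h3, _⟩ := last_nat hp h
  have h4 : 0 < r ^ 2 - p ^ 2 := by
    by_contra h5
    have : r ^ 2 - p ^ 2 = 0 := by omega
    rw [this] at h3
    simp at h3
  calc (161 * (r ^ 2 - p ^ 2) - 480 * (p * r)) * (M + 1) ≤ 161 * (r ^ 2 - p ^ 2) * (M + 1) :=
        Nat.mul_le_mul_right _ (Nat.sub_le _ _)
    _ < 240 * (r ^ 2 - p ^ 2) * M := by nlinarith
    _ ≤ (240 * (r ^ 2 - p ^ 2) + 322 * (p * r)) * M := Nat.mul_le_mul_right _ (Nat.le_add_right _ _)

private theorem last_phi (hT : T < A) (hM : M = 10 * A) (hK : K = M * (M + 1)) :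
    phiN (lastLeg (T * M + 1) (2 * K * M) M) =
      arcsin (161 / 289) - 2 * arctan (((T * M + 1 : ℕ) : ℝ) / ((2 * K * M : ℕ) : ℝ)) := by
  have h := last_facts hT hM hK
  have hp : 0 < T * M + 1 := Nat.succ_pos _
  obtain ⟨h2, h0, h3, h4⟩ := last_nat hp h
  rw [lastLeg, ratLeg_phi h3 (by omega) (last_sc hp h (by omega)) h4]
  exact last_phi_aux hp h

end last

theorem filler_good {A M T K : ℕ} (hT : T < A) (hM : M = 10 * A) (hK : K = M * (M + 1))
    {l : LegN} (hl : l ∈ fillers M T K) : GoodLeg l ∧ 2 / 5 ≤ phiN l ∧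
      1 / (5 * (K : ℝ) * A) ≤ psiN l - phiN l ∧ psiN l - phiN l < 1 / K := by
  have hA : 0 < A := by omega
  simp only [fillers, List.mem_append, List.mem_replicate, List.mem_singleton] at hl
  rcases hl with ⟨_, rfl⟩ | ⟨_, rfl⟩ | rfl
  · exact gap_of hA (by omega) hK (by norm_num) (by omega) (by norm_num) (by norm_num) (by norm_num) (by omega)
  · exact gap_of hA (by omega) hK (by norm_num) (by omega) (by norm_num) (by norm_num) (by norm_num) (by omega)
  · have h := last_facts hT hM hK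
    have hp : 0 < T * M + 1 := Nat.succ_pos _
    obtain ⟨h2, h0, h3, h4⟩ := last_nat hp h
    obtain ⟨h5, h6⟩ := last_lo hp h
    exact gap_of hA (by omega) hK h3 (last_sc hp h (by omega)) h4 h5 h6 (by omega)

theorem filler_sum {A M T K : ℕ} (hT : T < A) (hM : M = 10 * A) (hK : K = M * (M + 1)) :
    2 * π - ((T : ℝ) / K + 1 / (10 * (K : ℝ) * A)) ≤ ((fillers M T K).map phiN).sum ∧
      ((fillers M T K).map phiN).sum < 2 * π - (T : ℝ) / K := by
  have hA : 0 < A := by omega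
  have hM0 : 0 < M := by omega
  have e : ((fillers M T K).map phiN).sum =
      2 * π - 2 * arctan (((T * M + 1 : ℕ) : ℝ) / ((2 * K * M : ℕ) : ℝ)) := by
    simp only [fillers, List.map_append, List.map_replicate, List.sum_append, List.sum_replicate, List.map_cons,
      List.map_nil, List.sum_cons, List.sum_nil, last_phi hT hM hK]
    rw [ratLeg_phi (by norm_num) hM0 (by omega) (by norm_num), ratLeg_phi (by norm_num) hM0 (by omega) (by norm_num)]
    push_cast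
    rw [th3]
    simp only [nsmul_eq_mul]
    push_cast
    ring
  rw [e]
  have hA' : (1 : ℝ) ≤ A := by exact_mod_cast hA
  have hM' : (M : ℝ) = 10 * A := by exact_mod_cast hM
  have hK' : (K : ℝ) = M * (M + 1) := by exact_mod_cast hK
  have hK0 : (0 : ℝ) < K := by rw [hK', hM']; positivity
  have hM1 : (0 : ℝ) < M := by rw [hM']; positivity
  have hT' : (T : ℝ) + 1 ≤ A := by exact_mod_cast hT
  have hT0 : (0 : ℝ) ≤ T := by positivity
  obtain ⟨t, ht⟩ : ∃ t : ℝ, t = ((T * M + 1 : ℕ) : ℝ) / ((2 * K * M : ℕ) : ℝ) := ⟨_, rfl⟩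
  have ht2 : 2 * t = (T : ℝ) / K + 1 / (10 * (K : ℝ) * A) := by
    rw [ht]
    push_cast
    rw [hM']
    field_simp
  have ht0 : 0 ≤ t := by rw [ht]; positivity
  have htA : t ≤ A / (2 * K) := by
    have : 2 * t ≤ A / K := by
      rw [ht2]
      have h1 : 1 / (10 * (K : ℝ) * A) ≤ 1 / K := by
        apply one_div_le_one_div_of_le hK0
        nlinarith
      have h2 : (T : ℝ) / K + 1 / K ≤ A / K := by
        rw [← add_div]
        exact div_le_div_of_nonneg_right hT' hK0.le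
      linarith
    have e2 : (A : ℝ) / (2 * K) = A / K / 2 := by ring
    rw [e2]
    linarith
  rw [← ht]
  have h1 := arctan_le_self ht0
  have h2 := sub_cube_le_arctan ht0
  constructor
  · linarith
  · have h3 : 2 * (t ^ 3 / 3) < 1 / (10 * (K : ℝ) * A) := by
      have h4 : t ^ 3 ≤ (A / (2 * K)) ^ 3 := pow_le_pow_left₀ ht0 htA 3
      have h5 : 2 * ((A / (2 * (K : ℝ))) ^ 3 / 3) < 1 / (10 * (K : ℝ) * A) := by
        have e3 : 2 * ((A / (2 * (K : ℝ))) ^ 3 / 3) = A ^ 3 / (12 * K ^ 3) := by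
          field_simp
          ring
        rw [e3, div_lt_div_iff₀ (by positivity) (by positivity)]
        have h6 : 100 * (A : ℝ) ^ 2 ≤ K := by
          rw [hK', hM']
          nlinarith
        have h7 : (10 * (A : ℝ) ^ 2) ^ 2 < 12 * K ^ 2 * 1 := by nlinarith
        nlinarith [mul_pos hK0 hK0]
      linarith
    linarith

end LockTree
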