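import Pool.Agent.Lib.MP_14e06f_lc.Spider.NB
import Pool.Agent.Lib.MP_14e06f_lc.Spider.NC

set_option autoImplicit false

/-!
# Spiders, row ND: the criterion for the reduction
-/

namespace LockTree

open Real LockPl

private theorem nd_legs (I : List ℕ × ℕ) : redLegs I =
    (I.1.filter (fun a => decide (0 < a))).map (smallLeg (rK I)) ++ fillers (rM I) I.2 (rK I) := rfl

private theorem nd_A (I : List ℕ × ℕ) : 0 < rA I := Nat.succ_pos _

private theorem nd_T (I : List ℕ × ℕ) : I.2 < rA I := by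
  unfold rA
  omega

private theorem nd_K (I : List ℕ × ℕ) : 100 * rA I ^ 2 ≤ rK I := by
  unfold rK rM
  nlinarith

private theorem nd_le_sum : ∀ (l : List ℕ) (a : ℕ), a ∈ l → a ≤ l.sum
  | [], a, h => by simp at h
  | b :: l, a, h => by
    rw [List.sum_cons]
    rcases List.mem_cons.mp h with h | h
    · omega
    · have := nd_le_sum l a h
      omega

private theorem nd_mem (I : List ℕ × ℕ) {a : ℕ} (ha : a ∈ I.1.filter (fun a => decide (0 < a))) :
    0 < a ∧ a < rA I := by
  rw [List.mem_filter] at ha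
  have h1 := nd_le_sum I.1 a ha.1
  have h2 : 0 < a := by simpa using ha.2
  refine ⟨h2, ?_⟩
  unfold rA
  omega

private theorem nd_good (I : List ℕ × ℕ) {l : LegN} (hl : l ∈ redLegs I) : GoodLeg l := by
  rw [nd_legs, List.mem_append, List.mem_map] at hl
  rcases hl with ⟨a, ha, rfl⟩ | hl
  · exact small_good (nd_mem I ha).1 (nd_mem I ha).2 (nd_K I)
  · exact (filler_good (nd_T I) rfl rfl hl).1

private theorem nd_gap (I : List ℕ × ℕ) {l : LegN} (hl : l ∈ redLegs I) :
    1 / (5 * (rK I : ℝ) * rA I) ≤ psiN l - phiN l ∧ psiN l - phiN l < 1 / rK I := by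
  rw [nd_legs, List.mem_append, List.mem_map] at hl
  rcases hl with ⟨a, ha, rfl⟩ | hl
  · exact small_gap (nd_mem I ha).1 (nd_mem I ha).2 (nd_K I)
  · exact (filler_good (nd_T I) rfl rfl hl).2.2

theorem red_data (I : List ℕ × ℕ) : SpData (redLong I) (redLegs I) := by
  refine ⟨?_, fun l hl => ⟨nd_good I hl, ?_⟩⟩
  · rw [nd_legs]
    unfold fillers
    simp
  · obtain ⟨h1, h2, h3, h4, h5⟩ := nd_good I hl
    have h6 : l.2.2 < l.1 := by
      by_contra h
      push Not at h
      nlinarith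
    have h7 : l.1 ≤ ((redLegs I).map (fun l => l.1)).sum :=
      nd_le_sum _ _ (List.mem_map.mpr ⟨l, hl, rfl⟩)
    unfold redLong
    omega

private theorem nd_small_sum {A K : ℕ} (hK : 100 * A ^ 2 ≤ K) : ∀ S : List ℕ, (∀ a ∈ S, 0 < a ∧ a < A) →
    (S.sum : ℝ) / K - (S.sum : ℝ) ^ 3 / (12 * (K : ℝ) ^ 3) ≤ ((S.map (smallLeg K)).map phiN).sum ∧
      ((S.map (smallLeg K)).map phiN).sum ≤ (S.sum : ℝ) / K
  | [], _ => by simp
  | a :: S, h => by
    have h1 := nd_small_sum hK S (fun b hb => h b (List.mem_cons_of_mem _ hb))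
    have h2 := h a List.mem_cons_self
    have h3 := small_phi h2.1 h2.2 hK
    simp only [List.map_cons, List.sum_cons, Nat.cast_add]
    have h4 : (0 : ℝ) ≤ a := Nat.cast_nonneg _
    have h5 : (0 : ℝ) ≤ S.sum := Nat.cast_nonneg _
    have h6 : (a : ℝ) ^ 3 + (S.sum : ℝ) ^ 3 ≤ ((a : ℝ) + S.sum) ^ 3 := by
      have e1 : ((a : ℝ) + S.sum) ^ 3 = (a : ℝ) ^ 3 + (S.sum : ℝ) ^ 3 +
          3 * a * S.sum * (a + S.sum) := by ring
      rw [e1]
      have e2 : 0 ≤ 3 * (a : ℝ) * S.sum * (a + S.sum) := by positivity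
      linarith
    have h7 : (a : ℝ) ^ 3 / (12 * (K : ℝ) ^ 3) + (S.sum : ℝ) ^ 3 / (12 * (K : ℝ) ^ 3) ≤
        ((a : ℝ) + S.sum) ^ 3 / (12 * (K : ℝ) ^ 3) := by
      rw [← add_div]
      exact div_le_div_of_nonneg_right h6 (by positivity)
    constructor
    · rw [add_div]
      linarith [h3.1, h1.1]
    · rw [add_div]
      linarith [h3.2, h1.2]

private theorem nd_mono {f : LegN → ℝ} {S L : List LegN} (h : S.Sublist L) (hf : ∀ l ∈ L, 0 ≤ f l) :
    (S.map f).sum ≤ (L.map f).sum := by
  induction h with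
  | slnil => exact le_rfl
  | cons a h ih =>
    rw [List.map_cons, List.sum_cons]
    have := ih (fun l hl => hf l (List.mem_cons_of_mem _ hl))
    have := hf a List.mem_cons_self
    linarith
  | cons_cons a h ih =>
    rw [List.map_cons, List.sum_cons, List.map_cons, List.sum_cons]
    have := ih (fun l hl => hf l (List.mem_cons_of_mem _ hl))
    linarith

private theorem nd_proper {f : LegN → ℝ} {S L : List LegN} (h : S.Sublist L) (hf : ∀ l ∈ L, 2 / 5 ≤ f l) :
    S ≠ L → (S.map f).sum + 2 / 5 ≤ (L.map f).sum := by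
  induction h with
  | slnil => exact fun h => absurd rfl h
  | cons a h ih =>
    intro _
    rw [List.map_cons, List.sum_cons]
    have h1 := nd_mono (f := f) h (fun l hl => by linarith [hf l (List.mem_cons_of_mem _ hl)])
    have := hf a List.mem_cons_self
    linarith
  | cons_cons a h ih =>
    intro hne
    rw [List.map_cons, List.sum_cons, List.map_cons, List.sum_cons]
    have := ih (fun l hl => hf l (List.mem_cons_of_mem _ hl)) (fun e => hne (by rw [e]))
    linarith

private theorem nd_nat_mono {S L : List ℕ} (h : S.Sublist L) : S.sum ≤ L.sum := by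
  induction h with
  | slnil => exact le_rfl
  | cons a h ih =>
    rw [List.sum_cons]
    omega
  | cons_cons a h ih =>
    rw [List.sum_cons, List.sum_cons]
    omega

private theorem nd_filter_sum (l : List ℕ) : (l.filter (fun a => decide (0 < a))).sum = l.sum := by
  induction l with
  | nil => rfl
  | cons a l ih =>
    rcases Nat.eq_zero_or_pos a with h | h
    · subst h
      rw [List.filter_cons_of_neg (by simp), ih, List.sum_cons, zero_add]
    · rw [List.filter_cons_of_pos (by simpa using h), List.sum_cons, List.sum_cons, ih]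

/-- the error term -/
private theorem nd_err {A K s : ℝ} (hA : 1 ≤ A) (hK : 100 * A ^ 2 ≤ K) (hs : 0 ≤ s) (hsA : s ≤ A) :
    s ^ 3 / (12 * K ^ 3) ≤ 1 / (10 * K * A) := by
  have hK0 : 0 < K := by nlinarith
  have hA0 : 0 < A := by linarith
  rw [div_le_div_iff₀ (by positivity) (by positivity)]
  have h1 : s ^ 3 ≤ A ^ 3 := pow_le_pow_left₀ hs hsA 3
  have h2 : s ^ 3 * (10 * K * A) ≤ A ^ 3 * (10 * K * A) := mul_le_mul_of_nonneg_right h1 (by positivity)
  have h3 : A ^ 2 ≤ K := by nlinarith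
  have h4 : A ^ 4 ≤ K ^ 2 := by
    calc A ^ 4 = (A ^ 2) ^ 2 := by ring
      _ ≤ K ^ 2 := pow_le_pow_left₀ (by positivity) h3 2
  have h5 : A ^ 4 * (10 * K) ≤ K ^ 2 * (10 * K) := mul_le_mul_of_nonneg_right h4 (by positivity)
  have h6 : 0 < K ^ 3 := by positivity
  nlinarith

theorem red_iff (I : List ℕ × ℕ) :
    (∃ S : List LegN, S.Sublist (redLegs I) ∧ S ≠ [] ∧ (S.map phiN).sum < 2 * π ∧
        ∀ l ∈ S, 2 * π ≤ (S.map phiN).sum + (psiN l - phiN l)) ↔
      ∃ l : List ℕ, l.Sublist I.1 ∧ l.sum = I.2 := by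
  have hA0 := nd_A I
  have hT := nd_T I
  have hKn := nd_K I
  have hA1 : (1 : ℝ) ≤ rA I := by exact_mod_cast hA0
  have hKr : 100 * (rA I : ℝ) ^ 2 ≤ rK I := by exact_mod_cast hKn
  have hK0 : (0 : ℝ) < rK I := by nlinarith
  have hT0 : (0 : ℝ) ≤ I.2 := Nat.cast_nonneg _
  obtain ⟨f1, f2⟩ := filler_sum (A := rA I) (M := rM I) (T := I.2) (K := rK I) hT rfl rfl
  have e5 : 1 / (5 * (rK I : ℝ) * rA I) = 2 * (1 / (10 * (rK I : ℝ) * rA I)) := by
    have : (0 : ℝ) < rA I := by linarith
    field_simp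
    norm_num
  have e10 : 1 / (10 * (rK I : ℝ) * rA I) ≤ 1 / (10 * rK I) := by
    apply one_div_le_one_div_of_le (by positivity)
    nlinarith
  have e11 : 1 / (10 * (rK I : ℝ)) = (1 / rK I) / 10 := by
    field_simp
  have e12 : 0 < 1 / (rK I : ℝ) := by positivity
  constructor
  · rintro ⟨S, hS, hne, h1, h2⟩
    rw [nd_legs, List.sublist_append_iff] at hS
    obtain ⟨S1, S2, rfl, hS1, hS2⟩ := hS
    rw [List.sublist_map_iff] at hS1
    obtain ⟨R, hR, rfl⟩ := hS1
    have hRm : ∀ a ∈ R, 0 < a ∧ a < rA I := fun a ha => nd_mem I (hR.subset ha)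
    obtain ⟨g1, g2⟩ := nd_small_sum hKn R hRm
    have hRI : R.Sublist I.1 := hR.trans List.filter_sublist
    have hRs : R.sum ≤ I.1.sum := nd_nat_mono hRI
    have hRA : R.sum < rA I := by
      unfold rA
      omega
    have hRAr : (R.sum : ℝ) ≤ rA I := by exact_mod_cast hRA.le
    have hR0 : (0 : ℝ) ≤ R.sum := Nat.cast_nonneg _
    have hsub : (R.map (smallLeg (rK I)) ++ S2).Sublist (redLegs I) := by
      rw [nd_legs]
      exact (hR.map _).append hS2
    obtain ⟨l, hl⟩ := List.exists_mem_of_ne_nil _ hne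
    have h3 := h2 l hl
    have h4 := nd_gap I (hsub.subset hl)
    rw [List.map_append, List.sum_append] at h1 h3
    have h5 : S2 = fillers (rM I) I.2 (rK I) := by
      by_contra hne2
      have h6 := nd_proper (f := phiN) hS2 (fun l hl => (filler_good hT rfl rfl hl).2.1) hne2
      have h7 : ((R.sum : ℝ) + 1) / rK I < 2 / 5 := by
        rw [div_lt_iff₀ hK0]
        nlinarith
      have h8 : ((R.sum : ℝ) + 1) / rK I = (R.sum : ℝ) / rK I + 1 / rK I := add_div _ _ _
      have h9 : 0 ≤ (I.2 : ℝ) / rK I := by positivity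
      linarith
    subst h5
    refine ⟨R, hRI, ?_⟩
    rcases lt_trichotomy R.sum I.2 with h6 | h6 | h6
    · exfalso
      have h7 : (R.sum : ℝ) + 1 ≤ I.2 := by exact_mod_cast h6
      have h8 : ((R.sum : ℝ) + 1) / rK I ≤ (I.2 : ℝ) / rK I := div_le_div_of_nonneg_right h7 hK0.le
      rw [add_div] at h8
      linarith
    · exact h6
    · exfalso
      have h7 : (I.2 : ℝ) + 1 ≤ R.sum := by exact_mod_cast h6
      have h8 : ((I.2 : ℝ) + 1) / rK I ≤ (R.sum : ℝ) / rK I := div_le_div_of_nonneg_right h7 hK0.le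
      rw [add_div] at h8
      have h9 := nd_err hA1 hKr hR0 hRAr
      linarith
  · rintro ⟨l, hl, hs⟩
    set R := l.filter (fun a => decide (0 < a)) with hRdef
    have hR : R.Sublist (I.1.filter (fun a => decide (0 < a))) := hl.filter _
    have hRm : ∀ a ∈ R, 0 < a ∧ a < rA I := fun a ha => nd_mem I (hR.subset ha)
    obtain ⟨g1, g2⟩ := nd_small_sum hKn R hRm
    have hRs : R.sum = I.2 := by rw [hRdef, nd_filter_sum, hs]
    rw [hRs] at g1 g2
    have hsub : (R.map (smallLeg (rK I)) ++ fillers (rM I) I.2 (rK I)).Sublist (redLegs I) := by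
      rw [nd_legs]
      exact (hR.map _).append (List.Sublist.refl _)
    refine ⟨R.map (smallLeg (rK I)) ++ fillers (rM I) I.2 (rK I), hsub, ?_, ?_, fun l hl => ?_⟩
    · unfold fillers
      simp
    · rw [List.map_append, List.sum_append]
      linarith
    · rw [List.map_append, List.sum_append]
      have h4 := nd_gap I (hsub.subset hl)
      have hTA : (I.2 : ℝ) ≤ rA I := by exact_mod_cast hT.le
      have h9 := nd_err hA1 hKr hT0 hTA
      linarith

end LockTree
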