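import Pool.Agent.Lib.MP_14e06f_lc.Spider.Geo
import Pool.Agent.Lib.MP_14e06f_lc.Plane.Code
import Pool.Agent.Lib.PolyTime.BinNat

set_option autoImplicit false

/-!
# The spider of an instance of `SUBSET SUM` is computed in polynomial time
-/

namespace LockTree

open LockPl Pool.Agent.Lib.MP_0f8b55_lc Pool.Agent.Lib.PolyTime

namespace PtRow

variable {α : Type} [Enc α]

/-! ### digits and binary numbers -/

/-- the number with given digits (least significant first) -/
def ofD (l : List ℕ) : BN := ⟨msb ((l.map (fun d => !(decide (d = 0)))).reverse)⟩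

/-- the digits of a binary number -/
def toD (x : BN) : List ℕ := x.val.bits.map (fun b => if b = true then 1 else 0)

theorem ofD_digits (n : ℕ) : ofD (Nat.digits 2 n) = ⟨n⟩ := by
  have h : (Nat.digits 2 n).map (fun d => !(decide (d = 0))) = n.bits := by
    rw [Nat.digits_two_eq_bits, List.map_map]
    have : ((fun d : ℕ => !(decide (d = 0))) ∘ fun b => cond b 1 0) = (fun b : Bool => b) := by
      funext b
      cases b <;> rfl
    rw [this, List.map_id']
  rw [ofD, h, msb_bits]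

theorem toD_eq (x : BN) : toD x = Nat.digits 2 x.val := by
  rw [Nat.digits_two_eq_bits, toD]
  congr 1
  funext b
  cases b <;> rfl

theorem pt_ofD {f : α → List ℕ} (hf : PT f) : PT (fun a => ofD (f a)) :=
  PT.ofMSB (PT.reverse (PT.map (f := f) (g := fun _ d => !(decide (d = 0))) hf
    (PT.not (PT.eq PT.snd (PT.const 0)))))

theorem pt_toD {f : α → BN} (hf : PT f) : PT (fun a => toD (f a)) :=
  PT.map (f := fun a => (f a).val.bits) (g := fun _ b => if b = true then 1 else 0) hf.bits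
    (PT.cond (c := fun x : α × Bool => x.2) PT.snd (PT.const 1) (PT.const 0))

/-! ### legs -/

/-- the binary numbers of a leg -/
def ofLeg (l : LegN) : BN × (BN × BN) := (⟨l.1⟩, (⟨l.2.1⟩, ⟨l.2.2⟩))

theorem pt_ratLeg {s c h M : α → BN} (hs : PT s) (hc : PT c) (hh : PT h) (hM : PT M) :
    PT (fun a => ofLeg (ratLeg (s a).val (c a).val (h a).val (M a).val)) := by
  have h2M : PT (fun a => (⟨2 * (M a).val⟩ : BN)) := PT.bnMul (PT.bnConst 2) hM
  have hM1 : PT (fun a => (⟨(M a).val + 1⟩ : BN)) := PT.bnSucc hM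
  have hD : PT (fun a => (⟨2 * (M a).val * ((M a).val + 1)⟩ : BN)) := PT.bnMul h2M hM1
  have hE : PT (fun a => (⟨2 * (M a).val ^ 2 + 2 * (M a).val + 1⟩ : BN)) :=
    (PT.bnSucc (PT.bnAdd (PT.bnMul h2M hM) h2M)).congr (fun a => BN.ext' (by
      simp only
      ring))
  have hF : PT (fun a => (⟨2 * (M a).val + 1⟩ : BN)) := PT.bnSucc h2M
  exact (PT.bnMul hh hD).pair ((PT.bnMul hs hE).pair
    (PT.bnSub (PT.bnMul hc hD) (PT.bnMul hs hF)))

theorem pt_sq {f : α → BN} (hf : PT f) : PT (fun a => (⟨(f a).val ^ 2⟩ : BN)) :=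
  (PT.bnMul hf hf).congr (fun a => BN.ext' (by simp only; ring))

theorem pt_smallLeg {K a : α → BN} (hK : PT K) (ha : PT a) :
    PT (fun x => ofLeg (smallLeg (K x).val (a x).val)) := by
  have h4 : PT (fun x => (⟨4 * (K x).val⟩ : BN)) := PT.bnMul (PT.bnConst 4) hK
  have hs : PT (fun x => (⟨4 * (K x).val * (a x).val⟩ : BN)) := PT.bnMul h4 ha
  have hq : PT (fun x => (⟨4 * (K x).val ^ 2⟩ : BN)) := PT.bnMul (PT.bnConst 4) (pt_sq hK)
  have hc : PT (fun x => (⟨4 * (K x).val ^ 2 - (a x).val ^ 2⟩ : BN)) := PT.bnSub hq (pt_sq ha)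
  have hh : PT (fun x => (⟨4 * (K x).val ^ 2 + (a x).val ^ 2⟩ : BN)) := PT.bnAdd hq (pt_sq ha)
  exact pt_ratLeg hs hc hh ha

theorem pt_lastLeg {p r M : α → BN} (hp : PT p) (hr : PT r) (hM : PT M) :
    PT (fun x => ofLeg (lastLeg (p x).val (r x).val (M x).val)) := by
  have hd : PT (fun x => (⟨(r x).val ^ 2 - (p x).val ^ 2⟩ : BN)) := PT.bnSub (pt_sq hr) (pt_sq hp)
  have ha : PT (fun x => (⟨(r x).val ^ 2 + (p x).val ^ 2⟩ : BN)) := PT.bnAdd (pt_sq hr) (pt_sq hp)
  have hpr : PT (fun x => (⟨(p x).val * (r x).val⟩ : BN)) := PT.bnMul hp hr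
  have hs : PT (fun x => (⟨161 * ((r x).val ^ 2 - (p x).val ^ 2) -
      480 * ((p x).val * (r x).val)⟩ : BN)) :=
    PT.bnSub (PT.bnMul (PT.bnConst 161) hd) (PT.bnMul (PT.bnConst 480) hpr)
  have hc : PT (fun x => (⟨240 * ((r x).val ^ 2 - (p x).val ^ 2) +
      322 * ((p x).val * (r x).val)⟩ : BN)) :=
    PT.bnAdd (PT.bnMul (PT.bnConst 240) hd) (PT.bnMul (PT.bnConst 322) hpr)
  have hh : PT (fun x => (⟨289 * ((r x).val ^ 2 + (p x).val ^ 2)⟩ : BN)) :=
    PT.bnMul (PT.bnConst 289) ha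
  exact pt_ratLeg hs hc hh hM

/-! ### the legs of the reduction -/

/-- the instance with given binary numbers -/
def unB (I : List BN × BN) : List ℕ × ℕ := (I.1.map BN.val, I.2.val)

theorem pt_rA {I : α → List BN × BN} (hI : PT I) : PT (fun x => (⟨rA (unB (I x))⟩ : BN)) :=
  PT.bnSucc (PT.bnAdd (PT.bnSum (f := fun x => (I x).1) (g := fun _ b => b) hI.fst' PT.snd)
    hI.snd')

theorem pt_rM {I : α → List BN × BN} (hI : PT I) : PT (fun x => (⟨rM (unB (I x))⟩ : BN)) :=
  PT.bnMul (PT.bnConst 10) (pt_rA hI)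

theorem pt_rK {I : α → List BN × BN} (hI : PT I) : PT (fun x => (⟨rK (unB (I x))⟩ : BN)) :=
  PT.bnMul (pt_rM hI) (PT.bnSucc (pt_rM hI))

theorem pt_redLegs {I : α → List BN × BN} (hI : PT I) :
    PT (fun x => (redLegs (unB (I x))).map ofLeg) := by
  have h1 : PT (fun x => ((I x).1.filter (fun b => decide (0 < b.val))).map
      (fun b => ofLeg (smallLeg (rK (unB (I x))) b.val))) :=
    PT.map (f := fun x => (I x).1.filter (fun b => decide (0 < b.val)))
      (g := fun x b => ofLeg (smallLeg (rK (unB (I x))) b.val))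
      (PT.filter (f := fun x => (I x).1) (p := fun _ b => decide (0 < b.val)) hI.fst'
        (PT.bnLt (PT.bnConst 0) PT.snd))
      (pt_smallLeg (K := fun y : α × BN => ⟨rK (unB (I y.1))⟩) (a := fun y : α × BN => y.2)
        ((pt_rK hI).comp PT.fst) PT.snd)
  have h2 : PT (fun x => ofLeg (ratLeg 8 15 17 (rM (unB (I x))))) :=
    pt_ratLeg (PT.bnConst 8) (PT.bnConst 15) (PT.bnConst 17) (pt_rM hI)
  have h3 : PT (fun x => ofLeg (ratLeg 161 240 289 (rM (unB (I x))))) :=
    pt_ratLeg (PT.bnConst 161) (PT.bnConst 240) (PT.bnConst 289) (pt_rM hI)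
  have h4 : PT (fun x => ofLeg (lastLeg ((unB (I x)).2 * rM (unB (I x)) + 1)
      (2 * rK (unB (I x)) * rM (unB (I x))) (rM (unB (I x))))) :=
    pt_lastLeg (PT.bnSucc (PT.bnMul hI.snd' (pt_rM hI)))
      (PT.bnMul (PT.bnMul (PT.bnConst 2) (pt_rK hI)) (pt_rM hI)) (pt_rM hI)
  have h5 : PT (fun x => (List.range 8).map (fun _ =>
      ofLeg (ratLeg 8 15 17 (rM (unB (I x)))))) :=
    PT.mapConst (List.range 8) (f := fun _ x => ofLeg (ratLeg 8 15 17 (rM (unB (I x)))))
      (fun _ _ => h2)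
  have h6 : PT (fun x => (List.range 3).map (fun _ =>
      ofLeg (ratLeg 161 240 289 (rM (unB (I x)))))) :=
    PT.mapConst (List.range 3) (f := fun _ x => ofLeg (ratLeg 161 240 289 (rM (unB (I x)))))
      (fun _ _ => h3)
  refine (h1.append (h5.append (h6.append (PT.list1 h4)))).congr (fun x => ?_)
  rw [redLegs, List.map_append, List.map_append, List.map_append, List.map_replicate,
    List.map_replicate]
  congr 1
  · have e : (unB (I x)).1 = (I x).1.map BN.val := rfl
    rw [e, List.filter_map, List.map_map, List.map_map]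
    rfl

theorem pt_redLong {I : α → List BN × BN} (hI : PT I) :
    PT (fun x => (⟨redLong (unB (I x))⟩ : BN)) := by
  have h := PT.bnSucc (PT.bnMul (PT.bnConst 3) (PT.bnSum
    (f := fun x => (redLegs (unB (I x))).map ofLeg) (g := fun _ l => l.1) (pt_redLegs hI)
    PT.snd.fst'))
  refine h.congr (fun x => BN.ext' ?_)
  simp only [redLong, List.map_map]
  rfl

/-! ### the list of bars -/

/-- the bars of a leg, with digits -/
def barsL (A : BN) (i : ℕ) (l : BN × (BN × BN)) : List ((ℕ × ℕ) × (List ℕ × List ℕ)) :=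
  [((0, 4 * i + 1), (toD A, [1])), ((0, 4 * i + 2), (toD l.1, [1])),
    ((4 * i + 2, 4 * i + 3), (toD l.2.1, [1])), ((4 * i + 3, 4 * i + 4), (toD l.2.2, [1]))]

/-- the bars of the spider, with digits -/
def barsS (A : BN) (Ls : List (BN × (BN × BN))) : List ((ℕ × ℕ) × (List ℕ × List ℕ)) :=
  (List.range Ls.length).flatMap (fun i => match Ls[i]? with
    | none => []
    | some l => barsL A i l)

theorem pt_barsL {A : α → BN} {i : α → ℕ} {l : α → BN × (BN × BN)} (hA : PT A) (hi : PT i)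
    (hl : PT l) : PT (fun x => barsL (A x) (i x) (l x)) := by
  have h4 : PT (fun x => 4 * i x) := PT.mulConst hi 4
  have h0 : PT (fun _ : α => 0) := PT.const 0
  have h1 : PT (fun _ : α => [1]) := PT.const [1]
  exact PT.cons ((h0.pair (h4.addConst 1)).pair ((pt_toD hA).pair h1))
    (PT.cons ((h0.pair (h4.addConst 2)).pair ((pt_toD hl.fst').pair h1))
    (PT.cons (((h4.addConst 2).pair (h4.addConst 3)).pair ((pt_toD hl.snd'.fst').pair h1))
    (PT.list1 (((h4.addConst 3).pair (h4.addConst 4)).pair ((pt_toD hl.snd'.snd').pair h1)))))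

theorem pt_barsS {A : α → BN} {Ls : α → List (BN × (BN × BN))} (hA : PT A) (hL : PT Ls) :
    PT (fun x => barsS (A x) (Ls x)) := by
  refine PT.flatMap (f := fun x => List.range (Ls x).length) (g := fun x i =>
    match (Ls x)[i]? with
      | none => ([] : List ((ℕ × ℕ) × (List ℕ × List ℕ)))
      | some l => barsL (A x) i l) (PT.range (PT.length hL)) ?_
  have h := PT.optCases (f := fun y : α × ℕ => (Ls y.1)[y.2]?)
    (g := fun _ => ([] : List ((ℕ × ℕ) × (List ℕ × List ℕ))))
    (h := fun y l => barsL (A y.1) y.2 l) (PT.getElem? PT.snd (hL.comp PT.fst)) (PT.const _)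
    (pt_barsL (A := fun z : (α × ℕ) × (BN × (BN × BN)) => A z.1.1) (i := fun z => z.1.2)
      (l := fun z => z.2) (hA.comp PT.fst.fst') PT.fst.snd' PT.snd)
  refine h.congr (fun y => ?_)
  rcases (Ls y.1)[y.2]? with _ | l <;> rfl

theorem barsS_eq (A : ℕ) (Ls : List LegN) : barsS ⟨A⟩ (Ls.map ofLeg) =
    (spCode A Ls).map (fun b => (b.1, (Nat.digits 2 b.2.1, Nat.digits 2 b.2.2))) := by
  rw [barsS, spCode, List.map_flatMap, List.length_map]
  refine List.flatMap_congr (fun i hi => ?_)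
  have hi' : i < Ls.length := List.mem_range.1 hi
  have h1 : (Ls.map ofLeg)[i]? = some (ofLeg Ls[i]) := by
    rw [List.getElem?_map, List.getElem?_eq_getElem hi']
    rfl
  have h2 : Ls.getD i (0, (0, 0)) = Ls[i] := by
    rw [List.getD_eq_getElem _ _ hi']
  rw [h1, h2]
  have h3 : Nat.digits 2 1 = [1] := by norm_num
  simp only [barsL, legBars, List.map_cons, List.map_nil, toD_eq, ofLeg, h3]

/-! ### the theorem -/

theorem code_bins (l : List ℕ) : codeList codeBin l = code (l.map (Nat.digits 2)) := by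
  induction l with
  | nil => rfl
  | cons a l ih =>
    rw [List.map_cons, codeList, ih, codeBin_eq]
    rfl

theorem code_inst (I : List ℕ × ℕ) : SUBSETSUM.enc I =
    code ((I.1.map (Nat.digits 2), Nat.digits 2 I.2) : List (List ℕ) × List ℕ) := by
  have h : SUBSETSUM.enc I = true :: (codeList codeBin I.1 ++ codeBin I.2) := rfl
  rw [h, code_bins, codeBin_eq]
  rfl

/-- the computed function -/
def redD (x : List (List ℕ) × List ℕ) : List ((ℕ × ℕ) × (List ℕ × List ℕ)) :=
  barsS ⟨redLong (unB (x.1.map ofD, ofD x.2))⟩ ((redLegs (unB (x.1.map ofD, ofD x.2))).map ofLeg)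

theorem pt_redD : PT redD := by
  have h : PT (fun x : List (List ℕ) × List ℕ => ((x.1.map ofD, ofD x.2) : List BN × BN)) :=
    (PT.map (f := fun x : List (List ℕ) × List ℕ => x.1) (g := fun _ l => ofD l) PT.fst
      (pt_ofD PT.snd)).pair (pt_ofD PT.snd)
  exact pt_barsS (pt_redLong h) (pt_redLegs h)

theorem redD_eq (I : List ℕ × ℕ) : redD (I.1.map (Nat.digits 2), Nat.digits 2 I.2) =
    (spCode (redLong I) (redLegs I)).map
      (fun b => (b.1, (Nat.digits 2 b.2.1, Nat.digits 2 b.2.2))) := by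
  have h : unB ((I.1.map (Nat.digits 2)).map ofD, ofD (Nat.digits 2 I.2)) = I := by
    have h1 : ((I.1.map (Nat.digits 2)).map ofD).map BN.val = I.1 := by
      rw [List.map_map, List.map_map]
      have h2 : ((BN.val ∘ ofD) ∘ Nat.digits 2) = (fun n : ℕ => n) := by
        funext n
        show (ofD (Nat.digits 2 n)).val = n
        rw [ofD_digits]
      rw [h2, List.map_id']
    rw [unB, ofD_digits, h1]
  rw [redD, h, barsS_eq]

end PtRow

open PtRow in
theorem pt_red : Nonempty (Turing.TM2ComputableInPolyTime SUBSETSUM.enc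
    (codeList (codePair (codePair codeNat codeNat) (codePair codeBin codeBin)))
    (fun I : List ℕ × ℕ => spCode (redLong I) (redLegs I))) := by
  obtain ⟨K, _, _, P, k₀, T, h⟩ := pt_redD
  refine computable_of_run _ _ _ P k₀ T (fun I => ?_)
  obtain ⟨t, h1, h2⟩ := h (I.1.map (Nat.digits 2), Nat.digits 2 I.2)
  refine ⟨t, ?_, ?_⟩
  · rw [code_inst]
    exact h1
  · rw [code_inst, code_bars, ← redD_eq]
    exact h2

end LockTree
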