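import Pool.Agent.Lib.MP_14e06f_lc.Spider.Crit
import Pool.Agent.Lib.MP_14e06f_lc.Spider.Br
import Pool.Agent.Lib.MP_14e06f_lc.Spider.Lst
import Pool.Agent.Lib.MP_14e06f_lc.Spider.ND
import Pool.Agent.Lib.MP_14e06f_lc.Spider.Pt

set_option autoImplicit false

/-!
# Deciding whether a plane tree linkage is locked is NP-hard
-/

namespace LockTree

open Real LockPl Pool.Agent.Lib.MP_0f8b55_lc

/-- The criterion for spiders. -/
theorem spider_criterion {A : ℕ} {Ls : List LegN} (hc : (spCode A Ls).Valid) (hd : SpData A Ls) :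
    LockedTree (spCode A Ls) hc ↔
      ∃ S : List LegN, S.Sublist Ls ∧ S ≠ [] ∧ (S.map phiN).sum < 2 * π ∧
        ∀ l ∈ S, 2 * π ≤ (S.map phiN).sum + (psiN l - phiN l) := by
  have hN : 0 < Ls.length := List.length_pos_iff.2 hd.1
  have hA : ∀ i : Fin Ls.length,
      (legOf (Ls.get i) (hd.2 _ (Ls.get_mem i)).1).x +
      (legOf (Ls.get i) (hd.2 _ (Ls.get_mem i)).1).y +
      (legOf (Ls.get i) (hd.2 _ (Ls.get_mem i)).1).u < (A : ℝ) := by
    intro i
    have := (hd.2 _ (Ls.get_mem i)).2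
    show ((Ls.get i).1 : ℝ) + ((Ls.get i).2.1 : ℝ) + ((Ls.get i).2.2 : ℝ) < (A : ℝ)
    exact_mod_cast this
  have h := spCode_locked hd
  rw [crit hN _ hA, stuck_iff (fun l hl => (hd.2 l hl).1)] at h
  exact h

/-- The reduction. -/
theorem main : ∃ f : SUBSETSUM.Inst → TREELOCKED.Inst,
    Nonempty (Turing.TM2ComputableInPolyTime SUBSETSUM.enc TREELOCKED.enc f) ∧
    ∀ I, (SUBSETSUM.Yes I ↔ TREELOCKED.Yes (f I)) ∧
      ∃ A Ls, SpData A Ls ∧ (f I).1 = spCode A Ls := by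
  refine ⟨fun I => ⟨spCode (redLong I) (redLegs I), spCode_valid (red_data I),
    spCode_tree (red_data I)⟩, ?_, fun I => ⟨?_, _, _, red_data I, rfl⟩⟩
  · obtain ⟨hf⟩ := pt_red
    exact ⟨{ hf with outputsFun := hf.outputsFun }⟩
  · have h1 := spider_criterion (spCode_valid (red_data I)) (red_data I)
    exact (h1.trans (red_iff I)).symm

end LockTree
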