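import Mathlib.Analysis.SpecialFunctions.Complex.Arg
import Mathlib.Analysis.SpecialFunctions.Complex.Circle
import Mathlib.Analysis.SpecialFunctions.Trigonometric.Inverse
import Mathlib.Analysis.Convex.Segment
import Mathlib.Topology.Connected.PathConnected
import Mathlib.Tactic

set_option autoImplicit false

/-!
# A leg of three bars

The leg `O, P, Q, U` with `O = 0` and `P = x` has the bars `OP`, `PQ`, `QU` of lengths `x, y, u`;
its shape is a pair `s = (a, b)` of turning angles.
-/

namespace LockTree

open Real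

/-- The lengths of the three bars of a leg. -/
structure Leg where
  /-- the length of the bar at the centre -/
  x : ℝ
  /-- the length of the second bar -/
  y : ℝ
  /-- the length of the last bar -/
  u : ℝ
  x_pos : 0 < x
  y_pos : 0 < y
  y_lt : y < u
  sq_lt : u ^ 2 + y ^ 2 < x ^ 2
  x_lt : x < y + u

namespace Leg

variable (L : Leg)

theorem u_pos : 0 < L.u := L.y_pos.trans L.y_lt

theorem u_lt_x : L.u < L.x := by nlinarith [L.sq_lt, L.u_pos, L.x_pos, L.y_pos]

theorem y_lt_x : L.y < L.x := L.y_lt.trans L.u_lt_x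

/-- the joint between the second and the third bar (for `O = 0`, `P = x`) -/
noncomputable def Q (a : ℝ) : ℂ := L.x + L.y * Complex.exp (a * Complex.I)

/-- the free end -/
noncomputable def U (s : ℝ × ℝ) : ℂ := L.Q s.1 + L.u * Complex.exp (((s.1 + s.2 : ℝ) : ℂ) * Complex.I)

/-- the direction of `Q` -/
noncomputable def th (a : ℝ) : ℝ := (L.Q a).arg

/-- the angle from `Q` to `U`, seen from `O` -/
noncomputable def ta (s : ℝ × ℝ) : ℝ := (L.U s / L.Q s.1).arg

/-- the lower end of the angular interval swept by the leg (the direction of `P` is `0`) -/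
noncomputable def lo (s : ℝ × ℝ) : ℝ := min 0 (min (L.th s.1) (L.th s.1 + L.ta s))

/-- the upper end of the angular interval swept by the leg -/
noncomputable def hi (s : ℝ × ℝ) : ℝ := max 0 (max (L.th s.1) (L.th s.1 + L.ta s))

/-- the width of the leg -/
noncomputable def wd (s : ℝ × ℝ) : ℝ := L.hi s - L.lo s

/-- the leg has no crossing -/
def Ok (s : ℝ × ℝ) : Prop :=
  |s.1| < π ∧ |s.2| < π ∧ ∀ z ∈ segment ℝ (0 : ℂ) (L.x : ℂ), z ∉ segment ℝ (L.Q s.1) (L.U s)

/-- the leg is hooked: `Q` is in the open disk with diameter `OP` and `U` in the open disk with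
diameter `OQ` -/
def Hk (s : ℝ × ℝ) : Prop :=
  ‖L.Q s.1‖ ^ 2 < L.x * (L.Q s.1).re ∧
    ‖L.U s‖ ^ 2 < (L.U s * (starRingEnd ℂ) (L.Q s.1)).re

/-- the infimum of the width of a hooked leg -/
noncomputable def phi : ℝ := arccos ((L.x ^ 2 + L.u ^ 2 - L.y ^ 2) / (2 * L.x * L.u))

/-- the width that a hooked leg needs to open -/
noncomputable def psi : ℝ := arcsin (L.y / L.x)

/-- the direction of the third bar relative to the direction `OQ` -/
noncomputable def dl (s : ℝ × ℝ) : ℝ := s.1 + s.2 - L.th s.1

/-- the shapes without crossing and of width at most `w` -/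
def Lv (w : ℝ) : Set (ℝ × ℝ) := {s | L.Ok s ∧ L.wd s ≤ w}

/-- the shape with turning angle `a` and the third bar pointing away from `O` -/
noncomputable def E (a : ℝ) : ℝ × ℝ := (a, L.th a - a)

/-- the shape with turning angle `a` and the third bar pointing towards `O` -/
noncomputable def I (a : ℝ) : ℝ × ℝ := (a, π + L.th a - a)

end Leg

end LockTree
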