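import Pool.Agent.Lib.MP_14e06f_lc.Spider.LC
import Pool.Agent.Lib.MP_14e06f_lc.Spider.OK
import Pool.Agent.Lib.MP_14e06f_lc.Spider.MA
import Mathlib.Analysis.Convex.PathConnected

set_option autoImplicit false

/-!
# Turning the third bar of a leg

Paths of shapes `(a, b)` with `a` fixed.
-/

namespace LockTree

open Real

/-- a path on which only the last angle changes -/
private theorem joined_turn {F : Set (ℝ × ℝ)} {a b b' : ℝ}
    (h : ∀ c, min b b' ≤ c → c ≤ max b b' → (a, c) ∈ F) : JoinedIn F (a, b) (a, b') := by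
  apply JoinedIn.of_segment_subset
  rintro z ⟨p, q, hp, hq, hpq, rfl⟩
  have e : p • ((a, b) : ℝ × ℝ) + q • ((a, b') : ℝ × ℝ) = (a, p * b + q * b') := by
    ext
    · simp only [Prod.smul_mk, smul_eq_mul, Prod.mk_add_mk]
      rw [← add_mul, hpq, one_mul]
    · simp only [Prod.smul_mk, smul_eq_mul, Prod.mk_add_mk]
  rw [e]
  have e1 : p = 1 - q := by linarith
  subst e1
  apply h
  · rcases le_total b b' with hb | hb
    · rw [min_eq_left hb]; nlinarith
    · rw [min_eq_right hb]; nlinarith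
  · rcases le_total b b' with hb | hb
    · rw [max_eq_right hb]; nlinarith
    · rw [max_eq_left hb]; nlinarith

section P1
variable (L : Leg)

private theorem dl_mk (a b : ℝ) : L.dl (a, b) = a + b - L.th a := rfl

private theorem th_le_self {a : ℝ} (h0 : 0 ≤ a) (h1 : a < π) : L.th a ≤ a := by
  rcases h0.eq_or_lt with rfl | h
  · rw [L.th_zero]
  · exact (L.th_lt h h1).2.le

/-- turn outward: `dl → 0`; the width decreases -/
theorem Leg.rot_out {s : ℝ × ℝ} (h : L.Ok s) (ha : 0 ≤ s.1)
    (h1 : 0 ≤ L.u + ‖L.Q s.1‖ * cos (L.dl s)) : JoinedIn (L.Lv (L.wd s)) s (L.E s.1) := by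
  obtain ⟨a, b⟩ := s
  have ha' : a < π := (abs_lt.mp h.1).2
  have hb : -π < b := (abs_lt.mp h.2.1).1
  have hq := L.norm_Q_pos a
  have hth := th_le_self L ha ha'
  simp only at ha h1 hth
  have hd : L.dl (a, b) < π := by
    by_contra hc
    exact absurd (L.ok_over ha h (not_lt.mp hc)).2.2.1 (not_lt.mpr h1)
  change JoinedIn _ (a, b) (a, L.th a - a)
  apply joined_turn
  intro c hc1 hc2
  have hdl := dl_mk L a b
  have hdc := dl_mk L a c
  rcases le_total 0 (L.dl (a, b)) with h0 | h0
  · -- on the left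
    have e1 : L.th a - a ≤ b := by linarith
    rw [min_eq_right e1] at hc1
    rw [max_eq_left e1] at hc2
    have k0 : 0 ≤ L.dl (a, c) := by linarith
    have k1 : L.dl (a, c) ≤ L.dl (a, b) := by linarith
    refine ⟨L.ok_left ha ha' k0 (k1.trans_lt hd), ?_⟩
    rw [L.wd_left ha ha' k0 (k1.trans_lt hd), L.wd_left ha ha' h0 hd]
    have := arg_mono hq L.u_pos k0 k1 hd h1
    simp only at this ⊢
    linarith
  · -- on the right
    have e1 : b ≤ L.th a - a := by linarith
    rw [min_eq_left e1] at hc1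
    rw [max_eq_right e1] at hc2
    have k0 : L.dl (a, c) ≤ 0 := by linarith
    have k1 : L.dl (a, b) ≤ L.dl (a, c) := by linarith
    have hbc : -π < c := hb.trans_le hc1
    refine ⟨L.ok_right ha ha' hbc k0, ?_⟩
    rw [L.wd_right ha ha' hbc k0, L.wd_right ha ha' hb h0]
    have h1' : 0 ≤ L.u + ‖L.Q a‖ * cos (-L.dl (a, b)) := by rw [cos_neg]; exact h1
    have := arg_mono hq L.u_pos (neg_nonneg.mpr k0) (neg_le_neg k1) (by linarith) h1'
    exact max_le_max le_rfl this

/-- turn outward without control of the width -/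
theorem Leg.rot_any {s : ℝ × ℝ} (h : L.Ok s) (ha : 0 ≤ s.1) :
    JoinedIn {t | L.Ok t} s (L.E s.1) := by
  obtain ⟨a, b⟩ := s
  have ha' : a < π := (abs_lt.mp h.1).2
  have hb : -π < b := (abs_lt.mp h.2.1).1
  simp only at ha
  change JoinedIn _ (a, b) (a, L.th a - a)
  apply joined_turn
  intro c hc1 hc2
  have hdl := dl_mk L a b
  have hdc := dl_mk L a c
  rcases le_total 0 (L.dl (a, b)) with h0 | h0
  · have e1 : L.th a - a ≤ b := by linarith
    rw [min_eq_right e1] at hc1
    rw [max_eq_left e1] at hc2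
    have k0 : 0 ≤ L.dl (a, c) := by linarith
    rcases lt_or_ge (L.dl (a, c)) π with k | k
    · exact L.ok_left ha ha' k0 k
    · have hd : π ≤ L.dl (a, b) := by linarith
      exact ((L.ok_over ha h hd).2.2.2.2 c k hc2).1
  · have e1 : b ≤ L.th a - a := by linarith
    rw [min_eq_left e1] at hc1
    rw [max_eq_right e1] at hc2
    exact L.ok_right ha ha' (hb.trans_le hc1) (by linarith)

/-- turn inward on the left: `dl → π` -/
theorem Leg.rot_in {s : ℝ × ℝ} (h : L.Ok s) (ha : 0 < s.1) (h0 : 0 < L.dl s)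
    (h1 : L.u + ‖L.Q s.1‖ * cos (L.dl s) < 0) :
    L.u < ‖L.Q s.1‖ ∧ JoinedIn (L.Lv (L.wd s)) s (L.I s.1) := by
  obtain ⟨a, b⟩ := s
  have ha' : a < π := (abs_lt.mp h.1).2
  have hq := L.norm_Q_pos a
  simp only at ha h1 hq
  have huq : L.u < ‖L.Q a‖ := by
    have := neg_one_le_cos (L.dl (a, b))
    nlinarith
  refine ⟨huq, ?_⟩
  change JoinedIn _ (a, b) (a, π + L.th a - a)
  apply joined_turn
  intro c hc1 hc2
  have hdl := dl_mk L a b
  have hdc := dl_mk L a c
  rcases lt_or_ge (L.dl (a, b)) π with hd | hd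
  · have e1 : b ≤ π + L.th a - a := by linarith
    rw [min_eq_left e1] at hc1
    rw [max_eq_right e1] at hc2
    have k1 : L.dl (a, b) ≤ L.dl (a, c) := by linarith
    have k2 : L.dl (a, c) ≤ π := by linarith
    have k0 : 0 ≤ L.dl (a, c) := by linarith
    rcases k2.lt_or_eq with k | k
    · refine ⟨L.ok_left ha.le ha' k0 k, ?_⟩
      rw [L.wd_left ha.le ha' k0 k, L.wd_left ha.le ha' h0.le hd]
      have := arg_anti hq L.u_pos huq h0.le k1 k2 h1.le
      simp only at this ⊢
      linarith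
    · have e2 : ((a, c) : ℝ × ℝ) = L.I a := by
        change ((a, c) : ℝ × ℝ) = (a, π + L.th a - a)
        congr 1
        linarith
      rw [e2]
      refine ⟨L.ok_I ha ha' huq, ?_⟩
      rw [L.wd_I ha ha' huq, L.wd_left ha.le ha' h0.le hd]
      have := (arg_nonneg hq L.u_pos h0.le hd).1
      simp only at this ⊢
      linarith
  · have e1 : π + L.th a - a ≤ b := by linarith
    rw [min_eq_right e1] at hc1
    rw [max_eq_left e1] at hc2
    have ho := L.ok_over ha.le h hd
    have hc := ho.2.2.2.2 c (by simp only; linarith) hc2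
    exact ⟨hc.1, by rw [hc.2, ho.2.2.2.1]⟩

end P1

end LockTree
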